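import Mathlib
import Pool.Agent.H71R3.FreeCase

set_option autoImplicit false

namespace Pool.Agent.H71R3.FS

open UniformSpace Polynomial Filter Topology
open scoped ENNReal

theorem tower_norm_sub {G : Type} [Group G] (p q : ℝ[X]) (a : G →₀ ℂ) (ha : Sym a)
    (h1 : ∀ (H : Type) (_ : NormedAddCommGroup H) (_ : InnerProductSpace ℂ H) (_ : CompleteSpace H)
      (π : G →* (H ≃ₗᵢ[ℂ] H)), ‖ev π a‖ ≤ 1) (ε : ℝ) (hε : 0 ≤ ε)
    (hpq : ∀ t, |t| ≤ 1 → |p.eval t - q.eval t| ≤ ε) :
    maxNorm (pol p a - pol q a) ≤ ε := by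
  refine maxNorm_le fun H i1 i2 i3 π => ?_
  have e : ev π (pol p a - pol q a) = aeval (ev π a) (p - q) := by
    rw [map_sub, ← ev_pol, ← ev_pol]
    simp only [ev_eq_lc, map_sub]
  rw [e]
  exact aeval_norm_le _ (ev_selfAdjoint π a ha) 1 ε (h1 H i1 i2 i3 π) hε (p - q) fun t ht => by
    rw [eval_sub]; exact hpq t ht

section

variable {α : Type} [Fintype α] [DecidableEq α]

theorem pd_haagerup (r : ℝ) (h0 : 0 ≤ r) (h1 : r < 1) :
    PD (fun g : FreeGroup α => ((r ^ g.norm : ℝ) : ℂ)) := by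
  refine ⟨fun g => ?_, fun a => ?_⟩
  · show ((r ^ (g⁻¹).norm : ℝ) : ℂ) = starRingEnd ℂ ((r ^ g.norm : ℝ) : ℂ)
    rw [FreeGroup.norm_inv_eq, Complex.conj_ofReal]
  · have h := Tree.complex_of_real a.support
      (fun g h : FreeGroup α => r ^ (g⁻¹ * h).norm) (fun g h => by
        have : (g⁻¹ * h).norm = (h⁻¹ * g).norm := by
          rw [← FreeGroup.norm_inv_eq, mul_inv_rev, inv_inv]
        rw [this]) (fun x => by
        refine le_trans ?_ (Tree.haagerup_lower r h0 h1 a.support (fun g => g) x)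
        refine mul_nonneg (Tree.eps_pos _ r h0 h1).le ?_
        have e : ∑ i ∈ a.support, ∑ j ∈ a.support, x i * x j * (if i = j then (1 : ℝ) else 0)
            = ∑ i ∈ a.support, x i * x i := by
          refine Finset.sum_congr rfl fun i hi => ?_
          rw [Finset.sum_eq_single i]
          · rw [if_pos rfl, mul_one]
          · intro j _ hj; rw [if_neg (Ne.symm hj), mul_zero]
          · intro hi'; exact absurd hi hi'
        rw [e]
        exact Finset.sum_nonneg fun i _ => mul_self_nonneg _) a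
    exact (Complex.le_def.1 h).1

theorem exists_b (r : ℝ) (h0 : 0 ≤ r) (h1 : r < 1) (hN : 0 < Fintype.card (α × Bool))
    (hr : 2 / Real.sqrt (Fintype.card (α × Bool)) < r) :
    ∃ b : CStar (FreeGroup α),
      (∀ Φ : CStar (FreeGroup α) →L[ℂ] ℂ, Summable (fun g => ‖Φ (dir g)‖ ^ 2) → Φ b = 0) ∧
      (∀ Φ : CStar (FreeGroup α) →L[ℂ] ℂ, (∀ g, Φ (dir g) = ((r ^ g.norm : ℝ) : ℂ)) → Φ b ≠ 0) := by
  set ρ : ℝ := 2 / Real.sqrt (Fintype.card (α × Bool)) with hρ
  have hρ0 : 0 ≤ ρ := by positivity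
  have hρ1 : ρ ≤ 1 := by linarith
  have hp : ∀ n : ℕ, ∃ p : ℝ[X], ∀ t : ℝ, |t| ≤ 1 → |p.eval t - max (t - ρ) 0| ≤ 1 / ((n : ℝ) + 1) := by
    intro n
    obtain ⟨p, hp⟩ := exists_polynomial_near_of_continuousOn (-1) 1 (fun t => max (t - ρ) 0)
      (by fun_prop) (1 / ((n : ℝ) + 1)) (by positivity)
    exact ⟨p, fun t ht => (hp t (abs_le.1 ht)).le⟩
  choose p hp using hp
  have hlim : Tendsto (fun n : ℕ => 1 / ((n : ℝ) + 1)) atTop (𝓝 0) := tendsto_one_div_add_atTop_nhds_zero_nat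
  set a : ℕ → (FreeGroup α →₀ ℂ) := fun n => pol (p n) (mu α) with ha
  have hmu : ∀ (H : Type) (_ : NormedAddCommGroup H) (_ : InnerProductSpace ℂ H) (_ : CompleteSpace H)
      (π : FreeGroup α →* (H ≃ₗᵢ[ℂ] H)), ‖ev π (mu α)‖ ≤ 1 := fun H _ _ _ π => norm_ev_mu_le π
  have hC : CauchySeq (fun n => (inc (a n) : CStar (FreeGroup α))) := by
    rw [Metric.cauchySeq_iff']
    intro ε hε
    obtain ⟨N, hN'⟩ := exists_nat_one_div_lt (half_pos hε)
    refine ⟨N, fun n hn => ?_⟩
    have h2 : (inc (a n) : CStar (FreeGroup α)) - inc (a N) = inc (a n - a N) := by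
      have : a n = (a n - a N) + a N := by abel
      conv_lhs => rw [this, inc_add]
      abel
    rw [dist_eq_norm, h2, norm_inc]
    have h3 : (1 : ℝ) / ((n : ℝ) + 1) ≤ 1 / ((N : ℝ) + 1) := by
      apply one_div_le_one_div_of_le (by positivity)
      have : (N : ℝ) ≤ n := by exact_mod_cast hn
      linarith
    have h4 := tower_norm_sub (p n) (p N) (mu α) mu_sym hmu (1 / ((N : ℝ) + 1) + 1 / ((N : ℝ) + 1))
      (by positivity) (fun t ht => by
        have e1 := abs_le.1 (hp n t ht)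
        have e2 := abs_le.1 (hp N t ht)
        rw [abs_le]
        constructor <;> linarith [e1.1, e1.2, e2.1, e2.2])
    linarith
  obtain ⟨b, hb⟩ := cauchySeq_tendsto_of_complete hC
  refine ⟨b, fun Φ hΦ => ?_, fun Φ hΦ => ?_⟩
  · obtain ⟨H, _, _, _, π, J, hJd, hJ, hπ⟩ := reg_rep (FreeGroup α)
    have hK := norm_reg_mu_le π J hJd hJ hπ hN
    rw [← hρ] at hK
    have h2 : Tendsto (fun n => Φ (inc (a n))) atTop (𝓝 (Φ b)) :=
      (Φ.continuous.tendsto b).comp hb
    have h3 : Tendsto (fun n => Φ (inc (a n))) atTop (𝓝 0) := by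
      refine squeeze_zero_norm (a := fun n : ℕ => Real.sqrt (∑' g, ‖Φ (dir g)‖ ^ 2) * (1 / ((n : ℝ) + 1)))
        (fun n => ?_) ?_
      · rw [map_inc]
        unfold Finsupp.sum
        have hξ : ‖J (Finsupp.single 1 1)‖ = 1 := by
          have h5 : ‖J (Finsupp.single 1 1)‖ ^ 2 = 1 := by
            rw [hJ, Finsupp.sum_single_index (by simp)]; simp
          have := norm_nonneg (J (Finsupp.single 1 1))
          nlinarith
        have hJa : ‖J (a n)‖ ≤ 1 / ((n : ℝ) + 1) := by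
          rw [← ev_cyclic π J hπ]
          refine ((ev π (a n)).le_opNorm _).trans ?_
          rw [hξ, mul_one, ha]
          simp only
          rw [ev_pol]
          refine aeval_norm_le _ (ev_selfAdjoint π _ mu_sym) ρ _ hK (by positivity) (p n) fun t ht => ?_
          have h6 := hp n t (ht.trans hρ1)
          have h7 : max (t - ρ) 0 = 0 := max_eq_right (by linarith [(abs_le.1 ht).2])
          rw [h7, sub_zero] at h6
          exact h6
        calc ‖∑ g ∈ (a n).support, a n g • Φ (dir g)‖ ≤ ∑ g ∈ (a n).support, ‖Φ (dir g)‖ * ‖a n g‖ :=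
              norm_sum_le_of_le _ fun g _ => by rw [norm_smul, mul_comm]
          _ ≤ Real.sqrt (∑ g ∈ (a n).support, ‖Φ (dir g)‖ ^ 2) *
                Real.sqrt (∑ g ∈ (a n).support, ‖a n g‖ ^ 2) := Real.sum_mul_le_sqrt_mul_sqrt _ _ _
          _ ≤ _ := by
              refine mul_le_mul ?_ ?_ (Real.sqrt_nonneg _) (Real.sqrt_nonneg _)
              · exact Real.sqrt_le_sqrt (hΦ.sum_le_tsum _ fun g _ => sq_nonneg _)
              · rw [Real.sqrt_le_left (by positivity)]
                have h8 : ∑ g ∈ (a n).support, ‖a n g‖ ^ 2 = ‖J (a n)‖ ^ 2 := (hJ (a n)).symm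
                rw [h8]
                exact pow_le_pow_left₀ (norm_nonneg _) hJa 2
      · have := hlim.const_mul (Real.sqrt (∑' g, ‖Φ (dir g)‖ ^ 2))
        rw [mul_zero] at this
        exact this
    exact tendsto_nhds_unique h2 h3
  · obtain ⟨E, _, _, π0, ξ0, hξ0⟩ := gns_vector _ (pd_haagerup (α := α) r h0 h1)
    set π := complRep π0 with hπ
    set ξ : Completion E := (ξ0 : Completion E) with hξ
    have hcoef : ∀ g, inner ℂ ξ (π g ξ) = ((r ^ g.norm : ℝ) : ℂ) := fun g => by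
      rw [hπ, hξ, complRep_coe, Completion.inner_coe, hξ0]
    have hξn : ‖ξ‖ ^ 2 = 1 := by
      have h2 := hcoef 1
      rw [map_one] at h2
      have h3 : inner ℂ ξ ((1 : Completion E ≃ₗᵢ[ℂ] Completion E) ξ) = inner ℂ ξ ξ := rfl
      rw [h3, inner_self_eq_norm_sq_to_K, FreeGroup.norm_one, pow_zero] at h2
      apply Complex.ofReal_injective
      rw [Complex.ofReal_pow]
      exact h2
    have hΦa : ∀ c : FreeGroup α →₀ ℂ, Φ (inc c) = inner ℂ ξ (ev π c ξ) := fun c => by
      rw [map_inc, inner_ev]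
      refine Finsupp.sum_congr fun g _ => ?_
      rw [hΦ, hcoef, smul_eq_mul]
    have hTξ : (inner ℂ ξ (ev π (mu α) ξ)).re = r := by
      have hNc : (Fintype.card (α × Bool) : ℂ) ≠ 0 := by exact_mod_cast hN.ne'
      have : inner ℂ ξ (ev π (mu α) ξ) = (r : ℂ) := by
        rw [ev_mu, inner_smul_right, inner_sum]
        have hl : ∀ s : α × Bool, (Kesten.lt s).norm = 1 := fun s => by
          unfold Kesten.lt FreeGroup.norm
          rw [FreeGroup.toWord_mk, FreeGroup.reduce_singleton]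
          rfl
        simp only [hcoef, hl, pow_one, Finset.sum_const, Finset.card_univ, nsmul_eq_mul]
        rw [← mul_assoc, inv_mul_cancel₀ hNc, one_mul]
      rw [this, Complex.ofReal_re]
    have h2 : Tendsto (fun n => (Φ (inc (a n))).re) atTop (𝓝 (Φ b).re) :=
      ((Complex.continuous_re.comp Φ.continuous).tendsto b).comp hb
    have h3 : ∀ n : ℕ, r - ρ - 1 / ((n : ℝ) + 1) ≤ (Φ (inc (a n))).re := by
      intro n
      rw [hΦa, ha]
      simp only
      rw [ev_pol]
      have h4 := aeval_inner_ge (ev π (mu α)) (ev_selfAdjoint π _ mu_sym) 1 (norm_ev_mu_le π) (p n)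
        1 (-ρ - 1 / ((n : ℝ) + 1)) (fun t ht => by
          have h5 := (abs_le.1 (hp n t ht)).1
          have h6 : t - ρ ≤ max (t - ρ) 0 := le_max_left _ _
          linarith) ξ
      rw [hTξ, hξn] at h4
      linarith
    have h4 : Tendsto (fun n : ℕ => r - ρ - 1 / ((n : ℝ) + 1)) atTop (𝓝 (r - ρ - 0)) :=
      tendsto_const_nhds.sub hlim
    have h5 : r - ρ - 0 ≤ (Φ b).re := le_of_tendsto_of_tendsto' h4 h2 h3
    intro h6
    rw [h6, Complex.zero_re] at h5
    linarith

end

end Pool.Agent.H71R3.FS
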