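import Mathlib
import Pool.Agent.H71R3.Sing

set_option autoImplicit false

namespace Pool.Agent.H71R3.FS

open UniformSpace

section General

variable {G : Type} [Group G]

theorem dmul_comm (Φ Ψ : CStar G →L[ℂ] ℂ) : dmul Φ Ψ = dmul Ψ Φ :=
  ext_dir fun g => by rw [dmul_dir, dmul_dir, mul_comm]

/-- functionals with square summable values on the group -/
def L2 (Φ : CStar G →L[ℂ] ℂ) : Prop := Summable fun g => ‖Φ (dir g)‖ ^ 2

theorem norm_val_le (Φ : CStar G →L[ℂ] ℂ) (g : G) : ‖Φ (dir g)‖ ≤ ‖Φ‖ := by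
  refine (Φ.le_opNorm _).trans ?_
  have := norm_dir_le (G := G) g
  nlinarith [norm_nonneg Φ]

theorem L2.dmul_left {Φ : CStar G →L[ℂ] ℂ} (hΦ : L2 Φ) (Ψ : CStar G →L[ℂ] ℂ) : L2 (dmul Ψ Φ) := by
  unfold L2 at hΦ ⊢
  refine Summable.of_nonneg_of_le (fun g => sq_nonneg _) (fun g => ?_) (hΦ.mul_left (‖Ψ‖ ^ 2))
  rw [dmul_dir, norm_mul, mul_pow]
  exact mul_le_mul_of_nonneg_right (pow_le_pow_left₀ (norm_nonneg _) (norm_val_le Ψ g) 2)
    (sq_nonneg _)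

/-- `Φ` is a two sided translate of `f` -/
def Tr (f : G → ℂ) (Φ : CStar G →L[ℂ] ℂ) : Prop := ∃ s t : G, ∀ g, Φ (dir g) = f (s * g * t)

/-- common kernel of the square summable functionals -/
def J0 (G : Type) [Group G] : Set (CStar G) := {a | ∀ Φ : CStar G →L[ℂ] ℂ, L2 Φ → Φ a = 0}

/-- common kernel of the square summable functionals and the translates of `f` -/
def J1 (f : G → ℂ) : Set (CStar G) :=
  {a | a ∈ J0 G ∧ ∀ Φ : CStar G →L[ℂ] ℂ, Tr f Φ → Φ a = 0}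

/-- annihilator of `J1 f` -/
def B1 (f : G → ℂ) : Set (CStar G →L[ℂ] ℂ) := {Φ | ∀ a ∈ J1 f, Φ a = 0}

theorem mult_J0 (Ψ : CStar G →L[ℂ] ℂ) {a : CStar G} (ha : a ∈ J0 G) : mult Ψ a ∈ J0 G :=
  fun Φ hΦ => ha (dmul Ψ Φ) (hΦ.dmul_left Ψ)

/-- hypothesis on `f` -/
def Good (f : G → ℂ) : Prop :=
  ∀ s t s' t' : G, Summable fun g => ‖f (s * g * t) * f (s' * g * t')‖ ^ 2

theorem mult_tr {f : G → ℂ} (hf : Good f) {Φ : CStar G →L[ℂ] ℂ} (hΦ : Tr f Φ) {a : CStar G}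
    (ha : a ∈ J0 G) : mult Φ a ∈ J1 f := by
  refine ⟨mult_J0 Φ ha, fun Ψ hΨ => ?_⟩
  obtain ⟨s, t, hs⟩ := hΦ
  obtain ⟨s', t', hs'⟩ := hΨ
  refine ha (dmul Φ Ψ) ?_
  have := hf s t s' t'
  unfold L2
  simp only [dmul_dir, hs, hs']
  exact this

theorem dmul_tr {f : G → ℂ} (hf : Good f) {Φ Ψ : CStar G →L[ℂ] ℂ} (hΦ : Tr f Φ) (hΨ : Ψ ∈ B1 f)
    {a : CStar G} (ha : a ∈ J0 G) : dmul Φ Ψ a = 0 := hΨ _ (mult_tr hf hΦ ha)

theorem dmul_B1 {f : G → ℂ} (hf : Good f) {Φ Ψ : CStar G →L[ℂ] ℂ} (hΦ : Φ ∈ B1 f)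
    (hΨ : Ψ ∈ B1 f) {a : CStar G} (ha : a ∈ J0 G) : dmul Φ Ψ a = 0 := by
  refine hΨ (mult Φ a) ⟨mult_J0 Φ ha, fun Θ hΘ => ?_⟩
  have h1 : dmul Φ Θ a = 0 := by
    rw [dmul_comm]
    exact dmul_tr hf hΘ hΦ ha
  exact h1

theorem left_J1 {f : G → ℂ} {s : G} {T : CStar G →L[ℂ] CStar G} (hT : ∀ g, T (dir g) = dir (s * g))
    {a : CStar G} (ha : a ∈ J1 f) : T a ∈ J1 f := by
  refine ⟨fun Φ hΦ => ?_, fun Φ hΦ => ?_⟩
  · refine ha.1 (Φ.comp T) ?_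
    have h1 := (Equiv.mulLeft s).summable_iff.2 hΦ
    unfold L2
    simp only [ContinuousLinearMap.comp_apply, hT]
    exact h1
  · obtain ⟨u, v, huv⟩ := hΦ
    refine ha.2 (Φ.comp T) ⟨u * s, v, fun g => ?_⟩
    rw [ContinuousLinearMap.comp_apply, hT, huv]
    congr 1
    group

theorem right_J1 {f : G → ℂ} {s : G} {T : CStar G →L[ℂ] CStar G} (hT : ∀ g, T (dir g) = dir (g * s))
    {a : CStar G} (ha : a ∈ J1 f) : T a ∈ J1 f := by
  refine ⟨fun Φ hΦ => ?_, fun Φ hΦ => ?_⟩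
  · refine ha.1 (Φ.comp T) ?_
    have h1 := (Equiv.mulRight s).summable_iff.2 hΦ
    unfold L2
    simp only [ContinuousLinearMap.comp_apply, hT]
    exact h1
  · obtain ⟨u, v, huv⟩ := hΦ
    refine ha.2 (Φ.comp T) ⟨u, s * v, fun g => ?_⟩
    rw [ContinuousLinearMap.comp_apply, hT, huv]
    congr 1
    group

theorem exists_one (G : Type) [Group G] : ∃ Φ : CStar G →L[ℂ] ℂ, ∀ g, Φ (dir g) = 1 := by
  obtain ⟨Φ, hΦ, -⟩ := coef_dual (1 : G →* (ℂ ≃ₗᵢ[ℂ] ℂ)) (1 : ℂ) (1 : ℂ)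
  refine ⟨Φ, fun g => ?_⟩
  rw [hΦ]
  show inner ℂ (1 : ℂ) (1 : ℂ) = 1
  simp

/-- the trivial representation as a functional -/
noncomputable def one (G : Type) [Group G] : CStar G →L[ℂ] ℂ := (exists_one G).choose

theorem one_dir (g : G) : one G (dir g) = 1 := (exists_one G).choose_spec g

/-- unital version of `B1`: the annihilator of the elements of `J1 f` killed by the trivial
representation -/
def B2 (f : G → ℂ) : Set (CStar G →L[ℂ] ℂ) := {Φ | ∀ a ∈ J1 f, one G a = 0 → Φ a = 0}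

theorem J1_sub {f : G → ℂ} {a b : CStar G} (ha : a ∈ J1 f) (hb : b ∈ J1 f) (c : ℂ) :
    a - c • b ∈ J1 f := by
  refine ⟨fun Φ hΦ => ?_, fun Φ hΦ => ?_⟩
  · rw [map_sub, map_smul, ha.1 Φ hΦ, hb.1 Φ hΦ]; simp
  · rw [map_sub, map_smul, ha.2 Φ hΦ, hb.2 Φ hΦ]; simp

theorem B2_iff {f : G → ℂ} {Φ : CStar G →L[ℂ] ℂ} :
    Φ ∈ B2 f ↔ ∃ c : ℂ, Φ - c • one G ∈ B1 f := by
  constructor
  · intro h
    by_cases h0 : ∃ a0 ∈ J1 f, one G a0 ≠ 0
    · obtain ⟨a0, ha0, hne⟩ := h0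
      refine ⟨Φ a0 / one G a0, fun a ha => ?_⟩
      have h1 := h (a - (one G a / one G a0) • a0) (J1_sub ha ha0 _) (by
        rw [map_sub, map_smul, smul_eq_mul, div_mul_cancel₀ _ hne, sub_self])
      rw [map_sub, map_smul, smul_eq_mul] at h1
      show Φ a - (Φ a0 / one G a0) * one G a = 0
      rw [← h1]
      ring
    · push Not at h0
      refine ⟨0, fun a ha => ?_⟩
      show Φ a - 0 * one G a = 0
      rw [h a ha (h0 a ha)]; simp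
  · rintro ⟨c, hc⟩ a ha h1
    have h2 : Φ a - c * one G a = 0 := hc a ha
    rw [h1] at h2
    simpa using h2

theorem J1_sub_J0 {f : G → ℂ} {a : CStar G} (ha : a ∈ J1 f) : a ∈ J0 G := ha.1

theorem dmul_B2 {f : G → ℂ} (hf : Good f) {Φ Ψ : CStar G →L[ℂ] ℂ} (hΦ : Φ ∈ B2 f)
    (hΨ : Ψ ∈ B2 f) : dmul Φ Ψ ∈ B2 f := by
  obtain ⟨c, hc⟩ := B2_iff.1 hΦ
  obtain ⟨d, hd⟩ := B2_iff.1 hΨ
  refine B2_iff.2 ⟨c * d, fun a ha => ?_⟩
  have h1 := dmul_B1 hf hc hd (J1_sub_J0 ha)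
  have h2 := hc a ha
  have h3 := hd a ha
  have e : dmul Φ Ψ - (c * d) • one G = dmul (Φ - c • one G) (Ψ - d • one G)
      + c • (Ψ - d • one G) + d • (Φ - c • one G) := by
    refine ext_dir fun g => ?_
    show dmul Φ Ψ (dir g) - (c * d) * one G (dir g) = dmul (Φ - c • one G) (Ψ - d • one G) (dir g)
      + c * (Ψ (dir g) - d * one G (dir g)) + d * (Φ (dir g) - c * one G (dir g))
    rw [dmul_dir, dmul_dir, one_dir]
    show Φ (dir g) * Ψ (dir g) - c * d * 1 = (Φ (dir g) - c * one G (dir g)) *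
      (Ψ (dir g) - d * one G (dir g)) + c * (Ψ (dir g) - d * 1) + d * (Φ (dir g) - c * 1)
    rw [one_dir]
    ring
  rw [e]
  show dmul (Φ - c • one G) (Ψ - d • one G) a + c * (Ψ - d • one G) a + d * (Φ - c • one G) a = 0
  rw [h1, h2, h3]
  simp

theorem comp_B2 {f : G → ℂ} {T : CStar G →L[ℂ] CStar G} (hT : ∀ a ∈ J1 f, T a ∈ J1 f)
    (hT1 : ∀ g, one G (T (dir g)) = 1) {Φ : CStar G →L[ℂ] ℂ} (hΦ : Φ ∈ B2 f) :
    Φ.comp T ∈ B2 f := by
  intro a ha h1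
  refine hΦ (T a) (hT a ha) ?_
  have : (one G).comp T = one G := ext_dir fun g => by
    rw [ContinuousLinearMap.comp_apply, hT1, one_dir]
  have h2 : (one G).comp T a = 0 := by rw [this, h1]
  exact h2

/-- push forward along a homomorphism -/
theorem exists_push {H : Type} [Group H] (j : H →* G) :
    ∃ T : CStar H →L[ℂ] CStar G, ∀ h, T (dir h) = dir (j h) := by
  obtain ⟨T, hT, -⟩ := exists_map (fun h => (dir (j h) : CStar G)) 1 zero_le_one fun a => by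
    have h0 : (a.sum fun h c => c • (dir (j h) : CStar G)) = inc (a.mapDomain j) := by
      rw [inc_eq_sum, Finsupp.sum_mapDomain_index (h := fun g c => c • (dir g : CStar G))
        (fun _ => zero_smul _ _) (fun _ _ _ => add_smul _ _ _)]
    rw [h0, norm_inc, one_mul]
    refine maxNorm_le fun H _ _ _ π => ?_
    have h1 : ev π (a.mapDomain j) = ev (π.comp j) a := by
      refine ContinuousLinearMap.ext fun v => ?_
      rw [ev_apply, ev_apply]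
      exact Finsupp.sum_mapDomain_index (fun _ => zero_smul _ _) (fun _ _ _ => add_smul _ _ _)
    rw [h1]
    exact le_maxNorm _ _
  exact ⟨T, hT⟩

theorem pd_char (χ : G → ℂ) (h1 : ∀ g h, χ (g⁻¹ * h) = starRingEnd ℂ (χ g) * χ h)
    (h2 : ∀ g, χ g⁻¹ = starRingEnd ℂ (χ g)) : PD χ := by
  refine ⟨h2, fun a => ?_⟩
  have : sq χ a a = starRingEnd ℂ (a.sum fun g c => c * χ g) * (a.sum fun g c => c * χ g) := by
    unfold sq
    rw [map_finsuppSum, Finsupp.sum_mul]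
    refine Finsupp.sum_congr fun g _ => ?_
    rw [Finsupp.mul_sum]
    refine Finsupp.sum_congr fun h _ => ?_
    rw [h1, map_mul]; ring
  rw [this, mul_comm, Complex.mul_conj]
  simp [Complex.normSq_nonneg]

theorem pd_functional (φ : G → ℂ) (hφ : PD φ) : ∃ Φ : CStar G →L[ℂ] ℂ, ∀ g, Φ (dir g) = φ g := by
  obtain ⟨E, _, _, π, ξ, hξ⟩ := gns_vector φ hφ
  obtain ⟨Φ, hΦ, -⟩ := coef_dual π ξ ξ
  exact ⟨Φ, fun g => by rw [hΦ, hξ]⟩

end General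

end Pool.Agent.H71R3.FS
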