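import Mathlib
import Pool.Agent.H71R3.Conj

set_option autoImplicit false

namespace Pool.Agent.H71R3.FS

open UniformSpace Filter Topology

section General

variable {G : Type} [Group G]

/-- `f` belongs to `B(G)` and has norm at most `C` -/
def HasF (f : G → ℂ) (C : ℝ) : Prop :=
  ∃ Φ : CStar G →L[ℂ] ℂ, (∀ g, Φ (dir g) = f g) ∧ ‖Φ‖ ≤ C

theorem HasF.mono {f : G → ℂ} {C D : ℝ} (h : HasF f C) (hCD : C ≤ D) : HasF f D := by
  obtain ⟨Φ, hΦ, hC⟩ := h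
  exact ⟨Φ, hΦ, hC.trans hCD⟩

theorem HasF.nonneg {f : G → ℂ} {C : ℝ} (h : HasF f C) : 0 ≤ C := by
  obtain ⟨Φ, hΦ, hC⟩ := h
  exact (norm_nonneg _).trans hC

theorem HasF.bound {f : G → ℂ} {C : ℝ} (h : HasF f C) (g : G) : ‖f g‖ ≤ C := by
  obtain ⟨Φ, hΦ, hC⟩ := h
  rw [← hΦ]
  exact (norm_val_le Φ g).trans hC

theorem HasF.congr {f f' : G → ℂ} {C : ℝ} (h : HasF f C) (hf : ∀ g, f g = f' g) : HasF f' C := by
  obtain ⟨Φ, hΦ, hC⟩ := h
  exact ⟨Φ, fun g => by rw [hΦ, hf], hC⟩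

theorem HasF.mul {f f' : G → ℂ} {C D : ℝ} (h : HasF f C) (h' : HasF f' D) :
    HasF (fun g => f g * f' g) (C * D) := by
  obtain ⟨Φ, hΦ, hC⟩ := h
  obtain ⟨Ψ, hΨ, hD⟩ := h'
  exact ⟨dmul Φ Ψ, fun g => by rw [dmul_dir, hΦ, hΨ],
    (norm_dmul_le _ _).trans (mul_le_mul hC hD (norm_nonneg _) ((norm_nonneg _).trans hC))⟩

theorem HasF.add {f f' : G → ℂ} {C D : ℝ} (h : HasF f C) (h' : HasF f' D) :
    HasF (fun g => f g + f' g) (C + D) := by
  obtain ⟨Φ, hΦ, hC⟩ := h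
  obtain ⟨Ψ, hΨ, hD⟩ := h'
  refine ⟨Φ + Ψ, fun g => ?_, (norm_add_le _ _).trans (add_le_add hC hD)⟩
  show Φ (dir g) + Ψ (dir g) = _
  rw [hΦ, hΨ]

theorem HasF.sub {f f' : G → ℂ} {C D : ℝ} (h : HasF f C) (h' : HasF f' D) :
    HasF (fun g => f g - f' g) (C + D) := by
  obtain ⟨Φ, hΦ, hC⟩ := h
  obtain ⟨Ψ, hΨ, hD⟩ := h'
  refine ⟨Φ - Ψ, fun g => ?_, (norm_sub_le _ _).trans (add_le_add hC hD)⟩
  show Φ (dir g) - Ψ (dir g) = _
  rw [hΦ, hΨ]

theorem HasF.smul {f : G → ℂ} {C : ℝ} (c : ℂ) (h : HasF f C) :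
    HasF (fun g => c * f g) (‖c‖ * C) := by
  obtain ⟨Φ, hΦ, hC⟩ := h
  refine ⟨c • Φ, fun g => ?_, ?_⟩
  · show c * Φ (dir g) = _
    rw [hΦ]
  · rw [norm_smul]
    exact mul_le_mul_of_nonneg_left hC (norm_nonneg _)

theorem hasF_one : HasF (fun _ : G => (1 : ℂ)) 1 := by
  obtain ⟨Φ, hΦ, h⟩ := coef_dual (1 : G →* (ℂ ≃ₗᵢ[ℂ] ℂ)) (1 : ℂ) (1 : ℂ)
  refine ⟨Φ, fun g => ?_, by simpa using h⟩
  rw [hΦ]
  show inner ℂ (1 : ℂ) (1 : ℂ) = 1
  simp

theorem hasF_zero : HasF (fun _ : G => (0 : ℂ)) 0 := ⟨0, fun _ => rfl, by simp⟩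

theorem HasF.pow {f : G → ℂ} {C : ℝ} (h : HasF f C) (n : ℕ) : HasF (fun g => f g ^ n) (C ^ n) := by
  induction n with
  | zero => simpa using hasF_one (G := G)
  | succ n ih =>
    refine (ih.mul h).congr (fun g => by rw [pow_succ]) |>.mono (le_of_eq (by rw [pow_succ]))

theorem hasF_sum {ι : Type*} (s : Finset ι) (f : ι → G → ℂ) (C : ι → ℝ)
    (h : ∀ i ∈ s, HasF (f i) (C i)) : HasF (fun g => ∑ i ∈ s, f i g) (∑ i ∈ s, C i) := by
  classical
  induction s using Finset.induction_on with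
  | empty => simpa using hasF_zero (G := G)
  | insert a s ha ih =>
    have h1 := (h a (Finset.mem_insert_self _ _)).add
      (ih fun i hi => h i (Finset.mem_insert_of_mem hi))
    rw [Finset.sum_insert ha]
    exact h1.congr fun g => by rw [Finset.sum_insert ha]

theorem hasF_prod {ι : Type*} (s : Finset ι) (f : ι → G → ℂ)
    (h : ∀ i ∈ s, HasF (f i) 1) : HasF (fun g => ∏ i ∈ s, f i g) 1 := by
  classical
  induction s using Finset.induction_on with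
  | empty => simpa using hasF_one (G := G)
  | insert a s ha ih =>
    have h1 := (h a (Finset.mem_insert_self _ _)).mul
      (ih fun i hi => h i (Finset.mem_insert_of_mem hi))
    rw [mul_one] at h1
    exact h1.congr fun g => by rw [Finset.prod_insert ha]

theorem HasF.lim {f : ℕ → G → ℂ} {f' : G → ℂ} {C : ℝ} (h : ∀ n, HasF (f n) C)
    (hl : ∀ g, Tendsto (fun n => f n g) atTop (𝓝 (f' g))) : HasF f' C := by
  have hC := (h 0).nonneg
  choose Φ hΦ hn using h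
  refine exists_map f' C hC fun a => ?_
  have h1 : Tendsto (fun n => a.sum fun g c => c • f n g) atTop (𝓝 (a.sum fun g c => c • f' g)) :=
    tendsto_finsetSum _ fun g _ => (hl g).const_smul _
  refine le_of_tendsto h1.norm (Eventually.of_forall fun n => ?_)
  have h2 : (a.sum fun g c => c • f n g) = Φ n (inc a) := by
    rw [map_inc]
    exact Finsupp.sum_congr fun g _ => by rw [hΦ]
  rw [h2]
  refine ((Φ n).le_opNorm _).trans ?_
  rw [norm_inc]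
  exact mul_le_mul_of_nonneg_right (hn n) (maxNorm_nonneg a)

theorem exists_push' {H : Type} [Group H] (j : H →* G) :
    ∃ T : CStar H →L[ℂ] CStar G, (∀ h, T (dir h) = dir (j h)) ∧ ‖T‖ ≤ 1 := by
  refine exists_map (fun h => (dir (j h) : CStar G)) 1 zero_le_one fun a => ?_
  have h0 : (a.sum fun h c => c • (dir (j h) : CStar G)) = inc (a.mapDomain j) := by
    rw [inc_eq_sum, Finsupp.sum_mapDomain_index (h := fun g c => c • (dir g : CStar G))
      (fun _ => zero_smul _ _) (fun _ _ _ => add_smul _ _ _)]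
  rw [h0, norm_inc, one_mul]
  refine maxNorm_le fun H _ _ _ π => ?_
  have h1 : ev π (a.mapDomain j) = ev (π.comp j) a := by
    refine ContinuousLinearMap.ext fun v => ?_
    rw [ev_apply, ev_apply]
    exact Finsupp.sum_mapDomain_index (fun _ => zero_smul _ _) (fun _ _ _ => add_smul _ _ _)
  rw [h1]
  exact le_maxNorm _ _

theorem HasF.comp_hom {H : Type} [Group H] {f : G → ℂ} {C : ℝ} (h : HasF f C) (j : H →* G) :
    HasF (fun x => f (j x)) C := by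
  obtain ⟨Φ, hΦ, hC⟩ := h
  obtain ⟨T, hT, hT1⟩ := exists_push' j
  refine ⟨Φ.comp T, fun x => ?_, ?_⟩
  · rw [ContinuousLinearMap.comp_apply, hT, hΦ]
  · refine (ContinuousLinearMap.opNorm_comp_le _ _).trans ?_
    have := norm_nonneg Φ
    nlinarith

theorem hasF_pd {φ : G → ℂ} (hφ : PD φ) (h1 : φ 1 = 1) : HasF φ 1 := by
  obtain ⟨E, _, _, π, ξ, hξ⟩ := gns_vector φ hφ
  obtain ⟨Φ, hΦ, hn⟩ := coef_dual π ξ ξ
  refine ⟨Φ, fun g => by rw [hΦ, hξ], ?_⟩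
  have h2 := hξ 1
  rw [map_one, h1] at h2
  have h3 : inner ℂ ξ ((1 : E ≃ₗᵢ[ℂ] E) ξ) = inner ℂ ξ ξ := rfl
  rw [h3, inner_self_eq_norm_sq_to_K] at h2
  have h4 : ‖ξ‖ ^ 2 = 1 := by
    apply Complex.ofReal_injective
    rw [Complex.ofReal_pow]
    exact h2
  rw [← pow_two, h4] at hn
  exact hn

theorem hasF_l2 {w : G → ℂ} (hw : Summable fun g => ‖w g‖ ^ 2) :
    HasF w (Real.sqrt (∑' g, ‖w g‖ ^ 2)) := l2_dual w hw

theorem hasF_finite {w : G → ℂ} (hw : (Function.support w).Finite) : ∃ C, HasF w C := by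
  refine ⟨_, hasF_l2 (w := w) ?_⟩
  refine summable_of_hasFiniteSupport (hw.subset fun g hg => ?_)
  rw [Function.mem_support] at hg ⊢
  intro h
  apply hg
  rw [h]; simp

/-- square summable functions are limits of finitely supported functions in `B(G)` -/
theorem hasF_tail {w : G → ℂ} (hw : Summable fun g => ‖w g‖ ^ 2) {δ : ℝ} (hδ : 0 < δ) :
    ∃ E : Finset G, HasF (Set.indicator {g | g ∉ E} w) δ := by
  obtain ⟨E, hE⟩ := (tendsto_tsum_compl_atTop_zero (fun g => ‖w g‖ ^ 2)).eventually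
    (gt_mem_nhds (show (0 : ℝ) < δ ^ 2 by positivity)) |>.exists
  refine ⟨E, ?_⟩
  have h1 : (fun g => ‖Set.indicator {g | g ∉ E} w g‖ ^ 2)
      = Set.indicator {g | g ∉ E} (fun g => ‖w g‖ ^ 2) := by
    funext g
    by_cases hg : g ∈ E
    · rw [Set.indicator_of_notMem (by simpa using hg), Set.indicator_of_notMem (by simpa using hg)]
      simp
    · rw [Set.indicator_of_mem (by simpa using hg), Set.indicator_of_mem (by simpa using hg)]
  have h2 : Summable fun g => ‖Set.indicator {g | g ∉ E} w g‖ ^ 2 := by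
    rw [h1]
    exact hw.indicator _
  refine (hasF_l2 h2).mono ?_
  rw [Real.sqrt_le_left hδ.le, h1, ← tsum_subtype]
  exact hE.le

/-- Neumann series -/
theorem hasF_neumann {b : G → ℂ} {C : ℝ} (h : HasF b C) {ρ : ℂ} (hρ : C < ‖ρ‖) :
    ∃ D, HasF (fun g => (ρ - b g)⁻¹) D := by
  have hC := h.nonneg
  have hρ0 : 0 < ‖ρ‖ := lt_of_le_of_lt hC hρ
  have hne : ρ ≠ 0 := norm_pos_iff.1 hρ0
  have hr : C / ‖ρ‖ < 1 := by rw [div_lt_one hρ0]; exact hρ
  have hr0 : 0 ≤ C / ‖ρ‖ := by positivity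
  refine ⟨‖ρ⁻¹‖ * (1 - C / ‖ρ‖)⁻¹, ?_⟩
  refine HasF.lim (f := fun n g => ρ⁻¹ * ∑ j ∈ Finset.range n, (ρ⁻¹ * b g) ^ j) (fun n => ?_)
    (fun g => ?_)
  · refine HasF.smul _ ?_
    refine HasF.mono (hasF_sum (Finset.range n) (fun j g => (ρ⁻¹ * b g) ^ j)
      (fun j => (‖ρ⁻¹‖ * C) ^ j) fun j _ => (h.smul ρ⁻¹).pow j) ?_
    have e : ‖ρ⁻¹‖ * C = C / ‖ρ‖ := by rw [norm_inv]; ring
    rw [e, ← tsum_geometric_of_lt_one hr0 hr]
    exact (summable_geometric_of_lt_one hr0 hr).sum_le_tsum _ fun j _ => pow_nonneg hr0 j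
  · have h1 : ‖ρ⁻¹ * b g‖ < 1 := by
      rw [norm_mul, norm_inv]
      calc ‖ρ‖⁻¹ * ‖b g‖ ≤ ‖ρ‖⁻¹ * C := mul_le_mul_of_nonneg_left (h.bound g) (by positivity)
        _ = C / ‖ρ‖ := by ring
        _ < 1 := hr
    have h2 := (hasSum_geometric_of_norm_lt_one h1).tendsto_sum_nat.const_mul ρ⁻¹
    have e : (ρ - b g)⁻¹ = ρ⁻¹ * (1 - ρ⁻¹ * b g)⁻¹ := by
      rw [← mul_inv]
      congr 1
      rw [mul_sub, mul_one, mul_inv_cancel_left₀ hne]
    rw [e]
    exact h2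

end General

end Pool.Agent.H71R3.FS
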