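import Mathlib
import Pool.Agent.H71R3.HasF

set_option autoImplicit false

namespace Pool.Agent.H71R3.Zafran

open Pool.Agent.H71R3.FS Filter Topology

/-- the (restricted) direct sum of a sequence of groups -/
def DS (F : ℕ → Type) [∀ m, Group (F m)] : Subgroup (∀ m, F m) where
  carrier := {x | {m | x m ≠ 1}.Finite}
  one_mem' := by simp
  mul_mem' := by
    intro x y hx hy
    refine (Set.Finite.union hx hy).subset fun m hm => ?_
    by_contra h
    rw [Set.mem_union, not_or] at h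
    have h1 : x m = 1 := by_contra h.1
    have h2 : y m = 1 := by_contra h.2
    exact hm (by rw [Pi.mul_apply, h1, h2, one_mul])
  inv_mem' := by
    intro x hx
    refine Set.Finite.subset hx fun m hm => ?_
    intro h
    exact hm (by rw [Pi.inv_apply, h, inv_one])

section One

variable {H : Type} [Group H]

open Classical in
/-- `δ_e` -/
noncomputable def dlt (y : H) : ℂ := if y = 1 then 1 else 0

theorem dlt_one : dlt (1 : H) = 1 := by unfold dlt; rw [if_pos rfl]

theorem dlt_ne {y : H} (hy : y ≠ 1) : dlt y = 0 := by unfold dlt; rw [if_neg hy]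

theorem hasF_dlt : HasF (dlt : H → ℂ) 1 := by
  classical
  refine (hasF_pd (pd_delta (G := H)) (by simp)).congr fun g => ?_
  by_cases hg : g = 1
  · rw [hg, dlt_one, if_pos rfl]
  · rw [dlt_ne hg, if_neg hg]

end One

variable {F : ℕ → Type} [∀ m, Group (F m)]

/-- coordinates -/
def pr (m : ℕ) : DS F →* F m := (Pi.evalMonoidHom F m).comp (DS F).subtype

theorem pr_apply (m : ℕ) (x : DS F) : pr m x = x.1 m := rfl

theorem fin_supp (x : DS F) : {m | x.1 m ≠ 1}.Finite := x.2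

theorem exists_bound (x : DS F) : ∃ K, ∀ m, K ≤ m → x.1 m = 1 := by
  obtain ⟨K, hK⟩ := (fin_supp x).bddAbove
  refine ⟨K + 1, fun m hm => ?_⟩
  by_contra h
  have := hK h
  omega

open Classical in
/-- indicator of the subgroup of the sequences with trivial coordinates from `k` on -/
noncomputable def Ek (k : ℕ) (x : DS F) : ℂ := if ∀ m, k ≤ m → x.1 m = 1 then 1 else 0

theorem Ek_succ (k : ℕ) (x : DS F) : Ek k x = dlt (x.1 k) * Ek (k + 1) x := by
  unfold Ek
  by_cases h : ∀ m, k ≤ m → x.1 m = 1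
  · rw [if_pos h, if_pos (fun m hm => h m (by omega)), h k le_rfl, dlt_one, one_mul]
  · rw [if_neg h]
    by_cases h2 : x.1 k = 1
    · rw [if_neg, mul_zero]
      intro h3
      apply h
      intro m hm
      rcases Nat.eq_or_lt_of_le hm with h4 | h4
      · rw [← h4]; exact h2
      · exact h3 m (by omega)
    · rw [dlt_ne h2, zero_mul]

theorem Ek_eq_one {k : ℕ} {x : DS F} (h : ∀ m, k ≤ m → x.1 m = 1) : Ek k x = 1 := by
  unfold Ek; rw [if_pos h]

theorem Ek_eq_zero {k : ℕ} {x : DS F} (h : ¬ ∀ m, k ≤ m → x.1 m = 1) : Ek k x = 0 := by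
  unfold Ek; rw [if_neg h]

theorem Ek_prod (k j : ℕ) (x : DS F) :
    Ek k x = (∏ m ∈ Finset.range j, dlt (x.1 (k + m))) * Ek (k + j) x := by
  induction j with
  | zero => simp
  | succ j ih =>
    rw [ih, Finset.prod_range_succ, Ek_succ (k + j), mul_assoc]
    rfl

theorem hasF_Ek (k : ℕ) : HasF (Ek k : DS F → ℂ) 1 := by
  refine HasF.lim (f := fun j x => ∏ m ∈ Finset.range j, dlt (x.1 (k + m))) (fun j => ?_)
    (fun x => ?_)
  · exact hasF_prod _ _ fun m _ => hasF_dlt.comp_hom (pr (k + m))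
  · obtain ⟨K, hK⟩ := exists_bound x
    refine tendsto_const_nhds.congr' ?_
    filter_upwards [eventually_ge_atTop K] with j hj
    rw [Ek_prod k j, Ek_eq_one (fun m hm => hK m (by omega)), mul_one]

/-- truncated product -/
noncomputable def ck (h : ∀ m, F m → ℂ) (k : ℕ) (x : DS F) : ℂ :=
  (∏ m ∈ Finset.range k, h m (x.1 m)) * Ek k x

/-- infinite product -/
noncomputable def PP (h : ∀ m, F m → ℂ) (x : DS F) : ℂ :=
  ∏ m ∈ (fin_supp x).toFinset, h m (x.1 m)

theorem hasF_ck {h : ∀ m, F m → ℂ} (h1 : ∀ m, HasF (h m) 1) (k : ℕ) :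
    HasF (ck h k : DS F → ℂ) 1 := by
  have h2 : HasF (fun x : DS F => ∏ m ∈ Finset.range k, h m (x.1 m)) 1 :=
    hasF_prod _ _ fun m _ => (h1 m).comp_hom (pr m)
  exact (h2.mul (hasF_Ek k)).mono (by norm_num)

theorem hasF_ck_succ {h : ∀ m, F m → ℂ} (h1 : ∀ m, HasF (h m) 1) (η : ℕ → ℝ)
    (h2 : ∀ m, HasF (fun y => h m y - dlt y) (η m)) (k : ℕ) :
    HasF (fun x : DS F => ck h (k + 1) x - ck h k x) (η k) := by
  have h3 : HasF (fun x : DS F => ∏ m ∈ Finset.range k, h m (x.1 m)) 1 :=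
    hasF_prod _ _ fun m _ => (h1 m).comp_hom (pr m)
  have h4 := (h3.mul ((h2 k).comp_hom (pr k))).mul (hasF_Ek (k + 1))
  refine (h4.congr fun x => ?_).mono (by simp)
  unfold ck
  rw [Finset.prod_range_succ, Ek_succ k x, pr_apply]
  ring

theorem hasF_ck_diff {h : ∀ m, F m → ℂ} (h1 : ∀ m, HasF (h m) 1) (η : ℕ → ℝ)
    (h2 : ∀ m, HasF (fun y => h m y - dlt y) (η m)) (M j : ℕ) :
    HasF (fun x : DS F => ck h (M + j) x - ck h M x) (∑ m ∈ Finset.range j, η (M + m)) := by
  induction j with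
  | zero => exact hasF_zero.congr fun x => by simp
  | succ j ih =>
    rw [Finset.sum_range_succ]
    refine (ih.add (hasF_ck_succ h1 η h2 (M + j))).congr fun x => ?_
    rw [add_assoc M j 1]
    ring

theorem ck_eventually {h : ∀ m, F m → ℂ} (h0 : ∀ m, h m 1 = 1) (x : DS F) :
    ∀ᶠ k in atTop, ck h k x = PP h x := by
  obtain ⟨K, hK⟩ := exists_bound x
  filter_upwards [eventually_ge_atTop K] with k hk
  unfold ck PP
  rw [Ek_eq_one (fun m hm => hK m (by omega)), mul_one]
  symm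
  refine Finset.prod_subset (fun m hm => ?_) (fun m _ hm => ?_)
  · rw [Set.Finite.mem_toFinset] at hm
    rw [Finset.mem_range]
    by_contra h3
    exact hm (hK m (by omega))
  · rw [Set.Finite.mem_toFinset] at hm
    have : x.1 m = 1 := by_contra hm
    rw [this, h0]

theorem hasF_PP {h : ∀ m, F m → ℂ} (h0 : ∀ m, h m 1 = 1) (h1 : ∀ m, HasF (h m) 1) :
    HasF (PP h : DS F → ℂ) 1 :=
  HasF.lim (hasF_ck h1) fun x => tendsto_const_nhds.congr' ((ck_eventually h0 x).mono
    fun _ hk => hk.symm)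

theorem hasF_PP_sub {h : ∀ m, F m → ℂ} (h0 : ∀ m, h m 1 = 1) (h1 : ∀ m, HasF (h m) 1) (η : ℕ → ℝ)
    (h2 : ∀ m, HasF (fun y => h m y - dlt y) (η m)) (M : ℕ) (D : ℝ)
    (hD : ∀ j, ∑ m ∈ Finset.range j, η (M + m) ≤ D) :
    HasF (fun x : DS F => PP h x - ck h M x) D := by
  refine HasF.lim (f := fun j x => ck h (M + j) x - ck h M x)
    (fun j => (hasF_ck_diff h1 η h2 M j).mono (hD j)) fun x => ?_
  refine tendsto_const_nhds.congr' ?_
  have h3 := (ck_eventually h0 x).filter_mono (tendsto_add_atTop_nat M)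
  filter_upwards [(tendsto_add_atTop_nat M).eventually (ck_eventually h0 x)] with j hj
  rw [add_comm M j, hj]

/-- the truncated products are square summable -/
theorem summable_ck {h : ∀ m, F m → ℂ} (M : ℕ)
    (hs : ∀ m, m < M → Summable fun y => ‖h m y‖ ^ 2) :
    Summable fun x : DS F => ‖ck h M x‖ ^ 2 := by
  classical
  refine summable_of_sum_le (c := ∏ m : Fin M, ∑' y, ‖h m y‖ ^ 2) (fun x => sq_nonneg _) fun S => ?_
  set S' := S.filter (fun x => ∀ m, M ≤ m → x.1 m = 1) with hS'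
  have e1 : ∑ x ∈ S, ‖ck h M x‖ ^ 2 = ∑ x ∈ S', ∏ m : Fin M, ‖h m (x.1 m)‖ ^ 2 := by
    rw [hS', Finset.sum_filter]
    refine Finset.sum_congr rfl fun x _ => ?_
    by_cases hx : ∀ m, M ≤ m → x.1 m = 1
    · rw [if_pos hx]
      unfold ck
      rw [Ek_eq_one hx, mul_one, norm_prod, Finset.prod_range, ← Finset.prod_pow]
    · rw [if_neg hx]
      unfold ck
      rw [Ek_eq_zero hx]; simp
  rw [e1]
  let J : DS F → (∀ m : Fin M, F m) := fun x m => x.1 m
  have hinj : Set.InjOn J S' := by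
    intro x hx y hy hxy
    rw [hS', Finset.coe_filter] at hx hy
    refine Subtype.ext (funext fun m => ?_)
    by_cases hm : m < M
    · exact congrFun hxy ⟨m, hm⟩
    · rw [hx.2 m (by omega), hy.2 m (by omega)]
  let T : ∀ m : Fin M, Finset (F m) := fun m => S'.image fun x => x.1 m
  calc ∑ x ∈ S', ∏ m : Fin M, ‖h m (x.1 m)‖ ^ 2
      = ∑ p ∈ S'.image J, ∏ m : Fin M, ‖h m (p m)‖ ^ 2 := by
        rw [Finset.sum_image hinj]
    _ ≤ ∑ p ∈ Fintype.piFinset T, ∏ m : Fin M, ‖h m (p m)‖ ^ 2 := by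
        refine Finset.sum_le_sum_of_subset_of_nonneg (fun p hp => ?_) (fun _ _ _ => by positivity)
        rw [Finset.mem_image] at hp
        obtain ⟨x, hx, rfl⟩ := hp
        rw [Fintype.mem_piFinset]
        intro m
        exact Finset.mem_image_of_mem _ hx
    _ = ∏ m : Fin M, ∑ y ∈ T m, ‖h m y‖ ^ 2 := 
        (Finset.prod_univ_sum T (fun (m : Fin M) (y : F m) => ‖h m y‖ ^ 2)).symm
    _ ≤ ∏ m : Fin M, ∑' y, ‖h m y‖ ^ 2 := by
        refine Finset.prod_le_prod (fun m _ => Finset.sum_nonneg fun _ _ => sq_nonneg _)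
          fun m _ => (hs m m.2).sum_le_tsum _ fun _ _ => sq_nonneg _

end Pool.Agent.H71R3.Zafran
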