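import Mathlib

set_option autoImplicit false

namespace Pool.Agent.H71R3.Groth

open Filter Topology MeasureTheory
open scoped NNReal CompactlySupported

section Variation

variable {K : Type*} [TopologicalSpace K] [CompactSpace K]

/-- the variation of a functional on nonnegative functions -/
noncomputable def var (Λ : C(K, ℝ) →L[ℝ] ℝ) (F : K → ℝ) : ℝ :=
  sSup {t | ∃ G : C(K, ℝ), (∀ k, |G k| ≤ F k) ∧ Λ G = t}

variable (Λ : C(K, ℝ) →L[ℝ] ℝ)

theorem var_bdd {F : K → ℝ} {B : ℝ} (hB : ∀ k, F k ≤ B) (hB0 : 0 ≤ B) :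
    BddAbove {t | ∃ G : C(K, ℝ), (∀ k, |G k| ≤ F k) ∧ Λ G = t} := by
  refine ⟨‖Λ‖ * B, ?_⟩
  rintro t ⟨G, hG, rfl⟩
  refine (le_abs_self _).trans ((Λ.le_opNorm G).trans ?_)
  refine mul_le_mul_of_nonneg_left ?_ (norm_nonneg _)
  exact (ContinuousMap.norm_le _ hB0).2 fun k => (hG k).trans (hB k)

theorem exists_bd (F : C(K, ℝ)) : ∃ B : ℝ, 0 ≤ B ∧ ∀ k, F k ≤ B :=
  ⟨‖F‖, norm_nonneg _, fun k => (le_abs_self _).trans (F.norm_coe_le_norm k)⟩

theorem var_nonneg (F : C(K, ℝ)) (hF : ∀ k, 0 ≤ F k) : 0 ≤ var Λ F := by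
  obtain ⟨B, hB0, hB⟩ := exists_bd F
  exact le_csSup (var_bdd Λ hB hB0) ⟨0, fun k => by simpa using hF k, by simp⟩

theorem le_var (F : C(K, ℝ)) (G : C(K, ℝ)) (h : ∀ k, |G k| ≤ F k) : Λ G ≤ var Λ F := by
  obtain ⟨B, hB0, hB⟩ := exists_bd F
  exact le_csSup (var_bdd Λ hB hB0) ⟨G, h, rfl⟩

theorem var_add (F1 F2 : C(K, ℝ)) (h1 : ∀ k, 0 ≤ F1 k) (h2 : ∀ k, 0 ≤ F2 k) :
    var Λ (fun k => F1 k + F2 k) = var Λ F1 + var Λ F2 := by
  apply le_antisymm
  · refine csSup_le ⟨0, 0, fun k => ?_, by simp⟩ ?_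
    · simpa using add_nonneg (h1 k) (h2 k)
    · rintro t ⟨G, hG, rfl⟩
      let G1 : C(K, ℝ) := ⟨fun k => max (min (G k) (F1 k)) (-(F1 k)), by fun_prop⟩
      have e : G = G1 + (G - G1) := by abel
      rw [e, map_add]
      refine add_le_add (le_var Λ F1 G1 fun k => ?_) (le_var Λ F2 (G - G1) fun k => ?_)
      · show |max (min (G k) (F1 k)) (-(F1 k))| ≤ F1 k
        rw [abs_le]
        exact ⟨le_max_right _ _, max_le (min_le_right _ _) (by linarith [h1 k])⟩
      · show |G k - max (min (G k) (F1 k)) (-(F1 k))| ≤ F2 k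
        have hG' := abs_le.1 (hG k)
        have a1 := h1 k
        have a2 := h2 k
        rcases le_total (G k) (F1 k) with h | h
        · rw [min_eq_left h]
          rcases le_total (-(F1 k)) (G k) with h' | h'
          · rw [max_eq_left h', sub_self, abs_zero]; exact a2
          · rw [max_eq_right h', abs_le]; constructor <;> linarith [hG'.1]
        · rw [min_eq_right h, max_eq_left (by linarith), abs_le]
          constructor <;> linarith [hG'.2]
  · obtain ⟨B1, hB10, hB1⟩ := exists_bd F1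
    obtain ⟨B2, hB20, hB2⟩ := exists_bd F2
    have hb : BddAbove {t | ∃ G : C(K, ℝ), (∀ k, |G k| ≤ F1 k + F2 k) ∧ Λ G = t} :=
      var_bdd Λ (B := B1 + B2) (fun k => add_le_add (hB1 k) (hB2 k)) (by positivity)
    have key : ∀ G1 G2 : C(K, ℝ), (∀ k, |G1 k| ≤ F1 k) → (∀ k, |G2 k| ≤ F2 k) →
        Λ G1 + Λ G2 ≤ var Λ (fun k => F1 k + F2 k) := by
      intro G1 G2 hG1 hG2
      rw [← map_add]
      exact le_csSup hb ⟨G1 + G2, fun k => (abs_add_le _ _).trans (add_le_add (hG1 k) (hG2 k)), rfl⟩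
    have hne1 : {t | ∃ G : C(K, ℝ), (∀ k, |G k| ≤ F1 k) ∧ Λ G = t}.Nonempty :=
      ⟨0, 0, fun k => by simpa using h1 k, by simp⟩
    have hne2 : {t | ∃ G : C(K, ℝ), (∀ k, |G k| ≤ F2 k) ∧ Λ G = t}.Nonempty :=
      ⟨0, 0, fun k => by simpa using h2 k, by simp⟩
    have s1 : ∀ G2 : C(K, ℝ), (∀ k, |G2 k| ≤ F2 k) →
        var Λ F1 ≤ var Λ (fun k => F1 k + F2 k) - Λ G2 := by
      intro G2 hG2
      refine csSup_le hne1 ?_
      rintro t ⟨G1, hG1, rfl⟩
      linarith [key G1 G2 hG1 hG2]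
    have s2 : var Λ F2 ≤ var Λ (fun k => F1 k + F2 k) - var Λ F1 := by
      refine csSup_le hne2 ?_
      rintro t ⟨G2, hG2, rfl⟩
      linarith [s1 G2 hG2]
    linarith

theorem var_smul_le (F : C(K, ℝ)) (hF : ∀ k, 0 ≤ F k) (c : ℝ) (hc : 0 ≤ c) :
    c * var Λ F ≤ var Λ (fun k => c * F k) := by
  rcases eq_or_lt_of_le hc with h0 | h0
  · subst h0
    rw [zero_mul]
    have := var_nonneg Λ (0 : C(K, ℝ)) (fun k => le_rfl)
    have e : (fun k => (0 : ℝ) * F k) = ((0 : C(K, ℝ)) : K → ℝ) := by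
      funext k; simp
    rw [e]; exact this
  · rw [← le_div_iff₀' h0]
    refine csSup_le ⟨0, 0, fun k => by simpa using hF k, by simp⟩ ?_
    rintro t ⟨G, hG, rfl⟩
    rw [le_div_iff₀' h0]
    have h1 := le_var Λ (c • F) (c • G) (fun k => by
      show |c * G k| ≤ c * F k
      rw [abs_mul, abs_of_pos h0]
      exact mul_le_mul_of_nonneg_left (hG k) hc)
    rw [map_smul] at h1
    exact h1

theorem var_smul (F : C(K, ℝ)) (hF : ∀ k, 0 ≤ F k) (c : ℝ) (hc : 0 ≤ c) :
    var Λ (fun k => c * F k) = c * var Λ F := by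
  rcases eq_or_lt_of_le hc with h0 | h0
  · subst h0
    have e : (fun k => (0 : ℝ) * F k) = fun k => (0 : ℝ) := by
      funext k; simp
    rw [e, zero_mul]
    unfold var
    have : {t | ∃ G : C(K, ℝ), (∀ k, |G k| ≤ 0) ∧ Λ G = t} = {0} := by
      ext t
      constructor
      · rintro ⟨G, hG, rfl⟩
        have : G = 0 := by
          ext k
          exact abs_eq_zero.1 (le_antisymm (hG k) (abs_nonneg _))
        rw [this, map_zero]; rfl
      · rintro rfl
        exact ⟨0, fun k => by simp, by simp⟩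
    rw [this]; simp
  · refine le_antisymm ?_ (var_smul_le Λ F hF c hc)
    have h1 := var_smul_le Λ (c • F) (fun k => mul_nonneg hc (hF k)) c⁻¹ (by positivity)
    have e : (fun k => c⁻¹ * (c • F) k) = F := by
      funext k
      show c⁻¹ * (c * F k) = F k
      rw [inv_mul_cancel_left₀ h0.ne']
    rw [e] at h1
    have h2 : c⁻¹ * var Λ (fun k => c * F k) ≤ var Λ F := h1
    rwa [inv_mul_le_iff₀ h0] at h2

/-- real valued version of a `C_c(K, ℝ≥0)` function -/
noncomputable def re (F : C_c(K, ℝ≥0)) : C(K, ℝ) := ⟨fun k => (F k : ℝ), by fun_prop⟩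

/-- the variation as a positive linear functional -/
noncomputable def varLin : C_c(K, ℝ≥0) →ₗ[ℝ≥0] ℝ≥0 where
  toFun F := ⟨var Λ (re F), var_nonneg Λ _ fun k => (F k).2⟩
  map_add' F G := by
    apply NNReal.eq
    show var Λ (re (F + G)) = var Λ (re F) + var Λ (re G)
    rw [← var_add Λ (re F) (re G) (fun k => (F k).2) (fun k => (G k).2)]
    rfl
  map_smul' c F := by
    apply NNReal.eq
    show var Λ (re (c • F)) = c * var Λ (re F)
    rw [← var_smul Λ (re F) (fun k => (F k).2) c c.2]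
    rfl

end Variation

section DCT

variable {K : Type*} [TopologicalSpace K] [CompactSpace K] [T2Space K]

/-- bounded pointwise convergence of continuous functions implies weak convergence -/
theorem tendsto_of_pointwise (Λ : C(K, ℝ) →L[ℝ] ℝ) (F : ℕ → C(K, ℝ)) (F0 : C(K, ℝ)) (B : ℝ)
    (hB : ∀ n, ‖F n‖ ≤ B) (h : ∀ k, Tendsto (fun n => F n k) atTop (𝓝 (F0 k))) :
    Tendsto (fun n => Λ (F n)) atTop (𝓝 (Λ F0)) := by
  let _ : MeasurableSpace K := borel K
  have _ : BorelSpace K := ⟨rfl⟩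
  set μ := NNRealRMK.rieszMeasure (varLin Λ) with hμ
  have hfin : IsFiniteMeasure μ := by
    have _ : μ.Regular := inferInstance
    exact CompactSpace.isFiniteMeasure
  have key : ∀ G : C(K, ℝ), |Λ G| ≤ ∫ k, |G k| ∂μ := by
    intro G
    let A : C_c(K, ℝ≥0) := ⟨⟨fun k => ‖G k‖₊, by fun_prop⟩, HasCompactSupport.of_compactSpace _⟩
    have h1 := NNRealRMK.integral_rieszMeasure (varLin Λ) A
    have h2 : (∫ k, (A k : ℝ) ∂μ) = ∫ k, |G k| ∂μ := rfl
    rw [← h2, hμ, h1]
    show |Λ G| ≤ var Λ (re A)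
    rw [abs_le]
    constructor
    · have := le_var Λ (re A) (-G) (fun k => by
        show |-(G k)| ≤ |G k|
        rw [abs_neg])
      rw [map_neg] at this
      linarith
    · exact le_var Λ (re A) G (fun k => le_rfl)
  have h3 : Tendsto (fun n => ∫ k, |(F n - F0) k| ∂μ) atTop (𝓝 (∫ _, (0 : ℝ) ∂μ)) := by
    refine tendsto_integral_of_dominated_convergence (fun _ => B + ‖F0‖) (fun n => ?_) ?_ ?_ ?_
    · exact ((F n - F0).continuous.abs).aestronglyMeasurable
    · exact integrable_const _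
    · intro n
      refine Eventually.of_forall fun k => ?_
      show ‖|F n k - F0 k|‖ ≤ _
      rw [norm_abs_eq_norm]
      refine (norm_sub_le _ _).trans (add_le_add ?_ (F0.norm_coe_le_norm k))
      exact ((F n).norm_coe_le_norm k).trans (hB n)
    · refine Eventually.of_forall fun k => ?_
      have h4 := ((h k).sub_const (F0 k)).abs
      rw [sub_self, abs_zero] at h4
      exact h4
  rw [integral_zero] at h3
  rw [tendsto_iff_dist_tendsto_zero]
  refine squeeze_zero (fun _ => dist_nonneg) (fun n => ?_) h3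
  rw [Real.dist_eq, ← map_sub]
  exact key _

end DCT

section Tight

variable {K : Type*} [TopologicalSpace K] [CompactSpace K]

/-- `h` is in the pointwise closure of `A` -/
def PC (A : Set C(K, ℝ)) (h : C(K, ℝ)) : Prop :=
  ∀ (s : Finset K) (ε : ℝ), 0 < ε → ∃ a ∈ A, ∀ k ∈ s, |a k - h k| < ε

/-- countable tightness -/
theorem exists_countable (A : Set C(K, ℝ)) (h : C(K, ℝ)) (hA : PC A h) :
    ∃ A0 : Set C(K, ℝ), A0.Countable ∧ A0 ⊆ A ∧ PC A0 h := by
  classical
  have step : ∀ n : ℕ, ∃ An : Finset C(K, ℝ), (An : Set C(K, ℝ)) ⊆ A ∧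
      ∀ v : Fin n → K, ∃ a ∈ An, ∀ i, |a (v i) - h (v i)| < 1 / ((n : ℝ) + 1) := by
    intro n
    have h1 : ∀ v : Fin n → K, ∃ a ∈ A, ∀ i, |a (v i) - h (v i)| < 1 / ((n : ℝ) + 1) := by
      intro v
      obtain ⟨a, ha, h2⟩ := hA (Finset.univ.image v) (1 / ((n : ℝ) + 1)) (by positivity)
      exact ⟨a, ha, fun i => h2 (v i) (Finset.mem_image_of_mem _ (Finset.mem_univ i))⟩
    choose a ha h2 using h1
    let U : (Fin n → K) → Set (Fin n → K) := fun v =>
      {w | ∀ i, |a v (w i) - h (w i)| < 1 / ((n : ℝ) + 1)}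
    have hU : ∀ v, IsOpen (U v) := by
      intro v
      have : U v = ⋂ i, {w : Fin n → K | |a v (w i) - h (w i)| < 1 / ((n : ℝ) + 1)} := by
        ext w; simp [U]
      rw [this]
      refine isOpen_iInter_of_finite fun i => ?_
      exact isOpen_lt (by fun_prop) continuous_const
    obtain ⟨t, ht⟩ := isCompact_univ.elim_finite_subcover U hU
      (fun v _ => Set.mem_iUnion.2 ⟨v, h2 v⟩)
    refine ⟨t.image a, ?_, fun v => ?_⟩
    · intro b hb
      rw [Finset.coe_image] at hb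
      obtain ⟨v, -, rfl⟩ := hb
      exact ha v
    · have h3 := ht (Set.mem_univ v)
      rw [Set.mem_iUnion₂] at h3
      obtain ⟨w, hw, h4⟩ := h3
      exact ⟨a w, Finset.mem_image_of_mem _ hw, h4⟩
  choose An hAn1 hAn2 using step
  refine ⟨⋃ n, (An n : Set C(K, ℝ)), Set.countable_iUnion fun n => (An n).countable_toSet,
    Set.iUnion_subset hAn1, fun s ε hε => ?_⟩
  obtain ⟨m, hm⟩ := exists_nat_one_div_lt hε
  rcases s.eq_empty_or_nonempty with hs | hs
  · obtain ⟨a, ha, -⟩ := hAn2 0 (fun i => i.elim0)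
    exact ⟨a, Set.mem_iUnion.2 ⟨0, ha⟩, fun k hk => by rw [hs] at hk; simp at hk⟩
  · obtain ⟨k0, hk0⟩ := hs
    let n := max m s.card
    let v : Fin n → K := fun i => if hi : (i : ℕ) < s.card then s.equivFin.symm ⟨i, hi⟩ else k0
    obtain ⟨a, ha, h2⟩ := hAn2 n v
    refine ⟨a, Set.mem_iUnion.2 ⟨n, ha⟩, fun k hk => ?_⟩
    have hlt : ((s.equivFin ⟨k, hk⟩ : Fin s.card) : ℕ) < n :=
      lt_of_lt_of_le (s.equivFin ⟨k, hk⟩).2 (le_max_right _ _)
    have h3 := h2 ⟨_, hlt⟩
    have h4 : v ⟨_, hlt⟩ = k := by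
      simp only [v]
      rw [dif_pos (s.equivFin ⟨k, hk⟩).2]
      simp
    rw [h4] at h3
    refine h3.trans (lt_of_le_of_lt ?_ hm)
    apply one_div_le_one_div_of_le (by positivity)
    have : (m : ℝ) ≤ (n : ℝ) := by exact_mod_cast le_max_left _ _
    linarith

end Tight

section Main

variable {X K : Type*} [TopologicalSpace X] [CompactSpace X] [TopologicalSpace K] [CompactSpace K]
  [T2Space K]

/-- **Grothendieck.** -/
theorem continuous_functional (Φ : X → C(K, ℝ)) (hΦ : ∀ k, Continuous fun x => Φ x k) (B : ℝ)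
    (hB : ∀ x, ‖Φ x‖ ≤ B) (Λ : C(K, ℝ) →L[ℝ] ℝ) : Continuous fun x => Λ (Φ x) := by
  classical
  rw [continuous_iff_continuousAt]
  intro x0
  by_contra hnot
  rw [ContinuousAt, Metric.tendsto_nhds] at hnot
  push Not at hnot
  obtain ⟨ε, hε, hfreq⟩ := hnot
  set A : Set C(K, ℝ) := {a | ∃ x, Φ x = a ∧ ε ≤ |Λ (Φ x) - Λ (Φ x0)|} with hA
  have hPC : PC A (Φ x0) := by
    intro s δ hδ
    have h1 : ∀ᶠ x in 𝓝 x0, ∀ k ∈ s, |Φ x k - Φ x0 k| < δ := by
      rw [Filter.eventually_all_finset]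
      intro k _
      have := (hΦ k).continuousAt (x := x0)
      rw [ContinuousAt, Metric.tendsto_nhds] at this
      exact this δ hδ
    obtain ⟨x, hx1, hx2⟩ := (hfreq.and_eventually h1).exists
    refine ⟨Φ x, ⟨x, rfl, ?_⟩, hx2⟩
    rw [Real.dist_eq] at hx1
    exact hx1
  obtain ⟨A0, hc, hsub, hPC0⟩ := exists_countable A (Φ x0) hPC
  have hne : A0.Nonempty := by
    obtain ⟨a, ha, -⟩ := hPC0 ∅ 1 one_pos
    exact ⟨a, ha⟩
  obtain ⟨e, he⟩ := hc.exists_eq_range hne
  -- the quotient map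
  let q : K → (ℕ → ℝ) := fun k n => e n k
  have hq : Continuous q := continuous_pi fun n => (e n).continuous
  -- functions in the pointwise closure of `A0` are constant on the fibres of `q`
  have hfib : ∀ g : C(K, ℝ), PC A0 g → ∀ k k', q k = q k' → g k = g k' := by
    intro g hg k k' hkk
    by_contra hne'
    have hpos : 0 < |g k - g k'| / 2 := by
      have := abs_pos.2 (sub_ne_zero.2 hne'); positivity
    obtain ⟨a, ha, h1⟩ := hg {k, k'} _ hpos
    rw [he] at ha
    obtain ⟨n, rfl⟩ := ha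
    have h2 := h1 k (by simp)
    have h3 := h1 k' (by simp)
    have h4 : e n k = e n k' := congrFun hkk n
    rw [h4] at h2
    have h5 : |g k - g k'| ≤ |e n k' - g k| + |e n k' - g k'| := by
      have : g k - g k' = -(e n k' - g k) + (e n k' - g k') := by ring
      rw [this]
      exact (abs_add_le _ _).trans (by rw [abs_neg])
    linarith
  -- countable set with dense image
  obtain ⟨D, hDc, hDd⟩ := TopologicalSpace.exists_countable_dense (Set.range q)
  choose pre hpre using fun y : Set.range q => y.2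
  -- enumerations
  have hDne : ∃ d : ℕ → K, ∀ y ∈ D, ∃ n, d n = pre y := by
    rcases D.eq_empty_or_nonempty with hD0 | hD0
    · rcases isEmpty_or_nonempty K with hK | hK
      · obtain ⟨a, ha⟩ := hne
        exfalso
        have hsubs : ∀ a b : C(K, ℝ), a = b := fun a b => by ext k; exact hK.elim k
        obtain ⟨x, hx, hx2⟩ := hsub ha
        rw [hsubs (Φ x) (Φ x0), sub_self, abs_zero] at hx2
        linarith
      · obtain ⟨k⟩ := hK
        exact ⟨fun _ => k, fun y hy => by rw [hD0] at hy; exact absurd hy (Set.notMem_empty y)⟩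
    · obtain ⟨f, hf⟩ := hDc.exists_eq_range hD0
      refine ⟨fun n => pre (f n), fun y hy => ?_⟩
      rw [hf] at hy
      obtain ⟨n, rfl⟩ := hy
      exact ⟨n, rfl⟩
  obtain ⟨d, hd⟩ := hDne
  -- equality of functions
  have heq : ∀ g g' : C(K, ℝ), PC A0 g → PC A0 g' → (∀ n, g (d n) = g' (d n)) → g = g' := by
    intro g g' hg hg' hdd
    ext k
    have hk : (⟨q k, k, rfl⟩ : Set.range q) ∈ closure D := hDd _
    rw [mem_closure_iff_ultrafilter] at hk
    obtain ⟨U, hUD, hU⟩ := hk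
    obtain ⟨k', -, hk'⟩ := isCompact_univ.ultrafilter_le_nhds (U.map pre) (by simp)
    have h1 : Tendsto pre U (𝓝 k') := hk'
    have h2 : Tendsto (fun y => q (pre y)) U (𝓝 (q k')) := (hq.tendsto k').comp h1
    have h3 : (fun y => q (pre y)) = fun y : Set.range q => (y : ℕ → ℝ) := funext hpre
    rw [h3] at h2
    have h4 : Tendsto (fun y : Set.range q => (y : ℕ → ℝ)) U (𝓝 (q k)) :=
      (continuous_subtype_val.tendsto _).comp hU
    have hqk : q k' = q k := tendsto_nhds_unique h2 h4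
    have h5 : Tendsto (fun y => g (pre y)) U (𝓝 (g k')) := (g.continuous.tendsto k').comp h1
    have h6 : Tendsto (fun y => g' (pre y)) U (𝓝 (g' k')) := (g'.continuous.tendsto k').comp h1
    have h7 : (fun y => g (pre y)) =ᶠ[U] fun y => g' (pre y) := by
      filter_upwards [hUD] with y hy
      obtain ⟨n, hn⟩ := hd y hy
      rw [← hn, hdd]
    have h8 := tendsto_nhds_unique (h5.congr' h7) h6
    rw [hfib g hg k k' hqk.symm, hfib g' hg' k k' hqk.symm, h8]
  -- the sequence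
  have hseq : ∀ j : ℕ, ∃ x, (ε ≤ |Λ (Φ x) - Λ (Φ x0)| ∧ Φ x ∈ A0) ∧
      ∀ i < j + 1, |Φ x (d i) - Φ x0 (d i)| < 1 / ((j : ℝ) + 1) := by
    intro j
    obtain ⟨a, ha, h1⟩ := hPC0 ((Finset.range (j + 1)).image d) (1 / ((j : ℝ) + 1)) (by positivity)
    obtain ⟨x, hx, hx2⟩ := hsub ha
    refine ⟨x, ⟨hx2, by rw [hx]; exact ha⟩, fun i hi => ?_⟩
    rw [hx]
    exact h1 _ (Finset.mem_image_of_mem _ (Finset.mem_range.2 hi))
  choose x hx1 hx2 using hseq
  have hconv : ∀ k, Tendsto (fun j => Φ (x j) k) atTop (𝓝 (Φ x0 k)) := by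
    intro k
    rw [tendsto_iff_ultrafilter]
    intro U hU
    obtain ⟨x', -, hx'⟩ := isCompact_univ.ultrafilter_le_nhds (U.map x) (by simp)
    have h1 : Tendsto x U (𝓝 x') := hx'
    have h2 : ∀ k, Tendsto (fun j => Φ (x j) k) U (𝓝 (Φ x' k)) := fun k =>
      ((hΦ k).tendsto x').comp h1
    have h3 : ∀ n, Φ x' (d n) = Φ x0 (d n) := by
      intro n
      refine tendsto_nhds_unique (h2 (d n)) ?_
      have h4 : Tendsto (fun j => Φ (x j) (d n)) atTop (𝓝 (Φ x0 (d n))) := by
        rw [tendsto_iff_dist_tendsto_zero]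
        refine squeeze_zero' (Eventually.of_forall fun _ => dist_nonneg) ?_
          tendsto_one_div_add_atTop_nhds_zero_nat
        filter_upwards [eventually_ge_atTop n] with j hj
        rw [Real.dist_eq]
        exact (hx2 j n (by omega)).le
      exact h4.mono_left hU
    have h5 : PC A0 (Φ x') := by
      intro s δ hδ
      have h6 : ∀ᶠ j in (U : Filter ℕ), ∀ k ∈ s, |Φ (x j) k - Φ x' k| < δ := by
        rw [Filter.eventually_all_finset]
        intro k _
        have := h2 k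
        rw [Metric.tendsto_nhds] at this
        exact this δ hδ
      obtain ⟨j, hj⟩ := h6.exists
      exact ⟨Φ (x j), (hx1 j).2, hj⟩
    have h7 := heq _ _ h5 hPC0 h3
    rw [← h7]
    exact h2 k
  have hfin := tendsto_of_pointwise Λ (fun j => Φ (x j)) (Φ x0) B (fun j => hB _) hconv
  have h8 := (hfin.sub_const (Λ (Φ x0))).abs
  rw [sub_self, abs_zero] at h8
  have h9 := ge_of_tendsto' h8 (fun j => (hx1 j).1)
  linarith

end Main

end Pool.Agent.H71R3.Groth
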