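import Mathlib
import Pool.Agent.H71R3.Groth

set_option autoImplicit false

universe u

namespace Pool.Agent.H71R3.Groth

open Filter Topology

section Kernel

variable {X : Type u} [Semigroup X] [TopologicalSpace X] [CompactSpace X] [T2Space X]
  [SeparatelyContinuousMul X]

/-- left translation of a continuous function -/
def lt (a : X) (F : C(X, ℝ)) : C(X, ℝ) :=
  F.comp ⟨fun b => a * b, SeparatelyContinuousMul.continuous_const_mul⟩

theorem exists_kernel (M : C(X, ℝ) →ₗ[ℝ] ℝ) (hpos : ∀ F : C(X, ℝ), (∀ x, 0 ≤ F x) → 0 ≤ M F)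
    (h1 : M 1 = 1) (hinv : ∀ a F, M (lt a F) = M F) :
    ∃ e : X, e * e = e ∧ (∀ a, e * (a * e) = a * e) ∧
      ∀ a, ∃ b, (a * e) * (b * e) = e ∧ (b * e) * (a * e) = e := by
  classical
  have hcl : ∀ a : X, IsClosed (Set.range fun b => a * b) := fun a =>
    (isCompact_range SeparatelyContinuousMul.continuous_const_mul).isClosed
  set R : Set X := ⋂ a : X, Set.range fun b => a * b with hR
  have hmono : ∀ F G : C(X, ℝ), (∀ x, F x ≤ G x) → M F ≤ M G := by
    intro F G h
    have := hpos (G - F) (fun x => by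
      show 0 ≤ G x - F x
      linarith [h x])
    rw [map_sub] at this
    linarith
  have hRne : R.Nonempty := by
    by_contra hempty
    rw [Set.not_nonempty_iff_eq_empty] at hempty
    have h2 : ∀ p : X, ∃ (a : X) (u : C(X, ℝ)), (∀ b, u (a * b) = 0) ∧ u p = 1 ∧ ∀ x, 0 ≤ u x := by
      intro p
      have hp : p ∉ R := by rw [hempty]; exact Set.notMem_empty p
      rw [hR, Set.mem_iInter] at hp
      push Not at hp
      obtain ⟨a, ha⟩ := hp
      obtain ⟨u, hu0, hu1, hu⟩ := exists_continuous_zero_one_of_isClosed (hcl a)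
        (isClosed_singleton (x := p)) (Set.disjoint_singleton_right.2 ha)
      exact ⟨a, u, fun b => hu0 ⟨b, rfl⟩, hu1 rfl, fun x => (hu x).1⟩
    choose a u hu0 hu1 hu2 using h2
    obtain ⟨t, ht⟩ := isCompact_univ.elim_finite_subcover (fun p => {x | 1 / 2 < u p x})
      (fun p => isOpen_lt continuous_const (u p).continuous)
      (fun p _ => Set.mem_iUnion.2 ⟨p, by
        show (1 : ℝ) / 2 < u p p
        rw [hu1]; norm_num⟩)
    have h3 : M ((1 / 2 : ℝ) • (1 : C(X, ℝ))) ≤ M (∑ p ∈ t, u p) := by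
      refine hmono _ _ fun x => ?_
      have hx := ht (Set.mem_univ x)
      rw [Set.mem_iUnion₂] at hx
      obtain ⟨p, hp, hxp⟩ := hx
      have hxp' : (1 : ℝ) / 2 < u p x := hxp
      have : u p x ≤ ∑ p ∈ t, u p x :=
        Finset.single_le_sum (f := fun p => u p x) (fun p _ => hu2 p x) hp
      rw [ContinuousMap.sum_apply]
      show (1 / 2 : ℝ) * 1 ≤ _
      linarith
    rw [map_smul, h1, map_sum] at h3
    have h4 : ∀ p, M (u p) = 0 := by
      intro p
      rw [← hinv (a p) (u p)]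
      have : lt (a p) (u p) = 0 := by
        ext x
        exact hu0 p x
      rw [this, map_zero]
    rw [Finset.sum_eq_zero (fun p _ => h4 p)] at h3
    norm_num at h3
  have hRcl : IsClosed R := isClosed_iInter hcl
  have hRmem : ∀ r, r ∈ R ↔ ∀ a, ∃ b, a * b = r := by
    intro r
    rw [hR, Set.mem_iInter]
    rfl
  have hRr : ∀ r ∈ R, ∀ t, r * t ∈ R := by
    intro r hr t
    rw [hRmem] at hr ⊢
    intro a
    obtain ⟨b, hb⟩ := hr a
    exact ⟨b * t, by rw [← mul_assoc, hb]⟩
  -- for every a, R ⊆ a R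
  have hRa : ∀ a, ∀ r ∈ R, ∃ s ∈ R, a * s = r := by
    intro a r hr
    obtain ⟨r', hr'⟩ := hRne
    obtain ⟨t, ht⟩ := (hRmem r).1 hr (a * r')
    exact ⟨r' * t, hRr r' hr' t, by rw [← mul_assoc, ht]⟩
  obtain ⟨e, heR, hee⟩ := exists_idempotent_in_compact_subsemigroup
    (fun r : X => (SeparatelyContinuousMul.continuous_mul_const : Continuous (· * r))) R hRne
    hRcl.isCompact (fun x hx y _ => hRr x hx y)
  have her : ∀ r ∈ R, e * r = r := by
    intro r hr
    obtain ⟨s, -, hs⟩ := hRa e r hr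
    rw [← hs, ← mul_assoc, hee]
  have hRl : ∀ a, ∀ r ∈ R, a * r ∈ R := by
    intro a r hr
    obtain ⟨r0, hr0, h0⟩ := hRa a e heR
    obtain ⟨s, hs, h2⟩ := hRa r0 r hr
    rw [← h2, ← mul_assoc, h0]
    exact hRr e heR s
  have hinv1 : ∀ a, ∃ b, (a * e) * (b * e) = e := by
    intro a
    obtain ⟨s, hs, h2⟩ := hRa (a * e) e heR
    exact ⟨s, by rw [← mul_assoc, h2, hee]⟩
  refine ⟨e, hee, fun a => her _ (hRl a e heR), fun a => ?_⟩
  obtain ⟨b, hb⟩ := hinv1 a
  obtain ⟨c, hc⟩ := hinv1 b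
  refine ⟨b, hb, ?_⟩
  have h2 : a * e = c * e := by
    have : (a * e) * ((b * e) * (c * e)) = e * (c * e) := by rw [← mul_assoc, hb]
    rw [hc, mul_assoc, hee, her _ (hRl c e heR)] at this
    exact this
  rw [h2]
  exact hc

/-- the kernel group as an abstract compact semitopological group -/
theorem exists_group (M : C(X, ℝ) →ₗ[ℝ] ℝ) (hpos : ∀ F : C(X, ℝ), (∀ x, 0 ≤ F x) → 0 ≤ M F)
    (h1 : M 1 = 1) (hinv : ∀ a F, M (lt a F) = M F) :
    ∃ (L : Type u) (_ : Group L) (_ : TopologicalSpace L) (_ : CompactSpace L) (_ : T2Space L)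
      (_ : SeparatelyContinuousMul L) (φ : L → X), Continuous φ ∧
      (∀ a b, φ (a * b) = φ a * φ b) ∧ ∀ a g, ∃ g', a * φ g = φ g' := by
  obtain ⟨e, hee, h2, h3⟩ := exists_kernel M hpos h1 hinv
  choose iv hiv1 hiv2 using h3
  let L : Type u := {a : X // a * e = a}
  have hmem : ∀ a : X, (a * e) * e = a * e := fun a => by rw [mul_assoc, hee]
  have hel : ∀ a : L, e * a.1 = a.1 := fun a => by
    have := h2 a.1
    rwa [a.2] at this
  let _ : Mul L := ⟨fun a b => ⟨a.1 * b.1, by rw [mul_assoc, b.2]⟩⟩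
  let _ : One L := ⟨⟨e, hee⟩⟩
  let _ : Inv L := ⟨fun a => ⟨iv a.1 * e, hmem _⟩⟩
  have hmul : ∀ a b : L, (a * b).1 = a.1 * b.1 := fun _ _ => rfl
  have hone : (1 : L).1 = e := rfl
  have hinv' : ∀ a : L, (a⁻¹).1 = iv a.1 * e := fun _ => rfl
  let grp : Group L := Group.ofLeftAxioms
    (fun a b c => Subtype.ext (by rw [hmul, hmul, hmul, hmul, mul_assoc]))
    (fun a => Subtype.ext (by rw [hmul, hone, hel]))
    (fun a => Subtype.ext (by
      rw [hmul, hone, hinv']
      have := hiv2 a.1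
      rwa [a.2] at this))
  have hcomp : CompactSpace L := by
    have : IsClosed {a : X | a * e = a} :=
      isClosed_eq SeparatelyContinuousMul.continuous_mul_const continuous_id
    exact isCompact_iff_compactSpace.1 this.isCompact
  have hsep : SeparatelyContinuousMul L :=
    { continuous_const_mul := fun {a} => by
        refine Continuous.subtype_mk ?_ _
        exact (SeparatelyContinuousMul.continuous_const_mul (a := a.1)).comp continuous_subtype_val
      continuous_mul_const := fun {a} => by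
        refine Continuous.subtype_mk ?_ _
        exact (SeparatelyContinuousMul.continuous_mul_const (a := a.1)).comp continuous_subtype_val }
  refine ⟨L, grp, inferInstance, hcomp, inferInstance, hsep, Subtype.val, continuous_subtype_val,
    fun _ _ => rfl, fun a g => ⟨⟨a * g.1, by rw [mul_assoc, g.2]⟩, rfl⟩⟩

end Kernel

section TotBdd

variable {L K : Type*} [Group L] [TopologicalSpace L] [CompactSpace L] [T2Space L]
  [SeparatelyContinuousMul L] [TopologicalSpace K] [T2Space K]

/-- the closure of a subgroup of a compact semitopological group is a subgroup -/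
theorem closure_group (Γ : Subgroup L) :
    (1 : L) ∈ closure (Γ : Set L) ∧ (∀ a ∈ closure (Γ : Set L), ∀ b ∈ closure (Γ : Set L),
      a * b ∈ closure (Γ : Set L)) ∧ ∀ a ∈ closure (Γ : Set L), a⁻¹ ∈ closure (Γ : Set L) := by
  have h1 : (1 : L) ∈ closure (Γ : Set L) := subset_closure Γ.one_mem
  have h2 : ∀ a ∈ closure (Γ : Set L), ∀ b ∈ closure (Γ : Set L), a * b ∈ closure (Γ : Set L) := by
    have h3 : ∀ a ∈ (Γ : Set L), ∀ b ∈ closure (Γ : Set L), a * b ∈ closure (Γ : Set L) := by
      intro a ha b hb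
      exact map_mem_closure (f := fun b => a * b) SeparatelyContinuousMul.continuous_const_mul hb
        (fun x hx => Γ.mul_mem ha hx)
    intro a ha b hb
    have := map_mem_closure (f := fun a => a * b) SeparatelyContinuousMul.continuous_mul_const ha
      (fun x hx => h3 x hx b hb)
    rwa [closure_closure] at this
  refine ⟨h1, h2, fun a ha => ?_⟩
  obtain ⟨m, hm, hmm⟩ := exists_idempotent_in_compact_subsemigroup
    (fun r : L => (SeparatelyContinuousMul.continuous_mul_const : Continuous (· * r)))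
    ((fun b => a * b) '' closure (Γ : Set L)) ⟨a * 1, 1, h1, rfl⟩
    (isClosed_closure.isCompact.image SeparatelyContinuousMul.continuous_const_mul) (by
      rintro _ ⟨x, hx, rfl⟩ _ ⟨y, hy, rfl⟩
      exact ⟨x * (a * y), h2 x hx _ (h2 a ha y hy), by
        show a * (x * (a * y)) = a * x * (a * y)
        rw [mul_assoc]⟩)
  obtain ⟨b, hb, rfl⟩ := hm
  have h4 : a * b = 1 := by
    have : (a * b) * (a * b) = a * b := hmm
    exact mul_eq_left.1 this
  rw [inv_eq_of_mul_eq_one_right h4]
  exact hb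

/-- orbits of compact groups of nonexpansive maps are totally bounded -/
theorem tot_bdd (act : L → K → K) (hact : ∀ g h y, act (g * h) y = act g (act h y))
    (hc1 : ∀ g, Continuous (act g)) (hc2 : ∀ y, Continuous fun g => act g y)
    (p : K → K → ℝ) (hp : ∀ g x y, p (act g x) (act g y) ≤ p x y)
    (hsep : ∀ D : Set K, D.Countable → ∀ δ > 0, ∃ W : ℕ → Set K, (∀ n, IsClosed (W n)) ∧
      closure D ⊆ ⋃ n, W n ∧ ∀ n, ∀ x ∈ W n, ∀ y ∈ W n, p x y ≤ δ)
    (x0 : K) (ε : ℝ) (hε : 0 < ε) :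
    ∃ F : Finset L, ∀ g, ∃ f ∈ F, p (act f x0) (act g x0) ≤ ε := by
  classical
  by_contra hno
  push Not at hno
  obtain ⟨g, -, hg⟩ := exists_seq_of_forall_finset_exists (fun _ : L => True)
    (fun f g => ε < p (act f x0) (act g x0)) (fun s _ => by
      obtain ⟨g, hg⟩ := hno s
      exact ⟨g, trivial, hg⟩)
  set Γ : Subgroup L := (FreeGroup.lift g).range with hΓ
  have hΓc : (Γ : Set L).Countable := by
    have : Countable (FreeGroup ℕ) := FreeGroup.toWord_injective.countable
    rw [hΓ, MonoidHom.coe_range]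
    exact Set.countable_range _
  have hgΓ : ∀ n, g n ∈ Γ := fun n => ⟨FreeGroup.of n, by simp⟩
  obtain ⟨hH1, hHm, hHi⟩ := closure_group Γ
  set H : Set L := closure (Γ : Set L) with hH
  set Z : Set K := (fun h => act h x0) '' H with hZ
  have hZc : IsCompact Z := isClosed_closure.isCompact.image (hc2 x0)
  set D : Set K := (fun h => act h x0) '' (Γ : Set L) with hD
  have hZD : Z ⊆ closure D := image_closure_subset_closure_image (hc2 x0)
  obtain ⟨W, hWc, hWcov, hWd⟩ := hsep D (hΓc.image _) (ε / 2) (by positivity)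
  -- Baire
  have : CompactSpace Z := isCompact_iff_compactSpace.1 hZc
  have : Nonempty Z := ⟨⟨act 1 x0, 1, hH1, rfl⟩⟩
  obtain ⟨N, hN⟩ := nonempty_interior_of_iUnion_of_closed (X := Z)
    (f := fun n => (Subtype.val : Z → K) ⁻¹' (W n)) (fun n => (hWc n).preimage continuous_subtype_val)
    (by
      ext z
      simp only [Set.mem_iUnion, Set.mem_preimage, Set.mem_univ, iff_true]
      exact Set.mem_iUnion.1 (hWcov (hZD z.2)))
  obtain ⟨v, hv⟩ := hN
  rw [mem_interior] at hv
  obtain ⟨V', hV'sub, hV'open, hvV'⟩ := hv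
  obtain ⟨V, hVopen, rfl⟩ := isOpen_induced_iff.1 hV'open
  obtain ⟨v, h0, hh0, rfl⟩ := v
  have hV0 : act h0 x0 ∈ V := hvV'
  have hVW : ∀ z ∈ Z, z ∈ V → z ∈ W N := fun z hz hzV => hV'sub (a := ⟨z, hz⟩) hzV
  -- finite subcover
  obtain ⟨t, ht⟩ := hZc.elim_finite_subcover
    (fun h : H => {z | act (h0 * (h : L)⁻¹) z ∈ V})
    (fun h => hVopen.preimage (hc1 _))
    (by
      rintro _ ⟨h, hh, rfl⟩
      refine Set.mem_iUnion.2 ⟨⟨h, hh⟩, ?_⟩
      show act (h0 * h⁻¹) (act h x0) ∈ V
      rw [← hact, inv_mul_cancel_right]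
      exact hV0)
  have hgZ : ∀ n, act (g n) x0 ∈ Z := fun n => ⟨g n, subset_closure (hgΓ n), rfl⟩
  have hch : ∀ n, ∃ h ∈ t, act (h0 * (h : L)⁻¹) (act (g n) x0) ∈ V := by
    intro n
    have := ht (hgZ n)
    rw [Set.mem_iUnion₂] at this
    obtain ⟨h, hh, h2⟩ := this
    exact ⟨h, hh, h2⟩
  choose c hct hcV using hch
  obtain ⟨m, n, hmn, hcmn⟩ : ∃ m n, m < n ∧ c m = c n := by
    by_contra hcon
    push Not at hcon
    have hinj : Function.Injective c := by
      intro a b hab
      rcases lt_trichotomy a b with h | h | h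
      · exact absurd hab (hcon a b h)
      · exact h
      · exact absurd hab.symm (hcon b a h)
    exact Set.infinite_of_injective_forall_mem hinj (fun n => Finset.mem_coe.2 (hct n))
      t.finite_toSet
  set k : L := h0 * (c m : L)⁻¹ with hk
  have hkH : k ∈ H := hHm _ hh0 _ (hHi _ (c m).2)
  have hkZ : ∀ n, act k (act (g n) x0) ∈ Z := fun n =>
    ⟨k * g n, hHm _ hkH _ (subset_closure (hgΓ n)), hact _ _ _⟩
  have e1 := hVW _ (hkZ m) (hcV m)
  have e2 := hVW _ (hkZ n) (by
    have := hcV n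
    rw [← hcmn] at this
    exact this)
  have e3 := hWd N _ e1 _ e2
  have e4 := hp k⁻¹ (act k (act (g m) x0)) (act k (act (g n) x0))
  rw [← hact, ← hact, ← hact, ← hact, inv_mul_cancel, one_mul, one_mul] at e4
  have e5 := hg m n hmn
  linarith

end TotBdd

end Pool.Agent.H71R3.Groth
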