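import Mathlib
import Pool.Agent.H71R3.Kernel

set_option autoImplicit false

universe u v w

namespace Pool.Agent.H71R3.Groth

open Filter Topology
open scoped BoundedContinuousFunction

section WAP

variable {S : Type u} [Semigroup S] [TopologicalSpace S] [SeparatelyContinuousMul S]

/-- the left translate `ℓ_a f (t) = f (a t)` -/
def lsh (a : S) (f : S →ᵇ ℝ) : S →ᵇ ℝ :=
  f.compContinuous ⟨fun t => a * t, SeparatelyContinuousMul.continuous_const_mul⟩

/-- weakly almost periodic functions -/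
def IsWAP (f : S →ᵇ ℝ) : Prop :=
  IsCompact (closure (Set.range fun a : S => toWeakSpace ℝ (S →ᵇ ℝ) (lsh a f)))

/-- left invariant means on `WAP(S)` -/
structure IsLIM (m : (S →ᵇ ℝ) → ℝ) : Prop where
  add : ∀ f g, IsWAP f → IsWAP g → m (f + g) = m f + m g
  smul : ∀ (c : ℝ) f, IsWAP f → m (c • f) = c * m f
  nonneg : ∀ f, IsWAP f → (∀ s, 0 ≤ f s) → 0 ≤ m f
  one : m 1 = 1
  inv : ∀ (a : S) f, IsWAP f → m (lsh a f) = m f

variable {X : Type v} [Semigroup X] [TopologicalSpace X] [CompactSpace X] [T2Space X]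
  [SeparatelyContinuousMul X]

/-- restriction of continuous functions on a compact semigroup -/
noncomputable def pull (θ : C(S, X)) : C(X, ℝ) →L[ℝ] (S →ᵇ ℝ) :=
  LinearMap.mkContinuous
    { toFun := fun F => (BoundedContinuousFunction.mkOfCompact F).compContinuous θ
      map_add' := fun _ _ => rfl
      map_smul' := fun _ _ => rfl } 1 (fun F => by
    rw [one_mul]
    refine (BoundedContinuousFunction.norm_le (norm_nonneg _)).2 fun s => ?_
    exact F.norm_coe_le_norm (θ s))

theorem pull_apply (θ : C(S, X)) (F : C(X, ℝ)) (s : S) : pull θ F s = F (θ s) := rfl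

theorem norm_lt_le (x : X) (F : C(X, ℝ)) : ‖lt x F‖ ≤ ‖F‖ :=
  (ContinuousMap.norm_le _ (norm_nonneg _)).2 fun y => F.norm_coe_le_norm _

theorem continuous_lt_eval (F : C(X, ℝ)) (k : X) : Continuous fun x => lt x F k := by
  show Continuous fun x => F (x * k)
  exact F.continuous.comp SeparatelyContinuousMul.continuous_mul_const

theorem lsh_pull (θ : C(S, X)) (hθ : ∀ a b, θ (a * b) = θ a * θ b) (F : C(X, ℝ)) (a : S) :
    lsh a (pull θ F) = pull θ (lt (θ a) F) := by
  ext s
  show F (θ (a * s)) = F (θ a * θ s)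
  rw [hθ]

theorem wap_of_comp (θ : C(S, X)) (hθ : ∀ a b, θ (a * b) = θ a * θ b) (F : C(X, ℝ)) :
    IsWAP (pull θ F) := by
  have h1 : Continuous fun x : X => toWeakSpace ℝ (S →ᵇ ℝ) (pull θ (lt x F)) := by
    refine WeakBilin.continuous_of_continuous_eval _ fun Λ => ?_
    exact continuous_functional (fun x => lt x F) (continuous_lt_eval F) ‖F‖
      (fun x => norm_lt_le x F) ((Λ : (S →ᵇ ℝ) →L[ℝ] ℝ).comp (pull θ))
  have h2 : IsCompact (Set.range fun x : X => toWeakSpace ℝ (S →ᵇ ℝ) (pull θ (lt x F))) :=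
    isCompact_range h1
  refine h2.of_isClosed_subset isClosed_closure ?_
  refine closure_minimal ?_ h2.isClosed
  rintro _ ⟨a, rfl⟩
  exact ⟨θ a, by simp only; rw [lsh_pull θ hθ]⟩

theorem exists_mean (m : (S →ᵇ ℝ) → ℝ) (hm : IsLIM m) (θ : C(S, X))
    (hθ : ∀ a b, θ (a * b) = θ a * θ b) (hd : DenseRange θ) :
    ∃ M : C(X, ℝ) →ₗ[ℝ] ℝ, (∀ F : C(X, ℝ), (∀ x, 0 ≤ F x) → 0 ≤ M F) ∧ M 1 = 1 ∧
      ∀ a F, M (lt a F) = M F := by
  let M : C(X, ℝ) →ₗ[ℝ] ℝ :=
    { toFun := fun F => m (pull θ F)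
      map_add' := fun F G => by
        rw [map_add]
        exact hm.add _ _ (wap_of_comp θ hθ F) (wap_of_comp θ hθ G)
      map_smul' := fun c F => by
        rw [map_smul]
        exact hm.smul _ _ (wap_of_comp θ hθ F) }
  have hM : ∀ F, M F = m (pull θ F) := fun _ => rfl
  have hpos : ∀ F : C(X, ℝ), (∀ x, 0 ≤ F x) → 0 ≤ M F := fun F hF =>
    hm.nonneg _ (wap_of_comp θ hθ F) fun s => hF _
  have h1 : M 1 = 1 := by
    rw [hM]
    have : pull θ (1 : C(X, ℝ)) = 1 := rfl
    rw [this, hm.one]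
  have hbd : ∀ F, ‖M F‖ ≤ 1 * ‖F‖ := by
    intro F
    have h2 := hpos (‖F‖ • (1 : C(X, ℝ)) - F) (fun x => by
      show 0 ≤ ‖F‖ * 1 - F x
      have := (le_abs_self _).trans (F.norm_coe_le_norm x)
      linarith)
    have h3 := hpos (‖F‖ • (1 : C(X, ℝ)) + F) (fun x => by
      show 0 ≤ ‖F‖ * 1 + F x
      have := (neg_le_abs _).trans (F.norm_coe_le_norm x)
      linarith)
    rw [map_sub, map_smul, h1, smul_eq_mul, mul_one] at h2
    rw [map_add, map_smul, h1, smul_eq_mul, mul_one] at h3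
    rw [one_mul, Real.norm_eq_abs, abs_le]
    constructor <;> linarith
  refine ⟨M, hpos, h1, fun x F => ?_⟩
  have hc := continuous_functional (fun x => lt x F) (continuous_lt_eval F) ‖F‖
    (fun x => norm_lt_le x F) (M.mkContinuous 1 hbd)
  have h2 : (fun x => M (lt x F)) = fun _ => M F := by
    refine Continuous.ext_on hd hc continuous_const ?_
    rintro _ ⟨a, rfl⟩
    show M (lt (θ a) F) = M F
    rw [hM, hM, ← lsh_pull θ hθ, hm.inv a _ (wap_of_comp θ hθ F)]
  exact congrFun h2 x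

end WAP

section Env

variable {S : Type u} [Semigroup S] [TopologicalSpace S] [SeparatelyContinuousMul S]
  {K : Type v} [TopologicalSpace K] [CompactSpace K] [T2Space K]

/-- the group acting on a compact space obtained from a quasi-equicontinuous representation -/
theorem exists_action (m : (S →ᵇ ℝ) → ℝ) (hm : IsLIM m) (T : S → K → K)
    (hT : ∀ s t, T (s * t) = T s ∘ T t) (h1 : ∀ x, Continuous fun s => T s x)
    (h2 : ∀ σ ∈ closure (Set.range T), Continuous σ) :
    ∃ (L : Type v) (_ : Group L) (_ : TopologicalSpace L) (_ : CompactSpace L) (_ : T2Space L)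
      (_ : SeparatelyContinuousMul L) (act : L → K → K),
      (∀ g h y, act (g * h) y = act g (act h y)) ∧ (∀ g, Continuous (act g)) ∧
      (∀ y, Continuous fun g => act g y) ∧ (∀ g, act g ∈ closure (Set.range T)) ∧
      (∀ s g, ∃ g', ∀ y, T s (act g y) = act g' y) := by
  have hTc : ∀ s, T s ∈ closure (Set.range T) := fun s => subset_closure ⟨s, rfl⟩
  have hpre : ∀ τ : K → K, Continuous fun σ : K → K => σ ∘ τ := fun τ =>
    continuous_pi fun x => continuous_apply (τ x)
  have hpost : ∀ σ : K → K, Continuous σ → Continuous fun τ : K → K => σ ∘ τ := fun σ hσ =>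
    continuous_pi fun x => hσ.comp (continuous_apply x)
  have hcomp : ∀ σ ∈ closure (Set.range T), ∀ τ ∈ closure (Set.range T),
      σ ∘ τ ∈ closure (Set.range T) := by
    intro σ hσ τ hτ
    have h3 : ∀ s, T s ∘ τ ∈ closure (Set.range T) := by
      intro s
      refine map_mem_closure (hpost (T s) (h2 _ (hTc s))) hτ ?_
      rintro _ ⟨t, rfl⟩
      exact ⟨s * t, hT s t⟩
    have := map_mem_closure (hpre τ) hσ (t := closure (Set.range T)) (by
      rintro _ ⟨s, rfl⟩
      exact h3 s)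
    rwa [closure_closure] at this
  let X : Type v := {σ : K → K // σ ∈ closure (Set.range T)}
  let _ : Semigroup X :=
    { mul := fun a b => ⟨a.1 ∘ b.1, hcomp _ a.2 _ b.2⟩
      mul_assoc := fun a b c => rfl }
  have hmul : ∀ a b : X, (a * b).1 = a.1 ∘ b.1 := fun _ _ => rfl
  have : CompactSpace X := isCompact_iff_compactSpace.1 isClosed_closure.isCompact
  have : SeparatelyContinuousMul X :=
    { continuous_const_mul := fun {a} =>
        ((hpost a.1 (h2 _ a.2)).comp continuous_subtype_val).subtype_mk _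
      continuous_mul_const := fun {a} =>
        ((hpre a.1).comp continuous_subtype_val).subtype_mk _ }
  let θ : C(S, X) := ⟨fun s => ⟨T s, hTc s⟩, (continuous_pi h1).subtype_mk _⟩
  have hθ : ∀ a b, θ (a * b) = θ a * θ b := fun a b => Subtype.ext (hT a b)
  have hd : DenseRange θ := by
    intro x
    rw [closure_subtype]
    have e : (Subtype.val '' Set.range θ) = Set.range T := by
      rw [← Set.range_comp]
      rfl
    rw [e]
    exact x.2
  obtain ⟨M, hM1, hM2, hM3⟩ := exists_mean m hm θ hθ hd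
  obtain ⟨L, i1, i2, i3, i4, i5, φ, hφ1, hφ2, hφ3⟩ := exists_group M hM1 hM2 hM3
  refine ⟨L, i1, i2, i3, i4, i5, fun g => (φ g).1, fun g h y => ?_, fun g => h2 _ (φ g).2,
    fun y => ?_, fun g => (φ g).2, fun s g => ?_⟩
  · show (φ (g * h)).1 y = (φ g).1 ((φ h).1 y)
    rw [hφ2, hmul]; rfl
  · exact (continuous_apply y).comp (continuous_subtype_val.comp hφ1)
  · obtain ⟨g', hg'⟩ := hφ3 (θ s) g
    refine ⟨g', fun y => ?_⟩
    show (θ s * φ g).1 y = (φ g').1 y
    rw [hg']

end Env

section LCS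

variable {𝕜 : Type*} [RCLike 𝕜] {E : Type w} [AddCommGroup E] [Module 𝕜 E] [Module ℝ E]
  [IsScalarTower ℝ 𝕜 E] [TopologicalSpace E] [IsTopologicalAddGroup E]
  [ContinuousSMul 𝕜 E] [ContinuousSMul ℝ E] [LocallyConvexSpace ℝ E]

/-- closed seminorm balls are weakly closed -/
theorem isClosed_ball (p : Seminorm ℝ E) (hp : Continuous p) (w : E) (r : ℝ) :
    IsClosed {z : WeakSpace 𝕜 E | p ((toWeakSpace 𝕜 E).symm z - w) ≤ r} := by
  have h1 : IsClosed {z : E | p (z - w) ≤ r} := isClosed_le (by fun_prop) continuous_const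
  have h2 : Convex ℝ {z : E | p (z - w) ≤ r} := by
    intro x hx y hy a b ha hb hab
    show p (a • x + b • y - w) ≤ r
    have e : a • x + b • y - w = a • (x - w) + b • (y - w) := by
      rw [smul_sub, smul_sub]
      have : w = a • w + b • w := by rw [← add_smul, hab, one_smul]
      conv_lhs => rw [this]
      abel
    rw [e]
    have hx' : p (x - w) ≤ r := hx
    have hy' : p (y - w) ≤ r := hy
    calc p (a • (x - w) + b • (y - w)) ≤ p (a • (x - w)) + p (b • (y - w)) := map_add_le_add p _ _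
      _ = a * p (x - w) + b * p (y - w) := by
        rw [map_smul_eq_mul, map_smul_eq_mul, Real.norm_of_nonneg ha, Real.norm_of_nonneg hb]
      _ ≤ a * r + b * r := add_le_add (mul_le_mul_of_nonneg_left hx' ha)
          (mul_le_mul_of_nonneg_left hy' hb)
      _ = r := by rw [← add_mul, hab, one_mul]
  have h3 := h2.toWeakSpace_closure 𝕜
  rw [h1.closure_eq] at h3
  have e : {z : WeakSpace 𝕜 E | p ((toWeakSpace 𝕜 E).symm z - w) ≤ r}
      = (toWeakSpace 𝕜 E) '' {z : E | p (z - w) ≤ r} := by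
    ext z
    constructor
    · intro hz
      exact ⟨(toWeakSpace 𝕜 E).symm z, hz, by simp⟩
    · rintro ⟨z', hz', rfl⟩
      show p ((toWeakSpace 𝕜 E).symm (toWeakSpace 𝕜 E z') - w) ≤ r
      simpa using hz'
  rw [e, h3]
  exact isClosed_closure

/-- weak closures of countable sets are covered by countably many small closed balls -/
theorem exists_cover (p : Seminorm ℝ E) (hp : Continuous p) (D : Set (WeakSpace 𝕜 E))
    (hD : D.Countable) (δ : ℝ) (hδ : 0 < δ) : ∃ w : ℕ → E,
      ∀ z ∈ closure D, ∃ n, p ((toWeakSpace 𝕜 E).symm z - w n) ≤ δ := by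
  set D' : Set E := (toWeakSpace 𝕜 E).symm '' D with hD'
  have hsep : TopologicalSpace.IsSeparable D' := (hD.image _).isSeparable
  obtain ⟨c, hc, hsub⟩ := hsep.span (R := ℝ)
  have hcne : c.Nonempty := by
    rw [← closure_nonempty_iff]
    exact ⟨0, hsub (Submodule.zero_mem _)⟩
  obtain ⟨w, hw⟩ := hc.exists_eq_range hcne
  refine ⟨w, fun z hz => ?_⟩
  have h1 : D ⊆ toWeakSpace 𝕜 E '' (Submodule.span ℝ D' : Set E) := by
    intro d hd
    exact ⟨(toWeakSpace 𝕜 E).symm d, Submodule.subset_span ⟨d, hd, rfl⟩, by simp⟩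
  have h2 := closure_mono h1 hz
  have h3 := (Submodule.convex (Submodule.span ℝ D')).toWeakSpace_closure 𝕜
  rw [← h3] at h2
  obtain ⟨z', hz', rfl⟩ := h2
  have h4 : z' ∈ closure c := by
    have := closure_mono hsub hz'
    rwa [closure_closure] at this
  have h5 : {x | p (z' - x) < δ} ∈ 𝓝 z' := by
    have hc' : Continuous fun x => p (z' - x) := by fun_prop
    exact (isOpen_lt hc' continuous_const).mem_nhds (by
      show p (z' - z') < δ
      rw [sub_self, map_zero]; exact hδ)
  obtain ⟨x, hx1, hx2⟩ := mem_closure_iff_nhds.1 h4 _ h5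
  rw [hw] at hx2
  obtain ⟨n, rfl⟩ := hx2
  refine ⟨n, ?_⟩
  have hx1' : p (z' - w n) < δ := hx1
  simpa using hx1'.le

end LCS

end Pool.Agent.H71R3.Groth
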