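import Mathlib
import Pool.Agent.H71R3.FPT

set_option autoImplicit false

universe u w

namespace Pool.Agent.H71R3.Groth

open Filter Topology
open scoped BoundedContinuousFunction

theorem arith_aux (n d : ℝ) (hn : 0 < n) : n * (d * (1 - 1 / (2 * n))) = n * d - d / 2 := by
  field_simp

/-- **Fixed point theorem.** -/
theorem fixed_point {S : Type u} [Semigroup S] [TopologicalSpace S] [SeparatelyContinuousMul S]
    (m : (S →ᵇ ℝ) → ℝ) (hm : IsLIM m)
    {𝕜 : Type*} [RCLike 𝕜] {E : Type w} [AddCommGroup E] [Module 𝕜 E] [Module ℝ E]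
    [IsScalarTower ℝ 𝕜 E] [TopologicalSpace E] [IsTopologicalAddGroup E]
    [ContinuousSMul 𝕜 E] [ContinuousSMul ℝ E] [LocallyConvexSpace ℝ E]
    [T2Space (WeakSpace 𝕜 E)] {ι : Type*}
    (q : ι → Seminorm ℝ E) (hq : ∀ i, Continuous (q i)) (hsepq : ∀ x, (∀ i, q i x = 0) → x = 0)
    (C : Set (WeakSpace 𝕜 E)) (hne : C.Nonempty) (hcomp : IsCompact C) (hconv : Convex ℝ C)
    (T : S → C → C) (hT : ∀ s t, T (s * t) = T s ∘ T t) (h1 : ∀ x, Continuous fun s => T s x)
    (h2 : ∀ σ ∈ closure (Set.range T), Continuous σ)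
    (h3 : ∀ s i x y, q i ((toWeakSpace 𝕜 E).symm (T s x).1 - (toWeakSpace 𝕜 E).symm (T s y).1) ≤
      q i ((toWeakSpace 𝕜 E).symm x.1 - (toWeakSpace 𝕜 E).symm y.1)) :
    ∃ x : C, ∀ s, T s x = x := by
  classical
  have hK : CompactSpace C := isCompact_iff_compactSpace.1 hcomp
  let e : WeakSpace 𝕜 E ≃ₗ[ℝ] E := (toWeakSpace 𝕜 E).symm.restrictScalars ℝ
  have he : ∀ x : WeakSpace 𝕜 E, (toWeakSpace 𝕜 E).symm x = e x := fun _ => rfl
  simp only [he] at h3
  obtain ⟨L, i1, i2, i3, i4, i5, act, ha1, ha2, ha3, ha4, ha5⟩ := exists_action m hm T hT h1 h2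
  let p : ι → C → C → ℝ := fun i x y => q i (e x.1 - e y.1)
  have hp : ∀ i x y, p i x y = q i (e x.1 - e y.1) := fun _ _ _ => rfl
  have hpc : ∀ i (y : C) r, IsClosed {x : C | p i x y ≤ r} := fun i y r =>
    (isClosed_ball (q i) (hq i) (e y.1) r).preimage continuous_subtype_val
  have hpsymm : ∀ i x y, p i x y = p i y x := fun i x y => by
    rw [hp, hp, map_sub_rev]
  have hptri : ∀ i x y z, p i x z ≤ p i x y + p i y z := fun i x y z => by
    rw [hp, hp, hp]
    have : e x.1 - e z.1 = (e x.1 - e y.1) + (e y.1 - e z.1) := by abel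
    rw [this]
    exact map_add_le_add _ _ _
  -- elements of the closure are nonexpansive
  have hpS : ∀ σ ∈ closure (Set.range T), ∀ i x y, p i (σ x) (σ y) ≤ p i x y := by
    intro σ hσ i x y
    have hcl : IsClosed {σ : C → C | q i (e (σ x).1 - e (σ y).1) ≤ p i x y} := by
      have h4 : IsClosed {z : WeakSpace 𝕜 E | q i (e z - 0) ≤ p i x y} :=
        isClosed_ball (q i) (hq i) 0 _
      have h5 : Continuous fun σ : C → C => ((σ x).1 - (σ y).1 : WeakSpace 𝕜 E) :=
        (continuous_subtype_val.comp (continuous_apply x)).sub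
          (continuous_subtype_val.comp (continuous_apply y))
      have h6 := h4.preimage h5
      have h7 : (fun σ : C → C => ((σ x).1 - (σ y).1 : WeakSpace 𝕜 E)) ⁻¹'
          {z : WeakSpace 𝕜 E | q i (e z - 0) ≤ p i x y} =
          {σ : C → C | q i (e (σ x).1 - e (σ y).1) ≤ p i x y} := by
        ext σ
        show q i (e ((σ x).1 - (σ y).1) - 0) ≤ p i x y ↔ _
        have e0 : e ((σ x).1 - (σ y).1) - 0 = e (σ x).1 - e (σ y).1 := by
          rw [sub_zero]
          exact _root_.map_sub e _ _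
        rw [e0]
        exact Iff.rfl
      rw [← h7]
      exact h6
    refine closure_minimal ?_ hcl hσ
    rintro _ ⟨s, rfl⟩
    exact h3 s i x y
  -- total boundedness of the orbits
  have htb : ∀ i (x0 : C) ε, 0 < ε → ∃ F : Finset L, ∀ g, ∃ f ∈ F, p i (act f x0) (act g x0) ≤ ε := by
    intro i x0 ε hε
    refine tot_bdd act ha1 ha2 ha3 (p i) (fun g x y => hpS _ (ha4 g) i x y) ?_ x0 ε hε
    intro D hD δ hδ
    obtain ⟨w, hw⟩ := exists_cover (q i) (hq i) (Subtype.val '' D) (hD.image _) (δ / 2) (by positivity)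
    refine ⟨fun n => {x : C | q i (e x.1 - w n) ≤ δ / 2}, fun n => ?_, ?_, ?_⟩
    · exact (isClosed_ball (q i) (hq i) (w n) _).preimage continuous_subtype_val
    · intro z hz
      have hz' : z.1 ∈ closure (Subtype.val '' D) :=
        image_closure_subset_closure_image continuous_subtype_val ⟨z, hz, rfl⟩
      obtain ⟨n, hn⟩ := hw _ hz'
      exact Set.mem_iUnion.2 ⟨n, hn⟩
    · intro n x hx y hy
      have hx' : q i (e x.1 - w n) ≤ δ / 2 := hx
      have hy' : q i (e y.1 - w n) ≤ δ / 2 := hy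
      rw [hp]
      have : e x.1 - e y.1 = (e x.1 - w n) - (e y.1 - w n) := by abel
      rw [this]
      refine (map_sub_le_add _ _ _).trans ?_
      linarith
  -- minimal invariant set
  let 𝒳 : Set (Set C) := {X | X.Nonempty ∧ IsClosed X ∧ Convex ℝ (Subtype.val '' X : Set (WeakSpace 𝕜 E)) ∧
    ∀ s, ∀ x ∈ X, T s x ∈ X}
  have huniv : (Set.univ : Set C) ∈ 𝒳 := by
    refine ⟨?_, isClosed_univ, ?_, fun _ _ _ => Set.mem_univ _⟩
    · obtain ⟨x, hx⟩ := hne
      exact ⟨⟨x, hx⟩, Set.mem_univ _⟩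
    · rw [Set.image_univ, Subtype.range_coe]
      exact hconv
  obtain ⟨X, hXmin⟩ := zorn_superset 𝒳 (fun c hc hchain => by
    rcases c.eq_empty_or_nonempty with h0 | h0
    · exact ⟨Set.univ, huniv, fun s hs => by rw [h0] at hs; exact absurd hs (Set.notMem_empty _)⟩
    · refine ⟨⋂₀ c, ⟨?_, ?_, ?_, ?_⟩, fun s hs => Set.sInter_subset_of_mem hs⟩
      · have : Nonempty c := h0.to_subtype
        rw [Set.sInter_eq_iInter]
        refine IsCompact.nonempty_iInter_of_directed_nonempty_isCompact_isClosed _ ?_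
          (fun X => (hc X.2).1) (fun X => (hc X.2).2.1.isCompact) (fun X => (hc X.2).2.1)
        intro A B
        rcases hchain.total A.2 B.2 with h | h
        · exact ⟨A, le_rfl, h⟩
        · exact ⟨B, h, le_rfl⟩
      · exact isClosed_sInter fun X hX => (hc hX).2.1
      · intro x hx y hy a b ha hb hab
        obtain ⟨x', hx', rfl⟩ := hx
        obtain ⟨y', hy', rfl⟩ := hy
        have hz : a • x'.1 + b • y'.1 ∈ C := hconv x'.2 y'.2 ha hb hab
        refine ⟨⟨_, hz⟩, ?_, rfl⟩
        intro X hX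
        obtain ⟨z, hz1, hz2⟩ := (hc hX).2.2.1 ⟨x', hx' X hX, rfl⟩ ⟨y', hy' X hX, rfl⟩ ha hb hab
        have : (⟨_, hz⟩ : C) = z := Subtype.ext hz2.symm
        rw [this]; exact hz1
      · intro s x hx X hX
        exact (hc hX).2.2.2 s x (hx X hX))
  obtain ⟨⟨hX1, hX2, hX3, hX4⟩, hXm⟩ := hXmin
  have hXS : ∀ σ ∈ closure (Set.range T), ∀ x ∈ X, σ x ∈ X := by
    intro σ hσ x hx
    have hcl : IsClosed {σ : C → C | σ x ∈ X} := hX2.preimage (continuous_apply x)
    refine closure_minimal ?_ hcl hσ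
    rintro _ ⟨s, rfl⟩
    exact hX4 s x hx
  obtain ⟨x0, hx0⟩ := hX1
  -- the orbit
  have hYX : ∀ g, act g x0 ∈ X := fun g => hXS _ (ha4 g) x0 hx0
  have hTY : ∀ s g, ∃ g', T s (act g' x0) = act g x0 := by
    intro s g
    obtain ⟨h, hh⟩ := ha5 s 1
    refine ⟨h⁻¹ * g, ?_⟩
    have e1 : T s (act 1 (act (h⁻¹ * g) x0)) = act h (act (h⁻¹ * g) x0) := hh _
    rw [← ha1, ← ha1, one_mul, mul_inv_cancel_left] at e1
    exact e1
  -- diameter zero
  have hdiam : ∀ i g g', p i (act g x0) (act g' x0) = 0 := by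
    intro i
    by_contra hcon
    push Not at hcon
    obtain ⟨g0, g0', hg0⟩ := hcon
    have hpn : ∀ x y, 0 ≤ p i x y := fun x y => apply_nonneg _ _
    set DD : Set ℝ := {t | ∃ g g', p i (act g x0) (act g' x0) = t} with hDD
    have hbdd : BddAbove DD := by
      obtain ⟨F, hF⟩ := htb i x0 1 one_pos
      obtain ⟨f0, hf0, -⟩ := hF 1
      refine ⟨2 + ∑ f ∈ F, ∑ f' ∈ F, p i (act f x0) (act f' x0), ?_⟩
      rintro t ⟨g, g', rfl⟩
      obtain ⟨f, hf, hfg⟩ := hF g
      obtain ⟨f', hf', hfg'⟩ := hF g'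
      have e1 := hptri i (act g x0) (act f x0) (act g' x0)
      have e2 := hptri i (act f x0) (act f' x0) (act g' x0)
      rw [hpsymm i (act g x0)] at e1
      have e3 : p i (act f x0) (act f' x0) ≤ ∑ f' ∈ F, p i (act f x0) (act f' x0) :=
        Finset.single_le_sum (f := fun f' => p i (act f x0) (act f' x0)) (fun _ _ => hpn _ _) hf'
      have e4 : ∑ f' ∈ F, p i (act f x0) (act f' x0) ≤
          ∑ f ∈ F, ∑ f' ∈ F, p i (act f x0) (act f' x0) :=
        Finset.single_le_sum (f := fun f => ∑ f' ∈ F, p i (act f x0) (act f' x0))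
          (fun _ _ => Finset.sum_nonneg fun _ _ => hpn _ _) hf
      rw [hpsymm i (act g x0)] at *
      linarith
    set d := sSup DD with hd
    have hle : ∀ g g', p i (act g x0) (act g' x0) ≤ d := fun g g' => le_csSup hbdd ⟨g, g', rfl⟩
    have hdpos : 0 < d := lt_of_lt_of_le (lt_of_le_of_ne (hpn _ _) (Ne.symm hg0)) (hle g0 g0')
    obtain ⟨F, hF⟩ := htb i x0 (d / 2) (by positivity)
    have hFne : F.Nonempty := by
      obtain ⟨f, hf, -⟩ := hF 1
      exact ⟨f, hf⟩
    have hn : 0 < (F.card : ℝ) := by exact_mod_cast hFne.card_pos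
    -- the centre
    set u : WeakSpace 𝕜 E := ∑ f ∈ F, ((F.card : ℝ))⁻¹ • (act f x0).1 with hu
    have huX : u ∈ (Subtype.val '' X : Set (WeakSpace 𝕜 E)) := by
      refine hX3.sum_mem (fun _ _ => by positivity) ?_ (fun f _ => ⟨_, hYX f, rfl⟩)
      rw [Finset.sum_const, nsmul_eq_mul, mul_inv_cancel₀ hn.ne']
    obtain ⟨u', hu'X, hu'⟩ := huX
    set r := d * (1 - 1 / (2 * (F.card : ℝ))) with hr
    have hrd : r < d := by
      have : 0 < 1 / (2 * (F.card : ℝ)) := by positivity
      rw [hr]; nlinarith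
    have hur : ∀ g, p i u' (act g x0) ≤ r := by
      intro g
      obtain ⟨f0, hf0, hf0g⟩ := hF g
      rw [hp, hu', hu, map_sum]
      have e1 : e (act g x0).1 = ∑ f ∈ F, ((F.card : ℝ))⁻¹ • e (act g x0).1 := by
        rw [Finset.sum_const, ← Nat.cast_smul_eq_nsmul ℝ, smul_smul, mul_inv_cancel₀ hn.ne', one_smul]
      rw [e1, ← Finset.sum_sub_distrib]
      have e2 : ∀ f ∈ F, q i (e (((F.card : ℝ))⁻¹ • (act f x0).1) - ((F.card : ℝ))⁻¹ • e (act g x0).1)
          = ((F.card : ℝ))⁻¹ * p i (act f x0) (act g x0) := by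
        intro f _
        rw [map_smul, ← smul_sub, map_smul_eq_mul, Real.norm_of_nonneg (by positivity)]
      have e3 : q i (∑ f ∈ F, (e (((F.card : ℝ))⁻¹ • (act f x0).1) - ((F.card : ℝ))⁻¹ • e (act g x0).1))
          ≤ ∑ f ∈ F, ((F.card : ℝ))⁻¹ * p i (act f x0) (act g x0) := by
        have e4 : ∀ t : Finset L, t ⊆ F →
            q i (∑ f ∈ t, (e (((F.card : ℝ))⁻¹ • (act f x0).1) - ((F.card : ℝ))⁻¹ • e (act g x0).1))
            ≤ ∑ f ∈ t, ((F.card : ℝ))⁻¹ * p i (act f x0) (act g x0) := by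
          intro t
          induction t using Finset.induction_on with
          | empty => intro _; simp
          | insert a t ha ih =>
            intro hsub
            rw [Finset.sum_insert ha, Finset.sum_insert ha]
            refine (map_add_le_add _ _ _).trans (add_le_add ?_ (ih fun x hx =>
              hsub (Finset.mem_insert_of_mem hx)))
            exact (e2 a (hsub (Finset.mem_insert_self _ _))).le
        exact e4 F (Finset.Subset.refl F)
      refine e3.trans ?_
      rw [← Finset.mul_sum, inv_mul_le_iff₀ hn, ← Finset.add_sum_erase _ _ hf0]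
      have e5 : ∑ f ∈ F.erase f0, p i (act f x0) (act g x0) ≤ ((F.card : ℝ) - 1) * d := by
        refine (Finset.sum_le_sum fun f _ => hle f g).trans ?_
        rw [Finset.sum_const, Finset.card_erase_of_mem hf0, nsmul_eq_mul,
          Nat.cast_sub (Finset.card_pos.2 hFne)]
        simp
      have e6 : (F.card : ℝ) * r = (F.card : ℝ) * d - d / 2 := by
        rw [hr]
        exact arith_aux _ _ hn
      rw [e6]
      linarith
    -- the smaller set
    let X0 : Set C := {z | z ∈ X ∧ ∀ g, p i z (act g x0) ≤ r}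
    have hX0 : X0 ∈ 𝒳 := by
      refine ⟨⟨u', hu'X, hur⟩, ?_, ?_, ?_⟩
      · have : X0 = X ∩ ⋂ g, {z | p i z (act g x0) ≤ r} := by
          ext z; simp [X0]
        rw [this]
        exact hX2.inter (isClosed_iInter fun g => hpc i _ r)
      · intro x hx y hy a b ha hb hab
        obtain ⟨x', ⟨hx', hx''⟩, rfl⟩ := hx
        obtain ⟨y', ⟨hy', hy''⟩, rfl⟩ := hy
        obtain ⟨z, hz1, hz2⟩ := hX3 ⟨x', hx', rfl⟩ ⟨y', hy', rfl⟩ ha hb hab
        refine ⟨z, ⟨hz1, fun g => ?_⟩, hz2⟩
        rw [hp, hz2, map_add, map_smul, map_smul]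
        have e1 : a • e x'.1 + b • e y'.1 - e (act g x0).1 =
            a • (e x'.1 - e (act g x0).1) + b • (e y'.1 - e (act g x0).1) := by
          rw [smul_sub, smul_sub]
          have : e (act g x0).1 = a • e (act g x0).1 + b • e (act g x0).1 := by
            rw [← add_smul, hab, one_smul]
          conv_lhs => rw [this]
          abel
        rw [e1]
        calc _ ≤ q i (a • (e x'.1 - e (act g x0).1)) + q i (b • (e y'.1 - e (act g x0).1)) :=
              map_add_le_add _ _ _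
          _ = a * p i x' (act g x0) + b * p i y' (act g x0) := by
            rw [map_smul_eq_mul, map_smul_eq_mul, Real.norm_of_nonneg ha, Real.norm_of_nonneg hb]
          _ ≤ a * r + b * r := add_le_add (mul_le_mul_of_nonneg_left (hx'' g) ha)
              (mul_le_mul_of_nonneg_left (hy'' g) hb)
          _ = r := by rw [← add_mul, hab, one_mul]
      · intro s z hz
        refine ⟨hX4 s z hz.1, fun g => ?_⟩
        obtain ⟨g', hg'⟩ := hTY s g
        rw [← hg']
        exact (h3 s i z (act g' x0)).trans (hz.2 g')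
    have hsub : X ⊆ X0 := hXm hX0 (fun z hz => hz.1)
    have hdr : d ≤ r := by
      refine csSup_le ⟨_, g0, g0', rfl⟩ ?_
      rintro t ⟨g, g', rfl⟩
      exact (hsub (hYX g)).2 g'
    linarith
  -- conclusion
  refine ⟨act 1 x0, fun s => ?_⟩
  obtain ⟨g', hg'⟩ := ha5 s 1
  rw [hg' x0]
  apply Subtype.ext
  apply (toWeakSpace 𝕜 E).symm.injective
  rw [← sub_eq_zero]
  exact hsepq _ fun i => hdiam i g' 1

end Pool.Agent.H71R3.Groth
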