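import Mathlib

set_option autoImplicit false

namespace Pool.Agent.H71R3.FS

open UniformSpace

/-! ### evaluation of `ℂ[G]` in unitary representations and the maximal C*-norm -/

section Ev

variable {G : Type} [Group G] {E : Type} [SeminormedAddCommGroup E] [InnerProductSpace ℂ E]

/-- `π(a) = ∑ a(g) π(g)` for a unitary representation `π` of `G` and `a ∈ ℂ[G]`. -/
noncomputable def ev (π : G →* (E ≃ₗᵢ[ℂ] E)) (a : G →₀ ℂ) : E →L[ℂ] E :=
  a.sum fun g c => c • ((π g).toContinuousLinearEquiv : E →L[ℂ] E)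

theorem ev_apply (π : G →* (E ≃ₗᵢ[ℂ] E)) (a : G →₀ ℂ) (v : E) :
    ev π a v = a.sum fun g c => c • π g v := by
  unfold ev Finsupp.sum
  rw [sum_apply]
  rfl

theorem ev_eq_lc (π : G →* (E ≃ₗᵢ[ℂ] E)) (a : G →₀ ℂ) : ev π a =
    Finsupp.linearCombination ℂ (fun g => ((π g).toContinuousLinearEquiv : E →L[ℂ] E)) a := rfl

theorem ev_add (π : G →* (E ≃ₗᵢ[ℂ] E)) (a b : G →₀ ℂ) : ev π (a + b) = ev π a + ev π b := by
  simp only [ev_eq_lc, map_add]

theorem ev_smul (π : G →* (E ≃ₗᵢ[ℂ] E)) (c : ℂ) (a : G →₀ ℂ) : ev π (c • a) = c • ev π a := by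
  simp only [ev_eq_lc, map_smul]

theorem norm_ev_apply_le (π : G →* (E ≃ₗᵢ[ℂ] E)) (a : G →₀ ℂ) (v : E) :
    ‖ev π a v‖ ≤ (a.sum fun _ c => ‖c‖) * ‖v‖ := by
  rw [ev_apply]
  unfold Finsupp.sum
  rw [Finset.sum_mul]
  refine norm_sum_le_of_le _ fun g _ => ?_
  rw [norm_smul, LinearIsometryEquiv.norm_map]

theorem norm_ev_le (π : G →* (E ≃ₗᵢ[ℂ] E)) (a : G →₀ ℂ) : ‖ev π a‖ ≤ a.sum fun _ c => ‖c‖ :=
  ContinuousLinearMap.opNorm_le_bound _ (Finset.sum_nonneg fun _ _ => norm_nonneg _)
    (norm_ev_apply_le π a)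

end Ev

variable {G : Type} [Group G]

/-- The norms of `π(a)`, `π` running over all unitary representations of `G` on Hilbert spaces. -/
def repNorms (a : G →₀ ℂ) : Set ℝ :=
  {t | ∃ (H : Type) (_ : NormedAddCommGroup H) (_ : InnerProductSpace ℂ H) (_ : CompleteSpace H)
    (π : G →* (H ≃ₗᵢ[ℂ] H)), t = ‖ev π a‖}

/-- The maximal C*-norm on `ℂ[G]`. -/
noncomputable def maxNorm (a : G →₀ ℂ) : ℝ := sSup (repNorms a)

theorem repNorms_bdd (a : G →₀ ℂ) : BddAbove (repNorms a) := by
  refine ⟨a.sum fun _ c => ‖c‖, ?_⟩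
  rintro t ⟨H, _, _, _, π, rfl⟩
  exact norm_ev_le π a

theorem repNorms_nonempty (a : G →₀ ℂ) : (repNorms a).Nonempty :=
  ⟨_, ℂ, inferInstance, inferInstance, inferInstance, 1, rfl⟩

theorem le_maxNorm {H : Type} [i1 : NormedAddCommGroup H] [i2 : InnerProductSpace ℂ H]
    [i3 : CompleteSpace H] (π : G →* (H ≃ₗᵢ[ℂ] H)) (a : G →₀ ℂ) : ‖ev π a‖ ≤ maxNorm a := by
  have h : ‖ev π a‖ ∈ repNorms a := ⟨H, i1, i2, i3, π, rfl⟩
  exact le_csSup (repNorms_bdd a) h

theorem maxNorm_le {a : G →₀ ℂ} {C : ℝ}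
    (h : ∀ (H : Type) (_ : NormedAddCommGroup H) (_ : InnerProductSpace ℂ H) (_ : CompleteSpace H)
      (π : G →* (H ≃ₗᵢ[ℂ] H)), ‖ev π a‖ ≤ C) : maxNorm a ≤ C := by
  refine csSup_le (repNorms_nonempty a) ?_
  rintro t ⟨H, i1, i2, i3, π, rfl⟩
  exact h H i1 i2 i3 π

theorem maxNorm_nonneg (a : G →₀ ℂ) : 0 ≤ maxNorm a :=
  (norm_nonneg _).trans (le_maxNorm (H := ℂ) 1 a)

theorem maxNorm_add (a b : G →₀ ℂ) : maxNorm (a + b) ≤ maxNorm a + maxNorm b := by
  refine maxNorm_le fun H _ _ _ π => ?_
  rw [ev_add]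
  exact (norm_add_le _ _).trans (add_le_add (le_maxNorm π a) (le_maxNorm π b))

theorem maxNorm_smul_le (c : ℂ) (a : G →₀ ℂ) : maxNorm (c • a) ≤ ‖c‖ * maxNorm a := by
  refine maxNorm_le fun H _ _ _ π => ?_
  rw [ev_smul, norm_smul]
  exact mul_le_mul_of_nonneg_left (le_maxNorm π a) (norm_nonneg _)

/-- The maximal C*-norm as a seminorm. -/
noncomputable def maxSeminorm (G : Type) [Group G] : Seminorm ℂ (G →₀ ℂ) :=
  Seminorm.ofSMulLE maxNorm (by
    refine le_antisymm ?_ (maxNorm_nonneg _)
    refine maxNorm_le fun H _ _ _ π => ?_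
    simp [ev]) maxNorm_add maxNorm_smul_le

theorem maxSeminorm_apply (a : G →₀ ℂ) : maxSeminorm G a = maxNorm a := rfl

/-- `ℂ[G]`, to be normed by the maximal C*-norm. -/
def GA (G : Type) : Type := G →₀ ℂ

noncomputable instance instSNG (G : Type) [Group G] : SeminormedAddCommGroup (GA G) :=
  @AddGroupSeminorm.toSeminormedAddCommGroup (G →₀ ℂ) _ (maxSeminorm G).toAddGroupSeminorm

/-- the identity map `ℂ[G] → GA G` -/
def toGA (a : G →₀ ℂ) : GA G := a

theorem norm_toGA (a : G →₀ ℂ) : ‖toGA a‖ = maxNorm a := rfl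

noncomputable instance instNS (G : Type) [Group G] : NormedSpace ℂ (GA G) :=
  { (inferInstance : Module ℂ (G →₀ ℂ)) with
    norm_smul_le := fun c a => maxNorm_smul_le c a }

/-- The full group C*-algebra `C*(G)` (as a Banach space): the completion of `ℂ[G]` in the maximal
C*-norm. -/
abbrev CStar (G : Type) [Group G] : Type := Completion (GA G)

/-- the inclusion of `ℂ[G]` into `C*(G)` -/
noncomputable def inc (a : G →₀ ℂ) : CStar G := (toGA a : CStar G)

/-- the canonical unitary of `g` in `C*(G)` -/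
noncomputable def dir (g : G) : CStar G := inc (Finsupp.single g 1)

theorem norm_inc (a : G →₀ ℂ) : ‖(inc a : CStar G)‖ = maxNorm a := by
  unfold inc
  rw [Completion.norm_coe]
  rfl

theorem inc_add (a b : G →₀ ℂ) : (inc (a + b) : CStar G) = inc a + inc b :=
  Completion.coe_add (toGA a) (toGA b)

theorem inc_smul (c : ℂ) (a : G →₀ ℂ) : (inc (c • a) : CStar G) = c • inc a :=
  Completion.coe_smul c (toGA a)

theorem inc_zero : (inc (0 : G →₀ ℂ) : CStar G) = 0 := rfl

theorem dense_inc : DenseRange (inc : (G →₀ ℂ) → CStar G) :=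
  Completion.denseRange_coe (α := GA G)

theorem inc_eq_sum (a : G →₀ ℂ) : (inc a : CStar G) = a.sum fun g c => c • dir g := by
  induction a using Finsupp.induction_linear with
  | zero => rw [inc_zero, Finsupp.sum_zero_index]
  | add a b ha hb =>
    rw [inc_add, ha, hb]
    exact (Finsupp.sum_add_index' (h := fun g c => c • dir g) (fun _ => zero_smul _ _)
      (fun _ _ _ => add_smul _ _ _)).symm
  | single g c =>
    rw [Finsupp.sum_single_index (h := fun g c => c • dir g) (zero_smul _ _)]
    unfold dir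
    rw [← inc_smul, Finsupp.smul_single, smul_eq_mul, mul_one]

theorem map_inc {F : Type*} [NormedAddCommGroup F] [NormedSpace ℂ F] (T : CStar G →L[ℂ] F)
    (a : G →₀ ℂ) : T (inc a) = a.sum fun g c => c • T (dir g) := by
  rw [inc_eq_sum, map_finsuppSum]
  simp only [map_smul]

theorem ext_dir {F : Type*} [NormedAddCommGroup F] [NormedSpace ℂ F] {S T : CStar G →L[ℂ] F}
    (h : ∀ g, S (dir g) = T (dir g)) : S = T := by
  refine ContinuousLinearMap.ext fun x => ?_
  refine isClosed_property (p := fun x => S x = T x) dense_inc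
    (isClosed_eq S.continuous T.continuous) (fun a => ?_) x
  rw [map_inc, map_inc]
  simp only [h]

/-- construct a bounded operator from `C*(G)` from its values on the group elements -/
theorem exists_map {F : Type*} [NormedAddCommGroup F] [NormedSpace ℂ F] [CompleteSpace F]
    (f : G → F) (C : ℝ) (hC : 0 ≤ C)
    (h : ∀ a : G →₀ ℂ, ‖a.sum fun g c => c • f g‖ ≤ C * maxNorm a) :
    ∃ T : CStar G →L[ℂ] F, (∀ g, T (dir g) = f g) ∧ ‖T‖ ≤ C := by
  let L : GA G →ₗ[ℂ] F := (Finsupp.linearCombination ℂ f : (G →₀ ℂ) →ₗ[ℂ] F)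
  have hL : ∀ a : GA G, ‖L a‖ ≤ C * ‖a‖ := fun a => h a
  let T0 : GA G →L[ℂ] F := L.mkContinuous C hL
  refine ⟨T0.fromCompletion, fun g => ?_, ?_⟩
  · unfold dir inc
    rw [ContinuousLinearMap.fromCompletion_apply_coe]
    show (Finsupp.linearCombination ℂ f : (G →₀ ℂ) →ₗ[ℂ] F) (Finsupp.single g 1) = f g
    rw [Finsupp.linearCombination_single, one_smul]
  · refine ContinuousLinearMap.opNorm_le_bound _ hC fun x => ?_
    refine isClosed_property (p := fun x => ‖T0.fromCompletion x‖ ≤ C * ‖x‖)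
      (Completion.denseRange_coe (α := GA G))
      (isClosed_le (by fun_prop) (by fun_prop)) (fun a => ?_) x
    rw [ContinuousLinearMap.fromCompletion_apply_coe, Completion.norm_coe]
    exact hL a

/-! ### the completion of a unitary representation -/

section Compl

variable {E : Type} [SeminormedAddCommGroup E] [InnerProductSpace ℂ E]

/-- the extension of an isometric automorphism to the completion -/
noncomputable def complIso (e : E ≃ₗᵢ[ℂ] E) : Completion E ≃ₗᵢ[ℂ] Completion E where
  toLinearEquiv := LinearEquiv.ofLinearMap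
    ((e.toContinuousLinearEquiv : E →L[ℂ] E).completion : Completion E →ₗ[ℂ] Completion E)
    ((e.symm.toContinuousLinearEquiv : E →L[ℂ] E).completion : Completion E →ₗ[ℂ] Completion E)
    (by
      refine LinearMap.ext fun x => ?_
      refine Completion.induction_on x ?_ fun a => ?_
      · refine isClosed_eq ?_ continuous_id
        exact ((e.toContinuousLinearEquiv : E →L[ℂ] E).completion.continuous).comp
          ((e.symm.toContinuousLinearEquiv : E →L[ℂ] E).completion.continuous)
      · simp)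
    (by
      refine LinearMap.ext fun x => ?_
      refine Completion.induction_on x ?_ fun a => ?_
      · refine isClosed_eq ?_ continuous_id
        exact ((e.symm.toContinuousLinearEquiv : E →L[ℂ] E).completion.continuous).comp
          ((e.toContinuousLinearEquiv : E →L[ℂ] E).completion.continuous)
      · simp)
  norm_map' := by
    intro x
    refine Completion.induction_on x ?_ fun a => ?_
    · refine isClosed_eq ?_ continuous_norm
      exact ((e.toContinuousLinearEquiv : E →L[ℂ] E).completion.continuous).norm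
    · simp

theorem complIso_coe (e : E ≃ₗᵢ[ℂ] E) (x : E) : complIso e (x : Completion E) = (e x : Completion E) := by
  show (e.toContinuousLinearEquiv : E →L[ℂ] E).completion (x : Completion E) = _
  rw [ContinuousLinearMap.completion_apply_coe]
  rfl

/-- the completion of a unitary representation -/
noncomputable def complRep (π : G →* (E ≃ₗᵢ[ℂ] E)) : G →* (Completion E ≃ₗᵢ[ℂ] Completion E) where
  toFun g := complIso (π g)
  map_one' := by
    refine LinearIsometryEquiv.ext fun x => ?_
    refine Completion.induction_on x ?_ fun a => ?_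
    · exact isClosed_eq (complIso (π 1)).continuous continuous_id
    · rw [complIso_coe, map_one]; rfl
  map_mul' g h := by
    refine LinearIsometryEquiv.ext fun x => ?_
    refine Completion.induction_on x ?_ fun a => ?_
    · exact isClosed_eq (complIso (π (g * h))).continuous
        (((complIso (π g)).continuous).comp (complIso (π h)).continuous)
    · rw [complIso_coe, map_mul]
      show _ = complIso (π g) (complIso (π h) a)
      rw [complIso_coe, complIso_coe]; rfl

theorem complRep_coe (π : G →* (E ≃ₗᵢ[ℂ] E)) (g : G) (x : E) :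
    complRep π g (x : Completion E) = (π g x : Completion E) := complIso_coe _ _

theorem ev_complRep (π : G →* (E ≃ₗᵢ[ℂ] E)) (a : G →₀ ℂ) (x : E) :
    ev (complRep π) a (x : Completion E) = (ev π a x : Completion E) := by
  rw [ev_apply, ev_apply]
  unfold Finsupp.sum
  simp only [complRep_coe]
  rw [← Completion.coe_toComplL (𝕜 := ℂ), map_sum]
  simp only [map_smul]

theorem norm_ev_le_maxNorm (π : G →* (E ≃ₗᵢ[ℂ] E)) (a : G →₀ ℂ) (v : E) :
    ‖ev π a v‖ ≤ maxNorm a * ‖v‖ := by
  have h := (ev (complRep π) a).le_opNorm (v : Completion E)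
  rw [ev_complRep, Completion.norm_coe, Completion.norm_coe] at h
  exact h.trans (mul_le_mul_of_nonneg_right (le_maxNorm _ _) (norm_nonneg _))

end Compl

end Pool.Agent.H71R3.FS
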