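import Mathlib
import Pool.Agent.H71R3.FS

set_option autoImplicit false

namespace Pool.Agent.H71R3.FS

open UniformSpace
open scoped TensorProduct

variable {G : Type} [Group G]

/-- pointwise product of a function and an element of `ℂ[G]` -/
noncomputable def pm (f : G → ℂ) (a : G →₀ ℂ) : G →₀ ℂ :=
  Finsupp.linearCombination ℂ (fun g => Finsupp.single g (f g)) a

theorem lc_pm {F : Type*} [AddCommGroup F] [Module ℂ F] (h : G → F) (f : G → ℂ) (a : G →₀ ℂ) :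
    Finsupp.linearCombination ℂ h (pm f a) = Finsupp.linearCombination ℂ (fun g => f g • h g) a := by
  unfold pm
  induction a using Finsupp.induction_linear with
  | zero => simp
  | add a b ha hb => simp only [map_add, ha, hb]
  | single g c =>
    simp only [Finsupp.linearCombination_single, map_smul]

theorem lc_pm_sum {F : Type*} [AddCommGroup F] [Module ℂ F] (h : G → F) (f : G → ℂ) (a : G →₀ ℂ) :
    ((pm f a).sum fun g c => c • h g) = a.sum fun g c => c • (f g • h g) := by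
  have := lc_pm h f a
  rw [Finsupp.linearCombination_apply, Finsupp.linearCombination_apply] at this
  exact this

/-- tensor product of unitary representations -/
noncomputable def tens {H K : Type} [NormedAddCommGroup H] [InnerProductSpace ℂ H]
    [NormedAddCommGroup K] [InnerProductSpace ℂ K] (π : G →* (H ≃ₗᵢ[ℂ] H)) (σ : G →* (K ≃ₗᵢ[ℂ] K)) :
    G →* ((H ⊗[ℂ] K) ≃ₗᵢ[ℂ] (H ⊗[ℂ] K)) where
  toFun g := TensorProduct.congrIsometry (π g) (σ g)
  map_one' := by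
    rw [map_one, map_one]
    exact TensorProduct.congrIsometry_refl_refl
  map_mul' g h := by
    rw [map_mul, map_mul]
    refine LinearIsometryEquiv.ext fun x => ?_
    induction x using TensorProduct.induction_on with
    | zero => simp
    | tmul x y => rfl
    | add x y hx hy => rw [map_add, map_add, hx, hy]

theorem tens_tmul {H K : Type} [NormedAddCommGroup H] [InnerProductSpace ℂ H]
    [NormedAddCommGroup K] [InnerProductSpace ℂ K] (π : G →* (H ≃ₗᵢ[ℂ] H)) (σ : G →* (K ≃ₗᵢ[ℂ] K))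
    (g : G) (x : H) (y : K) : tens π σ g (x ⊗ₜ y) = (π g x) ⊗ₜ (σ g y) := rfl

theorem inner_ev {E : Type} [SeminormedAddCommGroup E] [InnerProductSpace ℂ E]
    (π : G →* (E ≃ₗᵢ[ℂ] E)) (a : G →₀ ℂ) (x y : E) :
    inner ℂ y (ev π a x) = a.sum fun g c => c * inner ℂ y (π g x) := by
  rw [ev_apply]
  unfold Finsupp.sum
  rw [inner_sum]
  simp only [inner_smul_right]

theorem coef_le {E : Type} [SeminormedAddCommGroup E] [InnerProductSpace ℂ E]
    (π : G →* (E ≃ₗᵢ[ℂ] E)) (a : G →₀ ℂ) (x y : E) :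
    ‖a.sum fun g c => c * inner ℂ y (π g x)‖ ≤ ‖x‖ * ‖y‖ * maxNorm a := by
  rw [← inner_ev]
  calc ‖inner ℂ y (ev π a x)‖ ≤ ‖y‖ * ‖ev π a x‖ := norm_inner_le_norm _ _
    _ ≤ ‖y‖ * (maxNorm a * ‖x‖) := mul_le_mul_of_nonneg_left (norm_ev_le_maxNorm π a x) (norm_nonneg _)
    _ = ‖x‖ * ‖y‖ * maxNorm a := by ring

/-- coefficient functions define functionals on `C*(G)` -/
theorem coef_dual {E : Type} [SeminormedAddCommGroup E] [InnerProductSpace ℂ E]
    (π : G →* (E ≃ₗᵢ[ℂ] E)) (x y : E) :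
    ∃ Φ : CStar G →L[ℂ] ℂ, (∀ g, Φ (dir g) = inner ℂ y (π g x)) ∧ ‖Φ‖ ≤ ‖x‖ * ‖y‖ :=
  exists_map (fun g => inner ℂ y (π g x)) (‖x‖ * ‖y‖) (by positivity) fun a => by
    simpa only [smul_eq_mul] using coef_le π a x y

theorem opNorm_le_of_inner {H : Type} [NormedAddCommGroup H] [InnerProductSpace ℂ H]
    (T : H →L[ℂ] H) (C : ℝ) (hC : 0 ≤ C) (h : ∀ x y : H, ‖inner ℂ y (T x)‖ ≤ C * ‖x‖ * ‖y‖) :
    ‖T‖ ≤ C := by
  refine ContinuousLinearMap.opNorm_le_bound _ hC fun x => ?_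
  by_cases h0 : ‖T x‖ = 0
  · rw [h0]; positivity
  · have h1 := h x (T x)
    rw [inner_self_eq_norm_sq_to_K] at h1
    have h2 : ‖((‖T x‖ : ℂ)) ^ 2‖ = ‖T x‖ * ‖T x‖ := by
      rw [norm_pow, Complex.norm_real, norm_norm, sq]
    have h3 : ‖T x‖ * ‖T x‖ ≤ C * ‖x‖ * ‖T x‖ := by
      calc ‖T x‖ * ‖T x‖ = ‖((‖T x‖ : ℂ)) ^ 2‖ := h2.symm
        _ ≤ _ := h1
    exact le_of_mul_le_mul_right h3 (lt_of_le_of_ne (norm_nonneg _) (Ne.symm h0))

/-- the product of an element of `ℂ[G]` with a coefficient function -/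
theorem maxNorm_pm_coef {H : Type} [NormedAddCommGroup H] [InnerProductSpace ℂ H]
    (π : G →* (H ≃ₗᵢ[ℂ] H)) (v w : H) (a : G →₀ ℂ) :
    maxNorm (pm (fun g => inner ℂ w (π g v)) a) ≤ ‖v‖ * ‖w‖ * maxNorm a := by
  refine maxNorm_le fun K _ _ _ σ => ?_
  refine opNorm_le_of_inner _ _ (by have := maxNorm_nonneg a; positivity) fun x y => ?_
  rw [inner_ev]
  have h1 : ((pm (fun g => inner ℂ w (π g v)) a).sum fun g c => c * inner ℂ y (σ g x))
      = a.sum fun g c => c * inner ℂ (w ⊗ₜ[ℂ] y) (tens π σ g (v ⊗ₜ[ℂ] x)) := by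
    have := lc_pm_sum (fun g => inner ℂ y (σ g x)) (fun g => inner ℂ w (π g v)) a
    simp only [smul_eq_mul] at this
    rw [this]
    refine Finsupp.sum_congr fun g _ => ?_
    rw [tens_tmul, TensorProduct.inner_tmul]
  rw [h1]
  refine (coef_le (tens π σ) a (v ⊗ₜ[ℂ] x) (w ⊗ₜ[ℂ] y)).trans (le_of_eq ?_)
  rw [TensorProduct.norm_tmul, TensorProduct.norm_tmul]
  ring

/-- the multiplier of `C*(G)` given by a functional -/
theorem exists_mult (Φ : CStar G →L[ℂ] ℂ) :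
    ∃ M : CStar G →L[ℂ] CStar G, (∀ g, M (dir g) = Φ (dir g) • dir g) ∧ ‖M‖ ≤ ‖Φ‖ := by
  refine exists_map (fun g => Φ (dir g) • dir g) ‖Φ‖ (norm_nonneg _) fun a => ?_
  have h0 : (a.sum fun g c => c • (Φ (dir g) • dir g)) = (inc (pm (fun g => Φ (dir g)) a) : CStar G) := by
    rw [inc_eq_sum, lc_pm_sum]
  rw [h0, norm_inc]
  refine maxNorm_le fun H _ _ _ π => ?_
  refine opNorm_le_of_inner _ _ (by have := maxNorm_nonneg a; positivity) fun v w => ?_
  rw [inner_ev]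
  have h1 : ((pm (fun g => Φ (dir g)) a).sum fun g c => c * inner ℂ w (π g v))
      = Φ (inc (pm (fun g => inner ℂ w (π g v)) a)) := by
    have e1 := lc_pm_sum (fun g => inner ℂ w (π g v)) (fun g => Φ (dir g)) a
    have e2 := lc_pm_sum (fun g => Φ (dir g)) (fun g => inner ℂ w (π g v)) a
    rw [map_inc, e2]
    simp only [smul_eq_mul] at e1 ⊢
    rw [e1]
    refine Finsupp.sum_congr fun g _ => by ring
  rw [h1]
  refine (Φ.le_opNorm _).trans ?_
  rw [norm_inc]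
  calc ‖Φ‖ * maxNorm (pm (fun g => inner ℂ w (π g v)) a)
      ≤ ‖Φ‖ * (‖v‖ * ‖w‖ * maxNorm a) :=
        mul_le_mul_of_nonneg_left (maxNorm_pm_coef π v w a) (norm_nonneg _)
    _ = ‖Φ‖ * maxNorm a * ‖v‖ * ‖w‖ := by ring

/-- the multiplier of `C*(G)` with symbol `Φ ∈ B(G)` -/
noncomputable def mult (Φ : CStar G →L[ℂ] ℂ) : CStar G →L[ℂ] CStar G := (exists_mult Φ).choose

theorem mult_dir (Φ : CStar G →L[ℂ] ℂ) (g : G) : mult Φ (dir g) = Φ (dir g) • dir g :=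
  (exists_mult Φ).choose_spec.1 g

theorem norm_mult_le (Φ : CStar G →L[ℂ] ℂ) : ‖mult Φ‖ ≤ ‖Φ‖ := (exists_mult Φ).choose_spec.2

/-- the product in `B(G)` -/
noncomputable def dmul (Φ Ψ : CStar G →L[ℂ] ℂ) : CStar G →L[ℂ] ℂ := Ψ.comp (mult Φ)

theorem dmul_dir (Φ Ψ : CStar G →L[ℂ] ℂ) (g : G) : dmul Φ Ψ (dir g) = Φ (dir g) * Ψ (dir g) := by
  unfold dmul
  rw [ContinuousLinearMap.comp_apply, mult_dir, map_smul, smul_eq_mul]

theorem norm_dmul_le (Φ Ψ : CStar G →L[ℂ] ℂ) : ‖dmul Φ Ψ‖ ≤ ‖Φ‖ * ‖Ψ‖ := by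
  unfold dmul
  refine (ContinuousLinearMap.opNorm_comp_le _ _).trans ?_
  rw [mul_comm]
  exact mul_le_mul_of_nonneg_right (norm_mult_le Φ) (norm_nonneg _)

theorem norm_dir_le (g : G) : ‖(dir g : CStar G)‖ ≤ 1 := by
  unfold dir
  rw [norm_inc]
  refine maxNorm_le fun H _ _ _ π => ?_
  refine (norm_ev_le π _).trans ?_
  rw [Finsupp.sum_single_index (by simp)]
  simp

end Pool.Agent.H71R3.FS
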