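import Mathlib
import Pool.Agent.H71R3.FS2

set_option autoImplicit false

namespace Pool.Agent.H71R3.FS

open UniformSpace

variable {G : Type} [Group G]

/-! ### GNS construction -/

/-- the sesquilinear form of a function on `G` -/
noncomputable def sq (φ : G → ℂ) (a b : G →₀ ℂ) : ℂ :=
  a.sum fun g c => b.sum fun h d => starRingEnd ℂ c * d * φ (g⁻¹ * h)

/-- positive definite functions -/
def PD (φ : G → ℂ) : Prop :=
  (∀ g, φ g⁻¹ = starRingEnd ℂ (φ g)) ∧ ∀ a : G →₀ ℂ, 0 ≤ (sq φ a a).re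

theorem sq_add_left (φ : G → ℂ) (a b c : G →₀ ℂ) : sq φ (a + b) c = sq φ a c + sq φ b c := by
  unfold sq
  refine Finsupp.sum_add_index' (fun g => ?_) (fun g c1 c2 => ?_)
  · simp
  · simp only [map_add, add_mul]
    exact Finsupp.sum_add

theorem sq_smul_left (φ : G → ℂ) (a b : G →₀ ℂ) (r : ℂ) :
    sq φ (r • a) b = starRingEnd ℂ r * sq φ a b := by
  unfold sq
  rw [Finsupp.sum_smul_index (fun g => by simp), Finsupp.mul_sum]
  refine Finsupp.sum_congr fun g _ => ?_
  rw [Finsupp.mul_sum]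
  refine Finsupp.sum_congr fun h _ => ?_
  rw [map_mul]; ring

theorem sq_conj (φ : G → ℂ) (hφ : ∀ g, φ g⁻¹ = starRingEnd ℂ (φ g)) (a b : G →₀ ℂ) :
    starRingEnd ℂ (sq φ b a) = sq φ a b := by
  unfold sq
  rw [map_finsuppSum]
  simp only [map_finsuppSum]
  rw [Finsupp.sum_comm]
  refine Finsupp.sum_congr fun g _ => Finsupp.sum_congr fun h _ => ?_
  rw [map_mul, map_mul, ← hφ, mul_inv_rev, inv_inv, Complex.conj_conj]
  ring

/-- the core of the GNS space -/
@[instance_reducible]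
noncomputable def core (φ : G → ℂ) (hφ : PD φ) : PreInnerProductSpace.Core ℂ (G →₀ ℂ) where
  inner := sq φ
  conj_inner_symm a b := sq_conj φ hφ.1 a b
  re_inner_nonneg a := hφ.2 a
  add_left := sq_add_left φ
  smul_left a b r := sq_smul_left φ a b r

theorem sq_mapDomain (φ : G → ℂ) (s : G) (a b : G →₀ ℂ) :
    sq φ (a.mapDomain (s * ·)) (b.mapDomain (s * ·)) = sq φ a b := by
  unfold sq
  have hinj : Function.Injective (fun x : G => s * x) := mul_right_injective s
  rw [Finsupp.sum_mapDomain_index_inj hinj]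
  refine Finsupp.sum_congr fun g _ => ?_
  rw [Finsupp.sum_mapDomain_index_inj hinj]
  refine Finsupp.sum_congr fun h _ => ?_
  congr 2
  group

/-- **GNS construction.** -/
theorem gns (φ : G → ℂ) (hφ : PD φ) :
    ∃ (E : Type) (_ : SeminormedAddCommGroup E) (_ : InnerProductSpace ℂ E)
      (π : G →* (E ≃ₗᵢ[ℂ] E)) (J : (G →₀ ℂ) →ₗ[ℂ] E),
      Function.Surjective J ∧ (∀ a b, inner ℂ (J a) (J b) = sq φ a b) ∧
      (∀ g a, π g (J a) = J (a.mapDomain (g * ·))) := by
  let i1 : SeminormedAddCommGroup (G →₀ ℂ) :=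
    @InnerProductSpace.Core.toSeminormedAddCommGroup ℂ (G →₀ ℂ) _ _ _ (core φ hφ)
  let i2 : InnerProductSpace ℂ (G →₀ ℂ) := InnerProductSpace.ofCore (core φ hφ)
  have hin : ∀ a b : G →₀ ℂ, inner ℂ a b = sq φ a b := fun _ _ => rfl
  let U : G → ((G →₀ ℂ) ≃ₗᵢ[ℂ] (G →₀ ℂ)) := fun g =>
    LinearEquiv.isometryOfInner (Finsupp.domLCongr (Equiv.mulLeft g)) (fun a b => by
      rw [hin, hin]
      have e : ∀ a : G →₀ ℂ, (Finsupp.domLCongr (Equiv.mulLeft g) : (G →₀ ℂ) ≃ₗ[ℂ] (G →₀ ℂ)) a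
          = a.mapDomain (g * ·) := fun a => by
        rw [Finsupp.domLCongr_apply, Finsupp.domCongr_apply, Finsupp.equivMapDomain_eq_mapDomain]
        rfl
      rw [e, e, sq_mapDomain])
  have hU : ∀ g a, U g a = a.mapDomain (g * ·) := fun g a => by
    show (Finsupp.domLCongr (Equiv.mulLeft g) : (G →₀ ℂ) ≃ₗ[ℂ] (G →₀ ℂ)) a = _
    rw [Finsupp.domLCongr_apply, Finsupp.domCongr_apply, Finsupp.equivMapDomain_eq_mapDomain]
    rfl
  refine ⟨G →₀ ℂ, i1, i2, ⟨⟨U, ?_⟩, ?_⟩, LinearMap.id, fun a => ⟨a, rfl⟩, hin, hU⟩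
  · refine LinearIsometryEquiv.ext fun a => ?_
    rw [hU]
    simp only [one_mul]
    exact Finsupp.mapDomain_id
  · intro g h
    refine LinearIsometryEquiv.ext fun a => ?_
    show U (g * h) a = U g (U h a)
    rw [hU, hU, hU, ← Finsupp.mapDomain_comp]
    congr 1
    funext x
    simp only [Function.comp_apply, mul_assoc]

/-- the cyclic vector of the GNS construction -/
theorem gns_vector (φ : G → ℂ) (hφ : PD φ) :
    ∃ (E : Type) (_ : SeminormedAddCommGroup E) (_ : InnerProductSpace ℂ E)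
      (π : G →* (E ≃ₗᵢ[ℂ] E)) (ξ : E), ∀ g, inner ℂ ξ (π g ξ) = φ g := by
  obtain ⟨E, i1, i2, π, J, -, hJ, hπ⟩ := gns φ hφ
  refine ⟨E, i1, i2, π, J (Finsupp.single 1 1), fun g => ?_⟩
  rw [hπ, hJ]
  unfold sq
  rw [Finsupp.mapDomain_single, Finsupp.sum_single_index (by simp), Finsupp.sum_single_index (by simp)]
  simp

/-! ### `ℓ²` -/

/-- the positive definite function `δ_e` -/
theorem sq_delta (a b : G →₀ ℂ) [DecidableEq G] :
    sq (fun g => if g = 1 then (1 : ℂ) else 0) a b = a.sum fun g c => starRingEnd ℂ c * b g := by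
  unfold sq
  refine Finsupp.sum_congr fun g _ => ?_
  have : ∀ h d, starRingEnd ℂ (a g) * d * (if g⁻¹ * h = 1 then (1 : ℂ) else 0)
      = starRingEnd ℂ (a g) * (if h = g then d else 0) := by
    intro h d
    by_cases hgh : h = g
    · subst hgh; simp
    · have : ¬ g⁻¹ * h = 1 := fun h' => hgh (inv_mul_eq_one.1 h').symm
      rw [if_neg hgh, if_neg this]; simp
  simp only [this]
  rw [← Finsupp.mul_sum]
  congr 1
  rw [Finsupp.sum_ite_eq']
  by_cases hg : g ∈ b.support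
  · rw [if_pos hg]
  · rw [if_neg hg, Finsupp.notMem_support_iff.1 hg]

theorem pd_delta [DecidableEq G] : PD (fun g : G => if g = 1 then (1 : ℂ) else 0) := by
  refine ⟨fun g => ?_, fun a => ?_⟩
  · by_cases hg : g = 1
    · subst hg; simp
    · simp [hg]
  · rw [sq_delta]
    unfold Finsupp.sum
    rw [Complex.re_sum]
    refine Finset.sum_nonneg fun g _ => ?_
    show 0 ≤ (starRingEnd ℂ (a g) * a g).re
    rw [mul_comm, Complex.mul_conj]
    simp [Complex.normSq_nonneg]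

theorem l2_le_maxNorm (a : G →₀ ℂ) : (a.sum fun _ c => ‖c‖ ^ 2) ≤ maxNorm a ^ 2 := by
  classical
  obtain ⟨E, i1, i2, π, J, -, hJ, hπ⟩ := gns _ (pd_delta (G := G))
  have h1 : ev π a (J (Finsupp.single 1 1)) = J a := by
    rw [ev_apply]
    have : ∀ g, π g (J (Finsupp.single 1 1)) = J (Finsupp.single g 1) := fun g => by
      rw [hπ, Finsupp.mapDomain_single, mul_one]
    simp only [this, ← map_smul, Finsupp.smul_single, smul_eq_mul, mul_one]
    rw [← map_finsuppSum]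
    congr 1
    exact Finsupp.sum_single a
  have h2 := norm_ev_le_maxNorm π a (J (Finsupp.single 1 1))
  rw [h1] at h2
  have hn : ∀ b : G →₀ ℂ, ‖J b‖ ^ 2 = b.sum fun _ c => ‖c‖ ^ 2 := by
    intro b
    have h3 := @inner_self_eq_norm_sq_to_K ℂ E _ _ _ (J b)
    rw [hJ, sq_delta] at h3
    have h4 : (b.sum fun g c => starRingEnd ℂ c * b g) = ((b.sum fun _ c => ‖c‖ ^ 2 : ℝ) : ℂ) := by
      unfold Finsupp.sum
      rw [Complex.ofReal_sum]
      refine Finset.sum_congr rfl fun g _ => ?_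
      show starRingEnd ℂ (b g) * b g = ((‖b g‖ ^ 2 : ℝ) : ℂ)
      rw [mul_comm, Complex.mul_conj, Complex.normSq_eq_norm_sq]
    rw [h4] at h3
    apply Complex.ofReal_injective
    rw [Complex.ofReal_pow]
    exact h3.symm
  have h5 : ‖J (Finsupp.single (1 : G) (1 : ℂ))‖ ^ 2 = 1 := by
    rw [hn, Finsupp.sum_single_index (by simp)]; simp
  have h6 : ‖J (Finsupp.single (1 : G) (1 : ℂ))‖ = 1 := by
    have := norm_nonneg (J (Finsupp.single (1 : G) (1 : ℂ)))
    nlinarith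
  rw [h6, mul_one] at h2
  rw [← hn]
  exact pow_le_pow_left₀ (norm_nonneg _) h2 2

/-- square summable functions define functionals on `C*(G)` -/
theorem l2_dual (w : G → ℂ) (hw : Summable fun g => ‖w g‖ ^ 2) :
    ∃ Φ : CStar G →L[ℂ] ℂ, (∀ g, Φ (dir g) = w g) ∧ ‖Φ‖ ≤ Real.sqrt (∑' g, ‖w g‖ ^ 2) := by
  refine exists_map w _ (Real.sqrt_nonneg _) fun a => ?_
  unfold Finsupp.sum
  calc ‖∑ g ∈ a.support, a g • w g‖ ≤ ∑ g ∈ a.support, ‖a g‖ * ‖w g‖ :=
        norm_sum_le_of_le _ fun g _ => by rw [norm_smul]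
    _ ≤ Real.sqrt (∑ g ∈ a.support, ‖a g‖ ^ 2) * Real.sqrt (∑ g ∈ a.support, ‖w g‖ ^ 2) :=
        Real.sum_mul_le_sqrt_mul_sqrt _ _ _
    _ ≤ maxNorm a * Real.sqrt (∑' g, ‖w g‖ ^ 2) := by
        refine mul_le_mul ?_ ?_ (Real.sqrt_nonneg _) (maxNorm_nonneg a)
        · rw [Real.sqrt_le_left (maxNorm_nonneg a)]
          exact l2_le_maxNorm a
        · exact Real.sqrt_le_sqrt (hw.sum_le_tsum _ fun g _ => sq_nonneg _)
    _ = _ := mul_comm _ _

/-! ### translations -/

theorem ev_mapDomain_left {E : Type} [SeminormedAddCommGroup E] [InnerProductSpace ℂ E]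
    (π : G →* (E ≃ₗᵢ[ℂ] E)) (s : G) (a : G →₀ ℂ) (v : E) :
    ev π (a.mapDomain (s * ·)) v = π s (ev π a v) := by
  rw [ev_apply, ev_apply, Finsupp.sum_mapDomain_index_inj (mul_right_injective s), map_finsuppSum]
  refine Finsupp.sum_congr fun g _ => ?_
  rw [map_smul, map_mul]; rfl

theorem ev_mapDomain_right {E : Type} [SeminormedAddCommGroup E] [InnerProductSpace ℂ E]
    (π : G →* (E ≃ₗᵢ[ℂ] E)) (s : G) (a : G →₀ ℂ) (v : E) :
    ev π (a.mapDomain (· * s)) v = ev π a (π s v) := by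
  rw [ev_apply, ev_apply, Finsupp.sum_mapDomain_index_inj (mul_left_injective s)]
  refine Finsupp.sum_congr fun g _ => ?_
  rw [map_mul]; rfl

theorem exists_left (s : G) : ∃ T : CStar G →L[ℂ] CStar G, ∀ g, T (dir g) = dir (s * g) := by
  obtain ⟨T, hT, -⟩ := exists_map (fun g => (dir (s * g) : CStar G)) 1 zero_le_one fun a => by
    have h0 : (a.sum fun g c => c • (dir (s * g) : CStar G)) = inc (a.mapDomain (s * ·)) := by
      rw [inc_eq_sum, Finsupp.sum_mapDomain_index_inj (mul_right_injective s)]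
    rw [h0, norm_inc, one_mul]
    refine maxNorm_le fun H _ _ _ π => ?_
    refine ContinuousLinearMap.opNorm_le_bound _ (maxNorm_nonneg a) fun v => ?_
    rw [ev_mapDomain_left, LinearIsometryEquiv.norm_map]
    exact norm_ev_le_maxNorm π a v
  exact ⟨T, hT⟩

theorem exists_right (s : G) : ∃ T : CStar G →L[ℂ] CStar G, ∀ g, T (dir g) = dir (g * s) := by
  obtain ⟨T, hT, -⟩ := exists_map (fun g => (dir (g * s) : CStar G)) 1 zero_le_one fun a => by
    have h0 : (a.sum fun g c => c • (dir (g * s) : CStar G)) = inc (a.mapDomain (· * s)) := by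
      rw [inc_eq_sum, Finsupp.sum_mapDomain_index_inj (mul_left_injective s)]
    rw [h0, norm_inc, one_mul]
    refine maxNorm_le fun H _ _ _ π => ?_
    refine ContinuousLinearMap.opNorm_le_bound _ (maxNorm_nonneg a) fun v => ?_
    rw [ev_mapDomain_right]
    refine (norm_ev_le_maxNorm π a _).trans (le_of_eq ?_)
    rw [LinearIsometryEquiv.norm_map]
  exact ⟨T, hT⟩

end Pool.Agent.H71R3.FS
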