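import Mathlib

set_option autoImplicit false

namespace Pool.Agent.H71R3.Tree

open Finset

variable {β : Type*} [DecidableEq β]

/-- distance of two words in the tree of words -/
def dl : List β → List β → ℕ
  | [], v => v.length
  | u, [] => u.length
  | a :: u, b :: v => if a = b then dl u v else u.length + v.length + 2

theorem dl_nil_left (v : List β) : dl [] v = v.length := by
  cases v <;> simp [dl]

theorem dl_nil_right (u : List β) : dl u [] = u.length := by
  cases u <;> simp [dl]

theorem dl_cons_same (a : β) (u v : List β) : dl (a :: u) (a :: v) = dl u v := by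
  simp [dl]

theorem dl_cons_ne (a b : β) (u v : List β) (h : a ≠ b) :
    dl (a :: u) (b :: v) = u.length + v.length + 2 := by
  simp [dl, h]

theorem dl_comm (u v : List β) : dl u v = dl v u := by
  induction u generalizing v with
  | nil => rw [dl_nil_left, dl_nil_right]
  | cons a u ih =>
    cases v with
    | nil => rw [dl_nil_left, dl_nil_right]
    | cons b v =>
      by_cases h : a = b
      · subst h; rw [dl_cons_same, dl_cons_same, ih]
      · rw [dl_cons_ne _ _ _ _ h, dl_cons_ne _ _ _ _ (Ne.symm h)]; ring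

/-- indicator that a word starts with `b` -/
def hb (b : β) (u : List β) : ℝ := if u.head? = some b then 1 else 0

/-- indicator of the empty word -/
def e0 (u : List β) : ℝ := if u = [] then 1 else 0

/-- indicator of equality -/
def dlt (u v : List β) : ℝ := if u = v then 1 else 0

variable [Fintype β]

theorem pow_len (r : ℝ) (u : List β) :
    r ^ u.length = e0 u + r * ∑ b, hb b u * r ^ u.tail.length := by
  cases u with
  | nil => simp [e0, hb]
  | cons a u =>
    simp only [e0, hb, List.head?_cons, Option.some.injEq, List.tail_cons, List.length_cons,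
      reduceCtorEq, if_false, zero_add]
    rw [Finset.sum_eq_single a]
    · simp; ring
    · intro b _ hb'; simp [Ne.symm hb']
    · simp

theorem ker_id (r : ℝ) (u v : List β) :
    r ^ dl u v = r ^ u.length * r ^ v.length +
      ∑ b, hb b u * hb b v * (r ^ dl u.tail v.tail - r ^ 2 * (r ^ u.tail.length * r ^ v.tail.length)) := by
  cases u with
  | nil => simp [dl_nil_left, hb]
  | cons a u =>
    cases v with
    | nil => simp [dl_nil_right, hb]
    | cons b v =>
      by_cases h : a = b
      · subst h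
        rw [Finset.sum_eq_single a]
        · simp [dl_cons_same, hb]; ring
        · intro c _ hc; simp [hb, Ne.symm hc]
        · simp
      · rw [dl_cons_ne _ _ _ _ h, Finset.sum_eq_zero]
        · simp; ring
        · intro c _
          by_cases hc : a = c
          · have : ¬ b = c := fun h' => h (hc.trans h'.symm)
            simp [hb, this]
          · simp [hb, hc]

theorem dlt_id (u v : List β) :
    dlt u v = e0 u * e0 v + ∑ b, hb b u * hb b v * dlt u.tail v.tail := by
  cases u with
  | nil =>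
    cases v with
    | nil => simp [dlt, e0, hb]
    | cons b v => simp [dlt, e0, hb]
  | cons a u =>
    cases v with
    | nil => simp [dlt, e0, hb]
    | cons b v =>
      by_cases h : a = b
      · subst h
        rw [Finset.sum_eq_single a]
        · by_cases huv : u = v
          · subst huv; simp [dlt, e0, hb]
          · simp [dlt, e0, hb, huv]
        · intro c _ hc; simp [hb, Ne.symm hc]
        · simp
      · rw [Finset.sum_eq_zero]
        · simp [dlt, e0, h]
        · intro c _
          by_cases hc : a = c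
          · have : ¬ b = c := fun h' => h (hc.trans h'.symm)
            simp [hb, this]
          · simp [hb, hc]

/-- the lower bound constant -/
noncomputable def eps (m : ℕ) (r : ℝ) : ℝ := (1 - r ^ 2) / (2 + 2 * m * r ^ 2)

theorem eps_pos (m : ℕ) (r : ℝ) (h0 : 0 ≤ r) (h1 : r < 1) : 0 < eps m r := by
  have : r ^ 2 < 1 := by nlinarith
  unfold eps
  apply div_pos (by linarith) (by positivity)

theorem eps_eq (m : ℕ) (r : ℝ) : (2 + 2 * m * r ^ 2) * eps m r = 1 - r ^ 2 := by
  unfold eps
  have : (2 + 2 * (m : ℝ) * r ^ 2) ≠ 0 := by positivity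
  field_simp

theorem main_aux (r : ℝ) (h0 : 0 ≤ r) (h1 : r < 1) (N : ℕ) :
    ∀ {ι : Type} (s : Finset ι) (u : ι → List β) (x : ι → ℝ), (∀ i ∈ s, (u i).length ≤ N) →
      eps (Fintype.card β) r * ∑ i ∈ s, ∑ j ∈ s, x i * x j * dlt (u i) (u j)
        + (1 - 2 * eps (Fintype.card β) r) * (∑ i ∈ s, x i * r ^ (u i).length) ^ 2
      ≤ ∑ i ∈ s, ∑ j ∈ s, x i * x j * r ^ dl (u i) (u j) := by
  induction N with
  | zero =>
    intro ι s u x hu
    have hu' : ∀ i ∈ s, u i = [] := fun i hi => List.length_eq_zero_iff.1 (Nat.le_zero.1 (hu i hi))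
    have e1 : ∑ i ∈ s, ∑ j ∈ s, x i * x j * dlt (u i) (u j) = (∑ i ∈ s, x i) ^ 2 := by
      rw [sq, Finset.sum_mul_sum]
      refine Finset.sum_congr rfl fun i hi => Finset.sum_congr rfl fun j hj => ?_
      simp [hu' i hi, hu' j hj, dlt]
    have e2 : ∑ i ∈ s, ∑ j ∈ s, x i * x j * r ^ dl (u i) (u j) = (∑ i ∈ s, x i) ^ 2 := by
      rw [sq, Finset.sum_mul_sum]
      refine Finset.sum_congr rfl fun i hi => Finset.sum_congr rfl fun j hj => ?_
      simp [hu' i hi, hu' j hj, dl_nil_left]
    have e3 : ∑ i ∈ s, x i * r ^ (u i).length = ∑ i ∈ s, x i := by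
      refine Finset.sum_congr rfl fun i hi => ?_
      simp [hu' i hi]
    rw [e1, e2, e3]
    have := eps_pos (Fintype.card β) r h0 h1
    nlinarith [sq_nonneg (∑ i ∈ s, x i)]
  | succ N ih =>
    intro ι s u x hu
    set ε := eps (Fintype.card β) r with hε
    have hεpos := eps_pos (Fintype.card β) r h0 h1
    have hεeq := eps_eq (Fintype.card β) r
    rw [← hε] at hεpos hεeq
    set S := ∑ i ∈ s, x i * r ^ (u i).length with hS
    set Sb : β → ℝ := fun b => ∑ i ∈ s, (x i * hb b (u i)) * r ^ (u i).tail.length with hSb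
    set a0 := ∑ i ∈ s, x i * e0 (u i) with ha0
    set D : β → ℝ := fun b => ∑ i ∈ s, ∑ j ∈ s, (x i * hb b (u i)) * (x j * hb b (u j)) *
      dlt (u i).tail (u j).tail with hD
    set Q : β → ℝ := fun b => ∑ i ∈ s, ∑ j ∈ s, (x i * hb b (u i)) * (x j * hb b (u j)) *
      r ^ dl (u i).tail (u j).tail with hQ
    have key : ∀ b, ε * D b + (1 - 2 * ε) * (Sb b) ^ 2 ≤ Q b := fun b =>
      ih s (fun i => (u i).tail) (fun i => x i * hb b (u i)) (fun i hi => by
        have := hu i hi
        rw [List.length_tail]; omega)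
    have hSS : S = a0 + r * ∑ b, Sb b := by
      rw [hS, ha0, hSb]
      simp only
      rw [Finset.sum_comm, Finset.mul_sum, ← Finset.sum_add_distrib]
      refine Finset.sum_congr rfl fun i _ => ?_
      rw [pow_len, mul_add, Finset.mul_sum, Finset.mul_sum, Finset.mul_sum]
      congr 1
      refine Finset.sum_congr rfl fun b _ => by ring
    have hDD : ∑ i ∈ s, ∑ j ∈ s, x i * x j * dlt (u i) (u j) = a0 ^ 2 + ∑ b, D b := by
      rw [ha0, hD, sq, Finset.sum_mul_sum]
      simp only
      rw [Finset.sum_comm (s := (Finset.univ : Finset β)), ← Finset.sum_add_distrib]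
      refine Finset.sum_congr rfl fun i _ => ?_
      rw [Finset.sum_comm (s := (Finset.univ : Finset β)), ← Finset.sum_add_distrib]
      refine Finset.sum_congr rfl fun j _ => ?_
      rw [dlt_id, mul_add, Finset.mul_sum]
      congr 1
      · ring
      · refine Finset.sum_congr rfl fun b _ => by ring
    have hQQ : ∑ i ∈ s, ∑ j ∈ s, x i * x j * r ^ dl (u i) (u j)
        = S ^ 2 + ∑ b, (Q b - r ^ 2 * (Sb b) ^ 2) := by
      have hb2 : ∀ b, Q b - r ^ 2 * (Sb b) ^ 2 = ∑ i ∈ s, ∑ j ∈ s,
          (x i * hb b (u i)) * (x j * hb b (u j)) *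
            (r ^ dl (u i).tail (u j).tail - r ^ 2 * (r ^ (u i).tail.length * r ^ (u j).tail.length)) := by
        intro b
        simp only [hQ, hSb]
        rw [sq (∑ i ∈ s, x i * hb b (u i) * r ^ (u i).tail.length), Finset.sum_mul_sum,
          Finset.mul_sum, ← Finset.sum_sub_distrib]
        refine Finset.sum_congr rfl fun i _ => ?_
        rw [Finset.mul_sum, ← Finset.sum_sub_distrib]
        refine Finset.sum_congr rfl fun j _ => by ring
      simp only [hb2]
      rw [hS, sq, Finset.sum_mul_sum]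
      rw [Finset.sum_comm (s := (Finset.univ : Finset β)), ← Finset.sum_add_distrib]
      refine Finset.sum_congr rfl fun i _ => ?_
      rw [Finset.sum_comm (s := (Finset.univ : Finset β)), ← Finset.sum_add_distrib]
      refine Finset.sum_congr rfl fun j _ => ?_
      rw [ker_id, mul_add, Finset.mul_sum]
      congr 1
      · ring
      · refine Finset.sum_congr rfl fun b _ => by ring
    have hcs : (∑ b, Sb b) ^ 2 ≤ (Fintype.card β : ℝ) * ∑ b, (Sb b) ^ 2 := by
      have := sq_sum_le_card_mul_sum_sq (s := (Finset.univ : Finset β)) (f := Sb)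
      simpa using this
    have hsum : ∑ b, (ε * D b + (1 - 2 * ε) * (Sb b) ^ 2) ≤ ∑ b, Q b :=
      Finset.sum_le_sum fun b _ => key b
    rw [Finset.sum_add_distrib, ← Finset.mul_sum, ← Finset.mul_sum] at hsum
    rw [hDD, hQQ, Finset.sum_sub_distrib, ← Finset.mul_sum]
    have ha : a0 = S - r * ∑ b, Sb b := by rw [hSS]; ring
    have ha2 : a0 ^ 2 ≤ 2 * S ^ 2 + 2 * (r ^ 2 * ((Fintype.card β : ℝ) * ∑ b, (Sb b) ^ 2)) := by
      have h3 : r ^ 2 * (∑ b, Sb b) ^ 2 ≤ r ^ 2 * ((Fintype.card β : ℝ) * ∑ b, (Sb b) ^ 2) :=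
        mul_le_mul_of_nonneg_left hcs (sq_nonneg r)
      have h4 : a0 ^ 2 ≤ 2 * S ^ 2 + 2 * (r ^ 2 * (∑ b, Sb b) ^ 2) := by
        rw [ha]
        nlinarith [sq_nonneg (S + r * ∑ b, Sb b)]
      linarith
    have h5 : ε * a0 ^ 2 ≤ ε * (2 * S ^ 2 + 2 * (r ^ 2 * ((Fintype.card β : ℝ) * ∑ b, (Sb b) ^ 2))) :=
      mul_le_mul_of_nonneg_left ha2 hεpos.le
    set T := ∑ b, (Sb b) ^ 2
    have h6 : (1 - r ^ 2 - 2 * ε) * T = 2 * (Fintype.card β : ℝ) * r ^ 2 * ε * T := by
      rw [← hεeq]; ring
    nlinarith [h5, h6, hsum]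

/-- **Lower bound for the exponential distance kernel of a tree of words.** -/
theorem lower_bound (r : ℝ) (h0 : 0 ≤ r) (h1 : r < 1) {ι : Type} (s : Finset ι)
    (u : ι → List β) (x : ι → ℝ) :
    eps (Fintype.card β) r * ∑ i ∈ s, ∑ j ∈ s, x i * x j * dlt (u i) (u j)
      ≤ ∑ i ∈ s, ∑ j ∈ s, x i * x j * r ^ dl (u i) (u j) := by
  have h := main_aux (β := β) r h0 h1 (s.sup fun i => (u i).length) s u x
    (fun i hi => Finset.le_sup (f := fun i => (u i).length) hi)
  have h2 : 0 ≤ 1 - 2 * eps (Fintype.card β) r := by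
    have h3 := eps_eq (Fintype.card β) r
    have h4 := eps_pos (Fintype.card β) r h0 h1
    have h5 : 0 ≤ 2 * (Fintype.card β : ℝ) * r ^ 2 * eps (Fintype.card β) r := by positivity
    nlinarith [sq_nonneg r]
  have h3 := mul_nonneg h2 (sq_nonneg (∑ i ∈ s, x i * r ^ (u i).length))
  linarith

end Pool.Agent.H71R3.Tree
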