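import Mathlib
import Pool.Agent.H71R3.Tree

set_option autoImplicit false

namespace Pool.Agent.H71R3.Tree

open Finset FreeGroup

variable {α : Type*} [DecidableEq α]

omit [DecidableEq α] in
theorem isReduced_tail {a : α × Bool} {u : List (α × Bool)} (h : IsReduced (a :: u)) :
    IsReduced u := List.IsChain.tail h

theorem norm_mk_of_reduced {u : List (α × Bool)} (h : IsReduced u) : (mk u).norm = u.length := by
  unfold FreeGroup.norm
  rw [toWord_mk, h.reduce_eq]

theorem isReduced_invRev {u : List (α × Bool)} (h : IsReduced u) : IsReduced (invRev u) := by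
  rw [isReduced_iff_reduce_eq, reduce_invRev, h.reduce_eq]

theorem isReduced_invRev_append (a b : α × Bool) (u v : List (α × Bool)) (hab : a ≠ b)
    (hu : IsReduced (a :: u)) (hv : IsReduced (b :: v)) : IsReduced (invRev (a :: u) ++ (b :: v)) := by
  have h1 : IsReduced (invRev (a :: u)) := isReduced_invRev hu
  have h2 : invRev (a :: u) = invRev u ++ [(a.1, !a.2)] := by
    rw [invRev_cons]; simp [invRev]
  rw [h2] at h1 ⊢
  have h3 : IsReduced ([(a.1, !a.2)] ++ (b :: v)) := by
    rw [List.singleton_append, isReduced_cons_cons]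
    refine ⟨fun h => ?_, hv⟩
    by_contra hne
    apply hab
    refine Prod.ext h ?_
    simp only at hne
    cases h4 : a.2 <;> cases h5 : b.2 <;> simp_all
  exact h1.append_overlap h3 (by simp)

theorem norm_inv_mul_mk (u : List (α × Bool)) : ∀ v : List (α × Bool), IsReduced u → IsReduced v →
    ((mk u)⁻¹ * mk v).norm = dl u v := by
  induction u with
  | nil =>
    intro v _ hv
    rw [dl_nil_left]
    have : (mk ([] : List (α × Bool)))⁻¹ * mk v = mk v := by
      rw [inv_mk, mul_mk]; simp
    rw [this, norm_mk_of_reduced hv]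
  | cons a u ih =>
    intro v hu hv
    cases v with
    | nil =>
      rw [dl_nil_right]
      have : (mk (a :: u))⁻¹ * mk ([] : List (α × Bool)) = (mk (a :: u))⁻¹ := by
        rw [inv_mk, mul_mk]; simp
      rw [this, norm_inv_eq, norm_mk_of_reduced hu]
    | cons b v =>
      by_cases h : a = b
      · subst h
        rw [dl_cons_same]
        have h1 : mk (a :: u) = mk [a] * mk u := by rw [mul_mk]; rfl
        have h2 : mk (a :: v) = mk [a] * mk v := by rw [mul_mk]; rfl
        rw [h1, h2, mul_inv_rev]
        have : (mk u)⁻¹ * (mk [a])⁻¹ * (mk [a] * mk v) = (mk u)⁻¹ * mk v := by group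
        rw [this, ih v (isReduced_tail hu) (isReduced_tail hv)]
      · rw [dl_cons_ne _ _ _ _ h, inv_mk, mul_mk,
          norm_mk_of_reduced (isReduced_invRev_append a b u v h hu hv)]
        rw [List.length_append, invRev_length]
        simp; ring

theorem norm_inv_mul (x y : FreeGroup α) : (x⁻¹ * y).norm = dl x.toWord y.toWord := by
  conv_lhs => rw [← mk_toWord (x := x), ← mk_toWord (x := y)]
  exact norm_inv_mul_mk _ _ isReduced_toWord isReduced_toWord

/-- **Haagerup functions dominate a multiple of the trace.**  For `0 ≤ r < 1` and `F` the free group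
on a finite type, the function `r^|x| - ε δ_e(x)` is positive definite, with `ε = eps (2k) r > 0`. -/
theorem haagerup_lower [Fintype α] (r : ℝ) (h0 : 0 ≤ r) (h1 : r < 1) {ι : Type} (s : Finset ι)
    (g : ι → FreeGroup α) (x : ι → ℝ) :
    eps (Fintype.card (α × Bool)) r * ∑ i ∈ s, ∑ j ∈ s, x i * x j * (if g i = g j then 1 else 0)
      ≤ ∑ i ∈ s, ∑ j ∈ s, x i * x j * r ^ ((g i)⁻¹ * g j).norm := by
  have h := lower_bound (β := α × Bool) r h0 h1 s (fun i => (g i).toWord) x
  have e1 : ∀ i j, r ^ ((g i)⁻¹ * g j).norm = r ^ dl (g i).toWord (g j).toWord := fun i j => by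
    rw [norm_inv_mul]
  have e2 : ∀ i j, (if g i = g j then (1 : ℝ) else 0) = dlt (g i).toWord (g j).toWord := fun i j => by
    unfold dlt
    by_cases hij : g i = g j
    · rw [if_pos hij, if_pos (by rw [hij])]
    · rw [if_neg hij, if_neg (fun h' => hij (toWord_injective h'))]
  simp only [e1, e2]
  exact h

end Pool.Agent.H71R3.Tree

namespace Pool.Agent.H71R3.Tree

open scoped ComplexOrder

/-- a real symmetric matrix which is positive on real vectors is positive on complex vectors -/
theorem complex_of_real {ι : Type} (s : Finset ι) (M : ι → ι → ℝ) (hM : ∀ i j, M i j = M j i)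
    (hpos : ∀ x : ι → ℝ, 0 ≤ ∑ i ∈ s, ∑ j ∈ s, x i * x j * M i j) (c : ι → ℂ) :
    0 ≤ ∑ i ∈ s, ∑ j ∈ s, starRingEnd ℂ (c i) * c j * ((M i j : ℝ) : ℂ) := by
  have key : ∑ i ∈ s, ∑ j ∈ s, starRingEnd ℂ (c i) * c j * ((M i j : ℝ) : ℂ)
      = (((∑ i ∈ s, ∑ j ∈ s, (c i).re * (c j).re * M i j)
        + (∑ i ∈ s, ∑ j ∈ s, (c i).im * (c j).im * M i j) : ℝ) : ℂ) := by
    have hre : ∀ i j, (starRingEnd ℂ (c i) * c j * ((M i j : ℝ) : ℂ)).re
        = (c i).re * (c j).re * M i j + (c i).im * (c j).im * M i j := by
      intro i j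
      simp [Complex.mul_re, Complex.mul_im]
      ring
    have him : ∀ i j, (starRingEnd ℂ (c i) * c j * ((M i j : ℝ) : ℂ)).im
        = (c i).re * (c j).im * M i j - (c i).im * (c j).re * M i j := by
      intro i j
      simp [Complex.mul_re, Complex.mul_im]
      ring
    apply Complex.ext
    · rw [Complex.ofReal_re, Complex.re_sum]
      simp only [Complex.re_sum, hre, Finset.sum_add_distrib]
    · rw [Complex.ofReal_im, Complex.im_sum]
      simp only [Complex.im_sum, him, Finset.sum_sub_distrib]
      rw [sub_eq_zero, Finset.sum_comm]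
      refine Finset.sum_congr rfl fun i _ => Finset.sum_congr rfl fun j _ => ?_
      rw [hM i j]; ring
  rw [key]
  have h1 := hpos fun i => (c i).re
  have h2 := hpos fun i => (c i).im
  exact_mod_cast add_nonneg h1 h2

end Pool.Agent.H71R3.Tree
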