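import Mathlib
import Pool.Agent.H71R3.HasF

set_option autoImplicit false

namespace Pool.Agent.H71R3.Zafran

open Pool.Agent.H71R3.FS Filter Topology UniformSpace
open scoped ENNReal

theorem two_mul_le (a b : ℝ≥0∞) : 2 * a * b ≤ a ^ 2 + b ^ 2 := by
  have h : ∀ x y : NNReal, 2 * x * y ≤ x ^ 2 + y ^ 2 := by
    intro x y
    rw [← NNReal.coe_le_coe]
    push_cast
    nlinarith [sq_nonneg ((x : ℝ) - y)]
  rcases eq_or_ne a ∞ with ha | ha
  · subst ha; simp
  rcases eq_or_ne b ∞ with hb | hb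
  · subst hb; simp
  lift a to NNReal using ha
  lift b to NNReal using hb
  exact_mod_cast h a b

variable {G : Type} [Group G] {ι : Type} [Fintype ι] [DecidableEq ι]

/-- the Kesten type bound for two factors and a coefficient of the regular representation -/
theorem kesten_two (s : ι → G) (first : G → Option ι)
    (hf : ∀ y i j, first (s i * y) ≠ some i → first (s j * y) ≠ some j → i = j)
    (ζ η : G → ℝ≥0∞) :
    8 * (Fintype.card ι : ℝ≥0∞) * ∑' x, (∑ i, ∑ j, ζ ((s j)⁻¹ * ((s i)⁻¹ * x))) * η x ≤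
      (4 * (Fintype.card ι : ℝ≥0∞)) ^ 2 * (∑' x, ζ x ^ 2 + ∑' x, η x ^ 2) := by
  set N : ℝ≥0∞ := (Fintype.card ι : ℝ≥0∞) with hN
  have h1 := Kesten.kesten s first hf (fun x => ∑ j, ζ ((s j)⁻¹ * x))
  have h2 := Kesten.kesten s first hf ζ
  rw [← hN] at h1 h2
  calc 8 * N * ∑' x, (∑ i, ∑ j, ζ ((s j)⁻¹ * ((s i)⁻¹ * x))) * η x
      = ∑' x, 2 * (∑ i, ∑ j, ζ ((s j)⁻¹ * ((s i)⁻¹ * x))) * (4 * N * η x) := by
        rw [← ENNReal.tsum_mul_left]
        refine tsum_congr fun x => ?_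
        ring
    _ ≤ ∑' x, ((∑ i, ∑ j, ζ ((s j)⁻¹ * ((s i)⁻¹ * x))) ^ 2 + (4 * N * η x) ^ 2) :=
        ENNReal.tsum_le_tsum fun x => two_mul_le _ _
    _ = ∑' x, (∑ i, ∑ j, ζ ((s j)⁻¹ * ((s i)⁻¹ * x))) ^ 2 + (4 * N) ^ 2 * ∑' x, η x ^ 2 := by
        rw [ENNReal.tsum_add]
        simp only [mul_pow]
        rw [ENNReal.tsum_mul_left]
    _ ≤ 4 * N * (4 * N * ∑' x, ζ x ^ 2) + (4 * N) ^ 2 * ∑' x, η x ^ 2 := by
        refine add_le_add ?_ le_rfl
        exact h1.trans (mul_le_mul_right h2 _)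
    _ = _ := by ring

/-- real version -/
theorem kesten_coef (s : ι → G) (first : G → Option ι) (hN : 0 < Fintype.card ι)
    (hf : ∀ y i j, first (s i * y) ≠ some i → first (s j * y) ≠ some j → i = j)
    (ξ η : G → ℂ) (hξ : Summable fun x => ‖ξ x‖ ^ 2) (hη : Summable fun x => ‖η x‖ ^ 2) (y : G) :
    ∑ i, ∑ j, ‖∑' x, ξ ((s i * s j * y)⁻¹ * x) * starRingEnd ℂ (η x)‖ ≤
      2 * (Fintype.card ι : ℝ) * (∑' x, ‖ξ x‖ ^ 2 + ∑' x, ‖η x‖ ^ 2) := by
  set N : ℝ := (Fintype.card ι : ℝ) with hNdef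
  have hNpos : 0 < N := by rw [hNdef]; exact_mod_cast hN
  have hsum : ∀ (f : G → ℂ), (Summable fun x => ‖f x‖ ^ 2) →
      ∑' x, ‖f x‖ₑ ^ 2 = ENNReal.ofReal (∑' x, ‖f x‖ ^ 2) := by
    intro f hf
    rw [ENNReal.ofReal_tsum_of_nonneg (fun _ => sq_nonneg _) hf]
    refine tsum_congr fun x => ?_
    rw [ENNReal.ofReal_pow (norm_nonneg _), ofReal_norm]
  have h1 := kesten_two s first hf (fun x => ‖ξ (y⁻¹ * x)‖ₑ) (fun x => ‖η x‖ₑ)
  have e1 : ∑' x, ‖ξ (y⁻¹ * x)‖ₑ ^ 2 = ∑' x, ‖ξ x‖ₑ ^ 2 :=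
    (Equiv.mulLeft y⁻¹).tsum_eq (fun x => ‖ξ x‖ₑ ^ 2)
  have key : ∀ i j, ENNReal.ofReal ‖∑' x, ξ ((s i * s j * y)⁻¹ * x) * starRingEnd ℂ (η x)‖ ≤
      ∑' x, ‖ξ (y⁻¹ * ((s j)⁻¹ * ((s i)⁻¹ * x)))‖ₑ * ‖η x‖ₑ := by
    intro i j
    have hs : Summable fun x => ‖ξ ((s i * s j * y)⁻¹ * x) * starRingEnd ℂ (η x)‖ := by
      have h2 : Summable fun x => ‖ξ ((s i * s j * y)⁻¹ * x)‖ ^ 2 :=
        (Equiv.mulLeft (s i * s j * y)⁻¹).summable_iff.2 hξ
      refine Summable.of_nonneg_of_le (fun _ => norm_nonneg _) (fun x => ?_) (h2.add hη)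
      rw [norm_mul, RCLike.norm_conj]
      nlinarith [sq_nonneg (‖ξ ((s i * s j * y)⁻¹ * x)‖ - ‖η x‖), norm_nonneg (ξ ((s i * s j * y)⁻¹ * x)),
        norm_nonneg (η x), sq_nonneg (‖ξ ((s i * s j * y)⁻¹ * x)‖ + ‖η x‖)]
    refine (ENNReal.ofReal_le_ofReal (norm_tsum_le_tsum_norm hs)).trans (le_of_eq ?_)
    rw [ENNReal.ofReal_tsum_of_nonneg (fun _ => norm_nonneg _) hs]
    refine tsum_congr fun x => ?_
    rw [norm_mul, RCLike.norm_conj, ENNReal.ofReal_mul (norm_nonneg _), ofReal_norm, ofReal_norm]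
    congr 3
    group
  have h3 : ENNReal.ofReal (8 * N * ∑ i, ∑ j,
      ‖∑' x, ξ ((s i * s j * y)⁻¹ * x) * starRingEnd ℂ (η x)‖) ≤
      ENNReal.ofReal ((4 * N) ^ 2 * (∑' x, ‖ξ x‖ ^ 2 + ∑' x, ‖η x‖ ^ 2)) := by
    have hN8 : ENNReal.ofReal (8 * N) = 8 * (Fintype.card ι : ℝ≥0∞) := by
      rw [ENNReal.ofReal_mul (by norm_num), hNdef, ENNReal.ofReal_natCast]
      norm_num
    have hN4 : ENNReal.ofReal (4 * N) = 4 * (Fintype.card ι : ℝ≥0∞) := by
      rw [ENNReal.ofReal_mul (by norm_num), hNdef, ENNReal.ofReal_natCast]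
      norm_num
    have hA : 0 ≤ ∑' x, ‖ξ x‖ ^ 2 := tsum_nonneg fun _ => sq_nonneg _
    have hB : 0 ≤ ∑' x, ‖η x‖ ^ 2 := tsum_nonneg fun _ => sq_nonneg _
    rw [ENNReal.ofReal_mul (by positivity), hN8, ENNReal.ofReal_mul (by positivity),
      ENNReal.ofReal_pow (by positivity), hN4, ENNReal.ofReal_add hA hB, ← hsum ξ hξ, ← hsum η hη,
      ← e1]
    refine le_trans (mul_le_mul_right ?_ _) h1
    rw [ENNReal.ofReal_sum_of_nonneg (fun _ _ => Finset.sum_nonneg fun _ _ => norm_nonneg _)]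
    have h4 : ∑' x, (∑ i, ∑ j, ‖ξ (y⁻¹ * ((s j)⁻¹ * ((s i)⁻¹ * x)))‖ₑ) * ‖η x‖ₑ
        = ∑ i, ∑ j, ∑' x, ‖ξ (y⁻¹ * ((s j)⁻¹ * ((s i)⁻¹ * x)))‖ₑ * ‖η x‖ₑ := by
      simp only [Finset.sum_mul]
      rw [Summable.tsum_finsetSum (fun i _ => ENNReal.summable)]
      refine Finset.sum_congr rfl fun i _ => ?_
      rw [Summable.tsum_finsetSum (fun i _ => ENNReal.summable)]
    rw [h4]
    refine Finset.sum_le_sum fun i _ => ?_
    rw [ENNReal.ofReal_sum_of_nonneg (fun _ _ => norm_nonneg _)]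
    exact Finset.sum_le_sum fun j _ => key i j
  have h5 : 0 ≤ (4 * N) ^ 2 * (∑' x, ‖ξ x‖ ^ 2 + ∑' x, ‖η x‖ ^ 2) := by
    have hA : 0 ≤ ∑' x, ‖ξ x‖ ^ 2 := tsum_nonneg fun _ => sq_nonneg _
    have hB : 0 ≤ ∑' x, ‖η x‖ ^ 2 := tsum_nonneg fun _ => sq_nonneg _
    positivity
  have h6 := (ENNReal.ofReal_le_ofReal_iff h5).1 h3
  have h7 : 8 * N * (2 * N * (∑' x, ‖ξ x‖ ^ 2 + ∑' x, ‖η x‖ ^ 2))
      = (4 * N) ^ 2 * (∑' x, ‖ξ x‖ ^ 2 + ∑' x, ‖η x‖ ^ 2) := by ring
  rw [← h7] at h6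
  exact le_of_mul_le_mul_left h6 (by positivity)

/-- the operator `1 - A²` on `C*(G)`, `A` the average of the left translations by the `s i` -/
theorem exists_D (s : ι → G) (inv : ι ≃ ι) (hinv : ∀ i, s (inv i) = (s i)⁻¹)
    (hN : 0 < Fintype.card ι) :
    ∃ D : CStar G →L[ℂ] CStar G, (∀ y, D (dir y) = dir y -
      ((Fintype.card ι : ℂ))⁻¹ • ∑ i, ((Fintype.card ι : ℂ))⁻¹ • ∑ j, dir (s i * s j * y)) ∧
      ‖D‖ ≤ 1 := by
  classical
  choose L hL using fun i => exists_left (s i)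
  set N : ℂ := (Fintype.card ι : ℂ) with hNdef
  let A : CStar G →L[ℂ] CStar G := N⁻¹ • ∑ i, L i
  have hA : ∀ x, A x = N⁻¹ • ∑ i, L i x := fun x => by
    show (N⁻¹ • ∑ i, L i) x = _
    rw [smul_apply, sum_apply]
  have hLinc : ∀ i (a : G →₀ ℂ), L i (inc a) = inc (a.mapDomain (s i * ·)) := by
    intro i a
    rw [map_inc, inc_eq_sum, Finsupp.sum_mapDomain_index_inj (mul_right_injective (s i))]
    simp only [hL]
  have hinc_sum : ∀ (f : ι → G →₀ ℂ), (inc (∑ i, f i) : CStar G) = ∑ i, inc (f i) := by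
    intro f
    have : ∀ t : Finset ι, (inc (∑ i ∈ t, f i) : CStar G) = ∑ i ∈ t, inc (f i) := by
      intro t
      induction t using Finset.induction_on with
      | empty => simp [inc_zero]
      | insert a t ha ih => rw [Finset.sum_insert ha, Finset.sum_insert ha, inc_add, ih]
    exact this _
  let av : (G →₀ ℂ) → (G →₀ ℂ) := fun a => N⁻¹ • ∑ i, a.mapDomain (s i * ·)
  have hAinc : ∀ a : G →₀ ℂ, A (inc a) = inc (av a) := by
    intro a
    rw [hA]
    show _ = (inc (N⁻¹ • ∑ i, a.mapDomain (s i * ·)) : CStar G)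
    rw [inc_smul, hinc_sum]
    simp only [hLinc]
  refine ⟨ContinuousLinearMap.id ℂ _ - A.comp A, fun y => ?_, ?_⟩
  · show dir y - A (A (dir y)) = _
    congr 1
    rw [hA (dir y), map_smul, map_sum]
    simp only [hL, hA]
    rw [← Finset.smul_sum, Finset.sum_comm]
    simp only [mul_assoc, Finset.smul_sum]
  · refine ContinuousLinearMap.opNorm_le_bound _ zero_le_one fun x => ?_
    refine isClosed_property (p := fun x => ‖(ContinuousLinearMap.id ℂ (CStar G) - A.comp A) x‖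
      ≤ 1 * ‖x‖) dense_inc (isClosed_le (by fun_prop) (by fun_prop)) (fun a => ?_) x
    have h1 : (ContinuousLinearMap.id ℂ (CStar G) - A.comp A) (inc a) = inc (a - av (av a)) := by
      show inc a - A (A (inc a)) = _
      rw [hAinc, hAinc]
      have : (inc a : CStar G) = inc (a - av (av a)) + inc (av (av a)) := by
        rw [← inc_add, sub_add_cancel]
      rw [this, add_sub_cancel_right]
    rw [h1, norm_inc, norm_inc, one_mul]
    refine maxNorm_le fun H _ _ _ π => ?_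
    set ms : G →₀ ℂ := N⁻¹ • ∑ i, Finsupp.single (s i) 1 with hms
    set T := ev π ms with hT
    have hTv : ∀ v, T v = N⁻¹ • ∑ i, π (s i) v := by
      intro v
      rw [hT, hms, ev_smul, ev_finsum, smul_apply, sum_apply]
      congr 1
      refine Finset.sum_congr rfl fun i _ => ?_
      rw [ev_apply, Finsupp.sum_single_index (by simp), one_smul]
    have hsym : Sym ms := by
      intro g
      rw [hms]
      simp only [Finsupp.smul_apply, Finsupp.finsetSum_apply, smul_eq_mul, map_mul, map_inv₀,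
        map_sum, hNdef, Complex.conj_natCast]
      congr 1
      rw [← Equiv.sum_comp inv]
      refine Finset.sum_congr rfl fun i _ => ?_
      rw [hinv, Finsupp.single_apply, Finsupp.single_apply]
      by_cases h : s i = g
      · rw [if_pos h, if_pos (by rw [h]), map_one]
      · rw [if_neg h, if_neg (fun h' => h (inv_injective h')), map_zero]
    have hT1 : ‖T‖ ≤ 1 := by
      refine ContinuousLinearMap.opNorm_le_bound _ zero_le_one fun v => ?_
      rw [hTv, norm_smul, one_mul, norm_inv, hNdef, Complex.norm_natCast]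
      have hNr : (0 : ℝ) < (Fintype.card ι : ℝ) := by exact_mod_cast hN
      rw [inv_mul_le_iff₀ hNr]
      refine (norm_sum_le _ _).trans ?_
      simp only [LinearIsometryEquiv.norm_map, Finset.sum_const, Finset.card_univ, nsmul_eq_mul]
      exact le_rfl
    have hev : ∀ b : G →₀ ℂ, ev π (av b) = T * ev π b := by
      intro b
      refine ContinuousLinearMap.ext fun v => ?_
      show ev π (N⁻¹ • ∑ i, b.mapDomain (s i * ·)) v = T (ev π b v)
      rw [ev_smul, ev_finsum, smul_apply, sum_apply, hTv]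
      congr 1
      refine Finset.sum_congr rfl fun i _ => ?_
      rw [ev_mapDomain_left]
    have h2 : ev π (a - av (av a)) = (1 - T * T) * ev π a := by
      have : ev π (a - av (av a)) = ev π a - ev π (av (av a)) := by
        simp only [ev_eq_lc, map_sub]
      rw [this, hev, hev, sub_mul, one_mul, mul_assoc]
    have h3 : ‖(1 : H →L[ℂ] H) - T * T‖ ≤ 1 := by
      have h4 := aeval_norm_le T (ev_selfAdjoint π ms hsym) 1 1 hT1 zero_le_one
        (1 - Polynomial.X * Polynomial.X) (fun t ht => by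
          rw [Polynomial.eval_sub, Polynomial.eval_mul, Polynomial.eval_one, Polynomial.eval_X]
          rw [abs_le] at ht ⊢
          constructor <;> nlinarith [ht.1, ht.2])
      rw [map_sub, map_mul, map_one, Polynomial.aeval_X] at h4
      exact h4
    rw [h2]
    calc ‖(1 - T * T) * ev π a‖ ≤ ‖1 - T * T‖ * ‖ev π a‖ := norm_mul_le _ _
      _ ≤ 1 * maxNorm a := mul_le_mul h3 (le_maxNorm π a) (norm_nonneg _) zero_le_one
      _ = _ := one_mul _

end Pool.Agent.H71R3.Zafran
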