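import Mathlib

set_option autoImplicit false

namespace Pool.Agent.H71R3.Kesten

open scoped ENNReal
open Finset

/-- `(a+b)^2 ≤ 2a^2+2b^2` in `[0,∞]` -/
theorem add_sq_le (a b : ℝ≥0∞) : (a + b) ^ 2 ≤ 2 * a ^ 2 + 2 * b ^ 2 := by
  have h : ∀ x y : NNReal, (x + y) ^ 2 ≤ 2 * x ^ 2 + 2 * y ^ 2 := by
    intro x y
    rw [← NNReal.coe_le_coe]
    push_cast
    nlinarith [sq_nonneg ((x : ℝ) - y)]
  rcases eq_or_ne a ∞ with ha | ha
  · subst ha; simp
  rcases eq_or_ne b ∞ with hb | hb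
  · subst hb; simp
  lift a to NNReal using ha
  lift b to NNReal using hb
  exact_mod_cast h a b

theorem sum_sq_le {ι : Type*} (s : Finset ι) (f : ι → ℝ≥0∞) :
    (∑ i ∈ s, f i) ^ 2 ≤ s.card * ∑ i ∈ s, f i ^ 2 := by
  by_cases h : ∃ i ∈ s, f i = ∞
  · obtain ⟨i, hi, hf⟩ := h
    have h1 : ∑ i ∈ s, f i ^ 2 = ∞ := by
      rw [ENNReal.sum_eq_top]
      exact ⟨i, hi, by rw [hf]; simp⟩
    rw [h1]
    have h2 : (s.card : ℝ≥0∞) ≠ 0 := by
      have : 0 < s.card := Finset.card_pos.2 ⟨i, hi⟩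
      exact_mod_cast this.ne'
    rw [ENNReal.mul_top h2]
    exact le_top
  · push Not at h
    have h3 : ∀ i ∈ s, ((f i).toNNReal : ℝ≥0∞) = f i := fun i hi => ENNReal.coe_toNNReal (h i hi)
    have h4 : (∑ i ∈ s, (f i).toNNReal) ^ 2 ≤ s.card * ∑ i ∈ s, (f i).toNNReal ^ 2 := by
      rw [← NNReal.coe_le_coe]
      push_cast
      exact sq_sum_le_card_mul_sum_sq
    have h5 : ∑ i ∈ s, f i = ((∑ i ∈ s, (f i).toNNReal : NNReal) : ℝ≥0∞) := by
      push_cast
      exact Finset.sum_congr rfl fun i hi => (h3 i hi).symm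
    have h6 : ∑ i ∈ s, f i ^ 2 = ((∑ i ∈ s, (f i).toNNReal ^ 2 : NNReal) : ℝ≥0∞) := by
      push_cast
      exact Finset.sum_congr rfl fun i hi => by rw [h3 i hi]
    rw [h5, h6]
    exact_mod_cast h4

/-- **Kesten type bound.** -/
theorem kesten {G : Type*} [Group G] {ι : Type*} [Fintype ι] [DecidableEq ι] (s : ι → G)
    (first : G → Option ι)
    (hf : ∀ y i j, first (s i * y) ≠ some i → first (s j * y) ≠ some j → i = j)
    (ξ : G → ℝ≥0∞) :
    ∑' x, (∑ i, ξ ((s i)⁻¹ * x)) ^ 2 ≤ 4 * (Fintype.card ι) * ∑' x, ξ x ^ 2 := by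
  classical
  have hpt : ∀ x, (∑ i, ξ ((s i)⁻¹ * x)) ^ 2 ≤ 2 * (∑ i, ξ ((s i)⁻¹ * x) ^ 2) +
      2 * (Fintype.card ι * ∑ i, if first x ≠ some i then ξ ((s i)⁻¹ * x) ^ 2 else 0) := by
    intro x
    have e1 : ∑ i, ξ ((s i)⁻¹ * x) = (∑ i ∈ univ.filter (fun i => first x = some i), ξ ((s i)⁻¹ * x))
        + ∑ i ∈ univ.filter (fun i => ¬ first x = some i), ξ ((s i)⁻¹ * x) :=
      (Finset.sum_filter_add_sum_filter_not _ _ _).symm
    rw [e1]
    refine (add_sq_le _ _).trans (add_le_add ?_ ?_)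
    · refine mul_le_mul_right ?_ 2
      refine (sum_sq_le _ _).trans ?_
      have hc : (univ.filter (fun i => first x = some i)).card ≤ 1 := by
        rw [Finset.card_le_one]
        intro a ha b hb
        rw [Finset.mem_filter] at ha hb
        exact Option.some_injective _ (ha.2.symm.trans hb.2)
      calc _ ≤ (1 : ℝ≥0∞) * ∑ i ∈ univ.filter (fun i => first x = some i), ξ ((s i)⁻¹ * x) ^ 2 :=
            mul_le_mul_left (by exact_mod_cast hc) _
        _ ≤ _ := by
            rw [one_mul]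
            exact Finset.sum_le_sum_of_subset (Finset.filter_subset _ _)
    · refine mul_le_mul_right ?_ 2
      refine (sum_sq_le _ _).trans ?_
      refine mul_le_mul' ?_ ?_
      · exact_mod_cast Finset.card_le_univ _
      · rw [Finset.sum_filter]
  calc ∑' x, (∑ i, ξ ((s i)⁻¹ * x)) ^ 2
      ≤ ∑' x, (2 * (∑ i, ξ ((s i)⁻¹ * x) ^ 2) +
        2 * (Fintype.card ι * ∑ i, if first x ≠ some i then ξ ((s i)⁻¹ * x) ^ 2 else 0)) :=
        ENNReal.tsum_le_tsum hpt
    _ = 2 * (∑' x, ∑ i, ξ ((s i)⁻¹ * x) ^ 2) +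
        2 * (Fintype.card ι * ∑' x, ∑ i, if first x ≠ some i then ξ ((s i)⁻¹ * x) ^ 2 else 0) := by
        rw [ENNReal.tsum_add, ENNReal.tsum_mul_left, ENNReal.tsum_mul_left, ENNReal.tsum_mul_left]
    _ ≤ 2 * (Fintype.card ι * ∑' x, ξ x ^ 2) + 2 * (Fintype.card ι * ∑' x, ξ x ^ 2) := by
        refine add_le_add (mul_le_mul_right ?_ 2) (mul_le_mul_right (mul_le_mul_right ?_ _) 2)
        · rw [Summable.tsum_finsetSum (fun i _ => ENNReal.summable)]
          have : ∀ i, ∑' x, ξ ((s i)⁻¹ * x) ^ 2 = ∑' x, ξ x ^ 2 := fun i =>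
            (Equiv.mulLeft (s i)⁻¹).tsum_eq (fun x => ξ x ^ 2)
          simp only [this, Finset.sum_const, Finset.card_univ, nsmul_eq_mul]
          exact le_rfl
        · rw [Summable.tsum_finsetSum (fun i _ => ENNReal.summable)]
          have : ∀ i, ∑' x, (if first x ≠ some i then ξ ((s i)⁻¹ * x) ^ 2 else 0)
              = ∑' y, (if first (s i * y) ≠ some i then ξ y ^ 2 else 0) := fun i => by
            rw [← (Equiv.mulLeft (s i)).tsum_eq
              (fun x => if first x ≠ some i then ξ ((s i)⁻¹ * x) ^ 2 else 0)]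
            simp
          simp only [this]
          rw [← Summable.tsum_finsetSum (fun i _ => ENNReal.summable)]
          refine ENNReal.tsum_le_tsum fun y => ?_
          rw [← Finset.sum_filter, Finset.sum_const]
          have hc : (univ.filter (fun i => first (s i * y) ≠ some i)).card ≤ 1 := by
            rw [Finset.card_le_one]
            intro a ha b hb
            rw [Finset.mem_filter] at ha hb
            exact hf y a b ha.2 hb.2
          calc _ ≤ (1 : ℕ) • ξ y ^ 2 := nsmul_le_nsmul_left bot_le hc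
            _ = _ := one_nsmul _
    _ = 4 * (Fintype.card ι) * ∑' x, ξ x ^ 2 := by ring

/-- the group element of a letter -/
def lt {α : Type*} (s : α × Bool) : FreeGroup α := FreeGroup.mk [s]

theorem first_prop {α : Type*} [DecidableEq α] (y : FreeGroup α) (i j : α × Bool)
    (hi : (lt i * y).toWord.head? ≠ some i) (hj : (lt j * y).toWord.head? ≠ some j) : i = j := by
  have key : ∀ i : α × Bool, (lt i * y).toWord.head? ≠ some i →
      ∃ t, y.toWord.head? = some t ∧ i.1 = t.1 ∧ i.2 = !t.2 := by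
    intro i hi
    have h1 : (lt i * y).toWord = FreeGroup.reduce (i :: y.toWord) := by
      conv_lhs => rw [← FreeGroup.mk_toWord (x := y)]
      unfold lt
      rw [FreeGroup.mul_mk, FreeGroup.toWord_mk]
      rfl
    rw [h1, FreeGroup.reduce.cons, FreeGroup.reduce_toWord] at hi
    cases hw : y.toWord with
    | nil => rw [hw] at hi; simp at hi
    | cons t l =>
      refine ⟨t, rfl, ?_⟩
      rw [hw] at hi
      by_contra hne
      apply hi
      simp only
      rw [if_neg hne]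
      rfl
  obtain ⟨t, ht, h1, h2⟩ := key i hi
  obtain ⟨t', ht', h1', h2'⟩ := key j hj
  have : t = t' := Option.some_injective _ (ht.symm.trans ht')
  subst this
  exact Prod.ext (h1.trans h1'.symm) (h2.trans h2'.symm)

end Pool.Agent.H71R3.Kesten
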