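import Mathlib
import Pool.Agent.H71R3.FS3

set_option autoImplicit false

namespace Pool.Agent.H71R3.FS

open UniformSpace Polynomial

section Op

variable {H : Type} [NormedAddCommGroup H] [InnerProductSpace ℂ H] [CompleteSpace H]

theorem spec_abs_le (T : H →L[ℂ] H) (ρ : ℝ) (hρ : ‖T‖ ≤ ρ) (t : ℝ) (ht : t ∈ spectrum ℝ T) :
    |t| ≤ ρ := by
  have h1 := spectrum.norm_le_norm_mul_of_mem (𝕜 := ℝ) ht
  have h2 : ‖(1 : H →L[ℂ] H)‖ ≤ 1 := ContinuousLinearMap.norm_id_le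
  rw [Real.norm_eq_abs] at h1
  have h3 : ‖T‖ * ‖(1 : H →L[ℂ] H)‖ ≤ ‖T‖ * 1 := mul_le_mul_of_nonneg_left h2 (norm_nonneg _)
  linarith

theorem aeval_norm_le (T : H →L[ℂ] H) (hT : IsSelfAdjoint T) (ρ ε : ℝ) (hρ : ‖T‖ ≤ ρ)
    (hε : 0 ≤ ε) (p : ℝ[X]) (hp : ∀ t, |t| ≤ ρ → |p.eval t| ≤ ε) : ‖aeval T p‖ ≤ ε := by
  rw [← cfc_polynomial p T hT]
  exact norm_cfc_le hε fun t ht => hp t (spec_abs_le T ρ hρ t ht)

theorem aeval_inner_nonneg (T : H →L[ℂ] H) (hT : IsSelfAdjoint T) (ρ : ℝ) (hρ : ‖T‖ ≤ ρ)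
    (p : ℝ[X]) (hp : ∀ t, |t| ≤ ρ → 0 ≤ p.eval t) (x : H) :
    0 ≤ (inner ℂ x (aeval T p x)).re := by
  have h : 0 ≤ aeval T p := by
    rw [← cfc_polynomial p T hT]
    exact cfc_nonneg fun t ht => hp t (spec_abs_le T ρ hρ t ht)
  rw [ContinuousLinearMap.nonneg_iff_isPositive] at h
  exact h.re_inner_nonneg_right x

theorem aeval_inner_ge (T : H →L[ℂ] H) (hT : IsSelfAdjoint T) (ρ : ℝ) (hρ : ‖T‖ ≤ ρ)
    (p : ℝ[X]) (c d : ℝ) (hp : ∀ t, |t| ≤ ρ → c * t + d ≤ p.eval t) (x : H) :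
    c * (inner ℂ x (T x)).re + d * ‖x‖ ^ 2 ≤ (inner ℂ x (aeval T p x)).re := by
  have h := aeval_inner_nonneg T hT ρ hρ (p - (C c * X + C d)) (fun t ht => by
    have := hp t ht
    simp only [eval_sub, eval_add, eval_mul, eval_C, eval_X]
    linarith) x
  have e : aeval T (p - (C c * X + C d)) = aeval T p - ((c : ℂ) • T + (d : ℂ) • 1) := by
    rw [map_sub, map_add, map_mul, aeval_C, aeval_C, aeval_X, Algebra.algebraMap_eq_smul_one,
      Algebra.algebraMap_eq_smul_one, smul_one_mul]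
    rfl
  rw [e, sub_apply, inner_sub_right, add_apply,
    smul_apply, smul_apply, inner_add_right,
    inner_smul_right, inner_smul_right, one_apply_eq_self,
    inner_self_eq_norm_sq_to_K] at h
  simp only [Complex.sub_re, Complex.add_re, Complex.mul_re, Complex.ofReal_re, Complex.ofReal_im,
    zero_mul, sub_zero] at h
  have e2 : ((((‖x‖ : ℝ) : ℂ)) ^ 2).re = ‖x‖ ^ 2 := by
    rw [← Complex.ofReal_pow, Complex.ofReal_re]
  have e3 : ((RCLike.ofReal ‖x‖ : ℂ) ^ 2).re = ‖x‖ ^ 2 := e2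
  rw [e3] at h
  linarith

end Op

variable {G : Type} [Group G]

/-- convolution in `ℂ[G]` -/
noncomputable def conv (a b : G →₀ ℂ) : G →₀ ℂ := a.sum fun g c => c • b.mapDomain (g * ·)

theorem ev_zero {E : Type} [SeminormedAddCommGroup E] [InnerProductSpace ℂ E]
    (π : G →* (E ≃ₗᵢ[ℂ] E)) : ev π 0 = 0 := by
  rw [ev_eq_lc, map_zero]

theorem ev_finsum {E : Type} [SeminormedAddCommGroup E] [InnerProductSpace ℂ E]
    (π : G →* (E ≃ₗᵢ[ℂ] E)) {ι : Type*} (s : Finset ι) (f : ι → G →₀ ℂ) :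
    ev π (∑ i ∈ s, f i) = ∑ i ∈ s, ev π (f i) := by
  simp only [ev_eq_lc, map_sum]

theorem ev_conv {E : Type} [SeminormedAddCommGroup E] [InnerProductSpace ℂ E]
    (π : G →* (E ≃ₗᵢ[ℂ] E)) (a b : G →₀ ℂ) : ev π (conv a b) = ev π a * ev π b := by
  refine ContinuousLinearMap.ext fun v => ?_
  unfold conv Finsupp.sum
  rw [ev_finsum, sum_apply, mul_apply_eq_comp, ev_apply π a]
  unfold Finsupp.sum
  refine Finset.sum_congr rfl fun g _ => ?_
  rw [ev_smul, smul_apply, ev_mapDomain_left]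

/-- powers in `ℂ[G]` -/
noncomputable def pw (a : G →₀ ℂ) : ℕ → (G →₀ ℂ)
  | 0 => Finsupp.single 1 1
  | n + 1 => conv a (pw a n)

theorem ev_pw {E : Type} [SeminormedAddCommGroup E] [InnerProductSpace ℂ E]
    (π : G →* (E ≃ₗᵢ[ℂ] E)) (a : G →₀ ℂ) (n : ℕ) : ev π (pw a n) = ev π a ^ n := by
  induction n with
  | zero =>
    refine ContinuousLinearMap.ext fun v => ?_
    rw [pow_zero, one_apply_eq_self, ev_apply]
    unfold pw
    rw [Finsupp.sum_single_index (by simp), map_one, one_smul]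
    rfl
  | succ n ih => rw [pw, ev_conv, ih, pow_succ']

/-- real polynomials in an element of `ℂ[G]` -/
noncomputable def pol (p : ℝ[X]) (a : G →₀ ℂ) : G →₀ ℂ := ∑ i ∈ p.support, (p.coeff i : ℂ) • pw a i

theorem ev_pol {H : Type} [NormedAddCommGroup H] [InnerProductSpace ℂ H]
    (π : G →* (H ≃ₗᵢ[ℂ] H)) (p : ℝ[X]) (a : G →₀ ℂ) : ev π (pol p a) = aeval (ev π a) p := by
  unfold pol
  rw [ev_finsum, aeval_def, eval₂_eq_sum, Polynomial.sum]
  refine Finset.sum_congr rfl fun i _ => ?_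
  rw [ev_smul, ev_pw, Algebra.algebraMap_eq_smul_one, smul_one_mul]
  rfl

/-- symmetric elements of `ℂ[G]` -/
def Sym (a : G →₀ ℂ) : Prop := ∀ g, a g⁻¹ = starRingEnd ℂ (a g)

theorem inner_rep {E : Type} [SeminormedAddCommGroup E] [InnerProductSpace ℂ E]
    (π : G →* (E ≃ₗᵢ[ℂ] E)) (g : G) (x y : E) : inner ℂ (π g x) y = inner ℂ x (π g⁻¹ y) := by
  have h : y = π g (π g⁻¹ y) := by
    have : π g (π g⁻¹ y) = (π g * π g⁻¹) y := rfl
    rw [this, ← map_mul, mul_inv_cancel, map_one]; rfl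
  conv_lhs => rw [h]
  rw [LinearIsometryEquiv.inner_map_map]

theorem ev_selfAdjoint {H : Type} [NormedAddCommGroup H] [InnerProductSpace ℂ H] [CompleteSpace H]
    (π : G →* (H ≃ₗᵢ[ℂ] H)) (a : G →₀ ℂ) (ha : Sym a) : IsSelfAdjoint (ev π a) := by
  rw [ContinuousLinearMap.isSelfAdjoint_iff_isSymmetric]
  intro x y
  show inner ℂ (ev π a x) y = inner ℂ x (ev π a y)
  rw [ev_apply, ev_apply]
  unfold Finsupp.sum
  rw [sum_inner, inner_sum]
  simp only [inner_smul_left, inner_smul_right, inner_rep]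
  have hs : ∀ g, g ∈ a.support ↔ g⁻¹ ∈ a.support := by
    intro g
    rw [Finsupp.mem_support_iff, Finsupp.mem_support_iff, ha g]
    simp
  refine Finset.sum_nbij' (fun g => g⁻¹) (fun g => g⁻¹) (fun g hg => (hs g).1 hg)
    (fun g hg => (hs g).1 hg) (fun g _ => inv_inv g) (fun g _ => inv_inv g) fun g _ => ?_
  rw [ha g]

end Pool.Agent.H71R3.FS
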