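import Mathlib
import Pool.Agent.Helper557.TF.All

set_option autoImplicit false

open MeasureTheory Set Filter Topology Metric
open scoped RealInnerProductSpace BigOperators ENNReal

namespace Pool.Agent.H71R3.TF1

open Pool.Agent.Helper557.TFP

/-- lattice comparison for maps acting on one coordinate only -/
theorem cs_lattice_one (η κ μ lam : ℝ) (hη : 0 < η) (hκ : 0 < κ) (hμ : 0 ≤ μ) (a : Fin 3) (W : ℕ)
    (c : ℤ → ℤ) (hc : ∀ s, c s ≤ c (s + 1) ∧ c (s + 1) ≤ c s + 1)
    (u : (Fin 3 → ℤ) →₀ ℝ) (hu : ∀ x, 0 ≤ u x) :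
    ∃ u' : (Fin 3 → ℤ) →₀ ℝ, (∀ x, 0 ≤ u' x) ∧
      ∀ (k : ℕ) (z : Fin k → ℝ), (∀ j, 0 ≤ z j) → ∀ (h : ℕ) (y : Fin k → Fin 3 → ℤ),
        (∀ j, |y j a| ≤ (W : ℤ)) →
        Gd κ μ lam (Mcube z η h y) (stepf η u)
          ≤ Gd κ μ lam (Mcube z η h (fun j => Function.update (y j) a (c (y j a)))) (stepf η u') := by
  obtain ⟨u', hu', hF, hK, hN⟩ := disc_chain a W c hc u hu
  refine ⟨u', hu', ?_⟩
  intro k z hz h y hy
  have hker := ker_ok η κ hη hκ
  have hF1 : (∫ x, (max (stepf η u x - μ) 0) ^ (5/2 : ℝ)) =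
      ∫ x, (max (stepf η u' x - μ) 0) ^ (5/2 : ℝ) := by
    have h0 : (fun v : ℝ => (max (v - μ) 0) ^ (5/2 : ℝ)) 0 = 0 := by
      have : max (0 - μ) 0 = 0 := max_eq_right (by linarith)
      simp only [this]
      exact Real.zero_rpow (by norm_num)
    have h1 := (lat_F η hη u (fun v : ℝ => (max (v - μ) 0) ^ (5/2 : ℝ)) h0).2
    have h2 := (lat_F η hη u' (fun v : ℝ => (max (v - μ) 0) ^ (5/2 : ℝ)) h0).2
    have h3 := hF (fun v : ℝ => (max (v - μ) 0) ^ (5/2 : ℝ)) h0
    rw [h1, h2, h3]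
  have hF2 : (∫ x, stepf η u x ^ 2) = ∫ x, stepf η u' x ^ 2 := by
    have h0 : (fun v : ℝ => v ^ 2) 0 = 0 := by norm_num
    have h1 := (lat_F η hη u (fun v : ℝ => v ^ 2) h0).2
    have h2 := (lat_F η hη u' (fun v : ℝ => v ^ 2) h0).2
    have h3 := hF (fun v : ℝ => v ^ 2) h0
    rw [h1, h2, h3]
  have hD : (∫ x, ∫ w, stepf η u x * stepf η u w * Yk κ (x - w)) ≤
      ∫ x, ∫ w, stepf η u' x * stepf η u' w * Yk κ (x - w) := by
    rw [(lat_K η κ hη hκ u).1, (lat_K η κ hη hκ u').1]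
    exact hK _ hker
  have hNu : (∫ x, ∫ w, stepf η u x * Mcube z η h y w * Yk κ (x - w)) ≤
      ∫ x, ∫ w, stepf η u' x * Mcube z η h (fun j => Function.update (y j) a (c (y j a))) w *
        Yk κ (x - w) := by
    rw [TH_cs_lattice_nuc η κ hη hκ u k z h y,
      TH_cs_lattice_nuc η κ hη hκ u' k z h (fun j => Function.update (y j) a (c (y j a)))]
    refine Finset.sum_le_sum fun j _ => ?_
    refine mul_le_mul_of_nonneg_left ?_ (hz j)
    refine mul_le_mul_of_nonneg_left ?_ (by positivity)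
    exact hN _ hker h (y j) (hy j)
  unfold Gd
  rw [hF1, hF2]
  have hκ2 : 0 ≤ κ ^ 2 / (8 * Real.pi) := by positivity
  have h5 := mul_le_mul_of_nonneg_left hD hκ2
  nlinarith [h5, hNu]

/-- the point `x` with its coordinate `a` replaced by `g (x a)` -/
noncomputable def mv (a : Fin 3) (g : ℝ → ℝ) (x : E3) : E3 :=
  WithLp.toLp 2 (fun b => if b = a then g (x a) else x b)

theorem mv_same (a : Fin 3) (g : ℝ → ℝ) (x : E3) : mv a g x a = g (x a) := by
  simp [mv]

theorem mv_ne (a b : Fin 3) (h : b ≠ a) (g : ℝ → ℝ) (x : E3) : mv a g x b = x b := by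
  simp [mv, h]

/-- **One-directional contraction.**  Moving the nuclei by a monotone 1-Lipschitz map in one
coordinate raises the Thomas-Fermi energy. -/
theorem contraction_one {k : ℕ} (z : Fin k → ℝ) (hz : ∀ j, 0 ≤ z j) (R : Fin k → E3)
    (hR : Function.Injective R) (lam : ℝ) (hlam : 0 ≤ lam) (a : Fin 3) (g : ℝ → ℝ)
    (hg : ∀ s t, s ≤ t → g s ≤ g t ∧ g t - g s ≤ t - s)
    (hinj : Function.Injective (fun j => mv a g (R j))) :
    en z R lam ≤ en z (fun j => mv a g (R j)) lam := by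
  classical
  refine le_of_forall_pos_le_add fun ε' hε' => ?_
  set ε := ε' / 5 with hεdef
  have hε : 0 < ε := by positivity
  obtain ⟨r1, hr1, H1⟩ := smear_cont z hz R hR lam hlam ε hε
  obtain ⟨r2, hr2, H2⟩ := smear_cont z hz (fun j => mv a g (R j)) hinj lam hlam ε hε
  set r0 := min r1 r2 with hr0
  have hr0p : 0 < r0 := lt_min hr1 hr2
  set r := r0 / 2 with hr
  have hrp : 0 < r := by positivity
  have hrr1 : r < r1 := lt_of_lt_of_le (by rw [hr]; linarith) (min_le_left r1 r2)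
  have hrr2 : r < r2 := lt_of_lt_of_le (by rw [hr]; linarith) (min_le_right r1 r2)
  obtain ⟨hMn, hM0⟩ := Mc_nice z hz r hrp R
  obtain ⟨ρ, hρ, μ, hμ, hint, hsd⟩ := strong_dual (Mc z r R) hMn hM0 lam hlam ε hε
  obtain ⟨κ, hκ, f, hfc, hf0, ⟨r3, hfr⟩, hdl⟩ := dual_lim (Mc z r R) hMn hM0 lam ρ hρ μ hμ hint ε hε
  obtain ⟨hh0, hgrid⟩ := grid κ μ lam hκ hμ f hfc hf0 r3 hfr z hz R r hrp ε hε
  set h := max hh0 2 with hh
  obtain ⟨u, hu0, hu⟩ := hgrid h (le_max_left _ _)
  set η := r / (2 * (h : ℝ) + 1) with hη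
  have hηp : 0 < η := by positivity
  have hh2 : (2 : ℝ) ≤ (h : ℝ) := by exact_mod_cast (le_max_right hh0 2)
  have hη8 : 4 * η ≤ r0 := by
    have : η * 5 ≤ r := by
      rw [hη, div_mul_eq_mul_div, div_le_iff₀ (by positivity)]
      nlinarith
    rw [hr] at this; linarith
  set y : Fin k → Fin 3 → ℤ := fun j b => ⌊R j b / η⌋ with hy
  have hyR : ∀ j, ‖ctr η (y j) - R j‖ ≤ 4 * η := fun j =>
    (TH_contraction_ctr1 η hηp (R j)).trans (by linarith)
  have hG1 := hu y hyR
  set W : ℕ := ∑ j, ∑ b, (y j b).natAbs with hW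
  have hyW : ∀ j, |y j a| ≤ (W : ℤ) := by
    intro j
    have h1 : (y j a).natAbs ≤ W := by
      calc (y j a).natAbs ≤ ∑ b, (y j b).natAbs :=
            Finset.single_le_sum (f := fun b => (y j b).natAbs) (fun _ _ => Nat.zero_le _) (Finset.mem_univ a)
        _ ≤ W := Finset.single_le_sum (f := fun j => ∑ b, (y j b).natAbs) (fun _ _ => Nat.zero_le _) (Finset.mem_univ j)
    rw [Int.abs_eq_natAbs]; exact_mod_cast h1
  set c : ℤ → ℤ := fun s => ⌊g ((s : ℝ) * η) / η + 1 / 2⌋ with hc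
  have hcm : ∀ s, c s ≤ c (s + 1) ∧ c (s + 1) ≤ c s + 1 := by
    intro s
    have h1 : (s : ℝ) * η ≤ ((s + 1 : ℤ) : ℝ) * η := by push_cast; nlinarith
    obtain ⟨h2, h3⟩ := hg _ _ h1
    constructor
    · apply Int.floor_le_floor
      have := div_le_div_of_nonneg_right h2 hηp.le
      linarith
    · have : c s + 1 = ⌊g ((s : ℝ) * η) / η + 1 / 2 + 1⌋ := by rw [Int.floor_add_one]
      rw [this]
      apply Int.floor_le_floor
      have h4 : g (((s + 1 : ℤ) : ℝ) * η) ≤ g ((s : ℝ) * η) + η := by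
        push_cast at h3 ⊢; linarith
      have h5 := div_le_div_of_nonneg_right h4 hηp.le
      rw [add_div, div_self hηp.ne'] at h5
      linarith
  obtain ⟨u', hu'0, hcs⟩ := cs_lattice_one η κ μ lam hηp hκ hμ a W c hcm u hu0
  have hG2 := hcs k z hz h y hyW
  set Q' : Fin k → E3 := fun j => ctr η (Function.update (y j) a (c (y j a))) with hQ'
  obtain ⟨hMn', hM0'⟩ := Mc_nice z hz r hrp Q'
  have hG3 : Gd κ μ lam (Mcube z η h (fun j => Function.update (y j) a (c (y j a)))) (stepf η u') =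
      Gd κ μ lam (Mc z r Q') (stepf η u') :=
    TH_contraction_Gd κ μ lam _ _ _ (cube_eq z r hrp h (fun j => Function.update (y j) a (c (y j a))))
  obtain ⟨B, hB⟩ := TH_contraction_bd u' hu'0
  obtain ⟨r4, hr4⟩ := TH_contraction_supp η hηp u'
  have hG4 : Gd κ μ lam (Mc z r Q') (stepf η u') ≤ es (Mc z r Q') lam := by
    refine le_csInf ?_ ?_
    · obtain ⟨E, ρ', hρ', hm', -⟩ := en_nonempty z R lam hlam
      exact ⟨_, ρ', hρ', hm', rfl⟩
    · rintro E ⟨ρ', hρ', hm', rfl⟩
      exact ar_side κ μ lam hκ hμ (Mc z r Q') hMn' (stepf η u') (TH_contraction_meas η u')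
        (fun x => hu'0 _) B (fun x => hB _) r4 hr4 ρ' hρ' hm'
  have hQclose : ∀ j, ‖Q' j - mv a g (R j)‖ ≤ 4 * η := by
    intro j
    have : ‖Q' j - mv a g (R j)‖ ≤ 2 * (2 * η) := by
      refine TH_contraction_norm _ (2 * η) (by positivity) fun b => ?_
      by_cases hb : b = a
      · subst hb
        have e1 : (Q' j - mv b g (R j)) b = (((c (y j b) : ℤ) : ℝ) + 1 / 2) * η - g (R j b) := by
          have : Q' j b = (((c (y j b) : ℤ) : ℝ) + 1 / 2) * η := by
            simp [hQ', ctr]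
          show Q' j b - mv b g (R j) b = _
          rw [this, mv_same]
        rw [e1]
        set F : ℝ := ((y j b : ℤ) : ℝ) with hF
        have a1 : F ≤ R j b / η := Int.floor_le _
        have a2 : R j b / η < F + 1 := Int.lt_floor_add_one _
        rw [le_div_iff₀ hηp] at a1
        rw [div_lt_iff₀ hηp] at a2
        obtain ⟨b1, b2⟩ := hg _ _ a1
        set G : ℝ := g (F * η) with hG
        have a3 : ((c (y j b) : ℤ) : ℝ) ≤ G / η + 1 / 2 := Int.floor_le _
        have a4 : G / η + 1 / 2 < ((c (y j b) : ℤ) : ℝ) + 1 := Int.lt_floor_add_one _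
        have h7 : G = (G / η) * η := by field_simp
        set C : ℝ := ((c (y j b) : ℤ) : ℝ) with hC
        have b3 : C * η ≤ G + η / 2 := by
          have := mul_le_mul_of_nonneg_right a3 hηp.le
          rw [add_mul, ← h7] at this
          linarith
        have b4 : G - η / 2 ≤ C * η := by
          have := mul_le_mul_of_nonneg_right a4.le hηp.le
          rw [add_mul, add_mul, ← h7] at this
          linarith
        rw [abs_le]
        constructor <;> nlinarith
      · have e1 : (Q' j - mv a g (R j)) b = (((y j b : ℤ) : ℝ) + 1 / 2) * η - R j b := by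
          have : Q' j b = (((y j b : ℤ) : ℝ) + 1 / 2) * η := by
            simp [hQ', ctr, Function.update_of_ne hb]
          show Q' j b - mv a g (R j) b = _
          rw [this, mv_ne a b hb]
        rw [e1]
        have a1 : ((y j b : ℤ) : ℝ) ≤ R j b / η := Int.floor_le _
        have a2 : R j b / η < ((y j b : ℤ) : ℝ) + 1 := Int.lt_floor_add_one _
        rw [le_div_iff₀ hηp] at a1
        rw [div_lt_iff₀ hηp] at a2
        rw [abs_le]
        constructor <;> nlinarith
    linarith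
  have hH1 := H1 r hrp hrr1 R (fun j => by rw [sub_self, norm_zero]; exact hr1.le)
  have hH2 := H2 r hrp hrr2 Q' (fun j =>
    ((hQclose j).trans hη8).trans (min_le_right _ _))
  have k1 := (abs_le.1 hH1).1
  have k2 := (abs_le.1 hH2).2
  have : ε' = 5 * ε := by rw [hεdef]; ring
  rw [this]
  rw [hG3] at hG2
  linarith

end Pool.Agent.H71R3.TF1
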