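import Mathlib
import Pool.Agent.H71R3.TF1

set_option autoImplicit false

open MeasureTheory Set Filter Topology Metric
open scoped RealInnerProductSpace BigOperators ENNReal

namespace Pool.Agent.H71R3.TF1

open Pool.Agent.Helper557.TFP

/-! ### invariance under linear isometries -/

theorem int_iso (A : E3 ≃ₗᵢ[ℝ] E3) (f : E3 → ℝ) : ∫ x, f (A x) = ∫ x, f x :=
  A.measurePreserving.integral_comp A.toHomeomorph.measurableEmbedding f

theorem adm_iso (A : E3 ≃ₗᵢ[ℝ] E3) (ρ : E3 → ℝ) (h : Adm ρ) : Adm (fun x => ρ (A x)) := by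
  obtain ⟨h1, h2, h3, h4⟩ := h
  refine ⟨h1.comp A.continuous.measurable, fun x => h2 _, ?_, ?_⟩
  · exact (A.measurePreserving.integrable_comp_emb A.toHomeomorph.measurableEmbedding).2 h3
  · exact (A.measurePreserving.integrable_comp_emb A.toHomeomorph.measurableEmbedding).2 h4

theorem xi_iso (A : E3 ≃ₗᵢ[ℝ] E3) {k : ℕ} (z : Fin k → ℝ) (R : Fin k → E3) (ρ : E3 → ℝ) :
    xi z (fun j => A (R j)) ρ = xi z R (fun x => ρ (A x)) := by
  unfold xi
  have e1 : ∫ x, ρ x ^ (5/3 : ℝ) = ∫ x, ρ (A x) ^ (5/3 : ℝ) :=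
    (int_iso A (fun x => ρ x ^ (5/3 : ℝ))).symm
  have e2 : (∫ x, (∑ j, z j / ‖x - A (R j)‖) * ρ x) = ∫ x, (∑ j, z j / ‖x - R j‖) * ρ (A x) := by
    rw [← int_iso A]
    refine integral_congr_ae (ae_of_all _ fun x => ?_)
    simp only [← map_sub, LinearIsometryEquiv.norm_map]
  have e3 : (∫ x, ∫ y, ρ x * ρ y / ‖x - y‖) = ∫ x, ∫ y, ρ (A x) * ρ (A y) / ‖x - y‖ := by
    rw [← int_iso A]
    refine integral_congr_ae (ae_of_all _ fun x => ?_)
    show (∫ y, ρ (A x) * ρ y / ‖A x - y‖) = _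
    rw [← int_iso A]
    refine integral_congr_ae (ae_of_all _ fun y => ?_)
    simp only [← map_sub, LinearIsometryEquiv.norm_map]
  have e4 : ∀ i j, ‖A (R i) - A (R j)‖ = ‖R i - R j‖ := fun i j => by
    rw [← map_sub, LinearIsometryEquiv.norm_map]
  rw [e1, e2, e3]
  simp only [e4]

theorem en_iso (A : E3 ≃ₗᵢ[ℝ] E3) {k : ℕ} (z : Fin k → ℝ) (R : Fin k → E3) (lam : ℝ) :
    en z (fun j => A (R j)) lam = en z R lam := by
  unfold en
  congr 1
  ext E
  constructor
  · rintro ⟨ρ, h1, h2, h3⟩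
    exact ⟨fun x => ρ (A x), adm_iso A ρ h1, by rw [int_iso A ρ, h2], by rw [← xi_iso, h3]⟩
  · rintro ⟨ρ, h1, h2, h3⟩
    refine ⟨fun x => ρ (A.symm x), adm_iso A.symm ρ h1, by rw [int_iso A.symm ρ, h2], ?_⟩
    rw [xi_iso A]
    simp only [LinearIsometryEquiv.symm_apply_apply]
    exact h3

/-- a linear isometry taking the unit vector `n` to the third basis vector -/
theorem exists_iso (n : E3) (hn : ‖n‖ = 1) : ∃ A : E3 ≃ₗᵢ[ℝ] E3,
    A n = EuclideanSpace.single 2 1 := by
  refine ⟨(Submodule.span ℝ {n - EuclideanSpace.single (2 : Fin 3) (1 : ℝ)})ᗮ.reflection, ?_⟩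
  exact Submodule.reflection_sub (by rw [hn, EuclideanSpace.norm_single]; simp)

/-! ### dilation in one direction -/

theorem en_dil {k : ℕ} (z : Fin k → ℝ) (hz : ∀ j, 0 ≤ z j) (R : Fin k → E3)
    (hR : Function.Injective R) (lam : ℝ) (hlam : 0 ≤ lam) (l m : ℝ) (hl : 0 < l) (hlm : l ≤ m) :
    en z (fun i => WithLp.toLp 2 ![m * R i 0, R i 1, R i 2]) lam ≤
      en z (fun i => WithLp.toLp 2 ![l * R i 0, R i 1, R i 2]) lam := by
  have hm : 0 < m := lt_of_lt_of_le hl hlm
  have hinj : ∀ t : ℝ, 0 < t → Function.Injective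
      (fun i => (WithLp.toLp 2 ![t * R i 0, R i 1, R i 2] : E3)) := by
    intro t ht i j hij
    apply hR
    have h0 : (WithLp.toLp 2 ![t * R i 0, R i 1, R i 2] : E3) 0 =
      (WithLp.toLp 2 ![t * R j 0, R j 1, R j 2] : E3) 0 := congrArg (fun v : E3 => v 0) hij
    have h1 : (WithLp.toLp 2 ![t * R i 0, R i 1, R i 2] : E3) 1 =
      (WithLp.toLp 2 ![t * R j 0, R j 1, R j 2] : E3) 1 := congrArg (fun v : E3 => v 1) hij
    have h2 : (WithLp.toLp 2 ![t * R i 0, R i 1, R i 2] : E3) 2 =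
      (WithLp.toLp 2 ![t * R j 0, R j 1, R j 2] : E3) 2 := congrArg (fun v : E3 => v 2) hij
    simp at h0 h1 h2
    ext b
    fin_cases b
    · rcases h0 with h0 | h0
      · exact h0
      · exact absurd h0 ht.ne'
    · exact h1
    · exact h2
  have e : (fun i => (WithLp.toLp 2 ![l * R i 0, R i 1, R i 2] : E3)) =
      fun i => mv 0 (fun t => (l / m) * t) (WithLp.toLp 2 ![m * R i 0, R i 1, R i 2] : E3) := by
    funext i
    ext b
    fin_cases b
    · show l * R i 0 = (if (0 : Fin 3) = 0 then (l / m) * (m * R i 0) else m * R i 0)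
      rw [if_pos rfl]
      field_simp
    · simp [mv]
    · simp [mv]
  rw [e]
  refine contraction_one z hz _ (hinj m hm) lam hlam 0 _ (fun s t hst => ?_) ?_
  · have h1 : l / m ≤ 1 := by rw [div_le_one hm]; exact hlm
    have h2 : 0 < l / m := div_pos hl hm
    constructor
    · exact mul_le_mul_of_nonneg_left hst h2.le
    · nlinarith
  · rw [← e]
    exact hinj l hl

/-! ### separation from a plane -/

open Classical in
/-- separation from the plane `⟪n, x⟫ = c` -/
noncomputable def sep (n : E3) (c l : ℝ) (x : E3) : E3 :=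
  if c < (inner ℝ (n) (x)) then x + l • n else x - l • n

theorem sep_inj (n : E3) (hn : ‖n‖ = 1) (c l : ℝ) (hl : 0 ≤ l) {k : ℕ} (R : Fin k → E3)
    (hR : Function.Injective R) (hc : ∀ i, (inner ℝ (n) (R i)) ≠ c) :
    Function.Injective (fun i => sep n c l (R i)) := by
  have hnn : (inner ℝ (n) (n)) = 1 := by rw [real_inner_self_eq_norm_sq, hn]; norm_num
  intro i j hij
  apply hR
  have hij' : sep n c l (R i) = sep n c l (R j) := hij
  unfold sep at hij'
  by_cases hi : c < (inner ℝ (n) (R i)) <;> by_cases hj : c < (inner ℝ (n) (R j))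
  · rw [if_pos hi, if_pos hj] at hij'
    exact add_right_cancel hij'
  · rw [if_pos hi, if_neg hj] at hij'
    have h1 := congrArg (fun v => (inner ℝ (n) (v))) hij'
    simp only [inner_add_right, inner_sub_right, inner_smul_right, hnn] at h1
    have := hc j
    have h2 : (inner ℝ (n) (R j)) ≤ c := not_lt.1 hj
    linarith
  · rw [if_neg hi, if_pos hj] at hij'
    have h1 := congrArg (fun v => (inner ℝ (n) (v))) hij'
    simp only [inner_add_right, inner_sub_right, inner_smul_right, hnn] at h1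
    have h2 : (inner ℝ (n) (R i)) ≤ c := not_lt.1 hi
    linarith
  · rw [if_neg hi, if_neg hj] at hij'
    exact sub_left_injective hij'

theorem en_sep (n : E3) (hn : ‖n‖ = 1) (c : ℝ) {k : ℕ} (z : Fin k → ℝ) (hz : ∀ j, 0 ≤ z j)
    (R : Fin k → E3) (hR : Function.Injective R) (hc : ∀ i, (inner ℝ (n) (R i)) ≠ c) (lam : ℝ)
    (hlam : 0 ≤ lam) (l m : ℝ) (hl : 0 ≤ l) (hlm : l ≤ m) :
    en z (fun i => sep n c m (R i)) lam ≤ en z (fun i => sep n c l (R i)) lam := by
  obtain ⟨A, hA⟩ := exists_iso n hn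
  have hm : 0 ≤ m := hl.trans hlm
  rw [← en_iso A z (fun i => sep n c m (R i)), ← en_iso A z (fun i => sep n c l (R i))]
  have hcoord : ∀ x : E3, (A x) 2 = (inner ℝ (n) (x)) := by
    intro x
    rw [← A.inner_map_map n x, hA, EuclideanSpace.inner_single_left]
    simp
  have hAsep : ∀ (t : ℝ) (x : E3), c < (inner ℝ (n) (x)) →
      A (sep n c t x) = A x + t • EuclideanSpace.single 2 1 := by
    intro t x hx
    unfold sep
    rw [if_pos hx, map_add, map_smul, hA]
  have hAsep' : ∀ (t : ℝ) (x : E3), ¬ c < (inner ℝ (n) (x)) →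
      A (sep n c t x) = A x - t • EuclideanSpace.single 2 1 := by
    intro t x hx
    unfold sep
    rw [if_neg hx, map_sub, map_smul, hA]
  set g : ℝ → ℝ := fun t => c + max (t - c - (m - l)) 0 + min (t - c + (m - l)) 0 with hg
  have e : (fun i => A (sep n c l (R i))) = fun i => mv 2 g (A (sep n c m (R i))) := by
    funext i
    by_cases hi : c < (inner ℝ (n) (R i))
    · rw [hAsep l _ hi, hAsep m _ hi]
      ext b
      by_cases hb : b = 2
      · subst hb
        rw [mv_same]
        have h1 : ∀ t : ℝ, (A (R i) + t • EuclideanSpace.single (2 : Fin 3) (1 : ℝ)) 2 =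
            (inner ℝ (n) (R i)) + t := by
          intro t
          rw [PiLp.add_apply, PiLp.smul_apply, hcoord]
          simp
        rw [h1, h1, hg]
        simp only
        rw [max_eq_left (by linarith), min_eq_right (by linarith)]
        ring
      · rw [mv_ne 2 b hb]
        simp [hb]
    · rw [hAsep' l _ hi, hAsep' m _ hi]
      have hi' : (inner ℝ (n) (R i)) < c := lt_of_le_of_ne (not_lt.1 hi) (hc i)
      ext b
      by_cases hb : b = 2
      · subst hb
        rw [mv_same]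
        have h1 : ∀ t : ℝ, (A (R i) - t • EuclideanSpace.single (2 : Fin 3) (1 : ℝ)) 2 =
            (inner ℝ (n) (R i)) - t := by
          intro t
          rw [PiLp.sub_apply, PiLp.smul_apply, hcoord]
          simp
        rw [h1, h1, hg]
        simp only
        rw [max_eq_right (by linarith), min_eq_left (by linarith)]
        ring
      · rw [mv_ne 2 b hb]
        simp [hb]
  have hinj : ∀ t : ℝ, 0 ≤ t → Function.Injective (fun i => A (sep n c t (R i))) := fun t ht =>
    A.injective.comp (sep_inj n hn c t ht R hR hc)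
  rw [e]
  refine contraction_one z hz _ (hinj m hm) lam hlam 2 g (fun s t hst => ?_) ?_
  · rw [hg]
    simp only
    have hd : 0 ≤ m - l := by linarith
    rcases max_cases (s - c - (m - l)) 0 with ⟨h1, h1'⟩ | ⟨h1, h1'⟩ <;>
    rcases max_cases (t - c - (m - l)) 0 with ⟨h2, h2'⟩ | ⟨h2, h2'⟩ <;>
    rcases min_cases (s - c + (m - l)) 0 with ⟨h3, h3'⟩ | ⟨h3, h3'⟩ <;>
    rcases min_cases (t - c + (m - l)) 0 with ⟨h4, h4'⟩ | ⟨h4, h4'⟩ <;>
    rw [h1, h2, h3, h4] <;> constructor <;> linarith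
  · rw [← e]
    exact hinj l hl

end Pool.Agent.H71R3.TF1
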