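import Mathlib

/-!
Bruck's retraction lemma in a bitopological setting: a real topological vector space `X` with a
lower semicontinuous separating seminorm `N`.
-/

set_option autoImplicit false

universe u v

namespace Pool.Agent.H71R3.WF

open Set Filter Topology

section Bruck

variable {X : Type u} [AddCommGroup X] [Module ℝ X] [TopologicalSpace X] [T2Space X]
  [IsTopologicalAddGroup X]

theorem bruck (N : X → ℝ) (hN : ∀ c, IsClosed {x | N x ≤ c}) (hN0 : N 0 = 0)
    (hNp : ∀ x, 0 ≤ N x) (hadd : ∀ x y, N (x + y) ≤ N x + N y)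
    (hsmul : ∀ (a : ℝ) (x : X), 0 ≤ a → N (a • x) = a * N x) (hsep : ∀ x, N x = 0 → x = 0)
    {K : Set X} (hK : IsCompact K) (hconv : Convex ℝ K) {J : Type v}
    (T : J → X → X) (hmap : ∀ j, MapsTo (T j) K K)
    (hT : ∀ j, ∀ x ∈ K, ∀ y ∈ K, N (T j x - T j y) ≤ N (x - y))
    (hgood : ∀ D ⊆ K, D.Nonempty → Convex ℝ D → IsCompact D → (∀ j, MapsTo (T j) D D) →
      ∃ x ∈ D, ∀ j, T j x = x) :
    ∃ r : X → X, MapsTo r K K ∧ (∀ x ∈ K, ∀ y ∈ K, N (r x - r y) ≤ N (x - y)) ∧
      (∀ x ∈ K, ∀ j, T j (r x) = r x) ∧ ∀ x ∈ K, (∀ j, T j x = x) → r x = x := by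
  classical
  let A : Set (K → X) := {f | (∀ x, f x ∈ K) ∧ (∀ x y : K, N (f x - f y) ≤ N ((x : X) - y)) ∧
    ∀ x : K, (∀ j, T j x = x) → f x = x}
  have hcl : ∀ (x y : K) (c : ℝ), IsClosed {f : K → X | N (f x - f y) ≤ c} := fun x y c =>
    (hN c).preimage
      (Continuous.sub (continuous_apply x) (continuous_apply y) : Continuous fun f : K → X => f x - f y)
  have hclosed : IsClosed A := by
    have e : A = (⋂ x : K, {f | f x ∈ K}) ∩ ((⋂ x : K, ⋂ y : K, {f | N (f x - f y) ≤ N ((x : X) - y)})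
        ∩ ⋂ x : K, ⋂ _ : (∀ j, T j x = x), {f : K → X | f x = x}) := by
      ext f
      simp only [A, mem_ofPred_eq, mem_inter_iff, mem_iInter]
    rw [e]
    refine IsClosed.inter (isClosed_iInter fun x => hK.isClosed.preimage (continuous_apply x))
      (IsClosed.inter (isClosed_iInter fun x => isClosed_iInter fun y => hcl x y _)
        (isClosed_iInter fun x => isClosed_iInter fun _ =>
          isClosed_eq (continuous_apply x) continuous_const))
  have hcomp : IsCompact A := by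
    refine (isCompact_univ_pi fun _ : K => hK).of_isClosed_subset hclosed ?_
    intro f hf x _
    exact hf.1 x
  have hAid : (fun x : K => (x : X)) ∈ A := ⟨fun x => x.2, fun x y => le_rfl, fun x _ => rfl⟩
  have : Nonempty A := ⟨⟨_, hAid⟩⟩
  -- a minimal element
  obtain ⟨⟨r0, hr0⟩, hmin⟩ := exists_maximal_of_nonempty_chains_bounded
    (α := A) (r := fun a b => ∀ x y : K, N (b.1 x - b.1 y) ≤ N (a.1 x - a.1 y)) (by
      intro c hc hcne
      have : Nonempty c := hcne.to_subtype
      have h1 := IsCompact.nonempty_iInter_of_directed_nonempty_isCompact_isClosed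
        (fun a : c => A ∩ {f : K → X | ∀ x y : K, N (f x - f y) ≤ N (a.1.1 x - a.1.1 y)})
        (by
          intro a b
          by_cases hab : a.1 = b.1
          · have hab' : a = b := Subtype.ext hab
            subst hab'
            exact ⟨a, fun f hf => hf, fun f hf => hf⟩
          · rcases hc a.2 b.2 hab with h | h
            · exact ⟨b, fun f hf => ⟨hf.1, fun x y => (hf.2 x y).trans (h x y)⟩, fun f hf => hf⟩
            · exact ⟨a, fun f hf => hf, fun f hf => ⟨hf.1, fun x y => (hf.2 x y).trans (h x y)⟩⟩)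
        (fun a => ⟨a.1.1, a.1.2, fun x y => le_rfl⟩)
        (fun a => hcomp.inter_right (by
          have e : {f : K → X | ∀ x y : K, N (f x - f y) ≤ N (a.1.1 x - a.1.1 y)} =
            ⋂ x : K, ⋂ y : K, {f | N (f x - f y) ≤ N (a.1.1 x - a.1.1 y)} := by
            ext f; simp only [mem_ofPred_eq, mem_iInter]
          rw [e]
          exact isClosed_iInter fun x => isClosed_iInter fun y => hcl x y _))
        (fun a => hclosed.inter (by
          have e : {f : K → X | ∀ x y : K, N (f x - f y) ≤ N (a.1.1 x - a.1.1 y)} =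
            ⋂ x : K, ⋂ y : K, {f | N (f x - f y) ≤ N (a.1.1 x - a.1.1 y)} := by
            ext f; simp only [mem_ofPred_eq, mem_iInter]
          rw [e]
          exact isClosed_iInter fun x => isClosed_iInter fun y => hcl x y _))
      obtain ⟨f, hf⟩ := h1
      rw [mem_iInter] at hf
      exact ⟨⟨f, (hf (Classical.arbitrary c)).1⟩, fun a ha => (hf ⟨a, ha⟩).2⟩)
    (fun {a b c} hab hbc x y => (hbc x y).trans (hab x y))
  -- the range of `r0` consists of common fixed points
  have key : ∀ x : K, ∀ j, T j (r0 x) = r0 x := by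
    intro x
    let D : Set X := (fun f : K → X => f ⟨r0 x, hr0.1 x⟩) '' A
    obtain ⟨p, ⟨h, hh, hp⟩, hpf⟩ := hgood D
      (by rintro _ ⟨h, hh, rfl⟩; exact hh.1 _)
      ⟨_, _, hAid, rfl⟩
      (by
        rintro _ ⟨f, hf, rfl⟩ _ ⟨g, hg, rfl⟩ a b ha hb hab
        refine ⟨fun z => a • f z + b • g z, ⟨fun z => hconv (hf.1 z) (hg.1 z) ha hb hab,
          fun z w => ?_, fun z hz => ?_⟩, rfl⟩
        · have e : a • f z + b • g z - (a • f w + b • g w) = a • (f z - f w) + b • (g z - g w) := by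
            module
          rw [e]
          calc N (a • (f z - f w) + b • (g z - g w)) ≤ N (a • (f z - f w)) + N (b • (g z - g w)) :=
                hadd _ _
            _ = a * N (f z - f w) + b * N (g z - g w) := by
                rw [hsmul _ _ ha, hsmul _ _ hb]
            _ ≤ a * N ((z : X) - w) + b * N ((z : X) - w) := by
                gcongr
                · exact hf.2.1 z w
                · exact hg.2.1 z w
            _ = N ((z : X) - w) := by rw [← add_mul, hab, one_mul]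
        · show a • f z + b • g z = z
          rw [hf.2.2 z hz, hg.2.2 z hz, ← add_smul, hab, one_smul])
      (hcomp.image (continuous_apply _))
      (by
        rintro j _ ⟨f, hf, rfl⟩
        refine ⟨fun z => T j (f z), ⟨fun z => hmap j (hf.1 z), fun z w =>
          (hT j _ (hf.1 z) _ (hf.1 w)).trans (hf.2.1 z w), fun z hz => ?_⟩, rfl⟩
        show T j (f z) = z
        rw [hf.2.2 z hz, hz j])
    have hpK : p ∈ K := hp ▸ hh.1 _
    have hcompA : (fun z : K => h ⟨r0 z, hr0.1 z⟩) ∈ A := by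
      refine ⟨fun z => hh.1 _, fun z w => (hh.2.1 _ _).trans (hr0.2.1 z w), fun z hz => ?_⟩
      have e1 : (⟨r0 z, hr0.1 z⟩ : K) = z := Subtype.ext (hr0.2.2 z hz)
      show h ⟨r0 z, hr0.1 z⟩ = z
      rw [e1]
      exact hh.2.2 z hz
    have h2 := hmin ⟨_, hcompA⟩ (fun z w => hh.2.1 _ _) x ⟨p, hpK⟩
    have e2 : r0 ⟨p, hpK⟩ = p := hr0.2.2 ⟨p, hpK⟩ hpf
    have e3 : h ⟨r0 ⟨p, hpK⟩, hr0.1 ⟨p, hpK⟩⟩ = p := by
      have : (⟨r0 ⟨p, hpK⟩, hr0.1 ⟨p, hpK⟩⟩ : K) = ⟨p, hpK⟩ := Subtype.ext e2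
      rw [this]
      exact hh.2.2 ⟨p, hpK⟩ hpf
    have h3 : N (r0 x - p) ≤ 0 := by
      have h4 : N (r0 x - r0 ⟨p, hpK⟩) ≤
          N (h ⟨r0 x, hr0.1 x⟩ - h ⟨r0 ⟨p, hpK⟩, hr0.1 ⟨p, hpK⟩⟩) := h2
      have h5 : h ⟨r0 x, hr0.1 x⟩ = p := hp
      rw [e3, h5, sub_self, hN0] at h4
      rw [e2] at h4
      exact h4
    have h6 : r0 x = p := sub_eq_zero.1 (hsep _ (le_antisymm h3 (hNp _)))
    intro j
    rw [h6]
    exact hpf j
  refine ⟨fun x => if h : x ∈ K then r0 ⟨x, h⟩ else x, ?_, ?_, ?_, ?_⟩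
  · intro x hx
    simp only [hx, dif_pos]
    exact hr0.1 _
  · intro x hx y hy
    simp only [hx, hy, dif_pos]
    exact hr0.2.1 _ _
  · intro x hx j
    simp only [hx, dif_pos]
    exact key _ j
  · intro x hx h
    simp only [hx, dif_pos]
    exact hr0.2.2 ⟨x, hx⟩ h

end Bruck

end Pool.Agent.H71R3.WF
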