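import Mathlib
import Pool.Agent.H71R3.WF1

/-!
Fixed points in a bitopological setting with approximate fixed points (weak* topology of a dual).
-/

set_option autoImplicit false

universe u v w

namespace Pool.Agent.H71R3.WD

open Set Filter Topology
open Pool.Agent.H71R3.WF

section

variable {X : Type v} [AddCommGroup X] [Module ℝ X] [TopologicalSpace X] [T2Space X]
  [IsTopologicalAddGroup X]

/-- a lower semicontinuous norm with approximate fixed points -/
structure Sys (N : X → ℝ) : Prop where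
  closed : ∀ c, IsClosed {x | N x ≤ c}
  zero : N 0 = 0
  nonneg : ∀ x, 0 ≤ N x
  neg : ∀ x, N (-x) = N x
  add : ∀ x y, N (x + y) ≤ N x + N y
  smul : ∀ (a : ℝ) (x : X), 0 ≤ a → N (a • x) = a * N x
  sep : ∀ x, N x = 0 → x = 0
  approx : ∀ K : Set X, K.Nonempty → Convex ℝ K → IsCompact K → ∀ f : X → X, MapsTo f K K →
    (∀ x ∈ K, ∀ y ∈ K, N (f x - f y) ≤ N (x - y)) → ∀ ε > 0, ∃ x ∈ K, N (f x - x) ≤ ε

variable {N : X → ℝ}

theorem Sys.sub_rev (h : Sys N) (x y : X) : N (x - y) = N (y - x) := by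
  rw [← h.neg, neg_sub]

/-- `F` is the common fixed point set of a family of nonexpansive maps of `K` which has common
fixed points in every invariant compact convex subset. -/
structure GP (N : X → ℝ) (K F : Set X) (𝒢 : Set (X → X)) : Prop where
  maps : ∀ g ∈ 𝒢, MapsTo g K K
  ne : ∀ g ∈ 𝒢, ∀ x ∈ K, ∀ y ∈ K, N (g x - g y) ≤ N (x - y)
  fix : ∀ x ∈ K, x ∈ F ↔ ∀ g ∈ 𝒢, g x = x
  sub : F ⊆ K
  her : ∀ D ⊆ K, D.Nonempty → Convex ℝ D → IsCompact D → (∀ g ∈ 𝒢, MapsTo g D D) →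
    (D ∩ F).Nonempty
  closed : IsClosed F

theorem GP.restrict {K F : Set X} {𝒢 : Set (X → X)} (h : GP N K F 𝒢) {D : Set X} (hD : D ⊆ K)
    (hDc : IsCompact D) (hm : ∀ g ∈ 𝒢, MapsTo g D D) : GP N D (D ∩ F) 𝒢 where
  maps := hm
  ne := fun g hg x hx y hy => h.ne g hg x (hD hx) y (hD hy)
  fix := fun x hx => by
    rw [← h.fix x (hD hx)]
    exact ⟨fun hh => hh.2, fun hh => ⟨hx, hh⟩⟩
  sub := inter_subset_left
  her := fun D' hD' h1 h2 h3 h4 => by
    obtain ⟨x, hx, hxF⟩ := h.her D' (hD'.trans hD) h1 h2 h3 h4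
    exact ⟨x, hx, hD' hx, hxF⟩
  closed := hDc.isClosed.inter h.closed

theorem GP.retract (hN : Sys N) {K F : Set X} {𝒢 : Set (X → X)} (h : GP N K F 𝒢)
    (hc : Convex ℝ K) (hK : IsCompact K) :
    ∃ r : X → X, (∀ x ∈ K, r x ∈ F) ∧ (∀ x ∈ K, ∀ y ∈ K, N (r x - r y) ≤ N (x - y)) ∧
      ∀ x ∈ F, r x = x := by
  obtain ⟨r, h1, h2, h3, h4⟩ := bruck N hN.closed hN.zero hN.nonneg hN.add hN.smul hN.sep hK hc
    (fun g : 𝒢 => g.1) (fun g => h.maps g.1 g.2) (fun g => h.ne g.1 g.2) (by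
      intro D hDK hDne hDc hD hDm
      obtain ⟨x, hx, hxF⟩ := h.her D hDK hDne hDc hD fun g hg => hDm ⟨g, hg⟩
      exact ⟨x, hx, fun g => (h.fix x (hDK hx)).1 hxF g.1 g.2⟩)
  refine ⟨r, fun x hx => (h.fix _ (h1 hx)).2 fun g hg => h3 x hx ⟨g, hg⟩, h2, fun x hx =>
    h4 x (h.sub hx) fun g => (h.fix x (h.sub hx)).1 hx g.1 g.2⟩

/-- passing to the limit -/
theorem limit_point (hN : Sys N) {F : Set X} (hF : IsCompact F) {J : Type u} (T : J → X → X)
    (hT : ∀ j, ContinuousOn (T j) F) (h : ∀ ε > 0, ∃ y ∈ F, ∀ j, N (T j y - y) ≤ ε) :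
    ∃ y ∈ F, ∀ j, T j y = y := by
  choose y hyF hy using fun n : ℕ => h (1 / ((n : ℝ) + 1)) (by positivity)
  let U : Ultrafilter ℕ := Ultrafilter.of atTop
  have hU : (U : Filter ℕ) ≤ atTop := Ultrafilter.of_le _
  obtain ⟨z, hz, hlim⟩ := hF.ultrafilter_le_nhds (U.map y) (by
    rw [le_principal_iff]
    exact Eventually.of_forall (f := (U : Filter ℕ)) fun n => hyF n)
  have hlim' : Tendsto y U (𝓝 z) := hlim
  refine ⟨z, hz, fun j => ?_⟩
  have hw : Tendsto y U (𝓝[F] z) :=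
    tendsto_nhdsWithin_iff.2 ⟨hlim', Eventually.of_forall hyF⟩
  have h1 : Tendsto (fun n => T j (y n) - y n) U (𝓝 (T j z - z)) :=
    ((hT j z hz).tendsto.comp hw).sub hlim'
  have h2 : ∀ ε > 0, N (T j z - z) ≤ ε := by
    intro ε hε
    refine (hN.closed ε).mem_of_tendsto h1 ?_
    have h3 : ∀ᶠ n : ℕ in atTop, 1 / ((n : ℝ) + 1) < ε :=
      (tendsto_order.1 tendsto_one_div_add_atTop_nhds_zero_nat).2 ε hε
    filter_upwards [hU h3] with n hn
    exact (hy n j).trans hn.le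
  have h3 : N (T j z - z) ≤ 0 := le_of_forall_pos_le_add fun ε hε => by
    rw [zero_add]; exact h2 ε hε
  exact sub_eq_zero.1 (hN.sep _ (le_antisymm h3 (hN.nonneg _)))

/-- separately continuous nonexpansive actions on `F` -/
structure ActOn (N : X → ℝ) {S : Type u} [Semigroup S] [TopologicalSpace S] (F : Set X)
    (T : S → X → X) : Prop where
  cont : ∀ x ∈ F, Continuous fun s => T s x
  contOn : ∀ s, ContinuousOn (T s) F
  maps : ∀ s, MapsTo (T s) F F
  mul : ∀ s t, ∀ x ∈ F, T (s * t) x = T s (T t x)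
  ne : ∀ s, ∀ x ∈ F, ∀ y ∈ F, N (T s x - T s y) ≤ N (x - y)

theorem closed_fix {F : Set X} (hF : IsClosed F) {J : Type u} (T : J → X → X)
    (hT : ∀ j, ContinuousOn (T j) F) : IsClosed (F ∩ {x | ∀ j, T j x = x}) := by
  have h1 : ∀ j, IsClosed (F ∩ (fun x => T j x - x) ⁻¹' {0}) := fun j =>
    ((hT j).sub continuousOn_id).preimage_isClosed_of_isClosed hF isClosed_singleton
  have e : F ∩ {x | ∀ j, T j x = x} = F ∩ ⋂ j, (F ∩ (fun x => T j x - x) ⁻¹' {0}) := by
    ext x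
    simp only [mem_inter_iff, mem_ofPred_eq, mem_iInter, mem_preimage, mem_singleton_iff,
      sub_eq_zero]
    constructor
    · rintro ⟨h1, h2⟩
      exact ⟨h1, fun j => ⟨h1, h2 j⟩⟩
    · rintro ⟨h1, h2⟩
      exact ⟨h1, fun j => (h2 j).2⟩
  rw [e]
  exact hF.inter (isClosed_iInter h1)

variable (N) in
/-- fixed points for actions on fixed point sets of good families -/
def Good (S : Type u) [Semigroup S] [TopologicalSpace S] : Prop :=
  ∀ (K F : Set X) (𝒢 : Set (X → X)), K.Nonempty → Convex ℝ K → IsCompact K → GP N K F 𝒢 →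
    ∀ T : S → X → X, ActOn N F T → ∃ x ∈ F, ∀ s, T s x = x

/-- enlarging the family -/
theorem GP.extend {K F : Set X} {𝒢 : Set (X → X)} (h : GP N K F 𝒢) {r : X → X}
    (hr1 : ∀ x ∈ K, r x ∈ F) (hr2 : ∀ x ∈ K, ∀ y ∈ K, N (r x - r y) ≤ N (x - y))
    (hr3 : ∀ x ∈ F, r x = x) {J : Type u} (T : J → X → X)
    (hTm : ∀ j, MapsTo (T j) F F) (hTn : ∀ j, ∀ x ∈ F, ∀ y ∈ F, N (T j x - T j y) ≤ N (x - y))
    (hTc : ∀ j, ContinuousOn (T j) F)
    (hfp : ∀ D ⊆ K, D.Nonempty → Convex ℝ D → IsCompact D → (∀ g ∈ 𝒢, MapsTo g D D) →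
      (∀ j, MapsTo (T j) (D ∩ F) (D ∩ F)) → ∃ x ∈ D ∩ F, ∀ j, T j x = x) :
    GP N K (F ∩ {x | ∀ j, T j x = x}) (𝒢 ∪ range fun j => T j ∘ r) where
  maps := by
    rintro g (hg | ⟨j, rfl⟩)
    · exact h.maps g hg
    · exact fun x hx => h.sub (hTm j (hr1 x hx))
  ne := by
    rintro g (hg | ⟨j, rfl⟩)
    · exact h.ne g hg
    · exact fun x hx y hy => (hTn j _ (hr1 x hx) _ (hr1 y hy)).trans (hr2 x hx y hy)
  fix := by
    intro x hx
    constructor
    · rintro ⟨h1, h2⟩ g (hg | ⟨j, rfl⟩)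
      · exact (h.fix x hx).1 h1 g hg
      · show T j (r x) = x
        rw [hr3 x h1, h2 j]
    · intro hh
      have h1 : x ∈ F := (h.fix x hx).2 fun g hg => hh g (Or.inl hg)
      refine ⟨h1, fun j => ?_⟩
      have h2 : T j (r x) = x := hh _ (Or.inr ⟨j, rfl⟩)
      rw [hr3 x h1] at h2
      exact h2
  sub := inter_subset_left.trans h.sub
  her := by
    intro D hD hne hc hDc hm
    obtain ⟨x, hx, hx'⟩ := hfp D hD hne hc hDc (fun g hg => hm g (Or.inl hg)) (by
      rintro j x ⟨hx, hxF⟩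
      refine ⟨?_, hTm j hxF⟩
      have h1 : (T j ∘ r) x ∈ D := hm _ (Or.inr ⟨j, rfl⟩) hx
      show T j x ∈ D
      have h2 : (T j ∘ r) x = T j x := by
        show T j (r x) = T j x
        rw [hr3 x hxF]
      rw [← h2]
      exact h1)
    exact ⟨x, hx.1, hx.2, hx'⟩
  closed := closed_fix h.closed T hTc

theorem one_step (hN : Sys N) {K F : Set X} {𝒢 : Set (X → X)} (hne : K.Nonempty)
    (hc : Convex ℝ K) (hK : IsCompact K) (h : GP N K F 𝒢) (f : X → X) (hf : MapsTo f F F)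
    (hfn : ∀ x ∈ F, ∀ y ∈ F, N (f x - f y) ≤ N (x - y)) (hfc : ContinuousOn f F) :
    ∃ x ∈ F, f x = x := by
  obtain ⟨r, h1, h2, h3⟩ := h.retract hN hc hK
  obtain ⟨y, hy, hy'⟩ := limit_point hN (hK.of_isClosed_subset h.closed h.sub)
    (fun _ : Unit => f) (fun _ => hfc) (by
      intro ε hε
      obtain ⟨x, hx, hx'⟩ := hN.approx K hne hc hK (fun x => f (r x))
        (fun x hx => h.sub (hf (h1 x hx)))
        (fun x hx y hy => (hfn _ (h1 x hx) _ (h1 y hy)).trans (h2 x hx y hy)) ε hε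
      refine ⟨r x, h1 x hx, fun _ => ?_⟩
      have h4 : f (r x) ∈ F := hf (h1 x hx)
      have h5 := h2 (f (r x)) (h.sub h4) x hx
      rw [h3 _ h4] at h5
      exact h5.trans hx')
  exact ⟨y, hy, hy' ()⟩

theorem finite_commuting (hN : Sys N) {J : Type u} (T : J → X → X) (A : Finset J) :
    ∀ (K F : Set X) (𝒢 : Set (X → X)), K.Nonempty → Convex ℝ K → IsCompact K → GP N K F 𝒢 →
      (∀ j ∈ A, MapsTo (T j) F F) →
      (∀ j ∈ A, ∀ x ∈ F, ∀ y ∈ F, N (T j x - T j y) ≤ N (x - y)) →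
      (∀ j ∈ A, ContinuousOn (T j) F) → (∀ i ∈ A, ∀ j ∈ A, ∀ x ∈ F, T i (T j x) = T j (T i x)) →
      ∃ x ∈ F, ∀ j ∈ A, T j x = x := by
  classical
  induction A using Finset.induction_on with
  | empty =>
    intro K F 𝒢 hne hc hK h _ _ _ _
    obtain ⟨x, hx, hxF⟩ := h.her K Subset.rfl hne hc hK h.maps
    exact ⟨x, hxF, fun j hj => absurd hj (Finset.notMem_empty j)⟩
  | insert b A hb ih =>
    intro K F 𝒢 hne hc hK h hm hn hco hcomm
    have hA : ∀ j ∈ A, j ∈ insert b A := fun j hj => Finset.mem_insert_of_mem hj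
    have hbA : b ∈ insert b A := Finset.mem_insert_self _ _
    obtain ⟨r, h1, h2, h3⟩ := h.retract hN hc hK
    have hGP := h.extend h1 h2 h3 (fun j : A => T j.1) (fun j => hm _ (hA _ j.2))
      (fun j => hn _ (hA _ j.2)) (fun j => hco _ (hA _ j.2)) (by
        intro D hD hDne hDc hDcomp hDg hDm
        obtain ⟨x, hx, hx'⟩ := ih D (D ∩ F) 𝒢 hDne hDc hDcomp (h.restrict hD hDcomp hDg)
          (fun j hj => hDm ⟨j, hj⟩) (fun j hj x hx y hy => hn j (hA j hj) x hx.2 y hy.2)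
          (fun j hj => (hco j (hA j hj)).mono inter_subset_right)
          (fun i hi j hj x hx => hcomm i (hA i hi) j (hA j hj) x hx.2)
        exact ⟨x, hx, fun j => hx' j.1 j.2⟩)
    obtain ⟨x, hx, hx'⟩ := one_step hN hne hc hK hGP (T b)
      (by
        rintro x ⟨hx, hxA⟩
        exact ⟨hm b hbA hx, fun j => by
          show T j.1 (T b x) = T b x
          rw [hcomm _ (hA _ j.2) _ hbA x hx, hxA j]⟩)
      (fun x hx y hy => hn b hbA x hx.1 y hy.1) ((hco b hbA).mono inter_subset_left)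
    refine ⟨x, hx.1, fun j hj => ?_⟩
    rcases Finset.mem_insert.1 hj with rfl | hj
    · exact hx'
    · exact hx.2 ⟨j, hj⟩

theorem directed_fix {F : Set X} (hF : IsCompact F) {J : Type u} (T : J → X → X)
    (hT : ∀ j, ContinuousOn (T j) F) {ι : Type w} [Nonempty ι] (B : ι → Set J)
    (hdir : Directed (· ⊆ ·) B) (h : ∀ i, ∃ x ∈ F, ∀ j ∈ B i, T j x = x) :
    ∃ x ∈ F, ∀ i, ∀ j ∈ B i, T j x = x := by
  have hcl : ∀ i, IsClosed (F ∩ {x | ∀ j : B i, T j.1 x = x}) := fun i =>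
    closed_fix hF.isClosed (fun j : B i => T j.1) fun j => hT _
  obtain ⟨x, hx⟩ := IsCompact.nonempty_iInter_of_directed_nonempty_isCompact_isClosed
    (fun i => F ∩ {x | ∀ j : B i, T j.1 x = x})
    (by
      intro a b
      obtain ⟨c, hac, hbc⟩ := hdir a b
      exact ⟨c, fun x hx => ⟨hx.1, fun j => hx.2 ⟨j.1, hac j.2⟩⟩,
        fun x hx => ⟨hx.1, fun j => hx.2 ⟨j.1, hbc j.2⟩⟩⟩)
    (fun i => by
      obtain ⟨x, hx, hx'⟩ := h i
      exact ⟨x, hx, fun j => hx' j.1 j.2⟩)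
    (fun i => hF.of_isClosed_subset (hcl i) inter_subset_left) hcl
  rw [mem_iInter] at hx
  exact ⟨x, (hx (Classical.arbitrary ι)).1, fun i j hj => (hx i).2 ⟨j, hj⟩⟩

theorem good_comm (hN : Sys N) (S : Type u) [Semigroup S] [TopologicalSpace S]
    (hS : ∀ a b : S, a * b = b * a) : Good N S := by
  classical
  intro K F 𝒢 hne hc hK h T hT
  have hF : IsCompact F := hK.of_isClosed_subset h.closed h.sub
  obtain ⟨x, hx, hx'⟩ := directed_fix hF T hT.contOn (ι := Finset S) (fun A => (A : Set S))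
    (by
      intro A B
      exact ⟨A ∪ B, by simp, by simp⟩)
    (fun A => finite_commuting hN T A K F 𝒢 hne hc hK h (fun j _ => hT.maps j)
      (fun j _ => hT.ne j) (fun j _ => hT.contOn j)
      (fun i _ j _ x hx => by rw [← hT.mul i j x hx, ← hT.mul j i x hx, hS]))
  exact ⟨x, hx, fun s => hx' {s} s (by simp)⟩

theorem good_finite (hN : Sys N) (G : Type u) [Group G] [TopologicalSpace G] [Finite G] :
    Good N G := by
  classical
  intro K F 𝒢 hne hc hK h T hT
  have := Fintype.ofFinite G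
  obtain ⟨r, r1, r2, r3⟩ := h.retract hN hc hK
  set n : ℝ := (Fintype.card G : ℝ) with hn
  have hn0 : 0 < n := by
    rw [hn]; exact_mod_cast Fintype.card_pos
  have hsumN : ∀ (A : Finset G) (f : G → X), N (∑ g ∈ A, f g) ≤ ∑ g ∈ A, N (f g) := by
    intro A f
    induction A using Finset.induction_on with
    | empty => simp [hN.zero]
    | insert a A ha ih =>
      rw [Finset.sum_insert ha, Finset.sum_insert ha]
      exact (hN.add _ _).trans (by linarith)
  refine limit_point hN (hK.of_isClosed_subset h.closed h.sub) T hT.contOn ?_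
  intro ε hε
  obtain ⟨x, hx, hxε⟩ := hN.approx K hne hc hK (fun x => ∑ g : G, (1 / n) • T g (r x))
    (fun x hx => hc.sum_mem (fun _ _ => by positivity)
      (by rw [Finset.sum_const, Finset.card_univ, nsmul_eq_mul, ← hn]; field_simp)
      (fun g _ => h.sub (hT.maps g (r1 x hx))))
    (by
      intro x hx y hy
      rw [← Finset.sum_sub_distrib]
      calc N (∑ g : G, ((1 / n) • T g (r x) - (1 / n) • T g (r y)))
          ≤ ∑ g : G, N ((1 / n) • T g (r x) - (1 / n) • T g (r y)) := hsumN _ _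
        _ ≤ ∑ _g : G, (1 / n) * N (x - y) := by
            refine Finset.sum_le_sum fun g _ => ?_
            rw [← smul_sub, hN.smul _ _ (by positivity)]
            gcongr
            exact (hT.ne g _ (r1 x hx) _ (r1 y hy)).trans (r2 x hx y hy)
        _ = N (x - y) := by
            rw [Finset.sum_const, Finset.card_univ, nsmul_eq_mul, ← hn]; field_simp)
    (ε / n) (by positivity)
  set Ax : X := ∑ g : G, (1 / n) • T g (r x) with hAx
  have hxε' : N (Ax - x) ≤ ε / n := hxε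
  obtain ⟨g, hg⟩ := Finite.exists_max fun g : G => N (T g (r x) - x)
  set d : ℝ := N (T g (r x) - x) with hd
  have h1 : d ≤ (n - 1) / n * d + ε / n := by
    have e1 : T g (r x) - x = ∑ h : G, (1 / n) • (T g (r x) - T h (r x)) + (Ax - x) := by
      simp_rw [smul_sub]
      rw [Finset.sum_sub_distrib, ← hAx, Finset.sum_const, Finset.card_univ,
        ← Nat.cast_smul_eq_nsmul ℝ, ← hn, smul_smul]
      have : n * (1 / n) = 1 := by field_simp
      rw [this, one_smul]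
      abel
    have e2 : ∀ h : G, N (T g (r x) - T h (r x)) ≤ d := by
      intro h
      have hrx := r1 x hx
      have e3 : T h (r x) = T g (T (g⁻¹ * h) (r x)) := by
        rw [← hT.mul _ _ _ hrx, mul_inv_cancel_left]
      rw [e3]
      have hz : T (g⁻¹ * h) (r x) ∈ F := hT.maps _ hrx
      refine (hT.ne g _ hrx _ hz).trans ?_
      have e4 : N (r x - r (T (g⁻¹ * h) (r x))) ≤ N (x - T (g⁻¹ * h) (r x)) :=
        r2 x hx _ (GP.sub ‹GP N K F 𝒢› hz)
      rw [r3 _ hz] at e4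
      refine e4.trans ?_
      rw [hN.sub_rev]
      exact hg _
    have e3 : ∑ h : G, (if h = g then (0 : ℝ) else d) = (n - 1) * d := by
      rw [Finset.sum_ite, Finset.sum_const_zero, zero_add, Finset.sum_const,
        Finset.filter_ne' Finset.univ g, Finset.card_erase_of_mem (Finset.mem_univ _),
        Finset.card_univ, nsmul_eq_mul, Nat.cast_sub Fintype.card_pos, ← hn]
      simp
    calc d = N (∑ h : G, (1 / n) • (T g (r x) - T h (r x)) + (Ax - x)) := by rw [hd, e1]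
      _ ≤ N (∑ h : G, (1 / n) • (T g (r x) - T h (r x))) + N (Ax - x) := hN.add _ _
      _ ≤ ∑ h : G, N ((1 / n) • (T g (r x) - T h (r x))) + ε / n := add_le_add (hsumN _ _) hxε'
      _ ≤ ∑ h : G, (1 / n) * (if h = g then (0 : ℝ) else d) + ε / n := by
          gcongr with h _
          rw [hN.smul _ _ (by positivity)]
          gcongr
          split_ifs with hh
          · rw [hh, sub_self, hN.zero]
          · exact e2 h
      _ = (n - 1) / n * d + ε / n := by
          rw [← Finset.mul_sum, e3]; ring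
  have h2 : d ≤ ε := by
    have e : (n - 1) / n * d = d - d / n := by field_simp
    rw [e] at h1
    have h3 : d / n ≤ ε / n := by linarith
    exact (div_le_div_iff_of_pos_right hn0).1 h3
  refine ⟨r x, r1 x hx, fun k => ?_⟩
  have hz : T k (r x) ∈ F := hT.maps _ (r1 x hx)
  have e4 : N (r (T k (r x)) - r x) ≤ N (T k (r x) - x) := r2 _ (h.sub hz) x hx
  rw [r3 _ hz] at e4
  exact (e4.trans (hg k)).trans h2

theorem good_left_ideal (S : Type u) [Semigroup S] [TopologicalSpace S] (I : Subsemigroup S)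
    (hne : (I : Set S).Nonempty) (hI : ∀ s : S, ∀ a ∈ I, s * a ∈ I) (h : Good N I) :
    Good N S := by
  intro K F 𝒢 hKne hc hK hGP T hT
  obtain ⟨x, hx, hx'⟩ := h K F 𝒢 hKne hc hK hGP (fun a => T a.1)
    ⟨fun x hx => (hT.cont x hx).comp continuous_subtype_val, fun s => hT.contOn _,
      fun s => hT.maps s.1, fun s t x hx => hT.mul s.1 t.1 x hx, fun s => hT.ne s.1⟩
  obtain ⟨a, ha⟩ := hne
  refine ⟨x, hx, fun s => ?_⟩
  have e1 : T a x = x := hx' ⟨a, ha⟩
  have e2 : T (s * a) x = x := hx' ⟨s * a, hI s a ha⟩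
  rw [hT.mul s a x hx, e1] at e2
  exact e2

theorem good_image (S Q : Type u) [Semigroup S] [TopologicalSpace S] [Semigroup Q]
    [TopologicalSpace Q] (f : S →ₙ* Q) (hfc : Continuous f) (hf : DenseRange f)
    (h : Good N S) : Good N Q := by
  intro K F 𝒢 hKne hc hK hGP T hT
  obtain ⟨x, hx, hx'⟩ := h K F 𝒢 hKne hc hK hGP (fun a => T (f a))
    ⟨fun x hx => (hT.cont x hx).comp hfc, fun s => hT.contOn _, fun s => hT.maps _,
      fun s t x hx => by rw [map_mul]; exact hT.mul _ _ x hx, fun s => hT.ne _⟩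
  refine ⟨x, hx, fun q => ?_⟩
  have hcl : IsClosed {q : Q | T q x = x} := isClosed_eq (hT.cont x hx) continuous_const
  exact closure_minimal (by rintro _ ⟨s, rfl⟩; exact hx' s) hcl (hf q)

theorem good_union (S : Type u) [Semigroup S] [TopologicalSpace S]
    (H : Set (Subsemigroup S)) (hne : H.Nonempty) (hdir : DirectedOn (· ≤ ·) H)
    (hcov : Dense {s : S | ∃ M ∈ H, s ∈ M}) (h : ∀ M ∈ H, Good N M) : Good N S := by
  intro K F 𝒢 hKne hc hK hGP T hT
  have hF : IsCompact F := hK.of_isClosed_subset hGP.closed hGP.sub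
  have : Nonempty H := hne.to_subtype
  obtain ⟨x, hx, hx'⟩ := directed_fix hF T hT.contOn (ι := H) (fun M => ((M.1 : Subsemigroup S) : Set S))
    (by
      intro a b
      obtain ⟨c, hc, hac, hbc⟩ := hdir a.1 a.2 b.1 b.2
      exact ⟨⟨c, hc⟩, hac, hbc⟩)
    (fun M => by
      obtain ⟨x, hx, hx'⟩ := h M.1 M.2 K F 𝒢 hKne hc hK hGP (fun a => T a.1)
        ⟨fun x hx => (hT.cont x hx).comp continuous_subtype_val, fun s => hT.contOn _,
          fun s => hT.maps s.1, fun s t x hx => hT.mul s.1 t.1 x hx, fun s => hT.ne s.1⟩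
      exact ⟨x, hx, fun j hj => hx' ⟨j, hj⟩⟩)
  refine ⟨x, hx, fun s => ?_⟩
  have hcl : IsClosed {q : S | T q x = x} := isClosed_eq (hT.cont x hx) continuous_const
  exact closure_minimal (by rintro s ⟨M, hM, hs⟩; exact hx' ⟨M, hM⟩ s hs) hcl (hcov s)

theorem good_ext (hN : Sys N) (S Q : Type u) [Semigroup S] [TopologicalSpace S] [Semigroup Q]
    [TopologicalSpace Q] (M : Subsemigroup S) (π : S →ₙ* Q) (hπ : IsQuotientMap π)
    (hM : ∀ s : S, ∀ n ∈ M, ∃ n' ∈ M, n * s = s * n')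
    (hker : ∀ s t : S, π s = π t → ∃ n ∈ M, ∃ m ∈ M, s * n = t * m)
    (h1 : Good N M) (h2 : Good N Q) : Good N S := by
  intro K F 𝒢 hKne hc hK hGP T hT
  obtain ⟨r, r1, r2, r3⟩ := hGP.retract hN hc hK
  have hGP1 := hGP.extend r1 r2 r3 (fun n : M => T n.1) (fun n => hT.maps _) (fun n => hT.ne _)
    (fun n => hT.contOn _) (by
      intro D hD hDne hDc hDcomp hDg hDm
      exact h1 D (D ∩ F) 𝒢 hDne hDc hDcomp (hGP.restrict hD hDcomp hDg) (fun n : M => T n.1)
        ⟨fun x hx => (hT.cont x hx.2).comp continuous_subtype_val,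
          fun n => (hT.contOn _).mono inter_subset_right, hDm,
          fun s t x hx => hT.mul _ _ x hx.2, fun s x hx y hy => hT.ne _ x hx.2 y hy.2⟩)
  choose σ hσ using hπ.surjective
  have hwd : ∀ s t, π s = π t → ∀ x ∈ F ∩ {x | ∀ n : M, T n.1 x = x}, T s x = T t x := by
    rintro s t hst x ⟨hx, hxM⟩
    obtain ⟨n, hn, m, hm, e⟩ := hker s t hst
    have e1 : T (s * n) x = T s x := by rw [hT.mul _ _ _ hx, hxM ⟨n, hn⟩]
    have e2 : T (t * m) x = T t x := by rw [hT.mul _ _ _ hx, hxM ⟨m, hm⟩]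
    rw [← e1, e, e2]
  obtain ⟨x, hx, hx'⟩ := h2 K _ _ hKne hc hK hGP1 (fun q x => T (σ q) x)
    ⟨fun x hx => by
      rw [hπ.continuous_iff]
      have e : (fun q => T (σ q) x) ∘ π = fun s => T s x := by
        funext s
        exact hwd _ _ (hσ (π s)) x hx
      rw [e]
      exact hT.cont _ hx.1, fun q => (hT.contOn _).mono inter_subset_left, by
      rintro q x ⟨hx, hxM⟩
      refine ⟨hT.maps _ hx, fun n => ?_⟩
      obtain ⟨n', hn', e⟩ := hM (σ q) n.1 n.2
      show T n.1 (T (σ q) x) = T (σ q) x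
      rw [← hT.mul _ _ _ hx, e, hT.mul _ _ _ hx, hxM ⟨n', hn'⟩], by
      intro q q' x hx
      show T (σ (q * q')) x = T (σ q) (T (σ q') x)
      rw [← hT.mul _ _ _ hx.1]
      refine hwd _ _ ?_ x hx
      rw [map_mul, hσ, hσ, hσ],
      fun q x hx y hy => hT.ne _ x hx.1 y hy.1⟩
  refine ⟨x, hx.1, fun s => ?_⟩
  have e1 : T (σ (π s)) x = x := hx' (π s)
  rw [hwd s (σ (π s)) (hσ (π s)).symm x hx, e1]

end

end Pool.Agent.H71R3.WD
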