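import Mathlib
import Pool.Agent.H71R3.WD1

set_option autoImplicit false

universe u v w

namespace Pool.Agent.H71R3.WD

open Set Filter Topology

section Approx

variable {V : Type v} [NormedAddCommGroup V] [NormedSpace ℝ V] [CompleteSpace V]

/-- approximate fixed points of nonexpansive maps on bounded closed convex sets -/
theorem approx_fixed {K : Set V} (hne : K.Nonempty) (hc : Convex ℝ K) (hcl : IsClosed K)
    {C : ℝ} (hC : ∀ x ∈ K, ‖x‖ ≤ C) (f : V → V) (hf : MapsTo f K K)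
    (hn : ∀ x ∈ K, ∀ y ∈ K, ‖f x - f y‖ ≤ ‖x - y‖) {ε : ℝ} (hε : 0 < ε) :
    ∃ x ∈ K, ‖f x - x‖ ≤ ε := by
  obtain ⟨x0, hx0⟩ := hne
  have hC0 : 0 ≤ C := (norm_nonneg _).trans (hC x0 hx0)
  obtain ⟨δ, hδ0, hδ1, hδ⟩ : ∃ δ : ℝ, 0 < δ ∧ δ < 1 ∧ δ * (2 * C) ≤ ε := by
    refine ⟨min (1 / 2) (ε / (2 * C + 1)), ?_, ?_, ?_⟩
    · exact lt_min (by norm_num) (by positivity)
    · exact (min_le_left _ _).trans_lt (by norm_num)
    · calc min (1 / 2) (ε / (2 * C + 1)) * (2 * C) ≤ ε / (2 * C + 1) * (2 * C + 1) := by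
            gcongr
            · exact min_le_right _ _
            · linarith
        _ = ε := by field_simp
  let g : V → V := fun x => δ • x0 + (1 - δ) • f x
  have hg : MapsTo g K K := fun x hx => hc hx0 (hf hx) hδ0.le (by linarith) (by ring)
  have hcon : ContractingWith ⟨1 - δ, by linarith⟩ (hg.restrict g K K) := by
    refine ⟨?_, ?_⟩
    · rw [← NNReal.coe_lt_coe]
      show 1 - δ < 1
      linarith
    · refine LipschitzWith.of_dist_le_mul fun x y => ?_
      rw [Subtype.dist_eq, Subtype.dist_eq, dist_eq_norm, dist_eq_norm]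
      show ‖(δ • x0 + (1 - δ) • f x) - (δ • x0 + (1 - δ) • f y)‖ ≤ (1 - δ) * ‖(x : V) - y‖
      have e : (δ • x0 + (1 - δ) • f x) - (δ • x0 + (1 - δ) • f y) = (1 - δ) • (f x - f y) := by
        module
      rw [e, norm_smul, Real.norm_of_nonneg (by linarith)]
      have : 0 ≤ 1 - δ := by linarith
      gcongr
      exact hn x x.2 y y.2
  obtain ⟨x, hx, hxf, -⟩ := hcon.exists_fixedPoint' hcl.isComplete hg hx0 (edist_ne_top _ _)
  refine ⟨x, hx, ?_⟩
  have e1 : δ • x0 + (1 - δ) • f x = x := hxf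
  have e2 : f x - x = δ • (f x - x0) := by
    nth_rewrite 2 [← e1]
    module
  rw [e2, norm_smul, Real.norm_of_nonneg hδ0.le]
  calc δ * ‖f x - x0‖ ≤ δ * (C + C) := by
        gcongr
        exact (norm_sub_le _ _).trans (add_le_add (hC _ (hf hx)) (hC _ hx0))
    _ = δ * (2 * C) := by ring
    _ ≤ ε := hδ

end Approx

section Dual

variable {𝕜 : Type w} [RCLike 𝕜] {E : Type v} [NormedAddCommGroup E] [NormedSpace 𝕜 E]
  [CompleteSpace E]

theorem dual_bounded {K : Set (WeakDual 𝕜 E)} (hK : IsCompact K) :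
    ∃ C : ℝ, ∀ x ∈ K, ‖WeakDual.toStrongDual x‖ ≤ C := by
  have h1 : ∀ e : E, ∃ C, ∀ x : K, ‖(WeakDual.toStrongDual (x : WeakDual 𝕜 E)) e‖ ≤ C := by
    intro e
    have hc : Continuous fun z : WeakDual 𝕜 E => ‖z e‖ := (WeakDual.eval_continuous e).norm
    obtain ⟨C, hC⟩ := (IsCompact.image hK hc).bddAbove
    exact ⟨C, fun x => hC ⟨_, x.2, rfl⟩⟩
  obtain ⟨C, hC⟩ := banach_steinhaus h1
  exact ⟨C, fun x hx => hC ⟨x, hx⟩⟩

theorem sys_dual : Sys (fun x : WeakDual 𝕜 E => ‖WeakDual.toStrongDual x‖) where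
  closed := fun c => by
    have h := WeakDual.isClosed_closedBall (𝕜 := 𝕜) (E := E) 0 c
    have e : WeakDual.toStrongDual ⁻¹' Metric.closedBall (0 : StrongDual 𝕜 E) c =
        {x : WeakDual 𝕜 E | ‖WeakDual.toStrongDual x‖ ≤ c} := by
      ext x
      rw [mem_preimage, mem_closedBall_zero_iff, mem_ofPred_eq]
    rw [← e]
    exact h
  zero := by simp
  nonneg := fun x => norm_nonneg _
  neg := fun x => by rw [map_neg, norm_neg]
  add := fun x y => by rw [map_add]; exact norm_add_le _ _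
  smul := fun a x ha => by
    have e : WeakDual.toStrongDual (a • x) = a • WeakDual.toStrongDual x := rfl
    rw [e, norm_smul, Real.norm_of_nonneg ha]
  sep := fun x hx => by
    have : WeakDual.toStrongDual x = 0 := norm_eq_zero.1 hx
    exact (map_eq_zero_iff _ (LinearEquiv.injective _)).1 this
  approx := by
    intro K hne hc hK f hf hn ε hε
    obtain ⟨C, hC⟩ := dual_bounded hK
    have hcl : IsClosed {x : StrongDual 𝕜 E | StrongDual.toWeakDual x ∈ K} :=
      hK.isClosed.preimage NormedSpace.Dual.toWeakDual_continuous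
    obtain ⟨x, hx, hx'⟩ := approx_fixed (K := {x : StrongDual 𝕜 E | StrongDual.toWeakDual x ∈ K})
      (by
        obtain ⟨x, hx⟩ := hne
        exact ⟨WeakDual.toStrongDual x, hx⟩)
      (by
        intro x hx y hy a b ha hb hab
        exact hc hx hy ha hb hab) hcl (C := C) (fun x hx => hC _ hx)
      (fun x => WeakDual.toStrongDual (f (StrongDual.toWeakDual x)))
      (fun x hx => hf hx) (fun x hx y hy => hn _ hx _ hy) hε
    exact ⟨StrongDual.toWeakDual x, hx, hx'⟩

end Dual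

end Pool.Agent.H71R3.WD
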