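import Mathlib
import Pool.Agent.H71R3.WF1

set_option autoImplicit false

universe u v w

namespace Pool.Agent.H71R3.WF

open Set Filter Topology

section Weak

variable (𝕜 : Type w) [RCLike 𝕜] {E : Type v} [NormedAddCommGroup E] [NormedSpace 𝕜 E]
  [NormedSpace ℝ E] [IsScalarTower ℝ 𝕜 E]

/-- weakly compact subsets -/
def WC (K : Set E) : Prop := IsCompact (toWeakSpace 𝕜 E '' K)

theorem image_isClosed {D : Set E} (hD : IsClosed D) (hc : Convex ℝ D) :
    IsClosed (toWeakSpace 𝕜 E '' D) := by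
  have h := hc.toWeakSpace_closure 𝕜
  rw [hD.closure_eq] at h
  rw [h]
  exact isClosed_closure

variable {𝕜}

theorem WC.subset {K D : Set E} (hK : WC 𝕜 K) (h : D ⊆ K) (hD : IsClosed D)
    (hc : Convex ℝ D) : WC 𝕜 D :=
  IsCompact.of_isClosed_subset hK (image_isClosed 𝕜 hD hc) (image_mono h)

theorem WC.isClosed {K : Set E} (hK : WC 𝕜 K) : IsClosed K := by
  have h1 : IsClosed (toWeakSpace 𝕜 E '' K) := IsCompact.isClosed hK
  have h2 := h1.preimage (toWeakSpaceCLM 𝕜 E).continuous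
  have e : (toWeakSpaceCLM 𝕜 E) ⁻¹' (toWeakSpace 𝕜 E '' K) = K := by
    ext x
    constructor
    · rintro ⟨y, hy, hyx⟩
      have : y = x := (toWeakSpace 𝕜 E).injective hyx
      exact this ▸ hy
    · intro hx
      exact ⟨x, hx, rfl⟩
  rw [e] at h2
  exact h2

theorem WC.bounded {K : Set E} (hK : WC 𝕜 K) : ∃ C : ℝ, 0 ≤ C ∧ ∀ x ∈ K, ‖x‖ ≤ C := by
  have h1 : ∀ f : StrongDual 𝕜 E, ∃ C, ∀ x : K,
      ‖(NormedSpace.inclusionInDoubleDual 𝕜 E x) f‖ ≤ C := by
    intro f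
    have hc : Continuous fun z : WeakSpace 𝕜 E => ‖f ((toWeakSpace 𝕜 E).symm z)‖ :=
      (WeakBilin.eval_continuous (topDualPairing 𝕜 E).flip f).norm
    obtain ⟨C, hC⟩ := (IsCompact.image hK hc).bddAbove
    exact ⟨C, fun x => hC ⟨_, ⟨x, x.2, rfl⟩, rfl⟩⟩
  obtain ⟨C, hC⟩ := banach_steinhaus h1
  refine ⟨max C 0, le_max_right _ _, fun x hx => ?_⟩
  have h2 := hC ⟨x, hx⟩
  have h3 : ‖NormedSpace.inclusionInDoubleDual 𝕜 E x‖ = ‖x‖ :=
    (NormedSpace.inclusionInDoubleDualLi 𝕜 (E := E)).norm_map x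
  rw [← h3]
  exact h2.trans (le_max_left _ _)

theorem closed_wnorm (c : ℝ) :
    IsClosed {x : WeakSpace 𝕜 E | ‖(toWeakSpace 𝕜 E).symm x‖ ≤ c} := by
  have e : {x : WeakSpace 𝕜 E | ‖(toWeakSpace 𝕜 E).symm x‖ ≤ c} =
      toWeakSpace 𝕜 E '' (Metric.closedBall 0 c) := by
    ext x
    constructor
    · intro hx
      exact ⟨(toWeakSpace 𝕜 E).symm x, mem_closedBall_zero_iff.2 hx, by simp⟩
    · rintro ⟨y, hy, rfl⟩
      exact mem_closedBall_zero_iff.1 hy
  rw [e]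
  exact image_isClosed 𝕜 Metric.isClosed_closedBall (convex_closedBall _ _)

theorem bruckE {K : Set E} (hK : WC 𝕜 K) (hconv : Convex ℝ K) {J : Type u}
    (T : J → E → E) (hmap : ∀ j, MapsTo (T j) K K)
    (hT : ∀ j, ∀ x ∈ K, ∀ y ∈ K, ‖T j x - T j y‖ ≤ ‖x - y‖)
    (hgood : ∀ D ⊆ K, D.Nonempty → Convex ℝ D → WC 𝕜 D → (∀ j, MapsTo (T j) D D) →
      ∃ x ∈ D, ∀ j, T j x = x) :
    ∃ r : E → E, MapsTo r K K ∧ (∀ x ∈ K, ∀ y ∈ K, ‖r x - r y‖ ≤ ‖x - y‖) ∧
      (∀ x ∈ K, ∀ j, T j (r x) = r x) ∧ ∀ x ∈ K, (∀ j, T j x = x) → r x = x := by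
  set W := toWeakSpace 𝕜 E with hW
  obtain ⟨r, h1, h2, h3, h4⟩ := bruck (X := WeakSpace 𝕜 E) (fun x => ‖W.symm x‖) closed_wnorm
    (by simp) (fun x => norm_nonneg _) (fun x y => by rw [map_add]; exact norm_add_le _ _)
    (fun a x ha => by
      have : W.symm (a • x) = a • W.symm x := rfl
      rw [this, norm_smul, Real.norm_of_nonneg ha])
    (fun x hx => by
      have : W.symm x = 0 := norm_eq_zero.1 hx
      simpa using this) (K := W '' K) hK
    (by
      rintro _ ⟨x, hx, rfl⟩ _ ⟨y, hy, rfl⟩ a b ha hb hab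
      exact ⟨_, hconv hx hy ha hb hab, rfl⟩)
    (fun j x => W (T j (W.symm x)))
    (by
      rintro j _ ⟨x, hx, rfl⟩
      exact ⟨_, hmap j hx, by simp⟩)
    (by
      rintro j _ ⟨x, hx, rfl⟩ _ ⟨y, hy, rfl⟩
      exact hT j x hx y hy)
    (by
      intro D hDK hDne hDc hDcomp hDm
      have e : W '' (W ⁻¹' D) = D := image_preimage_eq _ W.surjective
      obtain ⟨x, hx, hx'⟩ := hgood (W ⁻¹' D)
        (by
          intro x hx
          obtain ⟨y, hy, hyx⟩ := hDK hx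
          exact (W.injective hyx) ▸ hy)
        (by
          obtain ⟨d, hd⟩ := hDne
          exact ⟨W.symm d, by simpa using hd⟩)
        (by
          intro x hx y hy a b ha hb hab
          exact hDc hx hy ha hb hab)
        (by
          show IsCompact _
          rw [e]
          exact hDcomp)
        (by
          intro j x hx
          exact hDm j hx)
      exact ⟨W x, hx, fun j => congrArg W (hx' j)⟩)
  refine ⟨fun x => W.symm (r (W x)), ?_, ?_, ?_, ?_⟩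
  · intro x hx
    obtain ⟨y, hy, hyx⟩ := h1 (mem_image_of_mem W hx)
    show W.symm (r (W x)) ∈ K
    rw [← hyx]
    simpa using hy
  · intro x hx y hy
    exact h2 _ (mem_image_of_mem W hx) _ (mem_image_of_mem W hy)
  · intro x hx j
    exact W.injective (h3 _ (mem_image_of_mem W hx) j)
  · intro x hx h
    have := h4 _ (mem_image_of_mem W hx) (fun j => congrArg W (h j))
    show W.symm (r (W x)) = x
    rw [this]
    simp

variable (𝕜 E) in
/-- weak fixed point property, in terms of maps of `E` -/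
def FPP : Prop := ∀ K : Set E, K.Nonempty → Convex ℝ K → WC 𝕜 K → ∀ T : E → E, MapsTo T K K →
  (∀ x ∈ K, ∀ y ∈ K, ‖T x - T y‖ ≤ ‖x - y‖) → ∃ x ∈ K, T x = x

/-- closed midpoint convex sets are convex -/
theorem convex_of_midpoint {D : Set E} (hD : IsClosed D)
    (h : ∀ x ∈ D, ∀ y ∈ D, (1 / 2 : ℝ) • x + (1 / 2 : ℝ) • y ∈ D) : Convex ℝ D := by
  rw [convex_iff_segment_subset]
  intro x hx y hy
  rw [segment_eq_image_lineMap]
  rintro _ ⟨t, ht, rfl⟩
  set g : ℝ → E := fun s => AffineMap.lineMap x y s with hg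
  have hgc : Continuous g := by
    have : Continuous (AffineMap.lineMap x y : ℝ →ᵃ[ℝ] E) := AffineMap.lineMap_continuous
    exact this
  have hS : IsClosed (g ⁻¹' D) := hD.preimage hgc
  by_contra hcon
  have hA : (Icc 0 t ∩ g ⁻¹' D).Nonempty := ⟨0, ⟨le_rfl, ht.1⟩, by
    show g 0 ∈ D
    simpa [hg] using hx⟩
  have hB : (Icc t 1 ∩ g ⁻¹' D).Nonempty := ⟨1, ⟨ht.2, le_rfl⟩, by
    show g 1 ∈ D
    simpa [hg] using hy⟩
  obtain ⟨a, ⟨ha1, ha2⟩, ha3⟩ := (isCompact_Icc.inter_right hS).exists_isGreatest hA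
  obtain ⟨b, ⟨hb1, hb2⟩, hb3⟩ := (isCompact_Icc.inter_right hS).exists_isLeast hB
  have hat : a < t := lt_of_le_of_ne ha1.2 (fun e => hcon (by rw [e] at ha2; exact ha2))
  have htb : t < b := lt_of_le_of_ne hb1.1 (fun e => hcon (by rw [← e] at hb2; exact hb2))
  have hm : g ((a + b) / 2) ∈ D := by
    have e : g ((a + b) / 2) = (1 / 2 : ℝ) • g a + (1 / 2 : ℝ) • g b := by
      simp only [hg, AffineMap.lineMap_apply_module]
      module
    rw [e]
    exact h _ ha2 _ hb2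
  rcases le_total ((a + b) / 2) t with hle | hle
  · have := ha3 ⟨⟨by linarith [ha1.1], hle⟩, hm⟩
    linarith
  · have := hb3 ⟨⟨hle, by linarith [hb1.2]⟩, hm⟩
    linarith

end Weak

end Pool.Agent.H71R3.WF
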