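import Mathlib
import Pool.Agent.H71R3.WF2

set_option autoImplicit false

universe u v w

namespace Pool.Agent.H71R3.WF

open Set Filter Topology

section Series

variable {𝕜 : Type w} [RCLike 𝕜] {E : Type v} [NormedAddCommGroup E] [NormedSpace 𝕜 E]
  [NormedSpace ℝ E] [IsScalarTower ℝ 𝕜 E] [CompleteSpace E]

theorem hasSum_half : HasSum (fun j : ℕ => (1 / 2 : ℝ) ^ (j + 1)) 1 := by
  have h := hasSum_geometric_two' 1
  convert h using 1
  funext j
  rw [pow_succ, one_div, inv_pow]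
  ring

/-- a compatible decreasing sequence of nonexpansive retractions has a common fixed point -/
theorem series (hE : FPP 𝕜 E) {D : Set E} (hne : D.Nonempty) (hc : Convex ℝ D) (hD : WC 𝕜 D)
    (R : ℕ → E → E) (hm : ∀ n, MapsTo (R n) D D)
    (hn : ∀ n, ∀ x ∈ D, ∀ y ∈ D, ‖R n x - R n y‖ ≤ ‖x - y‖)
    (h2 : ∀ n m, n ≤ m → ∀ x ∈ D, R n (R m x) = R m x) : ∃ x ∈ D, ∀ n, R n x = x := by
  obtain ⟨C, hC0, hC⟩ := hD.bounded
  have hsum : ∀ x ∈ D, HasSum (fun j : ℕ => (1 / 2 : ℝ) ^ (j + 1) • R j x)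
      (∑' j : ℕ, (1 / 2 : ℝ) ^ (j + 1) • R j x) := by
    intro x hx
    refine (Summable.of_norm_bounded (g := fun j : ℕ => (1 / 2 : ℝ) ^ (j + 1) * C)
      (hasSum_half.summable.mul_right C) fun j => ?_).hasSum
    rw [norm_smul, Real.norm_of_nonneg (by positivity)]
    gcongr
    exact hC _ (hm j hx)
  set T : E → E := fun x => ∑' j : ℕ, (1 / 2 : ℝ) ^ (j + 1) • R j x with hT
  have hpart : ∀ x ∈ D, ∀ n : ℕ, ∀ z ∈ D,
      ∑ j ∈ Finset.range n, (1 / 2 : ℝ) ^ (j + 1) • R j x + (1 / 2 : ℝ) ^ n • z ∈ D := by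
    intro x hx n
    induction n with
    | zero => intro z hz; simpa using hz
    | succ n ih =>
      intro z hz
      have h3 := ih ((1 / 2 : ℝ) • R n x + (1 / 2 : ℝ) • z)
        (hc (hm n hx) hz (by norm_num) (by norm_num) (by norm_num))
      rw [Finset.sum_range_succ]
      convert h3 using 1
      rw [smul_add, smul_smul, smul_smul, ← pow_succ, add_assoc]
  have hTD : MapsTo T D D := by
    intro x hx
    have h3 : Tendsto (fun n : ℕ => ∑ j ∈ Finset.range n, (1 / 2 : ℝ) ^ (j + 1) • R j x +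
        (1 / 2 : ℝ) ^ n • x) atTop (𝓝 (T x + (0 : ℝ) • x)) :=
      (hsum x hx).tendsto_sum_nat.add
        ((tendsto_pow_atTop_nhds_zero_of_lt_one (by norm_num) (by norm_num)).smul_const x)
    rw [zero_smul, add_zero] at h3
    exact hD.isClosed.mem_of_tendsto h3 (Eventually.of_forall fun n => hpart x hx n x hx)
  obtain ⟨x, hx, hxT⟩ := hE D hne hc hD T hTD (by
    intro x hx y hy
    have h3 := (hsum x hx).sub (hsum y hy)
    have h4 : T x - T y = ∑' j : ℕ, ((1 / 2 : ℝ) ^ (j + 1) • R j x - (1 / 2 : ℝ) ^ (j + 1) • R j y) :=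
      h3.tsum_eq.symm
    rw [h4]
    have h5 : HasSum (fun j : ℕ => (1 / 2 : ℝ) ^ (j + 1) * ‖x - y‖) ‖x - y‖ := by
      simpa using hasSum_half.mul_right ‖x - y‖
    refine tsum_of_norm_bounded h5 fun j => ?_
    rw [← smul_sub, norm_smul, Real.norm_of_nonneg (by positivity)]
    gcongr
    exact hn j x hx y hy)
  refine ⟨x, hx, ?_⟩
  -- estimates
  set a : ℕ → ℝ := fun n => ‖x - R n x‖ with ha
  have ha0 : ∀ n, 0 ≤ a n := fun n => norm_nonneg _
  have hstep : ∀ c : ℝ, 0 ≤ c → (∀ n, a n ≤ c) → ∀ n, a n ≤ c / 2 := by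
    intro c hc0 hac n
    have h3 : HasSum (fun j : ℕ => (1 / 2 : ℝ) ^ (j + 1) • R j x - (1 / 2 : ℝ) ^ (j + 1) • R n x)
        (x - R n x) := by
      have h5 := (hasSum_half.smul_const (R n x))
      rw [one_smul] at h5
      have h6 := hsum x hx
      have h7 : ∑' j : ℕ, (1 / 2 : ℝ) ^ (j + 1) • R j x = x := hxT
      rw [h7] at h6
      exact h6.sub h5
    set g : ℕ → ℝ := fun j => if j < n then (1 / 2 : ℝ) ^ (j + 1) * (a n - c) else
      if j = n then -((1 / 2 : ℝ) ^ (n + 1) * c) else 0 with hg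
    have h4 : HasSum g (∑ j ∈ Finset.range (n + 1), g j) := by
      refine hasSum_sum_of_ne_finset_zero fun j hj => ?_
      rw [Finset.mem_range, not_lt] at hj
      simp only [hg]
      rw [if_neg (by omega), if_neg (by omega)]
    have h5 : ∑ j ∈ Finset.range (n + 1), g j =
        (1 - (1 / 2 : ℝ) ^ n) * (a n - c) - (1 / 2 : ℝ) ^ (n + 1) * c := by
      rw [Finset.sum_range_succ]
      have e1 : g n = -((1 / 2 : ℝ) ^ (n + 1) * c) := by simp [hg]
      have e2 : ∑ j ∈ Finset.range n, g j = ∑ j ∈ Finset.range n, (1 / 2 : ℝ) ^ (j + 1) * (a n - c) :=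
        Finset.sum_congr rfl fun j hj => by simp [hg, Finset.mem_range.1 hj]
      have e3 : ∀ n : ℕ, ∑ j ∈ Finset.range n, (1 / 2 : ℝ) ^ (j + 1) = 1 - (1 / 2 : ℝ) ^ n := by
        intro n
        induction n with
        | zero => simp
        | succ n ih => rw [Finset.sum_range_succ, ih, pow_succ]; ring
      rw [e1, e2, ← Finset.sum_mul, e3]
      ring
    have h6 : HasSum (fun j : ℕ => (1 / 2 : ℝ) ^ (j + 1) * c + g j)
        (1 * c + ((1 - (1 / 2 : ℝ) ^ n) * (a n - c) - (1 / 2 : ℝ) ^ (n + 1) * c)) := by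
      rw [← h5]
      exact (hasSum_half.mul_right c).add h4
    have h7 : ‖∑' j : ℕ, ((1 / 2 : ℝ) ^ (j + 1) • R j x - (1 / 2 : ℝ) ^ (j + 1) • R n x)‖ ≤
        1 * c + ((1 - (1 / 2 : ℝ) ^ n) * (a n - c) - (1 / 2 : ℝ) ^ (n + 1) * c) := by
      refine tsum_of_norm_bounded h6 fun j => ?_
      rw [← smul_sub, norm_smul, Real.norm_of_nonneg (by positivity)]
      rcases lt_trichotomy j n with hj | hj | hj
      · have e1 : g j = (1 / 2 : ℝ) ^ (j + 1) * (a n - c) := by simp [hg, hj]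
        have e2 : ‖R j x - R n x‖ ≤ a n := by
          have e3 := hn j x hx (R n x) (hm n hx)
          rw [h2 j n hj.le x hx] at e3
          exact e3
        rw [e1]
        have e4 : (1 / 2 : ℝ) ^ (j + 1) * ‖R j x - R n x‖ ≤ (1 / 2 : ℝ) ^ (j + 1) * a n := by
          gcongr
        linarith
      · subst hj
        have e1 : g j = -((1 / 2 : ℝ) ^ (j + 1) * c) := by simp [hg]
        rw [e1, sub_self, norm_zero]
        linarith
      · have e1 : g j = 0 := by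
          simp only [hg]
          rw [if_neg (by omega), if_neg (by omega)]
        have e2 : ‖R j x - R n x‖ ≤ a j := by
          have e3 := hn n (R j x) (hm j hx) x hx
          rw [h2 n j hj.le x hx] at e3
          exact e3.trans (le_of_eq (norm_sub_rev _ _))
        rw [e1, add_zero]
        gcongr
        exact e2.trans (hac j)
    rw [h3.tsum_eq] at h7
    have h8 : a n ≤ 1 * c + ((1 - (1 / 2 : ℝ) ^ n) * (a n - c) - (1 / 2 : ℝ) ^ (n + 1) * c) := h7
    have hq : (0 : ℝ) < (1 / 2 : ℝ) ^ n := by positivity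
    rw [pow_succ] at h8
    have h9 : (1 / 2 : ℝ) ^ n * a n ≤ (1 / 2 : ℝ) ^ n * (c / 2) := by linarith
    exact le_of_mul_le_mul_left h9 hq
  have hall : ∀ k : ℕ, ∀ n, a n ≤ 2 * C * (1 / 2 : ℝ) ^ k := by
    intro k
    induction k with
    | zero =>
      intro n
      rw [pow_zero, mul_one]
      calc a n ≤ ‖x‖ + ‖R n x‖ := norm_sub_le _ _
        _ ≤ C + C := add_le_add (hC _ hx) (hC _ (hm n hx))
        _ = 2 * C := by ring
    | succ k ih =>
      intro n
      have := hstep _ (by positivity) ih n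
      rw [pow_succ]
      linarith
  intro n
  have hlim : Tendsto (fun k : ℕ => 2 * C * (1 / 2 : ℝ) ^ k) atTop (𝓝 (2 * C * 0)) :=
    (tendsto_pow_atTop_nhds_zero_of_lt_one (by norm_num) (by norm_num)).const_mul _
  rw [mul_zero] at hlim
  have h3 : a n ≤ 0 := ge_of_tendsto' hlim fun k => hall k n
  have h4 : x - R n x = 0 := norm_eq_zero.1 (le_antisymm h3 (ha0 n))
  exact (sub_eq_zero.1 h4).symm

/-- Downward directed families of nonempty nonexpansive retracts of a weakly compact convex set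
have a common point. -/
theorem directed_retracts (hE : FPP 𝕜 E) {K : Set E} (hne : K.Nonempty) (hc : Convex ℝ K)
    (hK : WC 𝕜 K) {ι : Type u} [Preorder ι] [IsDirected ι (· ≤ ·)] [Nonempty ι] (F : ι → Set E)
    (hF : ∀ i j, i ≤ j → F j ⊆ F i) (r : ι → E → E) (hrK : ∀ i, MapsTo (r i) K K)
    (hrn : ∀ i, ∀ x ∈ K, ∀ y ∈ K, ‖r i x - r i y‖ ≤ ‖x - y‖) (hrF : ∀ i, ∀ x ∈ K, r i x ∈ F i)
    (hrid : ∀ i, ∀ x ∈ K, x ∈ F i → r i x = x) : ∃ x ∈ K, ∀ i, x ∈ F i := by
  classical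
  -- a minimal invariant set
  let 𝒮 : Set (Set E) := {D | D ⊆ K ∧ D.Nonempty ∧ Convex ℝ D ∧ IsClosed D ∧
    ∀ i, MapsTo (r i) D D}
  obtain ⟨D, hDK', hDmin⟩ := zorn_superset_nonempty 𝒮 (by
    intro c hc1 hc2 hcne
    have : Nonempty c := hcne.to_subtype
    have hw : ∀ D ∈ c, WC 𝕜 D := fun D hD =>
      hK.subset (hc1 hD).1 (hc1 hD).2.2.2.1 (hc1 hD).2.2.1
    have h1 := IsCompact.nonempty_iInter_of_directed_nonempty_isCompact_isClosed
      (fun D : c => toWeakSpace 𝕜 E '' D.1)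
      (by
        intro a b
        by_cases hab : a.1 = b.1
        · have hab' : a = b := Subtype.ext hab
          subst hab'
          exact ⟨a, fun f hf => hf, fun f hf => hf⟩
        · rcases hc2 a.2 b.2 hab with h | h
          · exact ⟨a, fun f hf => hf, image_mono h⟩
          · exact ⟨b, image_mono h, fun f hf => hf⟩)
      (fun D => (hc1 D.2).2.1.image _) (fun D => hw D D.2)
      (fun D => image_isClosed 𝕜 (hc1 D.2).2.2.2.1 (hc1 D.2).2.2.1)
    obtain ⟨z, hz⟩ := h1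
    rw [mem_iInter] at hz
    refine ⟨⋂₀ c, ⟨?_, ?_, ?_, ?_, ?_⟩, fun s hs => sInter_subset_of_mem hs⟩
    · obtain ⟨D, hD⟩ := hcne
      exact (sInter_subset_of_mem hD).trans (hc1 hD).1
    · refine ⟨(toWeakSpace 𝕜 E).symm z, fun D hD => ?_⟩
      obtain ⟨y, hy, hyz⟩ := hz ⟨D, hD⟩
      rw [← hyz]
      simpa using hy
    · exact convex_sInter fun D hD => (hc1 hD).2.2.1
    · exact isClosed_sInter fun D hD => (hc1 hD).2.2.2.1
    · intro i x hx D hD
      exact (hc1 hD).2.2.2.2 i (hx D hD)) K ⟨Subset.rfl, hne, hc, hK.isClosed, hrK⟩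
  obtain ⟨hDK, hDne, hDc, hDcl, hDr⟩ := hDmin.prop
  have hDw : WC 𝕜 D := hK.subset hDK hDcl hDc
  have hmin : ∀ V : Set E, V ⊆ D → V.Nonempty → Convex ℝ V → IsClosed V →
      (∀ i, MapsTo (r i) V V) → V = D := fun V h1 h2 h3 h4 h5 =>
    h1.antisymm (hDmin.le_of_le ⟨h1.trans hDK, h2, h3, h4, h5⟩ h1)
  obtain ⟨C, hC0, hC⟩ := hDw.bounded
  obtain ⟨y0, hy0⟩ := hDne
  -- the asymptotic radius
  let L : ℝ → Set E := fun c => {y | y ∈ D ∧ ∀ ε > 0, ∃ i, ∀ x ∈ D, x ∈ F i → ‖y - x‖ ≤ c + ε}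
  have hL : ∀ c, (L c).Nonempty → L c = D := by
    intro c hne'
    refine hmin _ (fun y hy => hy.1) hne' ?_ ?_ ?_
    · rintro y ⟨hy, hy'⟩ z ⟨hz, hz'⟩ a b ha hb hab
      refine ⟨hDc hy hz ha hb hab, fun ε hε => ?_⟩
      obtain ⟨i, hi⟩ := hy' ε hε
      obtain ⟨j, hj⟩ := hz' ε hε
      obtain ⟨k, hik, hjk⟩ := exists_ge_ge i j
      refine ⟨k, fun x hx hxk => ?_⟩
      have h1 := hi x hx (hF _ _ hik hxk)
      have h2 := hj x hx (hF _ _ hjk hxk)
      have e : a • y + b • z - x = a • (y - x) + b • (z - x) := by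
        have : x = (a + b) • x := by rw [hab, one_smul]
        nth_rewrite 1 [this]
        module
      rw [e]
      calc ‖a • (y - x) + b • (z - x)‖ ≤ ‖a • (y - x)‖ + ‖b • (z - x)‖ := norm_add_le _ _
        _ = a * ‖y - x‖ + b * ‖z - x‖ := by
            rw [norm_smul, norm_smul, Real.norm_of_nonneg ha, Real.norm_of_nonneg hb]
        _ ≤ a * (c + ε) + b * (c + ε) := by gcongr
        _ = c + ε := by rw [← add_mul, hab, one_mul]
    · rw [← isSeqClosed_iff_isClosed]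
      intro u y hu hy
      refine ⟨hDcl.mem_of_tendsto hy (Eventually.of_forall fun n => (hu n).1), fun ε hε => ?_⟩
      obtain ⟨n, hn⟩ := (Metric.tendsto_atTop.1 hy (ε / 2) (by positivity))
      obtain ⟨i, hi⟩ := (hu n).2 (ε / 2) (by positivity)
      refine ⟨i, fun x hx hxi => ?_⟩
      have h1 := hi x hx hxi
      have h2 := hn n le_rfl
      rw [dist_eq_norm, norm_sub_rev] at h2
      calc ‖y - x‖ = ‖(y - u n) + (u n - x)‖ := by congr 1; abel
        _ ≤ ‖y - u n‖ + ‖u n - x‖ := norm_add_le _ _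
        _ ≤ c + ε := by linarith
    · rintro j y ⟨hy, hy'⟩
      refine ⟨hDr j hy, fun ε hε => ?_⟩
      obtain ⟨i, hi⟩ := hy' ε hε
      obtain ⟨k, hik, hjk⟩ := exists_ge_ge i j
      refine ⟨k, fun x hx hxk => ?_⟩
      have h1 := hi x hx (hF _ _ hik hxk)
      have h2 := hrn j y (hDK hy) x (hDK hx)
      rw [hrid j x (hDK hx) (hF _ _ hjk hxk)] at h2
      exact h2.trans h1
  let Cs : Set ℝ := {c | (L c).Nonempty}
  have hCs0 : ∀ c ∈ Cs, 0 ≤ c := by
    rintro c ⟨y, hy, hy'⟩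
    refine le_of_forall_pos_le_add fun ε hε => ?_
    obtain ⟨i, hi⟩ := hy' ε hε
    exact (norm_nonneg _).trans (hi (r i y) (hDr i hy) (hrF i y (hDK hy)))
  have hCsb : BddBelow Cs := ⟨0, hCs0⟩
  have hCsne : Cs.Nonempty := by
    refine ⟨2 * C, y0, hy0, fun ε hε => ⟨Classical.arbitrary ι, fun x hx _ => ?_⟩⟩
    calc ‖y0 - x‖ ≤ ‖y0‖ + ‖x‖ := norm_sub_le _ _
      _ ≤ C + C := add_le_add (hC _ hy0) (hC _ hx)
      _ ≤ 2 * C + ε := by linarith
  set ρ : ℝ := sInf Cs with hρ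
  have hρ1 : ∀ y ∈ D, ∀ ε > 0, ∃ i, ∀ x ∈ D, x ∈ F i → ‖y - x‖ ≤ ρ + ε := by
    intro y hy ε hε
    obtain ⟨c, hc1, hc2⟩ := exists_lt_of_csInf_lt hCsne (show sInf Cs < ρ + ε / 2 by
      rw [← hρ]; linarith)
    have h1 : y ∈ L c := by rw [hL c hc1]; exact hy
    obtain ⟨i, hi⟩ := h1.2 (ε / 2) (by positivity)
    exact ⟨i, fun x hx hxi => (hi x hx hxi).trans (by linarith)⟩
  have hρ2 : ∀ c < ρ, ¬ (L c).Nonempty := fun c hc1 hc2 => absurd (csInf_le hCsb hc2) (not_le.2 hc1)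
  -- Goebel-Karlovitz
  have hGK : ∀ y ∈ D, ∀ ε > 0, ∃ i, ∀ z ∈ D, z ∈ F i → ρ - ε ≤ ‖y - z‖ := by
    intro y hy ε hε
    by_contra hcon
    push Not at hcon
    choose z hzD hzF hz using hcon
    let V : Set E := {x | x ∈ D ∧ ∀ η > 0, ∃ i, ∀ j, i ≤ j → ‖x - z j‖ ≤ ρ - ε + η}
    have hV : V = D := by
      refine hmin _ (fun x hx => hx.1) ⟨y, hy, fun η hη => ⟨Classical.arbitrary ι, fun j _ =>
        (hz j).le.trans (by linarith)⟩⟩ ?_ ?_ ?_
      · rintro p ⟨hp, hp'⟩ q ⟨hq, hq'⟩ a b ha hb hab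
        refine ⟨hDc hp hq ha hb hab, fun η hη => ?_⟩
        obtain ⟨i, hi⟩ := hp' η hη
        obtain ⟨j, hj⟩ := hq' η hη
        obtain ⟨k, hik, hjk⟩ := exists_ge_ge i j
        refine ⟨k, fun l hl => ?_⟩
        have h1 := hi l (hik.trans hl)
        have h2 := hj l (hjk.trans hl)
        have e : a • p + b • q - z l = a • (p - z l) + b • (q - z l) := by
          have : z l = (a + b) • z l := by rw [hab, one_smul]
          nth_rewrite 1 [this]
          module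
        rw [e]
        calc ‖a • (p - z l) + b • (q - z l)‖ ≤ ‖a • (p - z l)‖ + ‖b • (q - z l)‖ :=
              norm_add_le _ _
          _ = a * ‖p - z l‖ + b * ‖q - z l‖ := by
              rw [norm_smul, norm_smul, Real.norm_of_nonneg ha, Real.norm_of_nonneg hb]
          _ ≤ a * (ρ - ε + η) + b * (ρ - ε + η) := by gcongr
          _ = ρ - ε + η := by rw [← add_mul, hab, one_mul]
      · rw [← isSeqClosed_iff_isClosed]
        intro u p hu hp
        refine ⟨hDcl.mem_of_tendsto hp (Eventually.of_forall fun n => (hu n).1), fun η hη => ?_⟩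
        obtain ⟨n, hn⟩ := (Metric.tendsto_atTop.1 hp (η / 2) (by positivity))
        obtain ⟨i, hi⟩ := (hu n).2 (η / 2) (by positivity)
        refine ⟨i, fun j hj => ?_⟩
        have h1 := hi j hj
        have h2 := hn n le_rfl
        rw [dist_eq_norm, norm_sub_rev] at h2
        calc ‖p - z j‖ = ‖(p - u n) + (u n - z j)‖ := by congr 1; abel
          _ ≤ ‖p - u n‖ + ‖u n - z j‖ := norm_add_le _ _
          _ ≤ ρ - ε + η := by linarith
      · rintro j p ⟨hp, hp'⟩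
        refine ⟨hDr j hp, fun η hη => ?_⟩
        obtain ⟨i, hi⟩ := hp' η hη
        obtain ⟨k, hik, hjk⟩ := exists_ge_ge i j
        refine ⟨k, fun l hl => ?_⟩
        have h1 := hi l (hik.trans hl)
        have h2 := hrn j p (hDK hp) (z l) (hDK (hzD l))
        rw [hrid j (z l) (hDK (hzD l)) (hF _ _ (hjk.trans hl) (hzF l))] at h2
        exact h2.trans h1
    -- a weak cluster point
    let U : Ultrafilter ι := Ultrafilter.of atTop
    have hU : (U : Filter ι) ≤ atTop := Ultrafilter.of_le _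
    obtain ⟨_, ⟨p, hp, rfl⟩, hpl⟩ := hDw.ultrafilter_le_nhds
      (U.map fun i => toWeakSpace 𝕜 E (z i)) (by
        rw [le_principal_iff]
        exact Eventually.of_forall (f := (U : Filter ι)) fun i => ⟨z i, hzD i, rfl⟩)
    have hpl' : Tendsto (fun i => toWeakSpace 𝕜 E (z i)) U (𝓝 (toWeakSpace 𝕜 E p)) := hpl
    have hdist : ∀ x ∈ D, ‖p - x‖ ≤ ρ - ε := by
      intro x hx
      refine le_of_forall_pos_le_add fun η hη => ?_
      have hxV : x ∈ V := by rw [hV]; exact hx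
      obtain ⟨i, hi⟩ := hxV.2 η hη
      have hcl : IsClosed (toWeakSpace 𝕜 E '' Metric.closedBall x (ρ - ε + η)) :=
        image_isClosed 𝕜 Metric.isClosed_closedBall (convex_closedBall _ _)
      have h1 := hcl.mem_of_tendsto hpl' (by
        have : ∀ᶠ j in (U : Filter ι), i ≤ j := hU (eventually_ge_atTop i)
        filter_upwards [this] with j hj
        exact ⟨z j, by rw [mem_closedBall_iff_norm, norm_sub_rev]; exact hi j hj, rfl⟩)
      obtain ⟨q, hq, hqp⟩ := h1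
      have : q = p := (toWeakSpace 𝕜 E).injective hqp
      rw [this, mem_closedBall_iff_norm] at hq
      exact hq
    refine hρ2 (ρ - ε) (by linarith) ⟨p, hp, fun ε' hε' => ⟨Classical.arbitrary ι, fun x hx _ =>
      (hdist x hx).trans (by linarith)⟩⟩
  -- the separable part
  have hgood : ∀ (p : Finset E × Finset ι) (n : ℕ), (∀ y ∈ p.1, y ∈ D) →
      ∃ k, (∀ j ∈ p.2, j ≤ k) ∧ ∀ y ∈ p.1, ∀ z ∈ D, z ∈ F k → ρ - 1 / ((n : ℝ) + 1) ≤ ‖y - z‖ := by
    rintro ⟨Y, J⟩ n hY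
    have h1 : ∀ y : E, ∃ i, y ∈ Y → ∀ z ∈ D, z ∈ F i → ρ - 1 / ((n : ℝ) + 1) ≤ ‖y - z‖ := by
      intro y
      by_cases hy : y ∈ Y
      · obtain ⟨i, hi⟩ := hGK y (hY y hy) (1 / ((n : ℝ) + 1)) (by positivity)
        exact ⟨i, fun _ => hi⟩
      · exact ⟨Classical.arbitrary ι, fun h => absurd h hy⟩
    choose f hf using h1
    obtain ⟨k, hk⟩ := (J ∪ Y.image f).exists_le
    refine ⟨k, fun j hj => hk j (Finset.mem_union_left _ hj), fun y hy z hz hzk => ?_⟩
    exact hf y hy z hz (hF _ _ (hk _ (Finset.mem_union_right _ (Finset.mem_image_of_mem f hy))) hzk)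
  let St : Type _ := {p : Finset E × Finset ι // ∀ y ∈ p.1, y ∈ D}
  let kk : St → ℕ → ι := fun p n => Classical.choose (hgood p.1 n p.2)
  have hkk : ∀ (p : St) (n : ℕ), (∀ j ∈ p.1.2, j ≤ kk p n) ∧ ∀ y ∈ p.1.1, ∀ z ∈ D, z ∈ F (kk p n) →
      ρ - 1 / ((n : ℝ) + 1) ≤ ‖y - z‖ := fun p n => Classical.choose_spec (hgood p.1 n p.2)
  let step : St → ℕ → St := fun p n =>
    ⟨(p.1.1 ∪ (Finset.image₂ (fun x y => (1 / 2 : ℝ) • x + (1 / 2 : ℝ) • y) p.1.1 p.1.1 ∪
        Finset.image₂ (fun j y => r j y) p.1.2 p.1.1), insert (kk p n) p.1.2), by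
      intro y hy
      rcases Finset.mem_union.1 hy with hy | hy
      · exact p.2 y hy
      rcases Finset.mem_union.1 hy with hy | hy
      · obtain ⟨a, ha, b, hb, rfl⟩ := Finset.mem_image₂.1 hy
        exact hDc (p.2 a ha) (p.2 b hb) (by norm_num) (by norm_num) (by norm_num)
      · obtain ⟨j, -, b, hb, rfl⟩ := Finset.mem_image₂.1 hy
        exact hDr j (p.2 b hb)⟩
  let st : ℕ → St := fun n => Nat.rec ⟨({y0}, ∅), by simpa using hy0⟩ (fun n p => step p n) n
  have hst : ∀ n, st (n + 1) = step (st n) n := fun n => rfl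
  have hY1 : ∀ n, (st n).1.1 ⊆ (st (n + 1)).1.1 := fun n => by
    rw [hst]; exact Finset.subset_union_left
  have hJ1 : ∀ n, (st n).1.2 ⊆ (st (n + 1)).1.2 := fun n => by
    rw [hst]; exact Finset.subset_insert _ _
  have hY : Monotone fun n => (st n).1.1 := monotone_nat_of_le_succ hY1
  have hJ : Monotone fun n => (st n).1.2 := monotone_nat_of_le_succ hJ1
  let k : ℕ → ι := fun n => kk (st n) n
  have hk : ∀ n m, n ≤ m → k n ≤ k m := by
    intro n m hnm
    rcases hnm.eq_or_lt with rfl | hlt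
    · exact le_rfl
    · have h1 : k n ∈ (st (n + 1)).1.2 := by
        rw [hst]; exact Finset.mem_insert_self _ _
      exact (hkk (st m) m).1 _ (hJ (show n + 1 ≤ m from hlt) h1)
  let Un : Set E := ⋃ n, ((st n).1.1 : Set E)
  have hUnD : Un ⊆ D := by
    intro y hy
    obtain ⟨n, hn⟩ := mem_iUnion.1 hy
    exact (st n).2 y hn
  have hUnK : Un ⊆ K := hUnD.trans hDK
  let D0 : Set E := closure Un
  have hD0D : D0 ⊆ D := closure_minimal hUnD hDcl
  have hD0c : Convex ℝ D0 := by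
    refine convex_of_midpoint isClosed_closure fun x hx y hy => ?_
    have h1 : (x, y) ∈ closure (Un ×ˢ Un) := by rw [closure_prod_eq]; exact ⟨hx, hy⟩
    have h2 : Continuous fun p : E × E => (1 / 2 : ℝ) • p.1 + (1 / 2 : ℝ) • p.2 := by fun_prop
    have h3 : MapsTo (fun p : E × E => (1 / 2 : ℝ) • p.1 + (1 / 2 : ℝ) • p.2) (Un ×ˢ Un) Un := ?_
    · have h4 := map_mem_closure h2 h1 h3
      exact h4
    rintro ⟨a, b⟩ ⟨ha, hb⟩
    obtain ⟨n, hn⟩ := mem_iUnion.1 ha
    obtain ⟨m, hm⟩ := mem_iUnion.1 hb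
    refine mem_iUnion.2 ⟨max n m + 1, ?_⟩
    have e1 : a ∈ (st (max n m)).1.1 := hY (le_max_left n m) hn
    have e2 : b ∈ (st (max n m)).1.1 := hY (le_max_right n m) hm
    rw [hst]
    exact Finset.mem_union_right _ (Finset.mem_union_left _ (Finset.mem_image₂_of_mem e1 e2))
  have hD0r : ∀ n, MapsTo (r (k n)) D0 D0 := by
    intro n x hx
    rw [Metric.mem_closure_iff] at hx ⊢
    intro ε hε
    obtain ⟨u, hu, hxu⟩ := hx ε hε
    refine ⟨r (k n) u, ?_, ?_⟩
    · obtain ⟨m, hm⟩ := mem_iUnion.1 hu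
      refine mem_iUnion.2 ⟨max (n + 1) m + 1, ?_⟩
      have e1 : u ∈ (st (max (n + 1) m)).1.1 := hY (le_max_right _ _) hm
      have e2 : k n ∈ (st (max (n + 1) m)).1.2 := hJ (le_max_left _ _) (by
        show k n ∈ (st (n + 1)).1.2
        rw [hst]; exact Finset.mem_insert_self _ _)
      rw [hst]
      exact Finset.mem_union_right _ (Finset.mem_union_right _ (Finset.mem_image₂_of_mem e2 e1))
    · rw [dist_eq_norm] at hxu ⊢
      have hxD : x ∈ K := hDK (hD0D (Metric.mem_closure_iff.2 hx))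
      exact (hrn _ x hxD u (hUnK hu)).trans_lt hxu
  obtain ⟨x, hx, hxk⟩ := series hE (D := D0) ⟨y0, subset_closure (mem_iUnion.2 ⟨0, by
      show y0 ∈ ({y0} : Finset E)
      simp⟩)⟩ hD0c
    (hDw.subset hD0D isClosed_closure hD0c) (fun n => r (k n)) hD0r
    (fun n a ha b hb => hrn _ a (hDK (hD0D ha)) b (hDK (hD0D hb)))
    (fun n m hnm a ha => hrid _ _ (hrK _ (hDK (hD0D ha)))
      (hF _ _ (hk n m hnm) (hrF _ _ (hDK (hD0D ha)))))
  have hxF : ∀ n, x ∈ F (k n) := fun n => by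
    rw [← hxk n]; exact hrF _ _ (hDK (hD0D hx))
  have hρx : ∀ y ∈ Un, ρ ≤ ‖y - x‖ := by
    intro y hy
    obtain ⟨n, hn⟩ := mem_iUnion.1 hy
    have h1 : Tendsto (fun m : ℕ => ρ - 1 / ((m : ℝ) + 1)) atTop (𝓝 (ρ - 0)) :=
      tendsto_const_nhds.sub tendsto_one_div_add_atTop_nhds_zero_nat
    rw [sub_zero] at h1
    refine le_of_tendsto h1 ?_
    filter_upwards [eventually_ge_atTop n] with m hm
    exact (hkk (st m) m).2 y (hY hm hn) x (hD0D hx) (hxF m)
  have hρ0 : ρ ≤ 0 := by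
    refine le_of_forall_pos_le_add fun ε hε => ?_
    obtain ⟨y, hy, hxy⟩ := Metric.mem_closure_iff.1 hx ε hε
    rw [dist_comm, dist_eq_norm] at hxy
    linarith [hρx y hy]
  refine ⟨y0, hDK hy0, fun i => ?_⟩
  have h1 : r i y0 = y0 := by
    rw [← sub_eq_zero, ← norm_le_zero_iff]
    refine le_of_forall_pos_le_add fun ε hε => ?_
    obtain ⟨j, hj⟩ := hρ1 y0 hy0 (ε / 2) (by positivity)
    obtain ⟨l, hil, hjl⟩ := exists_ge_ge i j
    have h2 := hj (r l y0) (hDr l hy0) (hF _ _ hjl (hrF l y0 (hDK hy0)))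
    have h3 := hrn i y0 (hDK hy0) (r l y0) (hrK l (hDK hy0))
    rw [hrid i (r l y0) (hrK l (hDK hy0)) (hF _ _ hil (hrF l y0 (hDK hy0)))] at h3
    calc ‖r i y0 - y0‖ = ‖(r i y0 - r l y0) - (y0 - r l y0)‖ := by congr 1; abel
      _ ≤ ‖r i y0 - r l y0‖ + ‖y0 - r l y0‖ := norm_sub_le _ _
      _ ≤ 0 + ε := by linarith
  rw [← h1]
  exact hrF i y0 (hDK hy0)

end Series

end Pool.Agent.H71R3.WF
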