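import Mathlib
import Pool.Agent.H71R3.WF3

set_option autoImplicit false

universe u v w

namespace Pool.Agent.H71R3.WF

open Set Filter Topology

section Act

variable {𝕜 : Type w} [RCLike 𝕜] {E : Type v} [NormedAddCommGroup E] [NormedSpace 𝕜 E]
  [NormedSpace ℝ E] [IsScalarTower ℝ 𝕜 E] [CompleteSpace E]

/-- nonexpansive separately continuous actions on `K`, as maps of `E` -/
structure Act {S : Type u} [Semigroup S] [TopologicalSpace S] (K : Set E) (T : S → E → E) :
    Prop where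
  cont : ∀ x ∈ K, Continuous fun s => T s x
  maps : ∀ s, MapsTo (T s) K K
  mul : ∀ s t, ∀ x ∈ K, T (s * t) x = T s (T t x)
  ne : ∀ s, ∀ x ∈ K, ∀ y ∈ K, ‖T s x - T s y‖ ≤ ‖x - y‖

variable (𝕜 E) in
/-- every nonexpansive action of `S` on a weakly compact convex set has a common fixed point -/
def Good (S : Type u) [Semigroup S] [TopologicalSpace S] : Prop :=
  ∀ K : Set E, K.Nonempty → Convex ℝ K → WC 𝕜 K → ∀ T : S → E → E, Act K T →
    ∃ x ∈ K, ∀ s, T s x = x

theorem finite_commuting (hE : FPP 𝕜 E) {J : Type u} (T : J → E → E) (A : Finset J) :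
    ∀ K : Set E, K.Nonempty → Convex ℝ K → WC 𝕜 K → (∀ j ∈ A, MapsTo (T j) K K) →
      (∀ j ∈ A, ∀ x ∈ K, ∀ y ∈ K, ‖T j x - T j y‖ ≤ ‖x - y‖) →
      (∀ i ∈ A, ∀ j ∈ A, ∀ x ∈ K, T i (T j x) = T j (T i x)) → ∃ x ∈ K, ∀ j ∈ A, T j x = x := by
  classical
  induction A using Finset.induction_on with
  | empty =>
    rintro K ⟨x, hx⟩ _ _ _ _ _
    exact ⟨x, hx, fun j hj => absurd hj (Finset.notMem_empty j)⟩
  | insert b A hb ih =>
    intro K hne hc hK hm hn hcomm
    have hmA : ∀ j ∈ A, MapsTo (T j) K K := fun j hj => hm j (Finset.mem_insert_of_mem hj)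
    have hnA : ∀ j ∈ A, ∀ x ∈ K, ∀ y ∈ K, ‖T j x - T j y‖ ≤ ‖x - y‖ :=
      fun j hj => hn j (Finset.mem_insert_of_mem hj)
    obtain ⟨r, h1, h2, h3, h4⟩ := bruckE hK hc (fun j : A => T j.1) (fun j => hmA j.1 j.2)
      (fun j => hnA j.1 j.2) (by
        intro D hDK hDne hDc hD hDm
        obtain ⟨x, hx, hx'⟩ := ih D hDne hDc hD (fun j hj => hDm ⟨j, hj⟩)
          (fun j hj x hx y hy => hnA j hj x (hDK hx) y (hDK hy))
          (fun i hi j hj x hx => hcomm i (Finset.mem_insert_of_mem hi) j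
            (Finset.mem_insert_of_mem hj) x (hDK hx))
        exact ⟨x, hx, fun j => hx' j.1 j.2⟩)
    obtain ⟨x, hx, hxf⟩ := hE K hne hc hK (fun x => T b (r x))
      (fun x hx => hm b (Finset.mem_insert_self _ _) (h1 hx))
      (fun x hx y hy => (hn b (Finset.mem_insert_self _ _) _ (h1 hx) _ (h1 hy)).trans (h2 x hx y hy))
    have hxA : ∀ j ∈ A, T j x = x := by
      intro j hj
      have e1 : T b (r x) = x := hxf
      rw [← e1, hcomm j (Finset.mem_insert_of_mem hj) b (Finset.mem_insert_self _ _) _ (h1 hx),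
        h3 x hx ⟨j, hj⟩]
    have hrx : r x = x := h4 x hx fun j => hxA j.1 j.2
    refine ⟨x, hx, fun j hj => ?_⟩
    rcases Finset.mem_insert.1 hj with rfl | hj
    · have e1 : T j (r x) = x := hxf
      rw [hrx] at e1
      exact e1
    · exact hxA j hj

theorem commuting (hE : FPP 𝕜 E) {J : Type u} (T : J → E → E) {K : Set E} (hne : K.Nonempty)
    (hc : Convex ℝ K) (hK : WC 𝕜 K) (hm : ∀ j, MapsTo (T j) K K)
    (hn : ∀ j, ∀ x ∈ K, ∀ y ∈ K, ‖T j x - T j y‖ ≤ ‖x - y‖)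
    (hcomm : ∀ i j, ∀ x ∈ K, T i (T j x) = T j (T i x)) : ∃ x ∈ K, ∀ j, T j x = x := by
  classical
  have h : ∀ A : Finset J, ∃ r : E → E, MapsTo r K K ∧
      (∀ x ∈ K, ∀ y ∈ K, ‖r x - r y‖ ≤ ‖x - y‖) ∧
      (∀ x ∈ K, ∀ j : A, T j.1 (r x) = r x) ∧ ∀ x ∈ K, (∀ j : A, T j.1 x = x) → r x = x := by
    intro A
    refine bruckE hK hc (fun j : A => T j.1) (fun j => hm j.1) (fun j => hn j.1) ?_
    intro D hDK hDne hDc hD hDm
    obtain ⟨x, hx, hx'⟩ := finite_commuting hE T A D hDne hDc hD (fun j hj => hDm ⟨j, hj⟩)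
      (fun j hj x hx y hy => hn j x (hDK hx) y (hDK hy))
      (fun i hi j hj x hx => hcomm i j x (hDK hx))
    exact ⟨x, hx, fun j => hx' j.1 j.2⟩
  choose r h1 h2 h3 h4 using h
  obtain ⟨x, hx, hx'⟩ := directed_retracts hE hne hc hK (ι := Finset J)
    (fun A => {x | ∀ j ∈ A, T j x = x})
    (fun A B hAB x hx j hj => hx j (Finset.mem_of_subset hAB hj)) r h1 h2
    (fun A x hx j hj => h3 A x hx ⟨j, hj⟩) (fun A x hx hxA => h4 A x hx fun j => hxA j.1 j.2)
  exact ⟨x, hx, fun j => hx' {j} j (Finset.mem_singleton_self j)⟩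

theorem good_comm (hE : FPP 𝕜 E) (S : Type u) [Semigroup S] [TopologicalSpace S] (hS : ∀ a b : S, a * b = b * a) :
    Good 𝕜 E S := by
  intro K hne hc hK T hT
  refine commuting hE T hne hc hK hT.maps hT.ne fun i j x hx => ?_
  rw [← hT.mul i j x hx, ← hT.mul j i x hx, hS]

theorem good_compact_sep (hE : FPP 𝕜 E) (G : Type u) [Group G] [TopologicalSpace G]
    [CompactSpace G] [TopologicalSpace.SeparableSpace G] : Good 𝕜 E G := by
  classical
  intro K hne hc hK T hT
  obtain ⟨C, hC0, hC⟩ := hK.bounded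
  set q : ℕ → G := TopologicalSpace.denseSeq G with hq
  have hqd : DenseRange q := TopologicalSpace.denseRange_denseSeq G
  have hsum : ∀ x ∈ K, HasSum (fun j : ℕ => (1 / 2 : ℝ) ^ (j + 1) • T (q j) x)
      (∑' j : ℕ, (1 / 2 : ℝ) ^ (j + 1) • T (q j) x) := by
    intro x hx
    refine (Summable.of_norm_bounded (g := fun j : ℕ => (1 / 2 : ℝ) ^ (j + 1) * C)
      (hasSum_half.summable.mul_right C) fun j => ?_).hasSum
    rw [norm_smul, Real.norm_of_nonneg (by positivity)]
    gcongr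
    exact hC _ (hT.maps _ hx)
  have hpart : ∀ x ∈ K, ∀ n : ℕ, ∀ z ∈ K,
      ∑ j ∈ Finset.range n, (1 / 2 : ℝ) ^ (j + 1) • T (q j) x + (1 / 2 : ℝ) ^ n • z ∈ K := by
    intro x hx n
    induction n with
    | zero => intro z hz; simpa using hz
    | succ n ih =>
      intro z hz
      have h3 := ih ((1 / 2 : ℝ) • T (q n) x + (1 / 2 : ℝ) • z)
        (hc (hT.maps _ hx) hz (by norm_num) (by norm_num) (by norm_num))
      rw [Finset.sum_range_succ]
      convert h3 using 1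
      rw [smul_add, smul_smul, smul_smul, ← pow_succ, add_assoc]
  obtain ⟨x, hx, hxf⟩ := hE K hne hc hK (fun x => ∑' j : ℕ, (1 / 2 : ℝ) ^ (j + 1) • T (q j) x)
    (by
      intro x hx
      have h3 : Tendsto (fun n : ℕ => ∑ j ∈ Finset.range n, (1 / 2 : ℝ) ^ (j + 1) • T (q j) x +
          (1 / 2 : ℝ) ^ n • x) atTop
          (𝓝 ((∑' j : ℕ, (1 / 2 : ℝ) ^ (j + 1) • T (q j) x) + (0 : ℝ) • x)) :=
        (hsum x hx).tendsto_sum_nat.add
          ((tendsto_pow_atTop_nhds_zero_of_lt_one (by norm_num) (by norm_num)).smul_const x)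
      rw [zero_smul, add_zero] at h3
      exact hK.isClosed.mem_of_tendsto h3 (Eventually.of_forall fun n => hpart x hx n x hx))
    (by
      intro x hx y hy
      have h3 := (hsum x hx).sub (hsum y hy)
      rw [← h3.tsum_eq]
      have h5 : HasSum (fun j : ℕ => (1 / 2 : ℝ) ^ (j + 1) * ‖x - y‖) ‖x - y‖ := by
        simpa using hasSum_half.mul_right ‖x - y‖
      refine tsum_of_norm_bounded h5 fun j => ?_
      rw [← smul_sub, norm_smul, Real.norm_of_nonneg (by positivity)]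
      gcongr
      exact hT.ne _ x hx y hy)
  refine ⟨x, hx, ?_⟩
  obtain ⟨g, -, hg⟩ := isCompact_univ.exists_isMaxOn (s := (univ : Set G)) ⟨1, trivial⟩
    (f := fun g : G => ‖T g x - x‖) ((hT.cont x hx).sub continuous_const).norm.continuousOn
  have hg' : ∀ h : G, ‖T h x - x‖ ≤ ‖T g x - x‖ := fun h => hg (mem_univ h)
  set d : ℝ := ‖T g x - x‖ with hd
  have h2 : d ≤ 0 := by
    by_contra hcon
    push Not at hcon
    -- a term close to `T g x`
    obtain ⟨m, hm⟩ : ∃ m, ‖T g x - T (q m) x‖ < d / 2 := by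
      have hopen : IsOpen {h : G | ‖T g x - T h x‖ < d / 2} :=
        isOpen_lt (continuous_const.sub (hT.cont x hx)).norm continuous_const
      obtain ⟨y, hy, m, rfl⟩ := hqd.exists_mem_open hopen ⟨g, by simpa using hcon⟩ |>.imp
        (fun m hm => (⟨hm, m, rfl⟩ : q m ∈ {h : G | ‖T g x - T h x‖ < d / 2} ∧ ∃ k, q k = q m))
        |> fun ⟨m, hm⟩ => (⟨q m, hm.1, m, rfl⟩ : ∃ y, y ∈ {h : G | ‖T g x - T h x‖ < d / 2} ∧
          ∃ k, q k = y)
      exact ⟨m, hy⟩
    have e2 : ∀ h : G, ‖T g x - T h x‖ ≤ d := by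
      intro h
      have e3 : T h x = T g (T (g⁻¹ * h) x) := by
        rw [← hT.mul _ _ x hx, mul_inv_cancel_left]
      rw [e3]
      refine (hT.ne g x hx _ (hT.maps _ hx)).trans ?_
      rw [norm_sub_rev]
      exact hg' _
    have h3 : HasSum (fun j : ℕ => (1 / 2 : ℝ) ^ (j + 1) • T g x - (1 / 2 : ℝ) ^ (j + 1) • T (q j) x)
        (T g x - x) := by
      have h5 := (hasSum_half.smul_const (T g x))
      rw [one_smul] at h5
      have h6 := hsum x hx
      have h7 : ∑' j : ℕ, (1 / 2 : ℝ) ^ (j + 1) • T (q j) x = x := hxf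
      rw [h7] at h6
      exact h5.sub h6
    have h4 : HasSum (fun j : ℕ => (1 / 2 : ℝ) ^ (j + 1) * d +
        (if j = m then -((1 / 2 : ℝ) ^ (m + 1) * (d / 2)) else 0))
        (1 * d + -((1 / 2 : ℝ) ^ (m + 1) * (d / 2))) :=
      (hasSum_half.mul_right d).add (hasSum_ite_eq m _)
    have h5 : ‖∑' j : ℕ, ((1 / 2 : ℝ) ^ (j + 1) • T g x - (1 / 2 : ℝ) ^ (j + 1) • T (q j) x)‖ ≤
        1 * d + -((1 / 2 : ℝ) ^ (m + 1) * (d / 2)) := by
      refine tsum_of_norm_bounded h4 fun j => ?_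
      rw [← smul_sub, norm_smul, Real.norm_of_nonneg (by positivity)]
      split_ifs with hj
      · subst hj
        have : (1 / 2 : ℝ) ^ (j + 1) * ‖T g x - T (q j) x‖ ≤ (1 / 2 : ℝ) ^ (j + 1) * (d / 2) := by
          gcongr
        linarith
      · rw [add_zero]
        gcongr
        exact e2 _
    rw [h3.tsum_eq] at h5
    have h6 : d ≤ 1 * d + -((1 / 2 : ℝ) ^ (m + 1) * (d / 2)) := h5
    have h7 : 0 < (1 / 2 : ℝ) ^ (m + 1) * (d / 2) := by positivity
    linarith
  intro h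
  exact sub_eq_zero.1 (norm_le_zero_iff.1 ((hg' h).trans h2))

theorem good_left_ideal (S : Type u) [Semigroup S] [TopologicalSpace S] (I : Subsemigroup S)
    (hne : (I : Set S).Nonempty) (hI : ∀ s : S, ∀ a ∈ I, s * a ∈ I) (h : Good 𝕜 E I) :
    Good 𝕜 E S := by
  intro K hKne hc hK T hT
  obtain ⟨x, hx, hx'⟩ := h K hKne hc hK (fun a => T a.1)
    ⟨fun x hx => (hT.cont x hx).comp continuous_subtype_val, fun s => hT.maps s.1,
      fun s t x hx => hT.mul s.1 t.1 x hx, fun s => hT.ne s.1⟩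
  obtain ⟨a, ha⟩ := hne
  refine ⟨x, hx, fun s => ?_⟩
  have e1 : T a x = x := hx' ⟨a, ha⟩
  have e2 : T (s * a) x = x := hx' ⟨s * a, hI s a ha⟩
  rw [hT.mul s a x hx, e1] at e2
  exact e2

theorem good_image (S Q : Type u) [Semigroup S] [TopologicalSpace S] [Semigroup Q]
    [TopologicalSpace Q] (f : S →ₙ* Q) (hfc : Continuous f) (hf : DenseRange f)
    (h : Good 𝕜 E S) : Good 𝕜 E Q := by
  intro K hKne hc hK T hT
  obtain ⟨x, hx, hx'⟩ := h K hKne hc hK (fun a => T (f a))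
    ⟨fun x hx => (hT.cont x hx).comp hfc, fun s => hT.maps _,
      fun s t x hx => by rw [map_mul]; exact hT.mul _ _ x hx, fun s => hT.ne _⟩
  refine ⟨x, hx, fun q => ?_⟩
  have hcl : IsClosed {q : Q | T q x = x} := isClosed_eq (hT.cont x hx) continuous_const
  exact closure_minimal (by rintro _ ⟨s, rfl⟩; exact hx' s) hcl (hf q)

theorem good_retract (S : Type u) [Semigroup S] [TopologicalSpace S] (N : Subsemigroup S) (h : Good 𝕜 E N) {K : Set E}
    (hc : Convex ℝ K) (hK : WC 𝕜 K) {T : S → E → E} (hT : Act K T) :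
    ∃ r : E → E, MapsTo r K K ∧ (∀ x ∈ K, ∀ y ∈ K, ‖r x - r y‖ ≤ ‖x - y‖) ∧
      (∀ x ∈ K, ∀ n ∈ N, T n (r x) = r x) ∧ ∀ x ∈ K, (∀ n ∈ N, T n x = x) → r x = x := by
  obtain ⟨r, h1, h2, h3, h4⟩ := bruckE hK hc (fun n : N => T n.1) (fun j => hT.maps _)
    (fun j => hT.ne _) (by
      intro D hDK hDne hDc hD hDm
      exact h D hDne hDc hD (fun n : N => T n.1)
        ⟨fun x hx => (hT.cont x (hDK hx)).comp continuous_subtype_val, hDm,
          fun s t x hx => hT.mul _ _ x (hDK hx),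
          fun s x hx y hy => hT.ne _ x (hDK hx) y (hDK hy)⟩)
  exact ⟨r, h1, h2, fun x hx n hn => h3 x hx ⟨n, hn⟩, fun x hx h => h4 x hx fun n => h n.1 n.2⟩

theorem good_union (hE : FPP 𝕜 E) (S : Type u) [Semigroup S] [TopologicalSpace S]
    (H : Set (Subsemigroup S))
    (hne : H.Nonempty) (hdir : DirectedOn (· ≤ ·) H) (hcov : Dense {s : S | ∃ N ∈ H, s ∈ N})
    (h : ∀ N ∈ H, Good 𝕜 E N) : Good 𝕜 E S := by
  intro K hKne hc hK T hT
  have h' : ∀ N : H, ∃ r : E → E, MapsTo r K K ∧ (∀ x ∈ K, ∀ y ∈ K, ‖r x - r y‖ ≤ ‖x - y‖) ∧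
      (∀ x ∈ K, ∀ n ∈ N.1, T n (r x) = r x) ∧ ∀ x ∈ K, (∀ n ∈ N.1, T n x = x) → r x = x :=
    fun N => good_retract S N.1 (h N.1 N.2) hc hK hT
  choose r h1 h2 h3 h4 using h'
  have : Nonempty H := hne.to_subtype
  have : IsDirected H (· ≤ ·) := ⟨fun a b => by
    obtain ⟨c, hc, hac, hbc⟩ := hdir a.1 a.2 b.1 b.2
    exact ⟨⟨c, hc⟩, hac, hbc⟩⟩
  obtain ⟨x, hx, hx'⟩ := directed_retracts hE hKne hc hK (ι := H)
    (fun N => {x | ∀ n ∈ N.1, T n x = x}) (fun A B hAB x hx n hn => hx n ((show A.1 ≤ B.1 from hAB) hn)) r h1 h2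
    (fun N x hx n hn => h3 N x hx n hn) (fun N x hx hxN => h4 N x hx hxN)
  refine ⟨x, hx, fun s => ?_⟩
  have hcl : IsClosed {q : S | T q x = x} := isClosed_eq (hT.cont x hx) continuous_const
  exact closure_minimal (by rintro s ⟨N, hN, hs⟩; exact hx' ⟨N, hN⟩ s hs) hcl (hcov s)

theorem good_ext (S Q : Type u) [Semigroup S] [TopologicalSpace S] [Semigroup Q]
    [TopologicalSpace Q] (N : Subsemigroup S) (π : S →ₙ* Q) (hπ : IsQuotientMap π) (hN : ∀ s : S, ∀ n ∈ N, ∃ n' ∈ N, n * s = s * n')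
    (hker : ∀ s t : S, π s = π t → ∃ n ∈ N, ∃ m ∈ N, s * n = t * m)
    (h1 : Good 𝕜 E N) (h2 : Good 𝕜 E Q) : Good 𝕜 E S := by
  intro K hKne hc hK T hT
  obtain ⟨r, r1, r2, r3, r4⟩ := good_retract S N h1 hc hK hT
  choose σ hσ using hπ.surjective
  -- `T s` maps `Fix N` to itself
  have hfix : ∀ s, ∀ x ∈ K, ∀ n ∈ N, T n (T s (r x)) = T s (r x) := by
    intro s x hx n hn
    obtain ⟨n', hn', e⟩ := hN s n hn
    rw [← hT.mul _ _ _ (r1 hx), e, hT.mul _ _ _ (r1 hx), r3 x hx n' hn']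
  have hwd : ∀ s t, π s = π t → ∀ x ∈ K, T s (r x) = T t (r x) := by
    intro s t hst x hx
    obtain ⟨n, hn, m, hm, e⟩ := hker s t hst
    have e1 : T (s * n) (r x) = T s (r x) := by rw [hT.mul _ _ _ (r1 hx), r3 x hx n hn]
    have e2 : T (t * m) (r x) = T t (r x) := by rw [hT.mul _ _ _ (r1 hx), r3 x hx m hm]
    rw [← e1, e, e2]
  obtain ⟨x, hx, hx'⟩ := h2 K hKne hc hK (fun q x => T (σ q) (r x))
    ⟨fun x hx => by
      rw [hπ.continuous_iff]
      have e : (fun q => T (σ q) (r x)) ∘ π = fun s => T s (r x) := by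
        funext s
        exact hwd _ _ (hσ (π s)) x hx
      rw [e]
      exact hT.cont _ (r1 hx), fun q x hx => hT.maps _ (r1 hx), by
      intro q q' x hx
      show T (σ (q * q')) (r x) = T (σ q) (r (T (σ q') (r x)))
      rw [r4 _ (hT.maps _ (r1 hx)) (hfix _ x hx), ← hT.mul _ _ _ (r1 hx)]
      refine hwd _ _ ?_ x hx
      rw [map_mul, hσ, hσ, hσ],
      fun q x hx y hy => (hT.ne _ _ (r1 hx) _ (r1 hy)).trans (r2 x hx y hy)⟩
  refine ⟨x, hx, fun s => ?_⟩
  have e1 : T (σ (π s)) (r x) = x := hx' (π s)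
  have e2 : r x = x := by
    refine r4 x hx fun n hn => ?_
    have := hfix (σ (π s)) x hx n hn
    rw [e1] at this
    exact this
  have e3 := hwd s (σ (π s)) (hσ (π s)).symm x hx
  rw [e1, e2] at e3
  exact e3

theorem good_compact (hE : FPP 𝕜 E) (G : Type u) [Group G] [TopologicalSpace G]
    [IsTopologicalGroup G] [CompactSpace G] : Good 𝕜 E G := by
  -- closed subgroups topologically generated by countable sets
  let H : Set G → Subgroup G := fun A => (Subgroup.closure A).topologicalClosure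
  let 𝓗 : Set (Subsemigroup G) := {N | ∃ A : Set G, A.Countable ∧ N = (H A).toSubsemigroup}
  refine good_union hE G 𝓗 ⟨_, ∅, countable_empty, rfl⟩ ?_ ?_ ?_
  · rintro _ ⟨A, hA, rfl⟩ _ ⟨B, hB, rfl⟩
    refine ⟨_, ⟨A ∪ B, hA.union hB, rfl⟩, ?_, ?_⟩
    · intro x hx
      exact Subgroup.topologicalClosure_mono (Subgroup.closure_mono subset_union_left) hx
    · intro x hx
      exact Subgroup.topologicalClosure_mono (Subgroup.closure_mono subset_union_right) hx
  · have : {s : G | ∃ N ∈ 𝓗, s ∈ N} = univ := by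
      refine eq_univ_of_forall fun s => ⟨_, ⟨{s}, countable_singleton s, rfl⟩, ?_⟩
      exact Subgroup.le_topologicalClosure _ (Subgroup.subset_closure (mem_singleton s))
    rw [this]
    exact dense_univ
  · rintro _ ⟨A, hA, rfl⟩
    have h1 : CompactSpace (H A) :=
      isCompact_iff_compactSpace.1 (Subgroup.isClosed_topologicalClosure _).isCompact
    have h2 : TopologicalSpace.SeparableSpace (H A) := by
      have : Countable A := hA.to_subtype
      have h3 : ((Subgroup.closure A : Subgroup G) : Set G).Countable := by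
        have e : (FreeGroup.lift (Subtype.val : A → G)).range = Subgroup.closure A := by
          rw [FreeGroup.range_lift_eq_closure, Subtype.range_coe]
        rw [← e]
        exact countable_range _
      have h4 : TopologicalSpace.IsSeparable ((H A : Subgroup G) : Set G) := by
        have h5 : TopologicalSpace.IsSeparable (closure ((Subgroup.closure A : Subgroup G) : Set G)) :=
          h3.isSeparable.closure
        exact h5
      refine ⟨⟨{x : H A | (x : G) ∈ Subgroup.closure A}, ?_, ?_⟩⟩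
      · exact h3.preimage Subtype.val_injective
      · rintro ⟨x, hx⟩
        rw [closure_subtype]
        have e : (Subtype.val '' {x : H A | (x : G) ∈ Subgroup.closure A}) =
            ((Subgroup.closure A : Subgroup G) : Set G) := by
          ext y
          constructor
          · rintro ⟨z, hz, rfl⟩; exact hz
          · intro hy; exact ⟨⟨y, Subgroup.le_topologicalClosure _ hy⟩, hy, rfl⟩
        rw [e]
        exact hx
    have h3 : Good 𝕜 E (H A) := good_compact_sep hE (H A)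
    exact good_image (H A) ((H A).toSubsemigroup)
      ⟨fun x => ⟨x.1, x.2⟩, fun _ _ => rfl⟩ (continuous_subtype_val.subtype_mk _) (by
        rintro ⟨x, hx⟩
        exact subset_closure ⟨⟨x, hx⟩, rfl⟩) h3

end Act

end Pool.Agent.H71R3.WF
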