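import Mathlib
import Pool.Agent.H71R3.DS
import Pool.Agent.H71R3.Kes2

set_option autoImplicit false

namespace Pool.Agent.H71R3.Zafran

open Pool.Agent.H71R3.FS Filter Topology UniformSpace

/-! ### summability -/

theorem summable_list {β : Type} [Fintype β] (q : ℝ) (h0 : 0 ≤ q) (h1 : Fintype.card β * q < 1) :
    Summable fun w : List β => q ^ w.length := by
  have h2 : Summable fun x : (Σ n, Fin n → β) => q ^ x.1 := by
    rw [summable_sigma_of_nonneg (fun x => pow_nonneg h0 _)]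
    refine ⟨fun n => Summable.of_finite, ?_⟩
    have : ∀ n : ℕ, ∑' _ : Fin n → β, q ^ n = ((Fintype.card β : ℝ) * q) ^ n := fun n => by
      rw [tsum_fintype, Finset.sum_const, Finset.card_univ, Fintype.card_fun, Fintype.card_fin,
        nsmul_eq_mul, mul_pow]
      push_cast
      rfl
    simp only [this]
    exact summable_geometric_of_lt_one (by positivity) h1
  have h3 := (List.equivSigmaTuple (α := β)).summable_iff.2 h2
  exact h3

theorem summable_free {α : Type} [Fintype α] [DecidableEq α] (q : ℝ) (h0 : 0 ≤ q)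
    (h1 : Fintype.card (α × Bool) * q < 1) : Summable fun x : FreeGroup α => q ^ x.norm :=
  (summable_list q h0 h1).comp_injective FreeGroup.toWord_injective

/-! ### the group and the function -/

/-- the free groups -/
abbrev Fm (m : ℕ) : Type := FreeGroup (Fin (2 ^ ((m + 1) ^ 2)))

/-- the group: the direct sum of the free groups `Fm m` -/
abbrev GG : Type := DS Fm

/-- the coefficients -/
noncomputable def ep (m : ℕ) : ℝ := 1 / ((m : ℝ) + 1)

theorem ep_pos (m : ℕ) : 0 < ep m := by unfold ep; positivity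

theorem ep_le_one (m : ℕ) : ep m ≤ 1 := by
  unfold ep
  rw [div_le_one (by positivity)]
  have : (0 : ℝ) ≤ m := Nat.cast_nonneg m
  linarith

open Classical in
/-- the factors -/
noncomputable def ps (m : ℕ) (y : Fm m) : ℝ := if y = 1 then 1 else ep m * (1 / 2) ^ y.norm

theorem ps_one (m : ℕ) : ps m 1 = 1 := by unfold ps; rw [if_pos rfl]

theorem ps_ne {m : ℕ} {y : Fm m} (hy : y ≠ 1) : ps m y = ep m * (1 / 2) ^ y.norm := by
  unfold ps; rw [if_neg hy]

theorem ps_nonneg (m : ℕ) (y : Fm m) : 0 ≤ ps m y := by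
  by_cases hy : y = 1
  · rw [hy, ps_one]; exact zero_le_one
  · rw [ps_ne hy]
    have := ep_pos m
    positivity

theorem ps_le_pow (m : ℕ) (y : Fm m) : ps m y ≤ (1 / 2) ^ y.norm := by
  by_cases hy : y = 1
  · rw [hy, ps_one, FreeGroup.norm_one, pow_zero]
  · rw [ps_ne hy]
    have h1 := ep_le_one m
    have h2 : (0 : ℝ) < (1 / 2) ^ y.norm := by positivity
    nlinarith

theorem ps_le_one (m : ℕ) (y : Fm m) : ps m y ≤ 1 :=
  (ps_le_pow m y).trans (pow_le_one₀ (by norm_num) (by norm_num))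

theorem ps_ge (m : ℕ) (y : Fm m) : ep m * (1 / 2) ^ y.norm ≤ ps m y := by
  by_cases hy : y = 1
  · rw [hy, ps_one, FreeGroup.norm_one, pow_zero, mul_one]
    exact ep_le_one m
  · rw [ps_ne hy]

theorem hasF_phi (m : ℕ) : HasF (fun y : Fm m => (((1 / 2 : ℝ) ^ y.norm : ℝ) : ℂ)) 1 :=
  hasF_pd (pd_haagerup (1 / 2) (by norm_num) (by norm_num)) (by simp)

theorem hasF_ps (m : ℕ) : HasF (fun y : Fm m => (ps m y : ℂ)) 1 := by
  have h1 := (hasF_dlt.smul ((1 - ep m : ℝ) : ℂ)).add ((hasF_phi m).smul ((ep m : ℝ) : ℂ))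
  refine (h1.congr fun y => ?_).mono ?_
  · by_cases hy : y = 1
    · rw [hy, dlt_one, ps_one, FreeGroup.norm_one, pow_zero]
      push_cast
      ring
    · rw [dlt_ne hy, ps_ne hy]
      push_cast
      ring
  · rw [Complex.norm_real, Complex.norm_real, Real.norm_of_nonneg (by linarith [ep_le_one m]),
      Real.norm_of_nonneg (ep_pos m).le]
    linarith

theorem hasF_ps_pow_sub (m n : ℕ) :
    HasF (fun y : Fm m => (ps m y : ℂ) ^ n - dlt y) (2 * ep m ^ n) := by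
  have h1 := (((hasF_phi m).pow n).sub hasF_dlt).smul (((ep m) ^ n : ℝ) : ℂ)
  refine (h1.congr fun y => ?_).mono ?_
  · by_cases hy : y = 1
    · rw [hy, dlt_one, ps_one, FreeGroup.norm_one, pow_zero]
      simp
    · rw [dlt_ne hy, ps_ne hy]
      push_cast
      ring
  · rw [Complex.norm_real, Real.norm_of_nonneg (pow_nonneg (ep_pos m).le n), one_pow]
    linarith

theorem summable_ps (m n : ℕ) (h : (m + 1) ^ 2 + 1 < 2 * n) :
    Summable fun y : Fm m => ‖(ps m y : ℂ) ^ n‖ ^ 2 := by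
  have h1 : Summable fun y : Fm m => ((1 / 4 : ℝ) ^ n) ^ y.norm := by
    refine summable_free _ (by positivity) ?_
    rw [Fintype.card_prod, Fintype.card_fin, Fintype.card_bool]
    push_cast
    have h2 : ((2 : ℝ) ^ ((m + 1) ^ 2) * 2) * (1 / 4) ^ n = 2 ^ ((m + 1) ^ 2 + 1) / 2 ^ (2 * n) := by
      have h3 : (1 / 4 : ℝ) ^ n = 1 / 2 ^ (2 * n) := by
        rw [one_div_pow, pow_mul]; norm_num
      rw [h3, pow_succ (2 : ℝ) ((m + 1) ^ 2)]
      ring
    rw [h2, div_lt_one (by positivity)]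
    exact pow_lt_pow_right₀ (by norm_num) h
  refine Summable.of_nonneg_of_le (fun _ => sq_nonneg _) (fun y => ?_) h1
  rw [norm_pow, Complex.norm_real, Real.norm_of_nonneg (ps_nonneg m y)]
  calc (ps m y ^ n) ^ 2 ≤ ((((1 / 2 : ℝ) ^ y.norm)) ^ n) ^ 2 :=
        pow_le_pow_left₀ (pow_nonneg (ps_nonneg m y) n)
          (pow_le_pow_left₀ (ps_nonneg m y) (ps_le_pow m y) n) 2
    _ = _ := by
        rw [← pow_mul, ← pow_mul, ← pow_mul]
        have : (1 / 4 : ℝ) = (1 / 2) ^ 2 := by norm_num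
        rw [this, ← pow_mul]
        congr 1
        ring

/-- the function -/
noncomputable def mu (x : GG) : ℂ := PP (fun m y => (ps m y : ℂ)) x

theorem PP_eq {F : ℕ → Type} [∀ m, Group (F m)] {h : ∀ m, F m → ℂ} (h0 : ∀ m, h m 1 = 1)
    (x : DS F) {K : ℕ} (hK : ∀ m, K ≤ m → x.1 m = 1) :
    PP h x = ∏ m ∈ Finset.range K, h m (x.1 m) := by
  unfold PP
  refine Finset.prod_subset (fun m hm => ?_) (fun m _ hm => ?_)
  · rw [Set.Finite.mem_toFinset] at hm
    rw [Finset.mem_range]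
    by_contra h3
    exact hm (hK m (by omega))
  · rw [Set.Finite.mem_toFinset] at hm
    have : x.1 m = 1 := by_contra hm
    rw [this, h0]

theorem mu_pow (n : ℕ) (x : GG) : mu x ^ n = PP (fun m y => (ps m y : ℂ) ^ n) x := by
  unfold mu PP
  rw [Finset.prod_pow]

theorem hasF_mu : HasF mu 1 := hasF_PP (fun m => by rw [ps_one]; simp) hasF_ps

theorem mu_one : mu 1 = 1 := by
  unfold mu
  rw [PP_eq (fun m => by rw [ps_one]; simp) 1 (K := 0) (fun m _ => rfl)]
  simp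

theorem mu_real (x : GG) : mu x = ((∏ m ∈ (fin_supp x).toFinset, ps m (x.1 m) : ℝ) : ℂ) := by
  unfold mu PP
  push_cast
  rfl

/-! ### tails -/

theorem sum_ep_le (M n : ℕ) (hM : 1 ≤ M) (hn : 2 ≤ n) (j : ℕ) :
    ∑ i ∈ Finset.range j, 2 * ep (M + i) ^ n ≤ 2 * ep M ^ (n - 2) := by
  have hM0 : (0 : ℝ) < M := by exact_mod_cast hM
  have h1 : ∀ j : ℕ, ∑ i ∈ Finset.range j, ep (M + i) ^ 2 ≤ 1 / (M : ℝ) - 1 / ((M : ℝ) + j) := by
    intro j
    induction j with
    | zero => simp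
    | succ j ih =>
      rw [Finset.sum_range_succ]
      refine (add_le_add ih le_rfl).trans ?_
      unfold ep
      push_cast
      have hj : (0 : ℝ) ≤ j := Nat.cast_nonneg j
      have h2 : (1 / ((M : ℝ) + j + 1)) ^ 2 ≤ 1 / ((M : ℝ) + j) - 1 / ((M : ℝ) + (j + 1)) := by
        have e : 1 / ((M : ℝ) + j) - 1 / ((M : ℝ) + (j + 1)) = 1 / (((M : ℝ) + j) * (M + j + 1)) := by
          field_simp
          ring
        rw [e, one_div_pow]
        apply one_div_le_one_div_of_le (by positivity)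
        nlinarith
      linarith
  have h3 : ∀ i, ep (M + i) ^ n ≤ ep M ^ (n - 2) * ep (M + i) ^ 2 := by
    intro i
    have e : ep (M + i) ^ n = ep (M + i) ^ (n - 2) * ep (M + i) ^ 2 := by
      rw [← pow_add]; congr 1; omega
    rw [e]
    refine mul_le_mul_of_nonneg_right (pow_le_pow_left₀ (ep_pos _).le ?_ _) (sq_nonneg _)
    unfold ep
    apply one_div_le_one_div_of_le (by positivity)
    push_cast
    have : (0 : ℝ) ≤ i := Nat.cast_nonneg i
    linarith
  calc ∑ i ∈ Finset.range j, 2 * ep (M + i) ^ n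
      ≤ ∑ i ∈ Finset.range j, 2 * (ep M ^ (n - 2) * ep (M + i) ^ 2) :=
        Finset.sum_le_sum fun i _ => by linarith [h3 i]
    _ = 2 * ep M ^ (n - 2) * ∑ i ∈ Finset.range j, ep (M + i) ^ 2 := by
        rw [Finset.mul_sum]
        exact Finset.sum_congr rfl fun i _ => by ring
    _ ≤ 2 * ep M ^ (n - 2) * 1 := by
        refine mul_le_mul_of_nonneg_left ?_ (by have := ep_pos M; positivity)
        refine (h1 j).trans ?_
        have h4 : 1 / (M : ℝ) ≤ 1 := by
          rw [div_le_one hM0]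
          exact_mod_cast hM
        have h5 : 0 ≤ 1 / ((M : ℝ) + j) := by positivity
        linarith
    _ = _ := mul_one _

theorem mu_pow_split (M : ℕ) (hM : 1 ≤ M) :
    HasF (fun x : GG => mu x ^ (M ^ 2 + 1) - ck (fun m y => (ps m y : ℂ) ^ (M ^ 2 + 1)) M x)
      (2 * ep M ^ (M ^ 2 + 1 - 2)) := by
  have hn : 2 ≤ M ^ 2 + 1 := by nlinarith
  refine (hasF_PP_sub (h := fun m y => (ps m y : ℂ) ^ (M ^ 2 + 1)) (fun m => by rw [ps_one]; simp)
    (fun m => by simpa using (hasF_ps m).pow (M ^ 2 + 1)) (fun m => 2 * ep m ^ (M ^ 2 + 1))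
    (fun m => hasF_ps_pow_sub m _) M _ (sum_ep_le M _ hM hn)).congr fun x => ?_
  rw [mu_pow]

theorem ck_l2 (M : ℕ) (hM : 1 ≤ M) :
    Summable fun x : GG => ‖ck (fun m y => (ps m y : ℂ) ^ (M ^ 2 + 1)) M x‖ ^ 2 := by
  refine summable_ck M fun m hm => summable_ps m _ ?_
  have : (m + 1) ^ 2 ≤ M ^ 2 := Nat.pow_le_pow_left hm 2
  nlinarith

theorem exists_M (r : ℝ) (hr : 0 < r) : ∃ M : ℕ, 1 ≤ M ∧
    2 * ep M ^ (M ^ 2 + 1 - 2) < r ^ (M ^ 2 + 1) := by
  obtain ⟨M0, hM0⟩ := exists_nat_gt (2 / r)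
  refine ⟨M0 + 3, by omega, ?_⟩
  set M := M0 + 3 with hM
  have h1 : 2 / r < (M : ℝ) + 1 := by
    rw [hM]; push_cast; linarith
  have h2 : 2 * ep M < r := by
    unfold ep
    rw [div_lt_iff₀ hr] at h1
    rw [mul_one_div, div_lt_iff₀ (by positivity)]
    linarith
  have hep := ep_pos M
  have h3 : (2 * ep M) ^ (M ^ 2 + 1) ≤ r ^ (M ^ 2 + 1) :=
    pow_le_pow_left₀ (by positivity) h2.le _
  refine lt_of_lt_of_le ?_ h3
  have h4 : M ^ 2 + 1 = (M ^ 2 + 1 - 2) + 2 := by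
    have : 9 ≤ M ^ 2 := by
      have : 3 ≤ M := by omega
      nlinarith
    omega
  have h5 : (2 * ep M) ^ (M ^ 2 + 1) = ep M ^ (M ^ 2 + 1 - 2) * (2 ^ (M ^ 2 + 1) * ep M ^ 2) := by
    rw [mul_pow]
    conv_lhs => rw [show ep M ^ (M ^ 2 + 1) = ep M ^ ((M ^ 2 + 1 - 2) + 2) by rw [← h4], pow_add]
    ring
  rw [h5, mul_comm 2]
  refine mul_lt_mul_of_pos_left ?_ (by positivity)
  have h6 : (2 : ℝ) * ((M : ℝ) + 1) ^ 2 < 2 ^ (M ^ 2 + 1) := by
    have h7 : M + 1 ≤ 2 ^ M := Nat.lt_two_pow_self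
    have h8 : (M + 1) ^ 2 ≤ 2 ^ (2 * M) := by
      calc (M + 1) ^ 2 ≤ (2 ^ M) ^ 2 := Nat.pow_le_pow_left h7 2
        _ = 2 ^ (2 * M) := by rw [← pow_mul, mul_comm]
    have h9 : 2 ^ (2 * M) < 2 ^ (M ^ 2) := by
      refine Nat.pow_lt_pow_right (by norm_num) ?_
      have : 3 ≤ M := by omega
      nlinarith
    have h10 : 2 * (M + 1) ^ 2 < 2 ^ (M ^ 2 + 1) := by
      rw [pow_succ 2 (M ^ 2), mul_comm 2]
      exact Nat.mul_lt_mul_of_pos_right (lt_of_le_of_lt h8 h9) (by norm_num)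
    exact_mod_cast h10
  unfold ep
  rw [one_div_pow, mul_one_div, lt_div_iff₀ (by positivity)]
  exact h6

/-! ### natural spectrum -/

theorem exists_inverse (lam : ℂ) (h0 : lam ≠ 0) (h1 : ∀ x : GG, lam ≠ mu x) :
    ∃ Ψ : CStar GG →L[ℂ] ℂ, ∀ x, Ψ (dir x) * (lam - mu x) = 1 := by
  obtain ⟨M, hM, hMr⟩ := exists_M ‖lam‖ (norm_pos_iff.2 h0)
  set n := M ^ 2 + 1 with hn
  set a : GG → ℂ := ck (fun m y => (ps m y : ℂ) ^ n) M with ha
  have hb := mu_pow_split M hM
  rw [← hn] at hb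
  have hpos : 0 < ‖lam‖ ^ n - 2 * ep M ^ (n - 2) := by linarith
  obtain ⟨E, hE⟩ := hasF_tail (ck_l2 M hM) (half_pos hpos)
  rw [← hn] at hE
  have hc := hb.add hE
  set b : GG → ℂ := fun x => (mu x ^ n - a x) + Set.indicator {g | g ∉ E} a x with hbdef
  have hcn : 2 * ep M ^ (n - 2) + (‖lam‖ ^ n - 2 * ep M ^ (n - 2)) / 2 < ‖lam ^ n‖ := by
    rw [norm_pow]; linarith
  obtain ⟨D, hD⟩ := hasF_neumann (b := b) hc hcn
  -- the partial inverse
  have hq : HasF (fun x => ∑ j ∈ Finset.range n, mu x ^ j * lam ^ (n - 1 - j))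
      (∑ j ∈ Finset.range n, ‖lam ^ (n - 1 - j)‖ * 1 ^ j) :=
    hasF_sum _ _ _ fun j _ => ((hasF_mu.pow j).smul (lam ^ (n - 1 - j))).congr fun x => by ring
  obtain ⟨D1, hD1⟩ := hasF_finite (G := GG) (w := Set.indicator (E : Set GG) fun _ => 1)
    (E.finite_toSet.subset (by simp))
  obtain ⟨D2, hD2⟩ := hasF_finite (G := GG)
    (w := Set.indicator (E : Set GG) fun x => (lam - mu x)⁻¹)
    (E.finite_toSet.subset (Set.support_indicator_subset))
  have hv := (((hasF_one (G := GG)).sub hD1).mul (hq.mul hD)).add hD2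
  obtain ⟨Ψ, hΨ, -⟩ := hv
  refine ⟨Ψ, fun x => ?_⟩
  rw [hΨ]
  beta_reduce
  have hne : lam - mu x ≠ 0 := sub_ne_zero.2 (h1 x)
  by_cases hx : x ∈ E
  · rw [Set.indicator_of_mem (by exact hx), Set.indicator_of_mem (by exact hx)]
    rw [sub_self, zero_mul, zero_add, inv_mul_cancel₀ hne]
  · rw [Set.indicator_of_notMem (by exact hx), Set.indicator_of_notMem (by exact hx)]
    have hbx : b x = mu x ^ n := by
      rw [hbdef]
      simp only
      rw [Set.indicator_of_mem (by exact hx)]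
      ring
    have hgeo : (∑ j ∈ Finset.range n, mu x ^ j * lam ^ (n - 1 - j)) * (lam - mu x)
        = lam ^ n - mu x ^ n := by
      have := geom_sum₂_mul (mu x) lam n
      rw [← neg_sub (mu x) lam, mul_neg, this]
      ring
    have hne2 : lam ^ n - b x ≠ 0 := by
      intro h2
      have h3 : ‖b x‖ = ‖lam ^ n‖ := by rw [sub_eq_zero.1 h2]
      have h4 := hc.bound x
      have h5 : ‖b x‖ ≤ 2 * ep M ^ (n - 2) + (‖lam‖ ^ n - 2 * ep M ^ (n - 2)) / 2 := h4
      linarith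
    rw [sub_zero, one_mul, add_zero]
    have : (∑ j ∈ Finset.range n, mu x ^ j * lam ^ (n - 1 - j)) * (lam ^ n - b x)⁻¹ * (lam - mu x)
        = ((∑ j ∈ Finset.range n, mu x ^ j * lam ^ (n - 1 - j)) * (lam - mu x)) *
          (lam ^ n - b x)⁻¹ := by ring
    rw [this, hgeo, ← hbx, mul_inv_cancel₀ hne2]

end Pool.Agent.H71R3.Zafran
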