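import Mathlib
import Pool.Agent.H71R3.Zaf

set_option autoImplicit false

namespace Pool.Agent.H71R3.Zafran

open Pool.Agent.H71R3.FS Filter Topology UniformSpace

/-! ### vanishing at infinity -/

theorem finite_ball {α : Type} [Fintype α] [DecidableEq α] (L : ℕ) :
    {y : FreeGroup α | y.norm ≤ L}.Finite := by
  have h1 : {l : List (α × Bool) | l.length ≤ L}.Finite := List.finite_length_le _ _
  refine Set.Finite.of_finite_image (f := fun y : FreeGroup α => y.toWord)
    (h1.subset ?_) (FreeGroup.toWord_injective.injOn)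
  rintro _ ⟨y, hy, rfl⟩
  exact hy

theorem finite_box (M L : ℕ) :
    {x : GG | (∀ m, M ≤ m → x.1 m = 1) ∧ ∀ m, (x.1 m).norm ≤ L}.Finite := by
  have h1 : (Set.pi Set.univ fun m : Fin M => {y : Fm m | y.norm ≤ L}).Finite :=
    Set.Finite.pi fun m => finite_ball L
  refine Set.Finite.of_finite_image (f := fun (x : GG) (m : Fin M) => x.1 m) (h1.subset ?_) ?_
  · rintro _ ⟨x, hx, rfl⟩ m _
    exact hx.2 m
  · intro x hx y hy hxy
    refine Subtype.ext (funext fun m => ?_)
    by_cases hm : m < M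
    · exact congrFun hxy ⟨m, hm⟩
    · rw [hx.1 m (by omega), hy.1 m (by omega)]

theorem mu_le (x : GG) (m : ℕ) : ‖mu x‖ ≤ ps m (x.1 m) := by
  rw [mu_real, Complex.norm_real, Real.norm_of_nonneg (Finset.prod_nonneg fun m _ => ps_nonneg _ _)]
  by_cases hm : m ∈ (fin_supp x).toFinset
  · rw [← Finset.mul_prod_erase _ _ hm]
    refine (mul_le_mul_of_nonneg_left (Finset.prod_le_one (fun m _ => ps_nonneg _ _)
      fun m _ => ps_le_one _ _) (ps_nonneg _ _)).trans (le_of_eq (mul_one _))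
  · rw [Set.Finite.mem_toFinset] at hm
    have : x.1 m = 1 := by_contra hm
    rw [this, ps_one]
    exact Finset.prod_le_one (fun m _ => ps_nonneg _ _) fun m _ => ps_le_one _ _

theorem mu_tendsto : Tendsto mu cofinite (𝓝 0) := by
  rw [Metric.tendsto_nhds]
  intro δ hδ
  rw [Filter.eventually_cofinite]
  obtain ⟨M, hM⟩ := exists_nat_gt (1 / δ)
  obtain ⟨L, hL⟩ := exists_pow_lt_of_lt_one hδ (show (1 / 2 : ℝ) < 1 by norm_num)
  refine (finite_box M L).subset fun x hx => ?_
  have hx' : δ ≤ ‖mu x‖ := by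
    have : ¬ dist (mu x) 0 < δ := hx
    rw [dist_zero_right] at this
    exact not_lt.1 this
  refine ⟨fun m hm => ?_, fun m => ?_⟩
  · by_contra h
    have h1 := hx'.trans (mu_le x m)
    rw [ps_ne h] at h1
    have h2 : ep m < δ := by
      unfold ep
      rw [div_lt_iff₀ (by positivity)]
      rw [div_lt_iff₀ hδ] at hM
      have h3 : (M : ℝ) ≤ m := by exact_mod_cast hm
      nlinarith
    have h3 : (1 / 2 : ℝ) ^ (x.1 m).norm ≤ 1 := pow_le_one₀ (by norm_num) (by norm_num)
    have h4 := ep_pos m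
    nlinarith
  · by_contra h
    have h1 := (hx'.trans (mu_le x m)).trans (ps_le_pow m _)
    have h2 : (1 / 2 : ℝ) ^ (x.1 m).norm ≤ (1 / 2) ^ L :=
      pow_le_pow_of_le_one (by norm_num) (by norm_num) (by omega)
    linarith

/-! ### the letters of the factors -/

/-- embedding of the factors -/
def em (m : ℕ) (y : Fm m) : GG := ⟨Pi.mulSingle m y, by
  show {i | Pi.mulSingle m y i ≠ 1}.Finite
  refine (Set.finite_singleton m).subset fun i hi => ?_
  by_contra h
  exact hi (Pi.mulSingle_eq_of_ne h y)⟩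

theorem em_same (m : ℕ) (y : Fm m) : (em m y).1 m = y := Pi.mulSingle_eq_same m y

theorem em_ne {m i : ℕ} (h : i ≠ m) (y : Fm m) : (em m y).1 i = 1 := Pi.mulSingle_eq_of_ne h y

/-- the letters of the `m`-th factor -/
abbrev Lt (m : ℕ) : Type := Fin (2 ^ ((m + 1) ^ 2)) × Bool

/-- the group element of a letter of the `m`-th factor -/
def sl (m : ℕ) (i : Lt m) : GG := em m (Kesten.lt i)

/-- the involution of the letters -/
def li (m : ℕ) : Lt m ≃ Lt m := (Equiv.refl _).prodCongr Equiv.boolNot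

theorem sl_inv (m : ℕ) (i : Lt m) : sl m (li m i) = (sl m i)⁻¹ := by
  refine Subtype.ext (funext fun j => ?_)
  show (em m (Kesten.lt (li m i))).1 j = ((em m (Kesten.lt i)).1 j)⁻¹
  by_cases h : j = m
  · subst h
    rw [em_same, em_same, lt_inv]
    rfl
  · rw [em_ne h, em_ne h, inv_one]

theorem card_pos (m : ℕ) : 0 < Fintype.card (Lt m) := by
  rw [Fintype.card_prod, Fintype.card_fin, Fintype.card_bool]
  positivity

/-- first letter of the `m`-th coordinate -/
def fst (m : ℕ) (x : GG) : Option (Lt m) := (x.1 m).toWord.head?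

theorem fst_prop (m : ℕ) (y : GG) (i j : Lt m) (hi : fst m (sl m i * y) ≠ some i)
    (hj : fst m (sl m j * y) ≠ some j) : i = j := by
  have h : ∀ i : Lt m, (sl m i * y).1 m = Kesten.lt i * y.1 m := fun i => by
    show (em m (Kesten.lt i)).1 m * y.1 m = _
    rw [em_same]
  unfold fst at hi hj
  rw [h] at hi hj
  exact Kesten.first_prop _ i j hi hj

/-- the operator `1 - A_m²` -/
noncomputable def Dm (m : ℕ) : CStar GG →L[ℂ] CStar GG :=
  (exists_D (sl m) (li m) (sl_inv m) (card_pos m)).choose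

/-- the average of a function over the products of two letters -/
noncomputable def avg (m : ℕ) (f : Lt m → Lt m → ℂ) : ℂ :=
  ((Fintype.card (Lt m) : ℂ))⁻¹ * ∑ i, ((Fintype.card (Lt m) : ℂ))⁻¹ * ∑ j, f i j

theorem Dm_dir (m : ℕ) (Φ : CStar GG →L[ℂ] ℂ) (y : GG) :
    Φ (Dm m (dir y)) = Φ (dir y) - avg m fun i j => Φ (dir (sl m i * sl m j * y)) := by
  have h := (exists_D (sl m) (li m) (sl_inv m) (card_pos m)).choose_spec.1 y
  unfold Dm avg
  rw [h, map_sub, map_smul, map_sum]
  simp only [map_smul, map_sum, smul_eq_mul]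

theorem norm_Dm (m : ℕ) : ‖Dm m‖ ≤ 1 :=
  (exists_D (sl m) (li m) (sl_inv m) (card_pos m)).choose_spec.2

theorem norm_avg_le (m : ℕ) (f : Lt m → Lt m → ℂ) (C : ℝ) (h : ∀ i j, ‖f i j‖ ≤ C) :
    ‖avg m f‖ ≤ C := by
  have hN : (0 : ℝ) < Fintype.card (Lt m) := by exact_mod_cast card_pos m
  unfold avg
  have h1 : ∀ i, ‖((Fintype.card (Lt m) : ℂ))⁻¹ * ∑ j, f i j‖ ≤ C := by
    intro i
    rw [norm_mul, norm_inv, Complex.norm_natCast, inv_mul_le_iff₀ hN]
    refine (norm_sum_le_of_le _ fun j _ => h i j).trans (le_of_eq ?_)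
    rw [Finset.sum_const, Finset.card_univ, nsmul_eq_mul]
  rw [norm_mul, norm_inv, Complex.norm_natCast, inv_mul_le_iff₀ hN]
  refine (norm_sum_le_of_le _ fun j _ => h1 j).trans (le_of_eq ?_)
  rw [Finset.sum_const, Finset.card_univ, nsmul_eq_mul]

theorem avg_sub (m : ℕ) (f g : Lt m → Lt m → ℂ) :
    avg m (fun i j => f i j - g i j) = avg m f - avg m g := by
  unfold avg
  simp only [Finset.sum_sub_distrib, mul_sub]

theorem avg_mul (m : ℕ) (f : Lt m → Lt m → ℂ) (c : ℂ) :
    avg m (fun i j => f i j * c) = avg m f * c := by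
  unfold avg
  simp only [← Finset.sum_mul, ← mul_assoc]

/-- composition of the operators `Dm m`, `m0 ≤ m < m0 + k` -/
noncomputable def Vop : ℕ → ℕ → (CStar GG →L[ℂ] CStar GG)
  | _, 0 => ContinuousLinearMap.id ℂ _
  | m, k + 1 => (Vop (m + 1) k).comp (Dm m)

theorem norm_Vop (k : ℕ) : ∀ m, ‖Vop m k‖ ≤ 1 := by
  induction k with
  | zero => intro m; exact ContinuousLinearMap.norm_id_le
  | succ k ih =>
    intro m
    refine (ContinuousLinearMap.opNorm_comp_le _ _).trans ?_
    exact mul_le_one₀ (ih (m + 1)) (norm_nonneg _) (norm_Dm m)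

theorem Vop_succ (Φ : CStar GG →L[ℂ] ℂ) (m k : ℕ) (y : GG) :
    Φ (Vop m (k + 1) (dir y)) = Φ (Vop (m + 1) k (dir y)) -
      avg m fun i j => Φ (Vop (m + 1) k (dir (sl m i * sl m j * y))) :=
  Dm_dir m (Φ.comp (Vop (m + 1) k)) y

/-! ### the value on `μ` -/

/-- the average of the factor over the products of two letters -/
noncomputable def cm (m : ℕ) : ℂ := avg m fun i j => (ps m (Kesten.lt i * Kesten.lt j) : ℂ)

theorem mu_mul (m : ℕ) (i j : Lt m) (y : GG) (hy : y.1 m = 1) :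
    mu (sl m i * sl m j * y) = (ps m (Kesten.lt i * Kesten.lt j) : ℂ) * mu y := by
  obtain ⟨K, hK⟩ := exists_bound y
  have h0 : ∀ m : ℕ, ((fun m (y : Fm m) => (ps m y : ℂ)) m 1) = 1 := fun m => by simp [ps_one]
  have hKm : ∀ l, max K (m + 1) ≤ l → y.1 l = 1 := fun l hl => hK l (le_trans (le_max_left _ _) hl)
  have hval : ∀ l, l ≠ m → (sl m i * sl m j * y).1 l = y.1 l := by
    intro l hl
    show (em m (Kesten.lt i)).1 l * (em m (Kesten.lt j)).1 l * y.1 l = _
    rw [em_ne hl, em_ne hl, one_mul, one_mul]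
  have hvalm : (sl m i * sl m j * y).1 m = Kesten.lt i * Kesten.lt j := by
    show (em m (Kesten.lt i)).1 m * (em m (Kesten.lt j)).1 m * y.1 m = _
    rw [em_same, em_same, hy, mul_one]
  have hKm2 : ∀ l, max K (m + 1) ≤ l → (sl m i * sl m j * y).1 l = 1 := fun l hl => by
    rw [hval l (by have := le_trans (le_max_right K (m + 1)) hl; omega), hKm l hl]
  unfold mu
  rw [PP_eq h0 _ hKm2, PP_eq h0 _ hKm]
  have hmem : m ∈ Finset.range (max K (m + 1)) := by
    rw [Finset.mem_range]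
    have := le_max_right K (m + 1)
    omega
  rw [← Finset.mul_prod_erase _ _ hmem, ← Finset.mul_prod_erase _ _ hmem, hvalm, hy, ps_one,
    Complex.ofReal_one, one_mul]
  congr 1
  refine Finset.prod_congr rfl fun l hl => ?_
  rw [hval l (Finset.ne_of_mem_erase hl)]

theorem Vop_mu (Φ : CStar GG →L[ℂ] ℂ) (hΦ : ∀ x, Φ (dir x) = mu x) (k : ℕ) :
    ∀ (m : ℕ) (y : GG), (∀ l, m ≤ l → y.1 l = 1) →
      Φ (Vop m k (dir y)) = (∏ i ∈ Finset.range k, (1 - cm (m + i))) * mu y := by
  induction k with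
  | zero =>
    intro m y _
    rw [Finset.prod_range_zero, one_mul, ← hΦ]
    rfl
  | succ k ih =>
    intro m y hy
    rw [Vop_succ, ih (m + 1) y (fun l hl => hy l (by omega))]
    have h1 : ∀ i j, Φ (Vop (m + 1) k (dir (sl m i * sl m j * y))) =
        (ps m (Kesten.lt i * Kesten.lt j) : ℂ) *
          ((∏ i ∈ Finset.range k, (1 - cm (m + 1 + i))) * mu y) := by
      intro i j
      rw [ih (m + 1) _ (fun l hl => ?_), mu_mul m i j y (hy m le_rfl)]
      · ring
      · show (em m (Kesten.lt i)).1 l * (em m (Kesten.lt j)).1 l * y.1 l = 1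
        rw [em_ne (by omega), em_ne (by omega), hy l (by omega), one_mul, one_mul]
    simp only [h1]
    rw [avg_mul, Finset.prod_range_succ']
    have h2 : ∏ i ∈ Finset.range k, (1 - cm (m + (i + 1))) =
        ∏ i ∈ Finset.range k, (1 - cm (m + 1 + i)) :=
      Finset.prod_congr rfl fun i _ => by rw [show m + (i + 1) = m + 1 + i by omega]
    rw [h2, add_zero]
    show _ - cm m * _ = _
    ring

/-! ### the constants `cm` -/

theorem cm_bounds (m : ℕ) : ∃ c : ℝ, cm m = (c : ℂ) ∧ ep m / 4 ≤ c ∧ c ≤ 1 := by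
  have hN : (0 : ℝ) < Fintype.card (Lt m) := by exact_mod_cast card_pos m
  refine ⟨((Fintype.card (Lt m) : ℝ))⁻¹ * ∑ i : Lt m, ((Fintype.card (Lt m) : ℝ))⁻¹ *
    ∑ j : Lt m, ps m (Kesten.lt i * Kesten.lt j), ?_, ?_, ?_⟩
  · unfold cm avg
    push_cast
    rfl
  · rw [le_inv_mul_iff₀ hN]
    have h1 : ∀ i : Lt m, ep m / 4 ≤ ((Fintype.card (Lt m) : ℝ))⁻¹ *
        ∑ j : Lt m, ps m (Kesten.lt i * Kesten.lt j) := by
      intro i
      rw [le_inv_mul_iff₀ hN]
      have h2 : ∀ j : Lt m, ep m / 4 ≤ ps m (Kesten.lt i * Kesten.lt j) := by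
        intro j
        refine le_trans ?_ (ps_ge m _)
        have h3 : ((Kesten.lt i * Kesten.lt j : Fm m)).norm ≤ 2 := by
          refine (FreeGroup.norm_mul_le _ _).trans ?_
          have hl : ∀ s : Lt m, (Kesten.lt s : Fm m).norm = 1 := fun s => by
            unfold Kesten.lt FreeGroup.norm
            rw [FreeGroup.toWord_mk, FreeGroup.reduce_singleton]
            rfl
          rw [hl, hl]
        have h4 : (1 / 2 : ℝ) ^ 2 ≤ (1 / 2) ^ ((Kesten.lt i * Kesten.lt j : Fm m)).norm :=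
          pow_le_pow_of_le_one (by norm_num) (by norm_num) h3
        have h5 := ep_pos m
        nlinarith
      calc (Fintype.card (Lt m) : ℝ) * (ep m / 4) = ∑ _j : Lt m, ep m / 4 := by
            rw [Finset.sum_const, Finset.card_univ, nsmul_eq_mul]
        _ ≤ _ := Finset.sum_le_sum fun j _ => h2 j
    calc (Fintype.card (Lt m) : ℝ) * (ep m / 4) = ∑ _j : Lt m, ep m / 4 := by
          rw [Finset.sum_const, Finset.card_univ, nsmul_eq_mul]
      _ ≤ _ := Finset.sum_le_sum fun j _ => h1 j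
  · rw [inv_mul_le_iff₀ hN]
    have h1 : ∀ i : Lt m, ((Fintype.card (Lt m) : ℝ))⁻¹ *
        ∑ j : Lt m, ps m (Kesten.lt i * Kesten.lt j) ≤ 1 := by
      intro i
      rw [inv_mul_le_iff₀ hN]
      calc ∑ j : Lt m, ps m (Kesten.lt i * Kesten.lt j) ≤ ∑ _j : Lt m, (1 : ℝ) :=
            Finset.sum_le_sum fun j _ => ps_le_one m _
        _ = _ := by rw [Finset.sum_const, Finset.card_univ, nsmul_eq_mul]
    calc _ ≤ ∑ _j : Lt m, (1 : ℝ) := Finset.sum_le_sum fun j _ => h1 j
      _ = _ := by rw [Finset.sum_const, Finset.card_univ, nsmul_eq_mul]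

theorem prod_tendsto (m0 : ℕ) :
    Tendsto (fun k => ∏ i ∈ Finset.range k, (1 - cm (m0 + i))) atTop (𝓝 0) := by
  have h1 : ∀ k, ‖∏ i ∈ Finset.range k, (1 - cm (m0 + i))‖ ≤
      Real.exp (-(1 / 4) * ∑ i ∈ Finset.range k, ep (m0 + i)) := by
    intro k
    rw [norm_prod, Finset.mul_sum, Real.exp_sum]
    refine Finset.prod_le_prod (fun _ _ => norm_nonneg _) fun i _ => ?_
    obtain ⟨c, hc, h2, h3⟩ := cm_bounds (m0 + i)
    rw [hc, ← Complex.ofReal_one, ← Complex.ofReal_sub, Complex.norm_real,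
      Real.norm_of_nonneg (by linarith)]
    have h4 := Real.add_one_le_exp (-(1 / 4) * ep (m0 + i))
    linarith
  have h2 : Tendsto (fun k => ∑ i ∈ Finset.range k, ep (m0 + i)) atTop atTop := by
    have h3 : Tendsto (fun k => ∑ i ∈ Finset.range k, ep i) atTop atTop := by
      have := Real.tendsto_sum_range_one_div_nat_succ_atTop
      exact this
    have h4 : Tendsto (fun k => ∑ i ∈ Finset.range (k + m0), ep i) atTop atTop :=
      h3.comp (tendsto_add_atTop_nat m0)
    have h5 : Tendsto (fun k => (-∑ i ∈ Finset.range m0, ep i) + ∑ i ∈ Finset.range (k + m0), ep i)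
        atTop atTop := tendsto_atTop_add_const_left _ _ h4
    refine h5.congr fun k => ?_
    rw [add_comm k m0, Finset.sum_range_add]
    ring
  refine squeeze_zero_norm h1 ?_
  refine Real.tendsto_exp_atBot.comp ?_
  exact h2.const_mul_atTop_of_neg (by norm_num)

end Pool.Agent.H71R3.Zafran
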