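import Mathlib
import Pool.Agent.H71R3.Zaf2

set_option autoImplicit false

namespace Pool.Agent.H71R3.Zafran

open Pool.Agent.H71R3.FS Filter Topology UniformSpace

theorem Vop_close (Ψ : CStar GG →L[ℂ] ℂ) (m0 : ℕ) (δ : ℝ)
    (h : ∀ m, m0 ≤ m → ∀ y, ‖avg m fun i j => Ψ (dir (sl m i * sl m j * y))‖ ≤ δ * (1 / 4) ^ m / 2)
    (k : ℕ) : ∀ m, m0 ≤ m → ∀ y, ‖Ψ (Vop m k (dir y)) - Ψ (dir y)‖ ≤ δ * (1 / 4) ^ m := by
  have hδ : ∀ m, m0 ≤ m → 0 ≤ δ * (1 / 4) ^ m := fun m hm => by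
    have := (norm_nonneg _).trans (h m hm 1)
    linarith
  induction k with
  | zero =>
    intro m hm y
    have : Ψ (Vop m 0 (dir y)) - Ψ (dir y) = 0 := sub_self _
    rw [this, norm_zero]
    exact hδ m hm
  | succ k ih =>
    intro m hm y
    have e : Ψ (Vop m (k + 1) (dir y)) - Ψ (dir y) = (Ψ (Vop (m + 1) k (dir y)) - Ψ (dir y)) -
        (avg m fun i j => Ψ (Vop (m + 1) k (dir (sl m i * sl m j * y))) -
          Ψ (dir (sl m i * sl m j * y))) - avg m fun i j => Ψ (dir (sl m i * sl m j * y)) := by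
      rw [Vop_succ, avg_sub]
      ring
    rw [e]
    have h1 := ih (m + 1) (by omega) y
    have h2 := norm_avg_le m (fun i j => Ψ (Vop (m + 1) k (dir (sl m i * sl m j * y))) -
          Ψ (dir (sl m i * sl m j * y))) _ fun i j => ih (m + 1) (by omega) (sl m i * sl m j * y)
    have h3 := h m hm y
    have h4 := norm_sub_le ((Ψ (Vop (m + 1) k (dir y)) - Ψ (dir y)) -
        (avg m fun i j => Ψ (Vop (m + 1) k (dir (sl m i * sl m j * y))) -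
          Ψ (dir (sl m i * sl m j * y)))) (avg m fun i j => Ψ (dir (sl m i * sl m j * y)))
    have h5 := norm_sub_le (Ψ (Vop (m + 1) k (dir y)) - Ψ (dir y))
        (avg m fun i j => Ψ (Vop (m + 1) k (dir (sl m i * sl m j * y))) -
          Ψ (dir (sl m i * sl m j * y)))
    have e2 : δ * (1 / 4 : ℝ) ^ (m + 1) = δ * (1 / 4) ^ m / 4 := by rw [pow_succ]; ring
    rw [e2] at h1 h2
    linarith

theorem avg_small (Ψ : CStar GG →L[ℂ] ℂ) (n : ℕ) (hn : 0 < n) (ξ η : GG → ℂ)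
    (hξ : Summable fun x => ‖ξ x‖ ^ 2) (hη : Summable fun x => ‖η x‖ ^ 2)
    (h : ∀ y, Ψ (dir y) ^ n = ∑' x, ξ (y⁻¹ * x) * starRingEnd ℂ (η x)) (δ : ℝ) (hδ : 0 < δ) :
    ∃ m0 : ℕ, ∀ m, m0 ≤ m → ∀ y,
      ‖avg m fun i j => Ψ (dir (sl m i * sl m j * y))‖ ≤ δ * (1 / 4) ^ m / 2 := by
  set C : ℝ := ∑' x, ‖ξ x‖ ^ 2 + ∑' x, ‖η x‖ ^ 2 with hC
  have hC0 : 0 ≤ C := add_nonneg (tsum_nonneg fun _ => sq_nonneg _) (tsum_nonneg fun _ => sq_nonneg _)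
  obtain ⟨m1, hm1⟩ := (tendsto_pow_atTop_atTop_of_one_lt (show (1 : ℝ) < 2 by norm_num)).eventually
    (eventually_ge_atTop (2 * C * (2 / δ) ^ n)) |>.exists_forall_of_atTop
  refine ⟨max m1 (2 * n + 1), fun m hm y => ?_⟩
  have hm1' := hm1 m (le_trans (le_max_left _ _) hm)
  have hm2' : 2 * n + 1 ≤ m := le_trans (le_max_right _ _) hm
  set N : ℝ := (Fintype.card (Lt m) : ℝ) with hN
  have hNpos : 0 < N := by rw [hN]; exact_mod_cast card_pos m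
  have hNval : 2 ^ (m ^ 2) ≤ N := by
    rw [hN, Fintype.card_prod, Fintype.card_fin, Fintype.card_bool]
    push_cast
    calc (2 : ℝ) ^ (m ^ 2) ≤ 2 ^ ((m + 1) ^ 2) :=
          pow_le_pow_right₀ (by norm_num) (Nat.pow_le_pow_left (by omega) 2)
      _ ≤ _ := by
          have : (0 : ℝ) < 2 ^ ((m + 1) ^ 2) := by positivity
          linarith
  have hK := kesten_coef (sl m) (fst m) (card_pos m) (fst_prop m) ξ η hξ hη y
  rw [← hN, ← hC] at hK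
  set z : Lt m → Lt m → ℝ := fun i j => ‖Ψ (dir (sl m i * sl m j * y))‖ with hz
  have hzn : ∀ i j, z i j ^ n = ‖∑' x, ξ ((sl m i * sl m j * y)⁻¹ * x) * starRingEnd ℂ (η x)‖ := by
    intro i j
    rw [hz]
    simp only
    rw [← norm_pow, h]
  have hsum : ∑ i, ∑ j, z i j ^ n ≤ 2 * N * C := by
    simp only [hzn]
    exact hK
  -- bound by the mean
  have h1 : ‖avg m fun i j => Ψ (dir (sl m i * sl m j * y))‖ ≤ ∑ p : Lt m × Lt m, (N ^ 2)⁻¹ * z p.1 p.2 := by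
    have h1' : ∑ p : Lt m × Lt m, (N ^ 2)⁻¹ * z p.1 p.2 = N⁻¹ * ∑ i, N⁻¹ * ∑ j, z i j := by
      rw [← Finset.mul_sum, Fintype.sum_prod_type (f := fun p : Lt m × Lt m => z p.1 p.2),
        pow_two N, mul_inv, mul_assoc, Finset.mul_sum]
    rw [h1']
    unfold avg
    rw [norm_mul, norm_inv, Complex.norm_natCast, ← hN]
    refine mul_le_mul_of_nonneg_left ?_ (by positivity)
    refine (norm_sum_le _ _).trans ?_
    refine Finset.sum_le_sum fun i _ => ?_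
    rw [norm_mul, norm_inv, Complex.norm_natCast, ← hN]
    exact mul_le_mul_of_nonneg_left (norm_sum_le _ _) (by positivity)
  have h2 := Real.pow_arith_mean_le_arith_mean_pow (Finset.univ : Finset (Lt m × Lt m))
    (fun _ => (N ^ 2)⁻¹) (fun p => z p.1 p.2) (fun _ _ => by positivity) (by
      rw [Finset.sum_const, Finset.card_univ, Fintype.card_prod, nsmul_eq_mul]
      push_cast
      rw [← hN, ← pow_two, mul_inv_cancel₀ (by positivity)]) (fun _ _ => norm_nonneg _) n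
  have h3 : ∑ p : Lt m × Lt m, (N ^ 2)⁻¹ * z p.1 p.2 ^ n ≤ 2 * C / N := by
    rw [← Finset.mul_sum, Fintype.sum_prod_type, inv_mul_le_iff₀ (by positivity)]
    refine hsum.trans (le_of_eq ?_)
    field_simp
  have h4 : 2 * C / N ≤ (δ * (1 / 4) ^ m / 2) ^ n := by
    rw [div_le_iff₀ hNpos]
    have e1 : (δ * (1 / 4 : ℝ) ^ m / 2) ^ n = (δ / 2) ^ n / 2 ^ (2 * m * n) := by
      have : (1 / 4 : ℝ) ^ m = 1 / 2 ^ (2 * m) := by
        rw [one_div_pow, pow_mul]; norm_num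
      rw [this, pow_mul 2 (2 * m) n, ← div_pow]
      congr 1
      ring
    rw [e1, div_mul_eq_mul_div, le_div_iff₀ (by positivity)]
    have h5 : 2 * C ≤ (δ / 2) ^ n * 2 ^ m := by
      have h6 : (δ / 2) ^ n * (2 * C * (2 / δ) ^ n) = 2 * C := by
        have : (δ / 2) ^ n * (2 / δ) ^ n = 1 := by
          rw [← mul_pow]
          have : δ / 2 * (2 / δ) = 1 := by field_simp
          rw [this, one_pow]
        calc _ = 2 * C * ((δ / 2) ^ n * (2 / δ) ^ n) := by ring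
          _ = _ := by rw [this, mul_one]
      rw [← h6]
      exact mul_le_mul_of_nonneg_left hm1' (by positivity)
    have h7 : (2 : ℝ) ^ m * 2 ^ (2 * m * n) ≤ N := by
      refine le_trans ?_ hNval
      rw [← pow_add]
      refine pow_le_pow_right₀ (by norm_num) ?_
      nlinarith
    calc 2 * C * 2 ^ (2 * m * n) ≤ (δ / 2) ^ n * 2 ^ m * 2 ^ (2 * m * n) :=
          mul_le_mul_of_nonneg_right h5 (by positivity)
      _ = (δ / 2) ^ n * (2 ^ m * 2 ^ (2 * m * n)) := by ring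
      _ ≤ _ := mul_le_mul_of_nonneg_left h7 (by positivity)
  refine h1.trans ?_
  have h8 : (∑ p : Lt m × Lt m, (N ^ 2)⁻¹ * z p.1 p.2) ^ n ≤ (δ * (1 / 4) ^ m / 2) ^ n :=
    h2.trans (h3.trans h4)
  exact le_of_pow_le_pow_left₀ hn.ne' (by positivity) h8

/-- the lower bound for the distance -/
theorem dist_lower (Φ Ψ : CStar GG →L[ℂ] ℂ) (hΦ : ∀ x, Φ (dir x) = mu x) (n : ℕ) (hn : 0 < n)
    (ξ η : GG → ℂ) (hξ : Summable fun x => ‖ξ x‖ ^ 2) (hη : Summable fun x => ‖η x‖ ^ 2)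
    (h : ∀ y, Ψ (dir y) ^ n = ∑' x, ξ (y⁻¹ * x) * starRingEnd ℂ (η x)) :
    1 / 4 ≤ ‖Φ - Ψ‖ := by
  by_contra hlt
  rw [not_le] at hlt
  obtain ⟨m0, hm0⟩ := avg_small Ψ n hn ξ η hξ hη h (1 / 8) (by norm_num)
  have h1 := fun k => Vop_close Ψ m0 (1 / 8) hm0 k m0 le_rfl 1
  obtain ⟨k, hk⟩ := ((prod_tendsto m0).norm.eventually
    (gt_mem_nhds (show ‖(0 : ℂ)‖ < 1 / 8 by rw [norm_zero]; norm_num))).exists
  have h2 := h1 k
  have h3 : Φ (Vop m0 k (dir 1)) = ∏ i ∈ Finset.range k, (1 - cm (m0 + i)) := by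
    rw [Vop_mu Φ hΦ k m0 1 (fun _ _ => rfl), mu_one, mul_one]
  have hd1 : ‖(dir (1 : GG) : CStar GG)‖ ≤ 1 := norm_dir_le 1
  have h4 : ‖(Φ - Ψ) (Vop m0 k (dir 1))‖ ≤ ‖Φ - Ψ‖ := by
    refine ((Φ - Ψ).le_opNorm _).trans ?_
    have : ‖Vop m0 k (dir 1)‖ ≤ 1 := by
      refine ((Vop m0 k).le_opNorm _).trans ?_
      exact mul_le_one₀ (norm_Vop k m0) (norm_nonneg _) hd1
    exact mul_le_of_le_one_right (norm_nonneg _) this
  have h5 : ‖(Φ - Ψ) (dir 1)‖ ≤ ‖Φ - Ψ‖ := by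
    refine ((Φ - Ψ).le_opNorm _).trans ?_
    exact mul_le_of_le_one_right (norm_nonneg _) hd1
  have e4 : (Φ - Ψ) (Vop m0 k (dir 1)) = Φ (Vop m0 k (dir 1)) - Ψ (Vop m0 k (dir 1)) := rfl
  have e5 : (Φ - Ψ) (dir 1) = Φ (dir 1) - Ψ (dir 1) := rfl
  rw [e4, h3] at h4
  rw [e5, hΦ, mu_one] at h5
  set P := ∏ i ∈ Finset.range k, (1 - cm (m0 + i)) with hP
  set V := Ψ (Vop m0 k (dir 1)) with hV
  set W := Ψ (dir 1) with hW
  have h6 : (1 : ℂ) = (1 - W) - (V - W) - (P - V) + P := by ring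
  have h7 : (1 : ℝ) ≤ ‖1 - W‖ + ‖V - W‖ + ‖P - V‖ + ‖P‖ := by
    calc (1 : ℝ) = ‖(1 : ℂ)‖ := by simp
      _ = ‖(1 - W) - (V - W) - (P - V) + P‖ := by rw [← h6]
      _ ≤ ‖(1 - W) - (V - W) - (P - V)‖ + ‖P‖ := norm_add_le _ _
      _ ≤ (‖(1 - W) - (V - W)‖ + ‖P - V‖) + ‖P‖ := by gcongr; exact norm_sub_le _ _
      _ ≤ ((‖1 - W‖ + ‖V - W‖) + ‖P - V‖) + ‖P‖ := by gcongr; exact norm_sub_le _ _
  have h8 : (1 / 8 : ℝ) * (1 / 4) ^ m0 ≤ 1 / 8 := by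
    have : (1 / 4 : ℝ) ^ m0 ≤ 1 := pow_le_one₀ (by norm_num) (by norm_num)
    linarith
  linarith

end Pool.Agent.H71R3.Zafran
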